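import Pool.Agent.helper63.NF.Cert

/-!
Generated: table E12a.
-/

namespace Pool.Agent.helper14.NR.E12a

open Pool.Agent.helper63.NF

def tab : TD where
  strip := true
  bm := none
  ec := 73282879488
  bc := 0
  H := [[[-53045860096, 42172396096, -48427854528, 66093996032], [-1044675583488, 410170653504, -420259439232], [-331523791552, 10714258418368], [33047020316544]], [[11108343872, -4887813888, -691350336], [175688843200, -137678679232], [44561730752]], [[-1652812096, 216169536], [-15447747392]], [[132853632]], [[-5336064]]]
  pol := some ⟨-756719550464, -5669356830720, 5872294035456, 31362867265536, [[92142591104, -209880174976], [1611298385536, 0]], [[1407557260096, 216841913024], [28832252189888, 0]]⟩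
  a := [[[108779274240, 180918812672, 784018571264, -2238867243008], [-20588658688, 2424105730048]], [[76698091520, 84973977600, -334568947712, 72486748160], [216943820800, 277899968512]], [[65757708288, 44356599808, -173921599488, -103794540544], [243861553152, 164836409344]], [[56332386304, 24650448896, -138267852800, -28878569472], [256626589696, -67853352960]], [[47987884032, 10764025856, -107528716288, 41692495872], [267747721216, -300006768640]], [[40432566272, 4100915200, -106738286592, 182327574528], [258529427456, -409373704192]]]
  j := [0, 0, 0, 0, 0, 0]
  c := [879662989312, 1099511627776, 879662989312, 659814350848, 494726545408, 384936443904]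
  M := [[[[1100414320640, 2784231424, 41549496320], [-556204490752, 875675516928], [6372753342464]], [[81881858048, 9505800192], [4530193104896]], [[413334437888, -1511784448], [-679710425088]], [[-251606990848]], [[20480524288]], [[134097010688]]], [[[1091330441216, -3462987776, 34971910144], [566784884736]], [[44074598400, 256311296], [568698077184]], [[-1965883392]], [[221839360]]], [[[1093434933248, -4716036096, 40837578752], [376434786304]], [[42810802176, 48103424], [555419107328]], [[-1604780032]], [[152633344]]], [[[1094766297088, -6624051200, 57964232704], [230069436416]], [[42171170816, -465108992], [554507567104]], [[-1415577600]], [[114884608]]], [[[1095651229696, -6480723968, 62677778432], [139618877440]], [[41691774976, -731054080], [557407600640]], [[-1297547264]], [[93782016]]], [[[1094959431680, -2972975104, 41084125184], [56041865216]], [[42259251200, 287834112], [571075854336]], [[-1454374912]], [[110755840]]]]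
  l0 := [[[3531408848576, 74203681088, 2645134912], [2386416186624, 509935246144], [-13371538676672]], [[820299374080, -138882717696, -125902193344], [-14103045878720, -2459977357056], [13284218553792]], [[791235151872, 230935292288], [-11591914972544]], [[-2671049308288, -146286612672], [4086113951296]], [[5176032911104, 72903352064], [-13327240426944]], [[-5930847192576]], [[3808518404736]], [[-1489715156736]]]
  q0 := [[4489397888, -126907131904, 2982959688896, -5892906016128], [-1190478863232, 8176399516352, -10026068441472], [17585973073152, -13805769336960], [-206948769504960]]
  t := [[[1495860051968, 1683715784704, 145252876288, -4539106852864], [-7114998874112, -5241612402688]], [[813329547264, -86102769664, -1661152460800, 762097041408], [516829413376, 5959398195200]], [[702342234112, -115322912768, -1118470340608, 2155810914304], [821178793984, 7825673420800]], [[602679803904, 173306544128, -2908609183744, 8729355157504], [1272953634816, 8997075550208]], [[517153095680, -298902093824, 2909682335744, -3667266371584], [1554043043840, 7603573424128]], [[436506853376, -204770705408, 4698745405440, -9455202467840], [1794625699840, 6629775572992]]]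
  y := [11739219361792, 12837657247744, 13370233192448, 13227425529856, 12486543671296, 11350524821504]
  sc := [0, 0, 0, 0, 0, 0]
  L := [(0, 2), (0, 3), (1, 1), (1, 2), (2, 0), (2, 1), (3, 0)]
  Lt := [(0, 2), (0, 3), (1, 1)]
  far := 0
  x2 := 10775213952000
  B1 := 659706347520
  C2 := 1327712154624
  f1 := 91625969664
  f2 := 2308974418944
  f3 := 224390128640
  is1 := 8796093022208
  s1 := 137438953472

end Pool.Agent.helper14.NR.E12a
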