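import Pool.Agent.helper14.NR.E12a.PN1

/-!
Generated: certificates.
-/

namespace Pool.Agent.helper14.NR.E12a

open Pool.Agent.helper31.IA (Z)
open Pool.Agent.helper31.IX (Op XOps runX Cov CovD cov_split covD_split)
open Pool.Agent.helper31.IC (TD)
open Pool.Agent.helper63.RG (reloc)
open Pool.Agent.helper63.NF hiding TD
open Pool.Agent.helper14.CF (xE covD_E)
open Pool.Agent.helper14.NR (share)

mutual
theorem A1_c1_t6 : CovD 1 gA1 [(82463686656, 9162981376), (137438953472, 137438953472), (42949672960, 42949672960)] :=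
  covD_E kA1_eq (.l 2)
    [(82463686656, 9162981376), (137438953472, 137438953472), (42949672960, 42949672960)] rfl (by decide +kernel)
theorem A1_c1_t8 : CovD 1 gA1 [(82463686656, 9162981376), (137438953472, 137438953472), (107374182400, 21474836480)] :=
  covD_E kA1_eq (.l 2)
    [(82463686656, 9162981376), (137438953472, 137438953472), (107374182400, 21474836480)] rfl (by decide +kernel)
end

mutual
theorem A1_c1_t12 : CovD 1 gA1 [(82463686656, 9162981376), (17179869184, 17179869184), (150323855360, 21474836480)] :=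
  covD_E kA1_eq (.n 1 (.n 1 (.n 0 (.n 1 (.n 0 (.l 0) (.l 0)) (.l 0)) (.n 1 (.n 0 (.l 0) (.l 0)) (.l 0))) (.n 2 (.n 0 (.l 0) (.l 0)) (.l 0))) (.n 1 (.n 2 (.n 0 (.l 0) (.l 0)) (.l 0)) (.n 2 (.n 0 (.l 0) (.l 0)) (.l 0))))
    [(82463686656, 9162981376), (17179869184, 17179869184), (150323855360, 21474836480)] rfl (by decide +kernel)
theorem A1_c1_t13 : CovD 1 gA1 [(82463686656, 9162981376), (51539607552, 17179869184), (150323855360, 21474836480)] :=
  covD_E kA1_eq (.n 0 (.n 1 (.n 2 (.l 0) (.l 0)) (.l 0)) (.n 1 (.n 2 (.l 0) (.l 0)) (.l 0)))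
    [(82463686656, 9162981376), (51539607552, 17179869184), (150323855360, 21474836480)] rfl (by decide +kernel)
end

mutual
theorem A1_c1_t14 : CovD 1 gA1 [(82463686656, 9162981376), (103079215104, 34359738368), (150323855360, 21474836480)] :=
  covD_E kA1_eq (.n 1 (.n 0 (.l 0) (.l 0)) (.l 0))
    [(82463686656, 9162981376), (103079215104, 34359738368), (150323855360, 21474836480)] rfl (by decide +kernel)
theorem A1_c1_t15 : CovD 1 gA1 [(82463686656, 9162981376), (206158430208, 68719476736), (150323855360, 21474836480)] :=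
  covD_E kA1_eq (.n 1 (.l 0) (.l 0))
    [(82463686656, 9162981376), (206158430208, 68719476736), (150323855360, 21474836480)] rfl (by decide +kernel)
end

mutual
theorem A1_c1_t21 : CovD 1 gA1 [(77882195968, 4581490688), (34359738368, 34359738368), (193273528320, 21474836480)] :=
  covD_E kA1_eq (.n 1 (.n 1 (.n 1 (.n 0 (.n 0 (.l 0) (.l 0)) (.l 0)) (.l 0)) (.n 0 (.l 0) (.l 0))) (.n 1 (.n 0 (.l 0) (.l 0)) (.l 0)))
    [(77882195968, 4581490688), (34359738368, 34359738368), (193273528320, 21474836480)] rfl (by decide +kernel)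
theorem A1_c1_t22 : CovD 1 gA1 [(87045177344, 4581490688), (34359738368, 34359738368), (193273528320, 21474836480)] :=
  covD_E kA1_eq (.n 1 (.n 1 (.n 1 (.n 0 (.l 0) (.l 0)) (.l 0)) (.n 0 (.l 0) (.l 0))) (.n 1 (.n 0 (.l 0) (.l 0)) (.l 0)))
    [(87045177344, 4581490688), (34359738368, 34359738368), (193273528320, 21474836480)] rfl (by decide +kernel)
end

mutual
theorem A1_c1_t23 : CovD 1 gA1 [(82463686656, 9162981376), (103079215104, 34359738368), (193273528320, 21474836480)] :=
  covD_E kA1_eq (.n 1 (.n 0 (.l 0) (.l 0)) (.l 0))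
    [(82463686656, 9162981376), (103079215104, 34359738368), (193273528320, 21474836480)] rfl (by decide +kernel)
theorem A1_c1_t24 : CovD 1 gA1 [(82463686656, 9162981376), (206158430208, 68719476736), (193273528320, 21474836480)] :=
  covD_E kA1_eq (.n 1 (.l 0) (.l 0))
    [(82463686656, 9162981376), (206158430208, 68719476736), (193273528320, 21474836480)] rfl (by decide +kernel)
end

mutual
theorem A1_c1_t26 : CovD 1 gA1 [(82463686656, 9162981376), (68719476736, 68719476736), (236223201280, 21474836480)] :=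
  covD_E kA1_eq (.n 1 (.n 0 (.n 1 (.n 1 (.n 1 (.n 0 (.l 0) (.l 0)) (.l 0)) (.l 0)) (.n 1 (.l 0) (.l 0))) (.n 1 (.n 1 (.n 0 (.l 0) (.l 0)) (.l 0)) (.n 1 (.l 0) (.l 0)))) (.n 1 (.n 0 (.l 0) (.l 0)) (.l 0)))
    [(82463686656, 9162981376), (68719476736, 68719476736), (236223201280, 21474836480)] rfl (by decide +kernel)
theorem A1_c1_t27 : CovD 1 gA1 [(82463686656, 9162981376), (206158430208, 68719476736), (236223201280, 21474836480)] :=
  covD_E kA1_eq (.n 1 (.n 0 (.l 0) (.l 0)) (.l 0))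
    [(82463686656, 9162981376), (206158430208, 68719476736), (236223201280, 21474836480)] rfl (by decide +kernel)
end

mutual
theorem A1_c1_t29 : CovD 1 gA1 [(82463686656, 9162981376), (137438953472, 137438953472), (279172874240, 21474836480)] :=
  covD_E kA1_eq (.n 1 (.n 1 (.n 1 (.n 0 (.n 1 (.n 0 (.l 0) (.l 0)) (.l 0)) (.n 1 (.n 0 (.l 0) (.l 0)) (.l 0))) (.n 0 (.n 0 (.l 0) (.l 0)) (.n 0 (.l 0) (.l 0)))) (.n 1 (.n 0 (.l 0) (.l 0)) (.l 0))) (.n 1 (.n 0 (.l 0) (.l 0)) (.l 0)))
    [(82463686656, 9162981376), (137438953472, 137438953472), (279172874240, 21474836480)] rfl (by decide +kernel)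
theorem A1_c1_t30 : CovD 1 gA1 [(82463686656, 9162981376), (137438953472, 137438953472), (322122547200, 21474836480)] :=
  covD_E kA1_eq (.n 1 (.n 1 (.n 1 (.n 0 (.n 1 (.n 0 (.l 0) (.l 0)) (.l 0)) (.n 1 (.l 0) (.l 0))) (.n 0 (.l 0) (.n 0 (.l 0) (.l 0)))) (.n 1 (.n 0 (.l 0) (.l 0)) (.l 0))) (.n 1 (.n 0 (.l 0) (.l 0)) (.l 0)))
    [(82463686656, 9162981376), (137438953472, 137438953472), (322122547200, 21474836480)] rfl (by decide +kernel)
end

mutual
theorem A1_c1_t34 : CovD 1 gA1 [(77882195968, 4581490688), (34359738368, 34359738368), (515396075520, 171798691840)] :=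
  covD_E kA1_eq (.n 1 (.n 2 (.n 1 (.n 2 (.n 0 (.l 0) (.l 0)) (.l 0)) (.n 2 (.l 0) (.l 0))) (.n 2 (.l 0) (.l 0))) (.n 2 (.n 2 (.n 2 (.l 0) (.l 0)) (.n 0 (.l 0) (.l 0))) (.n 2 (.l 0) (.l 0))))
    [(77882195968, 4581490688), (34359738368, 34359738368), (515396075520, 171798691840)] rfl (by decide +kernel)
theorem A1_c1_t35 : CovD 1 gA1 [(77882195968, 4581490688), (103079215104, 34359738368), (515396075520, 171798691840)] :=
  covD_E kA1_eq (.n 1 (.n 2 (.n 0 (.n 2 (.l 0) (.l 0)) (.n 2 (.l 0) (.l 0))) (.n 2 (.l 0) (.l 0))) (.n 2 (.n 2 (.l 0) (.l 0)) (.n 2 (.l 0) (.l 0))))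
    [(77882195968, 4581490688), (103079215104, 34359738368), (515396075520, 171798691840)] rfl (by decide +kernel)
end

mutual
theorem A1_c1_t36 : CovD 1 gA1 [(77882195968, 4581490688), (206158430208, 68719476736), (515396075520, 171798691840)] :=
  covD_E kA1_eq (.n 1 (.n 2 (.n 2 (.n 0 (.l 0) (.l 0)) (.l 0)) (.n 2 (.l 0) (.l 0))) (.n 2 (.n 2 (.l 0) (.l 0)) (.n 2 (.l 0) (.l 0))))
    [(77882195968, 4581490688), (206158430208, 68719476736), (515396075520, 171798691840)] rfl (by decide +kernel)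
theorem A1_c1_t39 : CovD 1 gA1 [(87045177344, 4581490688), (34359738368, 34359738368), (515396075520, 171798691840)] :=
  covD_E kA1_eq (.n 1 (.n 2 (.n 1 (.n 2 (.l 0) (.l 0)) (.n 2 (.n 0 (.l 0) (.l 0)) (.l 0))) (.n 2 (.l 0) (.l 0))) (.n 2 (.n 2 (.n 2 (.l 0) (.l 0)) (.n 0 (.l 0) (.l 0))) (.n 2 (.l 0) (.l 0))))
    [(87045177344, 4581490688), (34359738368, 34359738368), (515396075520, 171798691840)] rfl (by decide +kernel)
end

mutual
theorem A1_c1_t40 : CovD 1 gA1 [(87045177344, 4581490688), (103079215104, 34359738368), (515396075520, 171798691840)] :=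
  covD_E kA1_eq (.n 1 (.n 2 (.n 0 (.n 2 (.l 0) (.l 0)) (.n 2 (.l 0) (.l 0))) (.n 2 (.l 0) (.l 0))) (.n 2 (.n 2 (.l 0) (.l 0)) (.n 2 (.l 0) (.l 0))))
    [(87045177344, 4581490688), (103079215104, 34359738368), (515396075520, 171798691840)] rfl (by decide +kernel)
theorem A1_c1_t41 : CovD 1 gA1 [(87045177344, 4581490688), (206158430208, 68719476736), (515396075520, 171798691840)] :=
  covD_E kA1_eq (.n 1 (.n 2 (.n 2 (.n 0 (.l 0) (.l 0)) (.l 0)) (.n 2 (.l 0) (.l 0))) (.n 2 (.n 2 (.l 0) (.l 0)) (.n 2 (.l 0) (.l 0))))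
    [(87045177344, 4581490688), (206158430208, 68719476736), (515396075520, 171798691840)] rfl (by decide +kernel)
end

mutual
theorem A1_c1_t44 : CovD 1 gA1 [(77882195968, 4581490688), (68719476736, 68719476736), (1030792151040, 343597383680)] :=
  covD_E kA1_eq (.n 2 (.n 1 (.n 2 (.n 2 (.n 0 (.l 0) (.l 0)) (.l 0)) (.n 2 (.l 0) (.l 0))) (.n 2 (.n 2 (.l 0) (.l 0)) (.n 0 (.l 0) (.l 0)))) (.n 2 (.n 0 (.n 2 (.l 0) (.l 0)) (.n 2 (.l 0) (.l 0))) (.n 2 (.n 0 (.l 0) (.l 0)) (.l 0))))
    [(77882195968, 4581490688), (68719476736, 68719476736), (1030792151040, 343597383680)] rfl (by decide +kernel)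
theorem A1_c1_t45 : CovD 1 gA1 [(77882195968, 4581490688), (206158430208, 68719476736), (1030792151040, 343597383680)] :=
  covD_E kA1_eq (.n 2 (.n 2 (.n 1 (.n 2 (.l 0) (.l 0)) (.n 0 (.l 0) (.l 0))) (.n 2 (.n 0 (.l 0) (.l 0)) (.l 0))) (.n 2 (.n 2 (.l 0) (.l 0)) (.n 1 (.l 0) (.l 0))))
    [(77882195968, 4581490688), (206158430208, 68719476736), (1030792151040, 343597383680)] rfl (by decide +kernel)
end

mutual
theorem A1_c1_t47 : CovD 1 gA1 [(87045177344, 4581490688), (68719476736, 68719476736), (1030792151040, 343597383680)] :=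
  covD_E kA1_eq (.n 2 (.n 1 (.n 2 (.n 2 (.l 0) (.l 0)) (.n 2 (.l 0) (.l 0))) (.n 2 (.n 2 (.l 0) (.l 0)) (.n 2 (.l 0) (.l 0)))) (.n 2 (.n 0 (.n 2 (.l 0) (.l 0)) (.n 2 (.l 0) (.l 0))) (.n 2 (.n 0 (.l 0) (.l 0)) (.l 0))))
    [(87045177344, 4581490688), (68719476736, 68719476736), (1030792151040, 343597383680)] rfl (by decide +kernel)
theorem A1_c1_t48 : CovD 1 gA1 [(87045177344, 4581490688), (206158430208, 68719476736), (1030792151040, 343597383680)] :=
  covD_E kA1_eq (.n 2 (.n 2 (.n 1 (.n 2 (.l 0) (.l 0)) (.n 0 (.l 0) (.l 0))) (.n 2 (.n 0 (.l 0) (.l 0)) (.l 0))) (.n 2 (.n 2 (.l 0) (.l 0)) (.n 1 (.l 0) (.l 0))))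
    [(87045177344, 4581490688), (206158430208, 68719476736), (1030792151040, 343597383680)] rfl (by decide +kernel)
end

mutual
theorem A1_c1_t51 : CovD 1 gA1 [(77882195968, 4581490688), (68719476736, 68719476736), (2061584302080, 687194767360)] :=
  covD_E kA1_eq (.n 2 (.n 1 (.n 2 (.n 2 (.l 0) (.l 0)) (.n 2 (.l 0) (.l 0))) (.n 2 (.n 2 (.l 0) (.l 0)) (.n 2 (.l 0) (.l 0)))) (.n 2 (.n 2 (.l 0) (.l 0)) (.n 2 (.l 0) (.l 0))))
    [(77882195968, 4581490688), (68719476736, 68719476736), (2061584302080, 687194767360)] rfl (by decide +kernel)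
theorem A1_c1_t52 : CovD 1 gA1 [(77882195968, 4581490688), (206158430208, 68719476736), (2061584302080, 687194767360)] :=
  covD_E kA1_eq (.n 2 (.n 0 (.n 2 (.n 2 (.l 0) (.l 0)) (.n 2 (.l 0) (.l 0))) (.n 2 (.n 2 (.l 0) (.l 0)) (.n 2 (.l 0) (.l 0)))) (.n 2 (.n 2 (.l 0) (.l 0)) (.n 2 (.l 0) (.l 0))))
    [(77882195968, 4581490688), (206158430208, 68719476736), (2061584302080, 687194767360)] rfl (by decide +kernel)
end

mutual
theorem A1_c1_t54 : CovD 1 gA1 [(87045177344, 4581490688), (68719476736, 68719476736), (2061584302080, 687194767360)] :=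
  covD_E kA1_eq (.n 2 (.n 2 (.n 1 (.n 2 (.l 0) (.l 0)) (.n 2 (.l 0) (.l 0))) (.n 2 (.n 0 (.l 0) (.l 0)) (.l 0))) (.n 2 (.n 2 (.l 0) (.l 0)) (.n 0 (.l 0) (.l 0))))
    [(87045177344, 4581490688), (68719476736, 68719476736), (2061584302080, 687194767360)] rfl (by decide +kernel)
theorem A1_c1_t55 : CovD 1 gA1 [(87045177344, 4581490688), (206158430208, 68719476736), (2061584302080, 687194767360)] :=
  covD_E kA1_eq (.n 2 (.n 2 (.n 0 (.n 2 (.l 0) (.l 0)) (.n 2 (.l 0) (.l 0))) (.n 2 (.n 0 (.l 0) (.l 0)) (.l 0))) (.n 2 (.n 2 (.l 0) (.l 0)) (.n 0 (.l 0) (.l 0))))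
    [(87045177344, 4581490688), (206158430208, 68719476736), (2061584302080, 687194767360)] rfl (by decide +kernel)
end

mutual
theorem A1_c1_t59 : CovD 1 gA1 [(77882195968, 4581490688), (68719476736, 68719476736), (3435973836800, 687194767360)] :=
  covD_E kA1_eq (.n 2 (.n 2 (.n 0 (.l 0) (.l 0)) (.l 0)) (.n 2 (.n 2 (.l 0) (.n 2 (.n 0 (.n 0 (.l 0) (.l 0)) (.n 0 (.l 0) (.l 0))) (.l 1))) (.l 1)))
    [(77882195968, 4581490688), (68719476736, 68719476736), (3435973836800, 687194767360)] rfl (by decide +kernel)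
theorem A1_c1_t60 : CovD 1 gA1 [(77882195968, 4581490688), (206158430208, 68719476736), (3435973836800, 687194767360)] :=
  covD_E kA1_eq (.n 2 (.n 2 (.n 0 (.l 0) (.l 0)) (.l 0)) (.n 2 (.n 2 (.l 0) (.n 2 (.n 0 (.n 2 (.l 0) (.l 1)) (.n 0 (.l 0) (.l 0))) (.l 1))) (.l 1)))
    [(77882195968, 4581490688), (206158430208, 68719476736), (3435973836800, 687194767360)] rfl (by decide +kernel)
end

mutual
theorem A1_c1_t61 : CovD 1 gA1 [(77882195968, 4581490688), (137438953472, 137438953472), (4810363371520, 687194767360)] :=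
  covD_E kA1_eq (.n 2 (.l 1) (.l 1))
    [(77882195968, 4581490688), (137438953472, 137438953472), (4810363371520, 687194767360)] rfl (by decide +kernel)
theorem A1_c1_t63 : CovD 1 gA1 [(87045177344, 4581490688), (137438953472, 137438953472), (3435973836800, 687194767360)] :=
  covD_E kA1_eq (.n 1 (.n 2 (.n 2 (.l 0) (.l 0)) (.n 2 (.n 2 (.l 0) (.n 2 (.n 0 (.l 0) (.l 0)) (.l 1))) (.l 1))) (.n 2 (.n 2 (.l 0) (.l 0)) (.n 2 (.n 2 (.l 0) (.n 2 (.n 0 (.n 0 (.l 0) (.l 0)) (.l 0)) (.l 1))) (.l 1))))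
    [(87045177344, 4581490688), (137438953472, 137438953472), (3435973836800, 687194767360)] rfl (by decide +kernel)
end

mutual
theorem A1_c1_t64 : CovD 1 gA1 [(87045177344, 4581490688), (137438953472, 137438953472), (4810363371520, 687194767360)] :=
  covD_E kA1_eq (.n 2 (.l 1) (.l 1))
    [(87045177344, 4581490688), (137438953472, 137438953472), (4810363371520, 687194767360)] rfl (by decide +kernel)
theorem A1_c2_t1 : CovD 1 gA1 [(64137723904, 9162981376), (137438953472, 137438953472), (8246337208320, 2748779069440)] :=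
  covD_E kA1_eq (.n 0 (.n 0 (.n 2 (.n 2 (.l 1) (.l 1)) (.n 2 (.l 1) (.l 1))) (.n 2 (.n 2 (.l 1) (.l 1)) (.n 2 (.l 1) (.l 1)))) (.n 0 (.n 2 (.n 2 (.l 1) (.l 1)) (.n 2 (.l 1) (.l 1))) (.n 2 (.n 2 (.l 1) (.l 1)) (.n 2 (.l 1) (.l 1)))))
    [(64137723904, 9162981376), (137438953472, 137438953472), (8246337208320, 2748779069440)] rfl (by decide +kernel)
end

theorem A1_c2_t2 : CovD 1 gA1 [(82463686656, 9162981376), (137438953472, 137438953472), (8246337208320, 2748779069440)] :=
  covD_E kA1_eq (.n 0 (.n 0 (.n 2 (.n 2 (.l 1) (.l 1)) (.n 2 (.l 1) (.l 1))) (.n 2 (.n 2 (.l 1) (.l 1)) (.n 2 (.l 1) (.l 1)))) (.n 0 (.n 2 (.n 2 (.l 1) (.l 1)) (.n 2 (.l 1) (.l 1))) (.n 2 (.n 2 (.l 1) (.l 1)) (.n 2 (.l 1) (.l 1)))))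
    [(82463686656, 9162981376), (137438953472, 137438953472), (8246337208320, 2748779069440)] rfl (by decide +kernel)

theorem A1_c1_t11 : CovD 1 gA1 [(82463686656, 9162981376), (34359738368, 34359738368), (150323855360, 21474836480)] :=
  covD_split 1 (by decide +kernel) A1_c1_t12 A1_c1_t13

theorem A1_c1_t10 : CovD 1 gA1 [(82463686656, 9162981376), (68719476736, 68719476736), (150323855360, 21474836480)] :=
  covD_split 1 (by decide +kernel) A1_c1_t11 A1_c1_t14

theorem A1_c1_t9 : CovD 1 gA1 [(82463686656, 9162981376), (137438953472, 137438953472), (150323855360, 21474836480)] :=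
  covD_split 1 (by decide +kernel) A1_c1_t10 A1_c1_t15

theorem A1_c1_t7 : CovD 1 gA1 [(82463686656, 9162981376), (137438953472, 137438953472), (128849018880, 42949672960)] :=
  covD_split 2 (by decide +kernel) A1_c1_t8 A1_c1_t9

theorem A1_c1_t5 : CovD 1 gA1 [(82463686656, 9162981376), (137438953472, 137438953472), (85899345920, 85899345920)] :=
  covD_split 2 (by decide +kernel) A1_c1_t6 A1_c1_t7

theorem A1_c1_t20 : CovD 1 gA1 [(82463686656, 9162981376), (34359738368, 34359738368), (193273528320, 21474836480)] :=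
  covD_split 0 (by decide +kernel) A1_c1_t21 A1_c1_t22

theorem A1_c1_t19 : CovD 1 gA1 [(82463686656, 9162981376), (68719476736, 68719476736), (193273528320, 21474836480)] :=
  covD_split 1 (by decide +kernel) A1_c1_t20 A1_c1_t23

theorem A1_c1_t18 : CovD 1 gA1 [(82463686656, 9162981376), (137438953472, 137438953472), (193273528320, 21474836480)] :=
  covD_split 1 (by decide +kernel) A1_c1_t19 A1_c1_t24

theorem A1_c1_t25 : CovD 1 gA1 [(82463686656, 9162981376), (137438953472, 137438953472), (236223201280, 21474836480)] :=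
  covD_split 1 (by decide +kernel) A1_c1_t26 A1_c1_t27

theorem A1_c1_t17 : CovD 1 gA1 [(82463686656, 9162981376), (137438953472, 137438953472), (214748364800, 42949672960)] :=
  covD_split 2 (by decide +kernel) A1_c1_t18 A1_c1_t25

theorem A1_c1_t28 : CovD 1 gA1 [(82463686656, 9162981376), (137438953472, 137438953472), (300647710720, 42949672960)] :=
  covD_split 2 (by decide +kernel) A1_c1_t29 A1_c1_t30

theorem A1_c1_t16 : CovD 1 gA1 [(82463686656, 9162981376), (137438953472, 137438953472), (257698037760, 85899345920)] :=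
  covD_split 2 (by decide +kernel) A1_c1_t17 A1_c1_t28

theorem A1_c1_t4 : CovD 1 gA1 [(82463686656, 9162981376), (137438953472, 137438953472), (171798691840, 171798691840)] :=
  covD_split 2 (by decide +kernel) A1_c1_t5 A1_c1_t16

theorem A1_c1_t33 : CovD 1 gA1 [(77882195968, 4581490688), (68719476736, 68719476736), (515396075520, 171798691840)] :=
  covD_split 1 (by decide +kernel) A1_c1_t34 A1_c1_t35

theorem A1_c1_t32 : CovD 1 gA1 [(77882195968, 4581490688), (137438953472, 137438953472), (515396075520, 171798691840)] :=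
  covD_split 1 (by decide +kernel) A1_c1_t33 A1_c1_t36

theorem A1_c1_t38 : CovD 1 gA1 [(87045177344, 4581490688), (68719476736, 68719476736), (515396075520, 171798691840)] :=
  covD_split 1 (by decide +kernel) A1_c1_t39 A1_c1_t40

theorem A1_c1_t37 : CovD 1 gA1 [(87045177344, 4581490688), (137438953472, 137438953472), (515396075520, 171798691840)] :=
  covD_split 1 (by decide +kernel) A1_c1_t38 A1_c1_t41

theorem A1_c1_t31 : CovD 1 gA1 [(82463686656, 9162981376), (137438953472, 137438953472), (515396075520, 171798691840)] :=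
  covD_split 0 (by decide +kernel) A1_c1_t32 A1_c1_t37

theorem A1_c1_t3 : CovD 1 gA1 [(82463686656, 9162981376), (137438953472, 137438953472), (343597383680, 343597383680)] :=
  covD_split 2 (by decide +kernel) A1_c1_t4 A1_c1_t31

theorem A1_c1_t43 : CovD 1 gA1 [(77882195968, 4581490688), (137438953472, 137438953472), (1030792151040, 343597383680)] :=
  covD_split 1 (by decide +kernel) A1_c1_t44 A1_c1_t45

theorem A1_c1_t46 : CovD 1 gA1 [(87045177344, 4581490688), (137438953472, 137438953472), (1030792151040, 343597383680)] :=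
  covD_split 1 (by decide +kernel) A1_c1_t47 A1_c1_t48

theorem A1_c1_t42 : CovD 1 gA1 [(82463686656, 9162981376), (137438953472, 137438953472), (1030792151040, 343597383680)] :=
  covD_split 0 (by decide +kernel) A1_c1_t43 A1_c1_t46

theorem A1_c1_t2 : CovD 1 gA1 [(82463686656, 9162981376), (137438953472, 137438953472), (687194767360, 687194767360)] :=
  covD_split 2 (by decide +kernel) A1_c1_t3 A1_c1_t42

theorem A1_c1_t50 : CovD 1 gA1 [(77882195968, 4581490688), (137438953472, 137438953472), (2061584302080, 687194767360)] :=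
  covD_split 1 (by decide +kernel) A1_c1_t51 A1_c1_t52

theorem A1_c1_t53 : CovD 1 gA1 [(87045177344, 4581490688), (137438953472, 137438953472), (2061584302080, 687194767360)] :=
  covD_split 1 (by decide +kernel) A1_c1_t54 A1_c1_t55

theorem A1_c1_t49 : CovD 1 gA1 [(82463686656, 9162981376), (137438953472, 137438953472), (2061584302080, 687194767360)] :=
  covD_split 0 (by decide +kernel) A1_c1_t50 A1_c1_t53

theorem A1_c1_t1 : CovD 1 gA1 [(82463686656, 9162981376), (137438953472, 137438953472), (1374389534720, 1374389534720)] :=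
  covD_split 2 (by decide +kernel) A1_c1_t2 A1_c1_t49

theorem A1_c1_t58 : CovD 1 gA1 [(77882195968, 4581490688), (137438953472, 137438953472), (3435973836800, 687194767360)] :=
  covD_split 1 (by decide +kernel) A1_c1_t59 A1_c1_t60

theorem A1_c1_t57 : CovD 1 gA1 [(77882195968, 4581490688), (137438953472, 137438953472), (4123168604160, 1374389534720)] :=
  covD_split 2 (by decide +kernel) A1_c1_t58 A1_c1_t61

theorem A1_c1_t62 : CovD 1 gA1 [(87045177344, 4581490688), (137438953472, 137438953472), (4123168604160, 1374389534720)] :=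
  covD_split 2 (by decide +kernel) A1_c1_t63 A1_c1_t64

theorem A1_c1_t56 : CovD 1 gA1 [(82463686656, 9162981376), (137438953472, 137438953472), (4123168604160, 1374389534720)] :=
  covD_split 0 (by decide +kernel) A1_c1_t57 A1_c1_t62

theorem A1_c1 : CovD 1 gA1 [(82463686656, 9162981376), (137438953472, 137438953472), (2748779069440, 2748779069440)] :=
  covD_split 2 (by decide +kernel) A1_c1_t1 A1_c1_t56

theorem A1_c2 : CovD 1 gA1 [(73300705280, 18325962752), (137438953472, 137438953472), (8246337208320, 2748779069440)] :=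
  covD_split 0 (by decide +kernel) A1_c2_t1 A1_c2_t2

end Pool.Agent.helper14.NR.E12a
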