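import Pool.Agent.helper14.NR.E12a.PN1

/-!
Generated: certificates.
-/

namespace Pool.Agent.helper14.NR.E12a

open Pool.Agent.helper31.IA (Z)
open Pool.Agent.helper31.IX (Op XOps runX Cov CovD cov_split covD_split)
open Pool.Agent.helper31.IC (TD)
open Pool.Agent.helper63.RG (reloc)
open Pool.Agent.helper63.NF hiding TD
open Pool.Agent.helper14.CF (xE covD_E)
open Pool.Agent.helper14.NR (share)

mutual
theorem B1_c0_t8 : CovD 1 gB1 [(59556233216, 4581490688), (17179869184, 17179869184), (6871973888, 6871973888)] :=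
  covD_E kB1_eq (.n 2 (.n 2 (.n 2 (.l 1) (.l 1)) (.n 2 (.l 1) (.l 1))) (.n 2 (.n 2 (.l 1) (.l 1)) (.n 0 (.l 1) (.l 1))))
    [(59556233216, 4581490688), (17179869184, 17179869184), (6871973888, 6871973888)] rfl (by decide +kernel)
theorem B1_c0_t9 : CovD 1 gB1 [(59556233216, 4581490688), (51539607552, 17179869184), (6871973888, 6871973888)] :=
  covD_E kB1_eq (.n 2 (.n 2 (.n 0 (.n 2 (.l 1) (.l 1)) (.n 2 (.l 1) (.l 1))) (.n 2 (.n 0 (.l 1) (.l 1)) (.l 1))) (.n 2 (.n 2 (.l 1) (.l 1)) (.n 0 (.l 1) (.l 1))))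
    [(59556233216, 4581490688), (51539607552, 17179869184), (6871973888, 6871973888)] rfl (by decide +kernel)
end

mutual
theorem B1_c0_t10 : CovD 1 gB1 [(59556233216, 4581490688), (34359738368, 34359738368), (20615921664, 6871973888)] :=
  covD_E kB1_eq (.n 2 (.n 2 (.n 2 (.l 1) (.l 1)) (.n 0 (.l 1) (.l 1))) (.n 0 (.n 2 (.l 1) (.l 1)) (.n 2 (.l 1) (.l 1))))
    [(59556233216, 4581490688), (34359738368, 34359738368), (20615921664, 6871973888)] rfl (by decide +kernel)
theorem B1_c0_t13 : CovD 1 gB1 [(57265487872, 2290745344), (103079215104, 34359738368), (6871973888, 6871973888)] :=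
  covD_E kB1_eq (.n 2 (.n 1 (.n 2 (.n 2 (.l 1) (.l 1)) (.n 2 (.l 1) (.l 1))) (.n 2 (.n 0 (.n 2 (.l 1) (.l 1)) (.n 2 (.l 1) (.l 1))) (.n 2 (.l 1) (.l 1)))) (.n 2 (.n 1 (.n 2 (.l 1) (.l 1)) (.n 2 (.l 1) (.l 1))) (.n 2 (.l 1) (.l 1))))
    [(57265487872, 2290745344), (103079215104, 34359738368), (6871973888, 6871973888)] rfl (by decide +kernel)
end

mutual
theorem B1_c0_t14 : CovD 1 gB1 [(61846978560, 2290745344), (103079215104, 34359738368), (6871973888, 6871973888)] :=
  covD_E kB1_eq (.n 1 (.n 2 (.n 2 (.n 2 (.l 1) (.l 1)) (.n 2 (.l 1) (.l 1))) (.n 2 (.n 0 (.l 1) (.l 1)) (.l 1))) (.n 2 (.n 2 (.n 2 (.l 1) (.l 1)) (.n 2 (.l 1) (.l 1))) (.n 2 (.n 2 (.l 1) (.l 1)) (.l 1))))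
    [(61846978560, 2290745344), (103079215104, 34359738368), (6871973888, 6871973888)] rfl (by decide +kernel)
theorem B1_c0_t15 : CovD 1 gB1 [(59556233216, 4581490688), (103079215104, 34359738368), (20615921664, 6871973888)] :=
  covD_E kB1_eq (.n 2 (.n 2 (.n 0 (.n 1 (.l 1) (.l 1)) (.n 0 (.l 1) (.l 1))) (.n 2 (.n 0 (.l 1) (.l 1)) (.l 1))) (.n 0 (.n 2 (.l 1) (.l 1)) (.n 2 (.l 1) (.l 1))))
    [(59556233216, 4581490688), (103079215104, 34359738368), (20615921664, 6871973888)] rfl (by decide +kernel)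
end

mutual
theorem B1_c0_t16 : CovD 1 gB1 [(59556233216, 4581490688), (68719476736, 68719476736), (41231843328, 13743947776)] :=
  covD_E kB1_eq (.n 2 (.n 1 (.n 2 (.n 2 (.l 1) (.l 1)) (.n 0 (.l 1) (.l 1))) (.n 2 (.n 2 (.l 1) (.l 1)) (.n 0 (.l 1) (.l 1)))) (.n 0 (.n 2 (.l 1) (.l 1)) (.n 2 (.l 1) (.l 1))))
    [(59556233216, 4581490688), (68719476736, 68719476736), (41231843328, 13743947776)] rfl (by decide +kernel)
theorem B1_c0_t22 : CovD 1 gB1 [(57265487872, 2290745344), (171798691840, 34359738368), (3435986944, 3435986944)] :=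
  covD_E kB1_eq (.n 1 (.n 2 (.n 1 (.n 2 (.l 1) (.l 1)) (.n 2 (.l 1) (.l 1))) (.n 2 (.n 0 (.l 1) (.l 1)) (.l 1))) (.n 2 (.n 2 (.n 2 (.l 1) (.l 1)) (.n 2 (.l 1) (.l 1))) (.n 0 (.n 2 (.l 1) (.l 1)) (.n 2 (.l 1) (.l 1)))))
    [(57265487872, 2290745344), (171798691840, 34359738368), (3435986944, 3435986944)] rfl (by decide +kernel)
end

mutual
theorem B1_c0_t23 : CovD 1 gB1 [(57265487872, 2290745344), (171798691840, 34359738368), (10307960832, 3435986944)] :=
  covD_E kB1_eq (.n 2 (.n 1 (.n 2 (.l 1) (.l 1)) (.n 2 (.l 1) (.l 1))) (.n 2 (.n 0 (.l 1) (.l 1)) (.l 1)))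
    [(57265487872, 2290745344), (171798691840, 34359738368), (10307960832, 3435986944)] rfl (by decide +kernel)
theorem B1_c0_t24 : CovD 1 gB1 [(57265487872, 2290745344), (171798691840, 34359738368), (20615921664, 6871973888)] :=
  covD_E kB1_eq (.n 2 (.n 1 (.n 2 (.l 1) (.l 1)) (.n 2 (.l 1) (.l 1))) (.n 2 (.l 1) (.l 1)))
    [(57265487872, 2290745344), (171798691840, 34359738368), (20615921664, 6871973888)] rfl (by decide +kernel)
end

mutual
theorem B1_c0_t28 : CovD 1 gB1 [(57265487872, 2290745344), (223338299392, 17179869184), (3435986944, 3435986944)] :=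
  covD_E kB1_eq (.n 2 (.n 2 (.n 2 (.l 1) (.n 0 (.l 1) (.l 1))) (.n 2 (.l 1) (.l 1))) (.n 2 (.n 2 (.l 1) (.l 1)) (.n 0 (.l 1) (.l 1))))
    [(57265487872, 2290745344), (223338299392, 17179869184), (3435986944, 3435986944)] rfl (by decide +kernel)
theorem B1_c0_t29 : CovD 1 gB1 [(57265487872, 2290745344), (257698037760, 17179869184), (3435986944, 3435986944)] :=
  covD_E kB1_eq (.n 2 (.n 2 (.n 0 (.n 2 (.l 1) (.l 1)) (.n 2 (.l 1) (.l 1))) (.n 2 (.n 0 (.l 1) (.l 1)) (.l 1))) (.n 2 (.n 2 (.l 1) (.l 1)) (.n 0 (.l 1) (.l 1))))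
    [(57265487872, 2290745344), (257698037760, 17179869184), (3435986944, 3435986944)] rfl (by decide +kernel)
end

mutual
theorem B1_c0_t30 : CovD 1 gB1 [(57265487872, 2290745344), (240518168576, 34359738368), (10307960832, 3435986944)] :=
  covD_E kB1_eq (.n 2 (.n 1 (.n 2 (.l 1) (.l 1)) (.n 2 (.l 1) (.l 1))) (.n 2 (.n 0 (.l 1) (.l 1)) (.l 1)))
    [(57265487872, 2290745344), (240518168576, 34359738368), (10307960832, 3435986944)] rfl (by decide +kernel)
theorem B1_c0_t31 : CovD 1 gB1 [(57265487872, 2290745344), (240518168576, 34359738368), (20615921664, 6871973888)] :=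
  covD_E kB1_eq (.n 2 (.n 2 (.n 1 (.l 1) (.l 1)) (.l 1)) (.n 2 (.l 1) (.l 1)))
    [(57265487872, 2290745344), (240518168576, 34359738368), (20615921664, 6871973888)] rfl (by decide +kernel)
end

mutual
theorem B1_c0_t34 : CovD 1 gB1 [(61846978560, 2290745344), (171798691840, 34359738368), (6871973888, 6871973888)] :=
  covD_E kB1_eq (.n 2 (.n 1 (.n 2 (.n 2 (.l 1) (.l 1)) (.n 2 (.l 1) (.l 1))) (.n 2 (.n 0 (.n 2 (.l 1) (.l 1)) (.n 2 (.l 1) (.l 1))) (.n 2 (.l 1) (.l 1)))) (.n 2 (.n 1 (.n 2 (.l 1) (.l 1)) (.n 2 (.l 1) (.l 1))) (.n 2 (.l 1) (.l 1))))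
    [(61846978560, 2290745344), (171798691840, 34359738368), (6871973888, 6871973888)] rfl (by decide +kernel)
theorem B1_c0_t35 : CovD 1 gB1 [(61846978560, 2290745344), (171798691840, 34359738368), (20615921664, 6871973888)] :=
  covD_E kB1_eq (.n 2 (.n 2 (.n 1 (.l 1) (.l 1)) (.l 1)) (.n 2 (.l 1) (.l 1)))
    [(61846978560, 2290745344), (171798691840, 34359738368), (20615921664, 6871973888)] rfl (by decide +kernel)
end

mutual
theorem B1_c0_t38 : CovD 1 gB1 [(61846978560, 2290745344), (240518168576, 34359738368), (3435986944, 3435986944)] :=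
  covD_E kB1_eq (.n 1 (.n 2 (.n 2 (.n 2 (.l 1) (.l 1)) (.n 0 (.l 1) (.l 1))) (.n 2 (.n 0 (.l 1) (.l 1)) (.l 1))) (.n 2 (.n 2 (.n 2 (.l 1) (.l 1)) (.n 2 (.l 1) (.l 1))) (.n 0 (.n 2 (.l 1) (.l 1)) (.n 2 (.l 1) (.l 1)))))
    [(61846978560, 2290745344), (240518168576, 34359738368), (3435986944, 3435986944)] rfl (by decide +kernel)
theorem B1_c0_t39 : CovD 1 gB1 [(61846978560, 2290745344), (240518168576, 34359738368), (10307960832, 3435986944)] :=
  covD_E kB1_eq (.n 2 (.n 2 (.n 0 (.l 1) (.l 1)) (.l 1)) (.n 2 (.l 1) (.l 1)))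
    [(61846978560, 2290745344), (240518168576, 34359738368), (10307960832, 3435986944)] rfl (by decide +kernel)
end

mutual
theorem B1_c0_t40 : CovD 1 gB1 [(61846978560, 2290745344), (240518168576, 34359738368), (20615921664, 6871973888)] :=
  covD_E kB1_eq (.n 2 (.n 2 (.n 0 (.l 1) (.l 1)) (.l 1)) (.n 2 (.l 1) (.l 1)))
    [(61846978560, 2290745344), (240518168576, 34359738368), (20615921664, 6871973888)] rfl (by decide +kernel)
theorem B1_c0_t41 : CovD 1 gB1 [(59556233216, 4581490688), (206158430208, 68719476736), (41231843328, 13743947776)] :=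
  covD_E kB1_eq (.n 2 (.n 2 (.n 0 (.n 2 (.l 1) (.l 1)) (.n 2 (.l 1) (.l 1))) (.n 2 (.n 0 (.l 1) (.l 1)) (.l 1))) (.n 0 (.n 2 (.l 1) (.l 1)) (.n 2 (.l 1) (.l 1))))
    [(59556233216, 4581490688), (206158430208, 68719476736), (41231843328, 13743947776)] rfl (by decide +kernel)
end

mutual
theorem B1_c0_t46 : CovD 1 gB1 [(68719214592, 4581490688), (34359738368, 34359738368), (6871973888, 6871973888)] :=
  covD_E kB1_eq (.n 2 (.n 0 (.n 2 (.n 2 (.l 1) (.l 1)) (.n 1 (.l 1) (.l 1))) (.n 1 (.n 2 (.l 1) (.l 1)) (.n 2 (.l 1) (.l 1)))) (.n 2 (.n 1 (.l 1) (.n 0 (.l 1) (.l 1))) (.n 2 (.l 1) (.l 1))))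
    [(68719214592, 4581490688), (34359738368, 34359738368), (6871973888, 6871973888)] rfl (by decide +kernel)
theorem B1_c0_t47 : CovD 1 gB1 [(68719214592, 4581490688), (34359738368, 34359738368), (20615921664, 6871973888)] :=
  covD_E kB1_eq (.n 2 (.n 0 (.n 2 (.l 1) (.l 1)) (.n 2 (.l 1) (.l 1))) (.n 2 (.n 0 (.l 1) (.l 1)) (.l 1)))
    [(68719214592, 4581490688), (34359738368, 34359738368), (20615921664, 6871973888)] rfl (by decide +kernel)
end

mutual
theorem B1_c0_t50 : CovD 1 gB1 [(68719214592, 4581490688), (85899345920, 17179869184), (6871973888, 6871973888)] :=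
  covD_E kB1_eq (.n 2 (.n 2 (.n 2 (.l 1) (.l 1)) (.n 2 (.l 1) (.l 1))) (.n 0 (.n 2 (.l 1) (.l 1)) (.n 2 (.l 1) (.l 1))))
    [(68719214592, 4581490688), (85899345920, 17179869184), (6871973888, 6871973888)] rfl (by decide +kernel)
theorem B1_c0_t51 : CovD 1 gB1 [(68719214592, 4581490688), (120259084288, 17179869184), (6871973888, 6871973888)] :=
  covD_E kB1_eq (.n 2 (.n 2 (.n 2 (.l 1) (.n 0 (.l 1) (.l 1))) (.n 2 (.l 1) (.l 1))) (.n 2 (.n 2 (.l 1) (.l 1)) (.n 0 (.l 1) (.l 1))))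
    [(68719214592, 4581490688), (120259084288, 17179869184), (6871973888, 6871973888)] rfl (by decide +kernel)
end

mutual
theorem B1_c0_t52 : CovD 1 gB1 [(68719214592, 4581490688), (103079215104, 34359738368), (20615921664, 6871973888)] :=
  covD_E kB1_eq (.n 0 (.n 2 (.n 2 (.l 1) (.l 1)) (.n 2 (.l 1) (.l 1))) (.n 2 (.n 2 (.l 1) (.l 1)) (.n 2 (.l 1) (.l 1))))
    [(68719214592, 4581490688), (103079215104, 34359738368), (20615921664, 6871973888)] rfl (by decide +kernel)
theorem B1_c0_t53 : CovD 1 gB1 [(68719214592, 4581490688), (68719476736, 68719476736), (41231843328, 13743947776)] :=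
  covD_E kB1_eq (.n 2 (.n 2 (.n 0 (.n 2 (.l 1) (.l 1)) (.n 1 (.l 1) (.l 1))) (.n 2 (.n 0 (.l 1) (.l 1)) (.l 1))) (.n 0 (.n 2 (.l 1) (.l 1)) (.n 2 (.l 1) (.l 1))))
    [(68719214592, 4581490688), (68719476736, 68719476736), (41231843328, 13743947776)] rfl (by decide +kernel)
end

mutual
theorem B1_c0_t58 : CovD 1 gB1 [(66428469248, 2290745344), (171798691840, 34359738368), (6871973888, 6871973888)] :=
  covD_E kB1_eq (.n 2 (.n 1 (.n 2 (.n 2 (.l 1) (.l 1)) (.n 2 (.l 1) (.l 1))) (.n 2 (.n 2 (.l 1) (.l 1)) (.n 2 (.l 1) (.l 1)))) (.n 2 (.n 2 (.n 0 (.l 1) (.l 1)) (.l 1)) (.n 1 (.l 1) (.l 1))))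
    [(66428469248, 2290745344), (171798691840, 34359738368), (6871973888, 6871973888)] rfl (by decide +kernel)
theorem B1_c0_t59 : CovD 1 gB1 [(66428469248, 2290745344), (171798691840, 34359738368), (20615921664, 6871973888)] :=
  covD_E kB1_eq (.n 2 (.n 2 (.n 0 (.l 1) (.l 1)) (.l 1)) (.n 2 (.l 1) (.l 1)))
    [(66428469248, 2290745344), (171798691840, 34359738368), (20615921664, 6871973888)] rfl (by decide +kernel)
end

mutual
theorem B1_c0_t60 : CovD 1 gB1 [(71009959936, 2290745344), (171798691840, 34359738368), (13743947776, 13743947776)] :=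
  covD_E kB1_eq (.n 2 (.n 2 (.n 2 (.n 0 (.n 2 (.l 1) (.l 1)) (.n 2 (.l 1) (.l 1))) (.n 2 (.n 0 (.l 1) (.l 1)) (.l 1))) (.n 2 (.n 2 (.l 1) (.l 1)) (.n 1 (.l 1) (.l 1)))) (.n 2 (.n 2 (.l 1) (.l 1)) (.n 2 (.l 1) (.l 1))))
    [(71009959936, 2290745344), (171798691840, 34359738368), (13743947776, 13743947776)] rfl (by decide +kernel)
theorem B1_c0_t63 : CovD 1 gB1 [(66428469248, 2290745344), (240518168576, 34359738368), (6871973888, 6871973888)] :=
  covD_E kB1_eq (.n 2 (.n 2 (.n 2 (.n 2 (.l 1) (.l 1)) (.n 1 (.l 1) (.l 1))) (.n 0 (.n 2 (.l 1) (.l 1)) (.n 2 (.l 1) (.l 1)))) (.n 2 (.n 2 (.n 0 (.l 1) (.l 1)) (.l 1)) (.n 2 (.l 1) (.l 1))))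
    [(66428469248, 2290745344), (240518168576, 34359738368), (6871973888, 6871973888)] rfl (by decide +kernel)
end

mutual
theorem B1_c0_t64 : CovD 1 gB1 [(71009959936, 2290745344), (240518168576, 34359738368), (6871973888, 6871973888)] :=
  covD_E kB1_eq (.n 2 (.n 2 (.n 0 (.n 2 (.l 1) (.l 1)) (.n 2 (.l 1) (.l 1))) (.n 2 (.n 0 (.l 1) (.l 1)) (.l 1))) (.n 2 (.n 2 (.l 1) (.l 1)) (.n 0 (.l 1) (.l 1))))
    [(71009959936, 2290745344), (240518168576, 34359738368), (6871973888, 6871973888)] rfl (by decide +kernel)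
theorem B1_c0_t65 : CovD 1 gB1 [(68719214592, 4581490688), (240518168576, 34359738368), (20615921664, 6871973888)] :=
  covD_E kB1_eq (.n 2 (.n 0 (.n 2 (.n 0 (.l 1) (.l 1)) (.l 1)) (.n 2 (.n 0 (.l 1) (.l 1)) (.l 1))) (.n 2 (.n 0 (.l 1) (.l 1)) (.l 1)))
    [(68719214592, 4581490688), (240518168576, 34359738368), (20615921664, 6871973888)] rfl (by decide +kernel)
end

mutual
theorem B1_c0_t66 : CovD 1 gB1 [(68719214592, 4581490688), (206158430208, 68719476736), (41231843328, 13743947776)] :=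
  covD_E kB1_eq (.n 2 (.n 2 (.n 0 (.n 1 (.l 1) (.l 1)) (.n 1 (.l 1) (.l 1))) (.n 2 (.l 1) (.l 1))) (.n 0 (.n 2 (.l 1) (.l 1)) (.n 2 (.l 1) (.l 1))))
    [(68719214592, 4581490688), (206158430208, 68719476736), (41231843328, 13743947776)] rfl (by decide +kernel)
theorem B1_c0_t71 : CovD 1 gB1 [(77882195968, 4581490688), (34359738368, 34359738368), (13743947776, 13743947776)] :=
  covD_E kB1_eq (.n 2 (.n 1 (.n 2 (.n 2 (.l 1) (.l 1)) (.n 2 (.l 1) (.l 1))) (.n 2 (.n 2 (.l 1) (.l 1)) (.n 2 (.l 1) (.l 1)))) (.n 2 (.n 2 (.n 0 (.l 1) (.l 1)) (.l 1)) (.n 2 (.l 1) (.l 1))))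
    [(77882195968, 4581490688), (34359738368, 34359738368), (13743947776, 13743947776)] rfl (by decide +kernel)
end

mutual
theorem B1_c0_t73 : CovD 1 gB1 [(77882195968, 4581490688), (103079215104, 34359738368), (6871973888, 6871973888)] :=
  covD_E kB1_eq (.n 2 (.n 2 (.n 2 (.l 1) (.n 0 (.l 1) (.l 1))) (.n 0 (.n 1 (.l 1) (.l 1)) (.n 0 (.l 1) (.l 1)))) (.n 2 (.n 2 (.l 1) (.l 1)) (.n 0 (.l 1) (.l 1))))
    [(77882195968, 4581490688), (103079215104, 34359738368), (6871973888, 6871973888)] rfl (by decide +kernel)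
theorem B1_c0_t74 : CovD 1 gB1 [(77882195968, 4581490688), (103079215104, 34359738368), (20615921664, 6871973888)] :=
  covD_E kB1_eq (.n 2 (.n 0 (.n 2 (.l 1) (.l 1)) (.n 2 (.l 1) (.l 1))) (.n 2 (.l 1) (.l 1)))
    [(77882195968, 4581490688), (103079215104, 34359738368), (20615921664, 6871973888)] rfl (by decide +kernel)
end

mutual
theorem B1_c0_t75 : CovD 1 gB1 [(77882195968, 4581490688), (68719476736, 68719476736), (41231843328, 13743947776)] :=
  covD_E kB1_eq (.n 2 (.n 2 (.n 0 (.n 1 (.l 1) (.l 1)) (.n 1 (.l 1) (.l 1))) (.n 2 (.n 0 (.l 1) (.l 1)) (.l 1))) (.n 0 (.n 2 (.l 1) (.l 1)) (.n 2 (.l 1) (.l 1))))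
    [(77882195968, 4581490688), (68719476736, 68719476736), (41231843328, 13743947776)] rfl (by decide +kernel)
theorem B1_c0_t79 : CovD 1 gB1 [(75591450624, 2290745344), (206158430208, 68719476736), (6871973888, 6871973888)] :=
  covD_E kB1_eq (.n 1 (.n 2 (.n 2 (.n 2 (.l 1) (.l 1)) (.n 2 (.l 1) (.l 1))) (.n 1 (.n 2 (.l 1) (.l 1)) (.n 2 (.l 1) (.l 1)))) (.n 2 (.n 2 (.n 2 (.l 1) (.l 1)) (.n 2 (.l 1) (.l 1))) (.n 1 (.n 2 (.l 1) (.l 1)) (.n 2 (.l 1) (.l 1)))))
    [(75591450624, 2290745344), (206158430208, 68719476736), (6871973888, 6871973888)] rfl (by decide +kernel)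
end

mutual
theorem B1_c0_t80 : CovD 1 gB1 [(75591450624, 2290745344), (206158430208, 68719476736), (20615921664, 6871973888)] :=
  covD_E kB1_eq (.n 2 (.n 1 (.n 2 (.l 1) (.l 1)) (.n 2 (.l 1) (.l 1))) (.n 2 (.n 0 (.l 1) (.l 1)) (.l 1)))
    [(75591450624, 2290745344), (206158430208, 68719476736), (20615921664, 6871973888)] rfl (by decide +kernel)
theorem B1_c0_t82 : CovD 1 gB1 [(80172941312, 2290745344), (206158430208, 68719476736), (6871973888, 6871973888)] :=
  covD_E kB1_eq (.n 1 (.n 2 (.n 1 (.n 2 (.l 1) (.l 1)) (.n 2 (.l 1) (.l 1))) (.n 2 (.n 0 (.l 1) (.l 1)) (.l 1))) (.n 2 (.n 2 (.n 2 (.l 1) (.l 1)) (.n 1 (.l 1) (.l 1))) (.n 2 (.n 0 (.l 1) (.l 1)) (.l 1))))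
    [(80172941312, 2290745344), (206158430208, 68719476736), (6871973888, 6871973888)] rfl (by decide +kernel)
end

mutual
theorem B1_c0_t83 : CovD 1 gB1 [(80172941312, 2290745344), (206158430208, 68719476736), (20615921664, 6871973888)] :=
  covD_E kB1_eq (.n 2 (.n 1 (.n 2 (.l 1) (.l 1)) (.n 2 (.l 1) (.l 1))) (.n 2 (.n 0 (.l 1) (.l 1)) (.l 1)))
    [(80172941312, 2290745344), (206158430208, 68719476736), (20615921664, 6871973888)] rfl (by decide +kernel)
theorem B1_c0_t84 : CovD 1 gB1 [(77882195968, 4581490688), (206158430208, 68719476736), (41231843328, 13743947776)] :=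
  covD_E kB1_eq (.n 2 (.n 2 (.n 0 (.n 1 (.l 1) (.l 1)) (.n 1 (.l 1) (.l 1))) (.n 2 (.l 1) (.l 1))) (.n 2 (.n 0 (.l 1) (.l 1)) (.l 1)))
    [(77882195968, 4581490688), (206158430208, 68719476736), (41231843328, 13743947776)] rfl (by decide +kernel)
end

mutual
theorem B1_c0_t87 : CovD 1 gB1 [(87045177344, 4581490688), (34359738368, 34359738368), (27487895552, 27487895552)] :=
  covD_E kB1_eq (.n 2 (.n 2 (.n 2 (.n 2 (.l 1) (.l 1)) (.n 2 (.l 1) (.l 1))) (.n 2 (.n 2 (.l 1) (.l 1)) (.n 0 (.l 1) (.l 1)))) (.n 2 (.n 2 (.l 1) (.l 1)) (.n 2 (.l 1) (.l 1))))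
    [(87045177344, 4581490688), (34359738368, 34359738368), (27487895552, 27487895552)] rfl (by decide +kernel)
theorem B1_c0_t89 : CovD 1 gB1 [(87045177344, 4581490688), (103079215104, 34359738368), (13743947776, 13743947776)] :=
  covD_E kB1_eq (.n 2 (.n 0 (.n 2 (.n 2 (.l 1) (.l 1)) (.n 2 (.l 1) (.l 1))) (.n 2 (.n 2 (.l 1) (.l 1)) (.n 2 (.l 1) (.l 1)))) (.n 2 (.n 2 (.l 1) (.l 1)) (.n 0 (.l 1) (.l 1))))
    [(87045177344, 4581490688), (103079215104, 34359738368), (13743947776, 13743947776)] rfl (by decide +kernel)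
end

mutual
theorem B1_c0_t90 : CovD 1 gB1 [(87045177344, 4581490688), (103079215104, 34359738368), (41231843328, 13743947776)] :=
  covD_E kB1_eq (.n 2 (.n 2 (.n 0 (.l 1) (.l 1)) (.l 1)) (.n 2 (.l 1) (.l 1)))
    [(87045177344, 4581490688), (103079215104, 34359738368), (41231843328, 13743947776)] rfl (by decide +kernel)
theorem B1_c0_t93 : CovD 1 gB1 [(87045177344, 4581490688), (171798691840, 34359738368), (13743947776, 13743947776)] :=
  covD_E kB1_eq (.n 2 (.n 2 (.n 2 (.n 2 (.l 1) (.l 1)) (.n 2 (.l 1) (.l 1))) (.n 0 (.n 2 (.l 1) (.l 1)) (.n 2 (.l 1) (.l 1)))) (.n 2 (.n 2 (.n 0 (.l 1) (.l 1)) (.l 1)) (.n 2 (.l 1) (.l 1))))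
    [(87045177344, 4581490688), (171798691840, 34359738368), (13743947776, 13743947776)] rfl (by decide +kernel)
end

mutual
theorem B1_c0_t94 : CovD 1 gB1 [(87045177344, 4581490688), (240518168576, 34359738368), (13743947776, 13743947776)] :=
  covD_E kB1_eq (.n 2 (.n 2 (.n 2 (.n 2 (.l 1) (.l 1)) (.n 2 (.l 1) (.l 1))) (.n 0 (.n 2 (.l 1) (.l 1)) (.n 2 (.l 1) (.l 1)))) (.n 2 (.n 2 (.n 0 (.l 1) (.l 1)) (.l 1)) (.n 2 (.l 1) (.l 1))))
    [(87045177344, 4581490688), (240518168576, 34359738368), (13743947776, 13743947776)] rfl (by decide +kernel)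
theorem B1_c0_t95 : CovD 1 gB1 [(87045177344, 4581490688), (206158430208, 68719476736), (41231843328, 13743947776)] :=
  covD_E kB1_eq (.n 2 (.n 2 (.n 2 (.n 0 (.l 1) (.l 1)) (.l 1)) (.n 0 (.l 1) (.l 1))) (.n 2 (.n 0 (.l 1) (.l 1)) (.l 1)))
    [(87045177344, 4581490688), (206158430208, 68719476736), (41231843328, 13743947776)] rfl (by decide +kernel)
end

mutual
theorem B1_c0_t98 : CovD 1 gB1 [(59556233216, 4581490688), (137438953472, 137438953472), (82463686656, 27487895552)] :=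
  covD_E kB1_eq (.n 2 (.n 1 (.n 2 (.n 2 (.n 0 (.l 1) (.l 1)) (.l 1)) (.n 0 (.l 1) (.l 1))) (.n 2 (.n 2 (.l 1) (.l 1)) (.n 0 (.l 1) (.l 1)))) (.n 2 (.n 2 (.n 0 (.l 1) (.l 1)) (.l 1)) (.n 0 (.l 1) (.l 1))))
    [(59556233216, 4581490688), (137438953472, 137438953472), (82463686656, 27487895552)] rfl (by decide +kernel)
theorem B1_c0_t99 : CovD 1 gB1 [(68719214592, 4581490688), (137438953472, 137438953472), (82463686656, 27487895552)] :=
  covD_E kB1_eq (.n 1 (.n 2 (.n 2 (.n 2 (.l 1) (.l 1)) (.n 0 (.l 1) (.l 1))) (.n 2 (.l 1) (.l 1))) (.n 2 (.n 2 (.n 2 (.l 1) (.l 1)) (.n 0 (.l 1) (.l 1))) (.n 2 (.l 1) (.l 1))))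
    [(68719214592, 4581490688), (137438953472, 137438953472), (82463686656, 27487895552)] rfl (by decide +kernel)
end

mutual
theorem B1_c0_t101 : CovD 1 gB1 [(77882195968, 4581490688), (137438953472, 137438953472), (82463686656, 27487895552)] :=
  covD_E kB1_eq (.n 1 (.n 2 (.n 2 (.n 2 (.l 1) (.l 1)) (.n 0 (.l 1) (.l 1))) (.n 2 (.l 1) (.l 1))) (.n 2 (.n 2 (.n 2 (.l 1) (.l 1)) (.n 0 (.l 1) (.l 1))) (.n 2 (.l 1) (.l 1))))
    [(77882195968, 4581490688), (137438953472, 137438953472), (82463686656, 27487895552)] rfl (by decide +kernel)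
theorem B1_c0_t102 : CovD 1 gB1 [(87045177344, 4581490688), (137438953472, 137438953472), (82463686656, 27487895552)] :=
  covD_E kB1_eq (.n 1 (.n 2 (.n 2 (.n 2 (.l 1) (.l 1)) (.n 0 (.l 1) (.l 1))) (.n 2 (.l 1) (.l 1))) (.n 2 (.n 2 (.n 2 (.l 1) (.l 1)) (.n 0 (.l 1) (.l 1))) (.n 2 (.l 1) (.l 1))))
    [(87045177344, 4581490688), (137438953472, 137438953472), (82463686656, 27487895552)] rfl (by decide +kernel)
end

theorem B1_c0_t7 : CovD 1 gB1 [(59556233216, 4581490688), (34359738368, 34359738368), (6871973888, 6871973888)] :=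
  covD_split 1 (by decide +kernel) B1_c0_t8 B1_c0_t9

theorem B1_c0_t6 : CovD 1 gB1 [(59556233216, 4581490688), (34359738368, 34359738368), (13743947776, 13743947776)] :=
  covD_split 2 (by decide +kernel) B1_c0_t7 B1_c0_t10

theorem B1_c0_t12 : CovD 1 gB1 [(59556233216, 4581490688), (103079215104, 34359738368), (6871973888, 6871973888)] :=
  covD_split 0 (by decide +kernel) B1_c0_t13 B1_c0_t14

theorem B1_c0_t11 : CovD 1 gB1 [(59556233216, 4581490688), (103079215104, 34359738368), (13743947776, 13743947776)] :=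
  covD_split 2 (by decide +kernel) B1_c0_t12 B1_c0_t15

theorem B1_c0_t5 : CovD 1 gB1 [(59556233216, 4581490688), (68719476736, 68719476736), (13743947776, 13743947776)] :=
  covD_split 1 (by decide +kernel) B1_c0_t6 B1_c0_t11

theorem B1_c0_t4 : CovD 1 gB1 [(59556233216, 4581490688), (68719476736, 68719476736), (27487895552, 27487895552)] :=
  covD_split 2 (by decide +kernel) B1_c0_t5 B1_c0_t16

theorem B1_c0_t21 : CovD 1 gB1 [(57265487872, 2290745344), (171798691840, 34359738368), (6871973888, 6871973888)] :=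
  covD_split 2 (by decide +kernel) B1_c0_t22 B1_c0_t23

theorem B1_c0_t20 : CovD 1 gB1 [(57265487872, 2290745344), (171798691840, 34359738368), (13743947776, 13743947776)] :=
  covD_split 2 (by decide +kernel) B1_c0_t21 B1_c0_t24

theorem B1_c0_t27 : CovD 1 gB1 [(57265487872, 2290745344), (240518168576, 34359738368), (3435986944, 3435986944)] :=
  covD_split 1 (by decide +kernel) B1_c0_t28 B1_c0_t29

theorem B1_c0_t26 : CovD 1 gB1 [(57265487872, 2290745344), (240518168576, 34359738368), (6871973888, 6871973888)] :=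
  covD_split 2 (by decide +kernel) B1_c0_t27 B1_c0_t30

theorem B1_c0_t25 : CovD 1 gB1 [(57265487872, 2290745344), (240518168576, 34359738368), (13743947776, 13743947776)] :=
  covD_split 2 (by decide +kernel) B1_c0_t26 B1_c0_t31

theorem B1_c0_t19 : CovD 1 gB1 [(57265487872, 2290745344), (206158430208, 68719476736), (13743947776, 13743947776)] :=
  covD_split 1 (by decide +kernel) B1_c0_t20 B1_c0_t25

theorem B1_c0_t33 : CovD 1 gB1 [(61846978560, 2290745344), (171798691840, 34359738368), (13743947776, 13743947776)] :=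
  covD_split 2 (by decide +kernel) B1_c0_t34 B1_c0_t35

theorem B1_c0_t37 : CovD 1 gB1 [(61846978560, 2290745344), (240518168576, 34359738368), (6871973888, 6871973888)] :=
  covD_split 2 (by decide +kernel) B1_c0_t38 B1_c0_t39

theorem B1_c0_t36 : CovD 1 gB1 [(61846978560, 2290745344), (240518168576, 34359738368), (13743947776, 13743947776)] :=
  covD_split 2 (by decide +kernel) B1_c0_t37 B1_c0_t40

theorem B1_c0_t32 : CovD 1 gB1 [(61846978560, 2290745344), (206158430208, 68719476736), (13743947776, 13743947776)] :=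
  covD_split 1 (by decide +kernel) B1_c0_t33 B1_c0_t36

theorem B1_c0_t18 : CovD 1 gB1 [(59556233216, 4581490688), (206158430208, 68719476736), (13743947776, 13743947776)] :=
  covD_split 0 (by decide +kernel) B1_c0_t19 B1_c0_t32

theorem B1_c0_t17 : CovD 1 gB1 [(59556233216, 4581490688), (206158430208, 68719476736), (27487895552, 27487895552)] :=
  covD_split 2 (by decide +kernel) B1_c0_t18 B1_c0_t41

theorem B1_c0_t3 : CovD 1 gB1 [(59556233216, 4581490688), (137438953472, 137438953472), (27487895552, 27487895552)] :=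
  covD_split 1 (by decide +kernel) B1_c0_t4 B1_c0_t17

theorem B1_c0_t45 : CovD 1 gB1 [(68719214592, 4581490688), (34359738368, 34359738368), (13743947776, 13743947776)] :=
  covD_split 2 (by decide +kernel) B1_c0_t46 B1_c0_t47

theorem B1_c0_t49 : CovD 1 gB1 [(68719214592, 4581490688), (103079215104, 34359738368), (6871973888, 6871973888)] :=
  covD_split 1 (by decide +kernel) B1_c0_t50 B1_c0_t51

theorem B1_c0_t48 : CovD 1 gB1 [(68719214592, 4581490688), (103079215104, 34359738368), (13743947776, 13743947776)] :=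
  covD_split 2 (by decide +kernel) B1_c0_t49 B1_c0_t52

theorem B1_c0_t44 : CovD 1 gB1 [(68719214592, 4581490688), (68719476736, 68719476736), (13743947776, 13743947776)] :=
  covD_split 1 (by decide +kernel) B1_c0_t45 B1_c0_t48

theorem B1_c0_t43 : CovD 1 gB1 [(68719214592, 4581490688), (68719476736, 68719476736), (27487895552, 27487895552)] :=
  covD_split 2 (by decide +kernel) B1_c0_t44 B1_c0_t53

theorem B1_c0_t57 : CovD 1 gB1 [(66428469248, 2290745344), (171798691840, 34359738368), (13743947776, 13743947776)] :=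
  covD_split 2 (by decide +kernel) B1_c0_t58 B1_c0_t59

theorem B1_c0_t56 : CovD 1 gB1 [(68719214592, 4581490688), (171798691840, 34359738368), (13743947776, 13743947776)] :=
  covD_split 0 (by decide +kernel) B1_c0_t57 B1_c0_t60

theorem B1_c0_t62 : CovD 1 gB1 [(68719214592, 4581490688), (240518168576, 34359738368), (6871973888, 6871973888)] :=
  covD_split 0 (by decide +kernel) B1_c0_t63 B1_c0_t64

theorem B1_c0_t61 : CovD 1 gB1 [(68719214592, 4581490688), (240518168576, 34359738368), (13743947776, 13743947776)] :=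
  covD_split 2 (by decide +kernel) B1_c0_t62 B1_c0_t65

theorem B1_c0_t55 : CovD 1 gB1 [(68719214592, 4581490688), (206158430208, 68719476736), (13743947776, 13743947776)] :=
  covD_split 1 (by decide +kernel) B1_c0_t56 B1_c0_t61

theorem B1_c0_t54 : CovD 1 gB1 [(68719214592, 4581490688), (206158430208, 68719476736), (27487895552, 27487895552)] :=
  covD_split 2 (by decide +kernel) B1_c0_t55 B1_c0_t66

theorem B1_c0_t42 : CovD 1 gB1 [(68719214592, 4581490688), (137438953472, 137438953472), (27487895552, 27487895552)] :=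
  covD_split 1 (by decide +kernel) B1_c0_t43 B1_c0_t54

theorem B1_c0_t2 : CovD 1 gB1 [(64137723904, 9162981376), (137438953472, 137438953472), (27487895552, 27487895552)] :=
  covD_split 0 (by decide +kernel) B1_c0_t3 B1_c0_t42

theorem B1_c0_t72 : CovD 1 gB1 [(77882195968, 4581490688), (103079215104, 34359738368), (13743947776, 13743947776)] :=
  covD_split 2 (by decide +kernel) B1_c0_t73 B1_c0_t74

theorem B1_c0_t70 : CovD 1 gB1 [(77882195968, 4581490688), (68719476736, 68719476736), (13743947776, 13743947776)] :=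
  covD_split 1 (by decide +kernel) B1_c0_t71 B1_c0_t72

theorem B1_c0_t69 : CovD 1 gB1 [(77882195968, 4581490688), (68719476736, 68719476736), (27487895552, 27487895552)] :=
  covD_split 2 (by decide +kernel) B1_c0_t70 B1_c0_t75

theorem B1_c0_t78 : CovD 1 gB1 [(75591450624, 2290745344), (206158430208, 68719476736), (13743947776, 13743947776)] :=
  covD_split 2 (by decide +kernel) B1_c0_t79 B1_c0_t80

theorem B1_c0_t81 : CovD 1 gB1 [(80172941312, 2290745344), (206158430208, 68719476736), (13743947776, 13743947776)] :=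
  covD_split 2 (by decide +kernel) B1_c0_t82 B1_c0_t83

theorem B1_c0_t77 : CovD 1 gB1 [(77882195968, 4581490688), (206158430208, 68719476736), (13743947776, 13743947776)] :=
  covD_split 0 (by decide +kernel) B1_c0_t78 B1_c0_t81

theorem B1_c0_t76 : CovD 1 gB1 [(77882195968, 4581490688), (206158430208, 68719476736), (27487895552, 27487895552)] :=
  covD_split 2 (by decide +kernel) B1_c0_t77 B1_c0_t84

theorem B1_c0_t68 : CovD 1 gB1 [(77882195968, 4581490688), (137438953472, 137438953472), (27487895552, 27487895552)] :=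
  covD_split 1 (by decide +kernel) B1_c0_t69 B1_c0_t76

theorem B1_c0_t88 : CovD 1 gB1 [(87045177344, 4581490688), (103079215104, 34359738368), (27487895552, 27487895552)] :=
  covD_split 2 (by decide +kernel) B1_c0_t89 B1_c0_t90

theorem B1_c0_t86 : CovD 1 gB1 [(87045177344, 4581490688), (68719476736, 68719476736), (27487895552, 27487895552)] :=
  covD_split 1 (by decide +kernel) B1_c0_t87 B1_c0_t88

theorem B1_c0_t92 : CovD 1 gB1 [(87045177344, 4581490688), (206158430208, 68719476736), (13743947776, 13743947776)] :=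
  covD_split 1 (by decide +kernel) B1_c0_t93 B1_c0_t94

theorem B1_c0_t91 : CovD 1 gB1 [(87045177344, 4581490688), (206158430208, 68719476736), (27487895552, 27487895552)] :=
  covD_split 2 (by decide +kernel) B1_c0_t92 B1_c0_t95

theorem B1_c0_t85 : CovD 1 gB1 [(87045177344, 4581490688), (137438953472, 137438953472), (27487895552, 27487895552)] :=
  covD_split 1 (by decide +kernel) B1_c0_t86 B1_c0_t91

theorem B1_c0_t67 : CovD 1 gB1 [(82463686656, 9162981376), (137438953472, 137438953472), (27487895552, 27487895552)] :=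
  covD_split 0 (by decide +kernel) B1_c0_t68 B1_c0_t85

theorem B1_c0_t1 : CovD 1 gB1 [(73300705280, 18325962752), (137438953472, 137438953472), (27487895552, 27487895552)] :=
  covD_split 0 (by decide +kernel) B1_c0_t2 B1_c0_t67

theorem B1_c0_t97 : CovD 1 gB1 [(64137723904, 9162981376), (137438953472, 137438953472), (82463686656, 27487895552)] :=
  covD_split 0 (by decide +kernel) B1_c0_t98 B1_c0_t99

theorem B1_c0_t100 : CovD 1 gB1 [(82463686656, 9162981376), (137438953472, 137438953472), (82463686656, 27487895552)] :=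
  covD_split 0 (by decide +kernel) B1_c0_t101 B1_c0_t102

theorem B1_c0_t96 : CovD 1 gB1 [(73300705280, 18325962752), (137438953472, 137438953472), (82463686656, 27487895552)] :=
  covD_split 0 (by decide +kernel) B1_c0_t97 B1_c0_t100

theorem B1_c0 : CovD 1 gB1 [(73300705280, 18325962752), (137438953472, 137438953472), (54975791104, 54975791104)] :=
  covD_split 2 (by decide +kernel) B1_c0_t1 B1_c0_t96

end Pool.Agent.helper14.NR.E12a
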