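import Pool.Agent.helper14.NR.E12a.PN1

/-!
Generated: certificates.
-/

namespace Pool.Agent.helper14.NR.E12a

open Pool.Agent.helper31.IA (Z)
open Pool.Agent.helper31.IX (Op XOps runX Cov CovD cov_split covD_split)
open Pool.Agent.helper31.IC (TD)
open Pool.Agent.helper63.RG (reloc)
open Pool.Agent.helper63.NF hiding TD
open Pool.Agent.helper14.CF (xE covD_E)
open Pool.Agent.helper14.NR (share)

mutual
theorem C1_c0_t5 : CovD 1 gC1 [(64137723904, 9162981376), (17179869184, 17179869184), (274877906944, 274877906944)] :=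
  covD_E kC1_eq (.n 1 (.n 0 (.n 2 (.n 2 (.l 0) (.l 0)) (.n 2 (.l 0) (.l 0))) (.n 2 (.n 2 (.l 0) (.l 0)) (.n 2 (.l 0) (.l 0)))) (.n 2 (.n 2 (.l 0) (.l 0)) (.n 2 (.l 0) (.l 0))))
    [(64137723904, 9162981376), (17179869184, 17179869184), (274877906944, 274877906944)] rfl (by decide +kernel)
theorem C1_c0_t6 : CovD 1 gC1 [(64137723904, 9162981376), (51539607552, 17179869184), (274877906944, 274877906944)] :=
  covD_E kC1_eq (.n 2 (.n 2 (.l 0) (.l 0)) (.n 2 (.l 0) (.n 0 (.l 0) (.l 0))))
    [(64137723904, 9162981376), (51539607552, 17179869184), (274877906944, 274877906944)] rfl (by decide +kernel)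
end

mutual
theorem C1_c0_t7 : CovD 1 gC1 [(64137723904, 9162981376), (103079215104, 34359738368), (274877906944, 274877906944)] :=
  covD_E kC1_eq (.n 0 (.n 2 (.l 0) (.l 0)) (.n 2 (.l 0) (.l 0)))
    [(64137723904, 9162981376), (103079215104, 34359738368), (274877906944, 274877906944)] rfl (by decide +kernel)
theorem C1_c0_t8 : CovD 1 gC1 [(64137723904, 9162981376), (206158430208, 68719476736), (274877906944, 274877906944)] :=
  covD_E kC1_eq (.n 0 (.n 2 (.l 0) (.l 0)) (.n 2 (.l 0) (.l 0)))
    [(64137723904, 9162981376), (206158430208, 68719476736), (274877906944, 274877906944)] rfl (by decide +kernel)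
end

mutual
theorem C1_c0_t11 : CovD 1 gC1 [(82463686656, 9162981376), (34359738368, 34359738368), (274877906944, 274877906944)] :=
  covD_E kC1_eq (.n 1 (.n 1 (.n 0 (.n 2 (.n 2 (.l 0) (.l 0)) (.n 2 (.l 0) (.l 0))) (.n 2 (.n 2 (.l 0) (.l 0)) (.n 2 (.l 0) (.l 0)))) (.n 2 (.n 2 (.l 0) (.l 0)) (.n 2 (.l 0) (.l 0)))) (.n 2 (.n 0 (.l 0) (.l 0)) (.n 2 (.l 0) (.l 0))))
    [(82463686656, 9162981376), (34359738368, 34359738368), (274877906944, 274877906944)] rfl (by decide +kernel)
theorem C1_c0_t12 : CovD 1 gC1 [(82463686656, 9162981376), (103079215104, 34359738368), (274877906944, 274877906944)] :=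
  covD_E kC1_eq (.n 0 (.n 2 (.l 0) (.l 0)) (.n 2 (.l 0) (.l 0)))
    [(82463686656, 9162981376), (103079215104, 34359738368), (274877906944, 274877906944)] rfl (by decide +kernel)
end

mutual
theorem C1_c0_t13 : CovD 1 gC1 [(82463686656, 9162981376), (206158430208, 68719476736), (274877906944, 274877906944)] :=
  covD_E kC1_eq (.n 0 (.n 2 (.l 0) (.l 0)) (.n 2 (.l 0) (.l 0)))
    [(82463686656, 9162981376), (206158430208, 68719476736), (274877906944, 274877906944)] rfl (by decide +kernel)
theorem C1_c0_t17 : CovD 1 gC1 [(64137723904, 9162981376), (68719476736, 68719476736), (687194767360, 137438953472)] :=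
  covD_E kC1_eq (.n 1 (.n 0 (.n 1 (.n 1 (.n 2 (.l 0) (.n 0 (.l 0) (.l 0))) (.n 0 (.l 0) (.l 0))) (.n 0 (.l 0) (.l 0))) (.n 1 (.n 1 (.n 2 (.l 0) (.l 0)) (.n 0 (.l 0) (.l 0))) (.n 0 (.l 0) (.l 0)))) (.n 1 (.n 0 (.l 0) (.l 0)) (.l 0)))
    [(64137723904, 9162981376), (68719476736, 68719476736), (687194767360, 137438953472)] rfl (by decide +kernel)
end

mutual
theorem C1_c0_t32 : CovD 1 gC1 [(57265487872, 2290745344), (33554432, 33554432), (893353197568, 68719476736)] :=
  covD_E kC1_eq (.l 0)
    [(57265487872, 2290745344), (33554432, 33554432), (893353197568, 68719476736)] rfl (by decide +kernel)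
theorem C1_c0_t34 : CovD 1 gC1 [(57265487872, 2290745344), (33554432, 33554432), (996432412672, 34359738368)] :=
  covD_E kC1_eq (.l 0)
    [(57265487872, 2290745344), (33554432, 33554432), (996432412672, 34359738368)] rfl (by decide +kernel)
end

mutual
theorem C1_c0_t36 : CovD 1 gC1 [(57265487872, 2290745344), (33554432, 33554432), (1047972020224, 17179869184)] :=
  covD_E kC1_eq (.l 0)
    [(57265487872, 2290745344), (33554432, 33554432), (1047972020224, 17179869184)] rfl (by decide +kernel)
theorem C1_c0_t38 : CovD 1 gC1 [(57265487872, 2290745344), (33554432, 33554432), (1073741824000, 8589934592)] :=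
  covD_E kC1_eq (.l 0)
    [(57265487872, 2290745344), (33554432, 33554432), (1073741824000, 8589934592)] rfl (by decide +kernel)
end

mutual
theorem C1_c0_t40 : CovD 1 gC1 [(57265487872, 2290745344), (33554432, 33554432), (1086626725888, 4294967296)] :=
  covD_E kC1_eq (.l 0)
    [(57265487872, 2290745344), (33554432, 33554432), (1086626725888, 4294967296)] rfl (by decide +kernel)
theorem C1_c0_t42 : CovD 1 gC1 [(57265487872, 2290745344), (33554432, 33554432), (1093069176832, 2147483648)] :=
  covD_E kC1_eq (.l 0)
    [(57265487872, 2290745344), (33554432, 33554432), (1093069176832, 2147483648)] rfl (by decide +kernel)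
end

mutual
theorem C1_c0_t44 : CovD 1 gC1 [(57265487872, 2290745344), (33554432, 33554432), (1096290402304, 1073741824)] :=
  covD_E kC1_eq (.l 0)
    [(57265487872, 2290745344), (33554432, 33554432), (1096290402304, 1073741824)] rfl (by decide +kernel)
theorem C1_c0_t46 : CovD 1 gC1 [(57265487872, 2290745344), (33554432, 33554432), (1097901015040, 536870912)] :=
  covD_E kC1_eq (.l 0)
    [(57265487872, 2290745344), (33554432, 33554432), (1097901015040, 536870912)] rfl (by decide +kernel)
end

mutual
theorem C1_c0_t48 : CovD 1 gC1 [(57265487872, 2290745344), (33554432, 33554432), (1098706321408, 268435456)] :=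
  covD_E kC1_eq (.l 0)
    [(57265487872, 2290745344), (33554432, 33554432), (1098706321408, 268435456)] rfl (by decide +kernel)
theorem C1_c0_t51 : CovD 1 gC1 [(55547428864, 572686336), (33554432, 33554432), (1099243192320, 268435456)] :=
  covD_E kC1_eq (.n 0 (.n 0 (.n 0 (.n 0 (.l 1) (.l 1)) (.n 0 (.l 1) (.l 1))) (.n 0 (.n 0 (.l 1) (.l 1)) (.n 0 (.l 1) (.l 1)))) (.n 0 (.n 0 (.n 0 (.l 1) (.l 1)) (.n 0 (.l 1) (.l 1))) (.n 0 (.n 0 (.l 1) (.l 1)) (.n 0 (.l 1) (.l 1)))))
    [(55547428864, 572686336), (33554432, 33554432), (1099243192320, 268435456)] rfl (by decide +kernel)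
end

mutual
theorem C1_c0_t52 : CovD 1 gC1 [(56692801536, 572686336), (33554432, 33554432), (1099243192320, 268435456)] :=
  covD_E kC1_eq (.n 0 (.n 0 (.n 0 (.n 0 (.l 1) (.l 1)) (.n 0 (.l 1) (.l 1))) (.n 0 (.n 0 (.l 1) (.l 1)) (.n 0 (.l 1) (.l 1)))) (.n 0 (.n 0 (.n 0 (.l 1) (.l 1)) (.n 0 (.l 1) (.l 1))) (.n 0 (.n 0 (.l 1) (.l 1)) (.n 0 (.l 1) (.l 1)))))
    [(56692801536, 572686336), (33554432, 33554432), (1099243192320, 268435456)] rfl (by decide +kernel)
theorem C1_c0_t54 : CovD 1 gC1 [(57838174208, 572686336), (33554432, 33554432), (1099243192320, 268435456)] :=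
  covD_E kC1_eq (.n 0 (.n 0 (.n 0 (.n 0 (.l 1) (.l 1)) (.n 0 (.l 1) (.l 1))) (.n 0 (.n 0 (.l 1) (.l 1)) (.n 0 (.l 1) (.l 1)))) (.n 0 (.n 0 (.n 0 (.l 1) (.l 1)) (.n 0 (.l 1) (.l 1))) (.n 0 (.n 0 (.l 1) (.l 1)) (.n 0 (.l 1) (.l 1)))))
    [(57838174208, 572686336), (33554432, 33554432), (1099243192320, 268435456)] rfl (by decide +kernel)
end

mutual
theorem C1_c0_t55 : CovD 1 gC1 [(58983546880, 572686336), (33554432, 33554432), (1099243192320, 268435456)] :=
  covD_E kC1_eq (.n 0 (.n 0 (.n 0 (.n 0 (.l 1) (.l 1)) (.n 0 (.l 1) (.l 1))) (.n 0 (.n 0 (.l 1) (.l 1)) (.n 0 (.l 1) (.l 1)))) (.n 0 (.n 0 (.n 0 (.l 1) (.l 1)) (.n 0 (.l 1) (.l 1))) (.n 0 (.n 0 (.l 1) (.l 1)) (.n 0 (.l 1) (.l 1)))))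
    [(58983546880, 572686336), (33554432, 33554432), (1099243192320, 268435456)] rfl (by decide +kernel)
theorem C1_c0_t56 : CovD 1 gC1 [(57265487872, 2290745344), (100663296, 33554432), (962072674304, 137438953472)] :=
  covD_E kC1_eq (.n 2 (.l 0) (.n 2 (.l 0) (.n 2 (.l 0) (.n 0 (.l 0) (.l 0)))))
    [(57265487872, 2290745344), (100663296, 33554432), (962072674304, 137438953472)] rfl (by decide +kernel)
end

mutual
theorem C1_c0_t57 : CovD 1 gC1 [(57265487872, 2290745344), (201326592, 67108864), (962072674304, 137438953472)] :=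
  covD_E kC1_eq (.n 2 (.l 0) (.n 2 (.l 0) (.n 2 (.l 0) (.l 0))))
    [(57265487872, 2290745344), (201326592, 67108864), (962072674304, 137438953472)] rfl (by decide +kernel)
theorem C1_c0_t58 : CovD 1 gC1 [(57265487872, 2290745344), (402653184, 134217728), (962072674304, 137438953472)] :=
  covD_E kC1_eq (.n 2 (.l 0) (.n 2 (.l 0) (.l 0)))
    [(57265487872, 2290745344), (402653184, 134217728), (962072674304, 137438953472)] rfl (by decide +kernel)
end

mutual
theorem C1_c0_t59 : CovD 1 gC1 [(57265487872, 2290745344), (805306368, 268435456), (962072674304, 137438953472)] :=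
  covD_E kC1_eq (.n 2 (.l 0) (.n 0 (.l 0) (.l 0)))
    [(57265487872, 2290745344), (805306368, 268435456), (962072674304, 137438953472)] rfl (by decide +kernel)
theorem C1_c0_t60 : CovD 1 gC1 [(57265487872, 2290745344), (1610612736, 536870912), (962072674304, 137438953472)] :=
  covD_E kC1_eq (.n 2 (.l 0) (.l 0))
    [(57265487872, 2290745344), (1610612736, 536870912), (962072674304, 137438953472)] rfl (by decide +kernel)
end

mutual
theorem C1_c0_t61 : CovD 1 gC1 [(57265487872, 2290745344), (3221225472, 1073741824), (962072674304, 137438953472)] :=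
  covD_E kC1_eq (.l 0)
    [(57265487872, 2290745344), (3221225472, 1073741824), (962072674304, 137438953472)] rfl (by decide +kernel)
theorem C1_c0_t62 : CovD 1 gC1 [(57265487872, 2290745344), (6442450944, 2147483648), (962072674304, 137438953472)] :=
  covD_E kC1_eq (.l 0)
    [(57265487872, 2290745344), (6442450944, 2147483648), (962072674304, 137438953472)] rfl (by decide +kernel)
end

mutual
theorem C1_c0_t63 : CovD 1 gC1 [(57265487872, 2290745344), (12884901888, 4294967296), (962072674304, 137438953472)] :=
  covD_E kC1_eq (.l 0)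
    [(57265487872, 2290745344), (12884901888, 4294967296), (962072674304, 137438953472)] rfl (by decide +kernel)
theorem C1_c0_t64 : CovD 1 gC1 [(57265487872, 2290745344), (25769803776, 8589934592), (962072674304, 137438953472)] :=
  covD_E kC1_eq (.n 1 (.l 0) (.l 0))
    [(57265487872, 2290745344), (25769803776, 8589934592), (962072674304, 137438953472)] rfl (by decide +kernel)
end

mutual
theorem C1_c0_t65 : CovD 1 gC1 [(57265487872, 2290745344), (51539607552, 17179869184), (962072674304, 137438953472)] :=
  covD_E kC1_eq (.n 1 (.l 0) (.l 0))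
    [(57265487872, 2290745344), (51539607552, 17179869184), (962072674304, 137438953472)] rfl (by decide +kernel)
theorem C1_c0_t66 : CovD 1 gC1 [(57265487872, 2290745344), (103079215104, 34359738368), (962072674304, 137438953472)] :=
  covD_E kC1_eq (.n 0 (.l 0) (.l 0))
    [(57265487872, 2290745344), (103079215104, 34359738368), (962072674304, 137438953472)] rfl (by decide +kernel)
end

mutual
theorem C1_c0_t74 : CovD 1 gC1 [(61846978560, 2290745344), (1073741824, 1073741824), (893353197568, 68719476736)] :=
  covD_E kC1_eq (.l 0)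
    [(61846978560, 2290745344), (1073741824, 1073741824), (893353197568, 68719476736)] rfl (by decide +kernel)
theorem C1_c0_t77 : CovD 1 gC1 [(61846978560, 2290745344), (536870912, 536870912), (996432412672, 34359738368)] :=
  covD_E kC1_eq (.l 0)
    [(61846978560, 2290745344), (536870912, 536870912), (996432412672, 34359738368)] rfl (by decide +kernel)
end

mutual
theorem C1_c0_t81 : CovD 1 gC1 [(61846978560, 2290745344), (134217728, 134217728), (1047972020224, 17179869184)] :=
  covD_E kC1_eq (.l 0)
    [(61846978560, 2290745344), (134217728, 134217728), (1047972020224, 17179869184)] rfl (by decide +kernel)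
theorem C1_c0_t84 : CovD 1 gC1 [(61846978560, 2290745344), (67108864, 67108864), (1073741824000, 8589934592)] :=
  covD_E kC1_eq (.l 0)
    [(61846978560, 2290745344), (67108864, 67108864), (1073741824000, 8589934592)] rfl (by decide +kernel)
end

mutual
theorem C1_c0_t87 : CovD 1 gC1 [(60701605888, 1145372672), (67108864, 67108864), (1086626725888, 4294967296)] :=
  covD_E kC1_eq (.l 0)
    [(60701605888, 1145372672), (67108864, 67108864), (1086626725888, 4294967296)] rfl (by decide +kernel)
theorem C1_c0_t89 : CovD 1 gC1 [(60701605888, 1145372672), (67108864, 67108864), (1093069176832, 2147483648)] :=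
  covD_E kC1_eq (.l 0)
    [(60701605888, 1145372672), (67108864, 67108864), (1093069176832, 2147483648)] rfl (by decide +kernel)
end

mutual
theorem C1_c0_t91 : CovD 1 gC1 [(60701605888, 1145372672), (67108864, 67108864), (1096290402304, 1073741824)] :=
  covD_E kC1_eq (.l 0)
    [(60701605888, 1145372672), (67108864, 67108864), (1096290402304, 1073741824)] rfl (by decide +kernel)
theorem C1_c0_t93 : CovD 1 gC1 [(60701605888, 1145372672), (67108864, 67108864), (1097901015040, 536870912)] :=
  covD_E kC1_eq (.l 0)
    [(60701605888, 1145372672), (67108864, 67108864), (1097901015040, 536870912)] rfl (by decide +kernel)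
end

mutual
theorem C1_c0_t95 : CovD 1 gC1 [(60701605888, 1145372672), (67108864, 67108864), (1098706321408, 268435456)] :=
  covD_E kC1_eq (.l 0)
    [(60701605888, 1145372672), (67108864, 67108864), (1098706321408, 268435456)] rfl (by decide +kernel)
theorem C1_c0_t97 : CovD 1 gC1 [(60128919552, 572686336), (67108864, 67108864), (1099243192320, 268435456)] :=
  covD_E kC1_eq (.n 0 (.n 0 (.n 0 (.n 0 (.l 1) (.l 1)) (.n 0 (.l 1) (.l 1))) (.n 0 (.n 0 (.l 1) (.l 1)) (.n 0 (.l 1) (.l 1)))) (.n 0 (.n 0 (.n 0 (.l 1) (.l 1)) (.n 0 (.l 1) (.l 1))) (.n 0 (.n 0 (.l 1) (.l 1)) (.n 0 (.l 1) (.l 1)))))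
    [(60128919552, 572686336), (67108864, 67108864), (1099243192320, 268435456)] rfl (by decide +kernel)
end

mutual
theorem C1_c0_t98 : CovD 1 gC1 [(61274292224, 572686336), (67108864, 67108864), (1099243192320, 268435456)] :=
  covD_E kC1_eq (.n 0 (.n 0 (.n 0 (.n 0 (.l 1) (.l 1)) (.n 0 (.l 1) (.l 1))) (.n 0 (.n 0 (.l 1) (.l 1)) (.n 0 (.l 1) (.l 1)))) (.n 0 (.n 0 (.n 0 (.l 1) (.l 1)) (.n 0 (.l 1) (.l 1))) (.n 0 (.n 0 (.l 1) (.l 1)) (.n 0 (.l 1) (.l 1)))))
    [(61274292224, 572686336), (67108864, 67108864), (1099243192320, 268435456)] rfl (by decide +kernel)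
theorem C1_c0_t102 : CovD 1 gC1 [(62992351232, 1145372672), (16777216, 16777216), (1086626725888, 4294967296)] :=
  covD_E kC1_eq (.l 0)
    [(62992351232, 1145372672), (16777216, 16777216), (1086626725888, 4294967296)] rfl (by decide +kernel)
end

mutual
theorem C1_c0_t105 : CovD 1 gC1 [(62992351232, 1145372672), (8388608, 8388608), (1093069176832, 2147483648)] :=
  covD_E kC1_eq (.l 0)
    [(62992351232, 1145372672), (8388608, 8388608), (1093069176832, 2147483648)] rfl (by decide +kernel)
theorem C1_c0_t108 : CovD 1 gC1 [(62992351232, 1145372672), (4194304, 4194304), (1096290402304, 1073741824)] :=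
  covD_E kC1_eq (.l 0)
    [(62992351232, 1145372672), (4194304, 4194304), (1096290402304, 1073741824)] rfl (by decide +kernel)
end

mutual
theorem C1_c0_t110 : CovD 1 gC1 [(62992351232, 1145372672), (4194304, 4194304), (1097901015040, 536870912)] :=
  covD_E kC1_eq (.l 0)
    [(62992351232, 1145372672), (4194304, 4194304), (1097901015040, 536870912)] rfl (by decide +kernel)
theorem C1_c0_t112 : CovD 1 gC1 [(62992351232, 1145372672), (4194304, 4194304), (1098706321408, 268435456)] :=
  covD_E kC1_eq (.l 0)
    [(62992351232, 1145372672), (4194304, 4194304), (1098706321408, 268435456)] rfl (by decide +kernel)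
end

mutual
theorem C1_c0_t114 : CovD 1 gC1 [(62992351232, 1145372672), (4194304, 4194304), (1099108974592, 134217728)] :=
  covD_E kC1_eq (.l 0)
    [(62992351232, 1145372672), (4194304, 4194304), (1099108974592, 134217728)] rfl (by decide +kernel)
theorem C1_c0_t116 : CovD 1 gC1 [(62992351232, 1145372672), (4194304, 4194304), (1099310301184, 67108864)] :=
  covD_E kC1_eq (.l 0)
    [(62992351232, 1145372672), (4194304, 4194304), (1099310301184, 67108864)] rfl (by decide +kernel)
end

mutual
theorem C1_c0_t118 : CovD 1 gC1 [(62419664896, 572686336), (4194304, 4194304), (1099444518912, 67108864)] :=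
  covD_E kC1_eq (.n 0 (.n 0 (.n 2 (.l 0) (.n 0 (.l 1) (.l 1))) (.n 0 (.l 1) (.l 1))) (.n 0 (.n 0 (.l 1) (.l 1)) (.n 0 (.l 1) (.l 1))))
    [(62419664896, 572686336), (4194304, 4194304), (1099444518912, 67108864)] rfl (by decide +kernel)
theorem C1_c0_t119 : CovD 1 gC1 [(63565037568, 572686336), (4194304, 4194304), (1099444518912, 67108864)] :=
  covD_E kC1_eq (.n 0 (.n 0 (.n 0 (.l 1) (.l 1)) (.n 0 (.l 1) (.l 1))) (.n 0 (.n 0 (.l 1) (.l 1)) (.n 0 (.l 1) (.l 1))))
    [(63565037568, 572686336), (4194304, 4194304), (1099444518912, 67108864)] rfl (by decide +kernel)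
end

mutual
theorem C1_c0_t120 : CovD 1 gC1 [(62992351232, 1145372672), (12582912, 4194304), (1097364144128, 2147483648)] :=
  covD_E kC1_eq (.l 0)
    [(62992351232, 1145372672), (12582912, 4194304), (1097364144128, 2147483648)] rfl (by decide +kernel)
theorem C1_c0_t121 : CovD 1 gC1 [(62992351232, 1145372672), (25165824, 8388608), (1095216660480, 4294967296)] :=
  covD_E kC1_eq (.l 0)
    [(62992351232, 1145372672), (25165824, 8388608), (1095216660480, 4294967296)] rfl (by decide +kernel)
end

mutual
theorem C1_c0_t122 : CovD 1 gC1 [(62992351232, 1145372672), (50331648, 16777216), (1090921693184, 8589934592)] :=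
  covD_E kC1_eq (.l 0)
    [(62992351232, 1145372672), (50331648, 16777216), (1090921693184, 8589934592)] rfl (by decide +kernel)
theorem C1_c0_t123 : CovD 1 gC1 [(62992351232, 1145372672), (100663296, 33554432), (1090921693184, 8589934592)] :=
  covD_E kC1_eq (.l 0)
    [(62992351232, 1145372672), (100663296, 33554432), (1090921693184, 8589934592)] rfl (by decide +kernel)
end

mutual
theorem C1_c0_t124 : CovD 1 gC1 [(61846978560, 2290745344), (201326592, 67108864), (1082331758592, 17179869184)] :=
  covD_E kC1_eq (.l 0)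
    [(61846978560, 2290745344), (201326592, 67108864), (1082331758592, 17179869184)] rfl (by decide +kernel)
theorem C1_c0_t125 : CovD 1 gC1 [(61846978560, 2290745344), (402653184, 134217728), (1065151889408, 34359738368)] :=
  covD_E kC1_eq (.l 0)
    [(61846978560, 2290745344), (402653184, 134217728), (1065151889408, 34359738368)] rfl (by decide +kernel)
end

mutual
theorem C1_c0_t126 : CovD 1 gC1 [(61846978560, 2290745344), (805306368, 268435456), (1065151889408, 34359738368)] :=
  covD_E kC1_eq (.l 0)
    [(61846978560, 2290745344), (805306368, 268435456), (1065151889408, 34359738368)] rfl (by decide +kernel)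
theorem C1_c0_t127 : CovD 1 gC1 [(61846978560, 2290745344), (1610612736, 536870912), (1030792151040, 68719476736)] :=
  covD_E kC1_eq (.l 0)
    [(61846978560, 2290745344), (1610612736, 536870912), (1030792151040, 68719476736)] rfl (by decide +kernel)
end

mutual
theorem C1_c0_t128 : CovD 1 gC1 [(61846978560, 2290745344), (3221225472, 1073741824), (962072674304, 137438953472)] :=
  covD_E kC1_eq (.l 0)
    [(61846978560, 2290745344), (3221225472, 1073741824), (962072674304, 137438953472)] rfl (by decide +kernel)
theorem C1_c0_t129 : CovD 1 gC1 [(61846978560, 2290745344), (6442450944, 2147483648), (962072674304, 137438953472)] :=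
  covD_E kC1_eq (.l 0)
    [(61846978560, 2290745344), (6442450944, 2147483648), (962072674304, 137438953472)] rfl (by decide +kernel)
end

mutual
theorem C1_c0_t130 : CovD 1 gC1 [(61846978560, 2290745344), (12884901888, 4294967296), (962072674304, 137438953472)] :=
  covD_E kC1_eq (.l 0)
    [(61846978560, 2290745344), (12884901888, 4294967296), (962072674304, 137438953472)] rfl (by decide +kernel)
theorem C1_c0_t131 : CovD 1 gC1 [(61846978560, 2290745344), (25769803776, 8589934592), (962072674304, 137438953472)] :=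
  covD_E kC1_eq (.n 1 (.l 0) (.l 0))
    [(61846978560, 2290745344), (25769803776, 8589934592), (962072674304, 137438953472)] rfl (by decide +kernel)
end

mutual
theorem C1_c0_t132 : CovD 1 gC1 [(61846978560, 2290745344), (51539607552, 17179869184), (962072674304, 137438953472)] :=
  covD_E kC1_eq (.n 1 (.l 0) (.l 0))
    [(61846978560, 2290745344), (51539607552, 17179869184), (962072674304, 137438953472)] rfl (by decide +kernel)
theorem C1_c0_t133 : CovD 1 gC1 [(61846978560, 2290745344), (103079215104, 34359738368), (962072674304, 137438953472)] :=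
  covD_E kC1_eq (.n 0 (.l 0) (.l 0))
    [(61846978560, 2290745344), (103079215104, 34359738368), (962072674304, 137438953472)] rfl (by decide +kernel)
end

mutual
theorem C1_c0_t135 : CovD 1 gC1 [(68719214592, 4581490688), (68719476736, 68719476736), (893353197568, 68719476736)] :=
  covD_E kC1_eq (.n 1 (.n 1 (.n 1 (.n 0 (.l 0) (.l 0)) (.l 0)) (.l 0)) (.l 0))
    [(68719214592, 4581490688), (68719476736, 68719476736), (893353197568, 68719476736)] rfl (by decide +kernel)
theorem C1_c0_t145 : CovD 1 gC1 [(66428469248, 2290745344), (536870912, 536870912), (996432412672, 34359738368)] :=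
  covD_E kC1_eq (.l 0)
    [(66428469248, 2290745344), (536870912, 536870912), (996432412672, 34359738368)] rfl (by decide +kernel)
end

mutual
theorem C1_c0_t152 : CovD 1 gC1 [(66428469248, 2290745344), (16777216, 16777216), (1047972020224, 17179869184)] :=
  covD_E kC1_eq (.l 0)
    [(66428469248, 2290745344), (16777216, 16777216), (1047972020224, 17179869184)] rfl (by decide +kernel)
theorem C1_c0_t154 : CovD 1 gC1 [(66428469248, 2290745344), (16777216, 16777216), (1073741824000, 8589934592)] :=
  covD_E kC1_eq (.l 0)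
    [(66428469248, 2290745344), (16777216, 16777216), (1073741824000, 8589934592)] rfl (by decide +kernel)
end

mutual
theorem C1_c0_t156 : CovD 1 gC1 [(66428469248, 2290745344), (16777216, 16777216), (1086626725888, 4294967296)] :=
  covD_E kC1_eq (.l 0)
    [(66428469248, 2290745344), (16777216, 16777216), (1086626725888, 4294967296)] rfl (by decide +kernel)
theorem C1_c0_t158 : CovD 1 gC1 [(66428469248, 2290745344), (16777216, 16777216), (1093069176832, 2147483648)] :=
  covD_E kC1_eq (.l 0)
    [(66428469248, 2290745344), (16777216, 16777216), (1093069176832, 2147483648)] rfl (by decide +kernel)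
end

mutual
theorem C1_c0_t160 : CovD 1 gC1 [(66428469248, 2290745344), (16777216, 16777216), (1096290402304, 1073741824)] :=
  covD_E kC1_eq (.l 0)
    [(66428469248, 2290745344), (16777216, 16777216), (1096290402304, 1073741824)] rfl (by decide +kernel)
theorem C1_c0_t162 : CovD 1 gC1 [(66428469248, 2290745344), (16777216, 16777216), (1097901015040, 536870912)] :=
  covD_E kC1_eq (.l 0)
    [(66428469248, 2290745344), (16777216, 16777216), (1097901015040, 536870912)] rfl (by decide +kernel)
end

mutual
theorem C1_c0_t164 : CovD 1 gC1 [(66428469248, 2290745344), (16777216, 16777216), (1098706321408, 268435456)] :=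
  covD_E kC1_eq (.l 0)
    [(66428469248, 2290745344), (16777216, 16777216), (1098706321408, 268435456)] rfl (by decide +kernel)
theorem C1_c0_t166 : CovD 1 gC1 [(66428469248, 2290745344), (16777216, 16777216), (1099108974592, 134217728)] :=
  covD_E kC1_eq (.l 0)
    [(66428469248, 2290745344), (16777216, 16777216), (1099108974592, 134217728)] rfl (by decide +kernel)
end

mutual
theorem C1_c0_t168 : CovD 1 gC1 [(65283096576, 1145372672), (16777216, 16777216), (1099377410048, 134217728)] :=
  covD_E kC1_eq (.n 0 (.n 0 (.n 0 (.n 0 (.l 1) (.l 1)) (.n 0 (.l 1) (.l 1))) (.n 0 (.n 0 (.l 1) (.l 1)) (.n 0 (.l 1) (.l 1)))) (.n 0 (.n 0 (.n 0 (.l 1) (.l 1)) (.n 0 (.l 1) (.l 1))) (.n 0 (.n 0 (.l 1) (.l 1)) (.n 0 (.l 1) (.l 1)))))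
    [(65283096576, 1145372672), (16777216, 16777216), (1099377410048, 134217728)] rfl (by decide +kernel)
theorem C1_c0_t169 : CovD 1 gC1 [(67573841920, 1145372672), (16777216, 16777216), (1099377410048, 134217728)] :=
  covD_E kC1_eq (.n 0 (.n 0 (.n 0 (.n 0 (.l 1) (.l 1)) (.n 0 (.l 1) (.l 1))) (.n 0 (.n 0 (.l 1) (.l 1)) (.n 0 (.l 1) (.l 1)))) (.n 0 (.n 0 (.n 0 (.l 1) (.l 1)) (.n 0 (.l 1) (.l 1))) (.n 0 (.n 0 (.l 1) (.l 1)) (.n 0 (.l 1) (.l 1)))))
    [(67573841920, 1145372672), (16777216, 16777216), (1099377410048, 134217728)] rfl (by decide +kernel)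
end

mutual
theorem C1_c0_t170 : CovD 1 gC1 [(66428469248, 2290745344), (50331648, 16777216), (1065151889408, 34359738368)] :=
  covD_E kC1_eq (.n 2 (.l 0) (.n 2 (.l 0) (.n 0 (.l 0) (.l 0))))
    [(66428469248, 2290745344), (50331648, 16777216), (1065151889408, 34359738368)] rfl (by decide +kernel)
theorem C1_c0_t171 : CovD 1 gC1 [(66428469248, 2290745344), (100663296, 33554432), (1065151889408, 34359738368)] :=
  covD_E kC1_eq (.n 2 (.l 0) (.n 0 (.l 0) (.l 0)))
    [(66428469248, 2290745344), (100663296, 33554432), (1065151889408, 34359738368)] rfl (by decide +kernel)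
end

mutual
theorem C1_c0_t172 : CovD 1 gC1 [(66428469248, 2290745344), (201326592, 67108864), (1065151889408, 34359738368)] :=
  covD_E kC1_eq (.n 2 (.l 0) (.l 0))
    [(66428469248, 2290745344), (201326592, 67108864), (1065151889408, 34359738368)] rfl (by decide +kernel)
theorem C1_c0_t173 : CovD 1 gC1 [(66428469248, 2290745344), (402653184, 134217728), (1065151889408, 34359738368)] :=
  covD_E kC1_eq (.l 0)
    [(66428469248, 2290745344), (402653184, 134217728), (1065151889408, 34359738368)] rfl (by decide +kernel)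
end

mutual
theorem C1_c0_t174 : CovD 1 gC1 [(66428469248, 2290745344), (805306368, 268435456), (1065151889408, 34359738368)] :=
  covD_E kC1_eq (.l 0)
    [(66428469248, 2290745344), (805306368, 268435456), (1065151889408, 34359738368)] rfl (by decide +kernel)
theorem C1_c0_t175 : CovD 1 gC1 [(66428469248, 2290745344), (1610612736, 536870912), (1030792151040, 68719476736)] :=
  covD_E kC1_eq (.l 0)
    [(66428469248, 2290745344), (1610612736, 536870912), (1030792151040, 68719476736)] rfl (by decide +kernel)
end

mutual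
theorem C1_c0_t176 : CovD 1 gC1 [(66428469248, 2290745344), (3221225472, 1073741824), (1030792151040, 68719476736)] :=
  covD_E kC1_eq (.l 0)
    [(66428469248, 2290745344), (3221225472, 1073741824), (1030792151040, 68719476736)] rfl (by decide +kernel)
theorem C1_c0_t177 : CovD 1 gC1 [(66428469248, 2290745344), (6442450944, 2147483648), (1030792151040, 68719476736)] :=
  covD_E kC1_eq (.l 0)
    [(66428469248, 2290745344), (6442450944, 2147483648), (1030792151040, 68719476736)] rfl (by decide +kernel)
end

mutual
theorem C1_c0_t178 : CovD 1 gC1 [(66428469248, 2290745344), (12884901888, 4294967296), (1030792151040, 68719476736)] :=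
  covD_E kC1_eq (.l 0)
    [(66428469248, 2290745344), (12884901888, 4294967296), (1030792151040, 68719476736)] rfl (by decide +kernel)
theorem C1_c0_t179 : CovD 1 gC1 [(66428469248, 2290745344), (25769803776, 8589934592), (1030792151040, 68719476736)] :=
  covD_E kC1_eq (.l 0)
    [(66428469248, 2290745344), (25769803776, 8589934592), (1030792151040, 68719476736)] rfl (by decide +kernel)
end

mutual
theorem C1_c0_t180 : CovD 1 gC1 [(66428469248, 2290745344), (51539607552, 17179869184), (1030792151040, 68719476736)] :=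
  covD_E kC1_eq (.l 0)
    [(66428469248, 2290745344), (51539607552, 17179869184), (1030792151040, 68719476736)] rfl (by decide +kernel)
theorem C1_c0_t181 : CovD 1 gC1 [(66428469248, 2290745344), (103079215104, 34359738368), (1030792151040, 68719476736)] :=
  covD_E kC1_eq (.l 0)
    [(66428469248, 2290745344), (103079215104, 34359738368), (1030792151040, 68719476736)] rfl (by decide +kernel)
end

mutual
theorem C1_c0_t190 : CovD 1 gC1 [(71009959936, 2290745344), (536870912, 536870912), (996432412672, 34359738368)] :=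
  covD_E kC1_eq (.l 0)
    [(71009959936, 2290745344), (536870912, 536870912), (996432412672, 34359738368)] rfl (by decide +kernel)
theorem C1_c0_t197 : CovD 1 gC1 [(71009959936, 2290745344), (16777216, 16777216), (1047972020224, 17179869184)] :=
  covD_E kC1_eq (.l 0)
    [(71009959936, 2290745344), (16777216, 16777216), (1047972020224, 17179869184)] rfl (by decide +kernel)
end

mutual
theorem C1_c0_t199 : CovD 1 gC1 [(71009959936, 2290745344), (16777216, 16777216), (1073741824000, 8589934592)] :=
  covD_E kC1_eq (.l 0)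
    [(71009959936, 2290745344), (16777216, 16777216), (1073741824000, 8589934592)] rfl (by decide +kernel)
theorem C1_c0_t201 : CovD 1 gC1 [(71009959936, 2290745344), (16777216, 16777216), (1086626725888, 4294967296)] :=
  covD_E kC1_eq (.l 0)
    [(71009959936, 2290745344), (16777216, 16777216), (1086626725888, 4294967296)] rfl (by decide +kernel)
end

mutual
theorem C1_c0_t203 : CovD 1 gC1 [(71009959936, 2290745344), (16777216, 16777216), (1093069176832, 2147483648)] :=
  covD_E kC1_eq (.l 0)
    [(71009959936, 2290745344), (16777216, 16777216), (1093069176832, 2147483648)] rfl (by decide +kernel)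
theorem C1_c0_t205 : CovD 1 gC1 [(71009959936, 2290745344), (16777216, 16777216), (1096290402304, 1073741824)] :=
  covD_E kC1_eq (.l 0)
    [(71009959936, 2290745344), (16777216, 16777216), (1096290402304, 1073741824)] rfl (by decide +kernel)
end

mutual
theorem C1_c0_t207 : CovD 1 gC1 [(71009959936, 2290745344), (16777216, 16777216), (1097901015040, 536870912)] :=
  covD_E kC1_eq (.l 0)
    [(71009959936, 2290745344), (16777216, 16777216), (1097901015040, 536870912)] rfl (by decide +kernel)
theorem C1_c0_t209 : CovD 1 gC1 [(71009959936, 2290745344), (16777216, 16777216), (1098706321408, 268435456)] :=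
  covD_E kC1_eq (.l 0)
    [(71009959936, 2290745344), (16777216, 16777216), (1098706321408, 268435456)] rfl (by decide +kernel)
end

mutual
theorem C1_c0_t211 : CovD 1 gC1 [(69864587264, 1145372672), (16777216, 16777216), (1099243192320, 268435456)] :=
  covD_E kC1_eq (.n 0 (.n 0 (.n 0 (.n 0 (.l 1) (.l 1)) (.n 0 (.l 1) (.l 1))) (.n 0 (.n 0 (.l 1) (.l 1)) (.n 0 (.l 1) (.l 1)))) (.n 0 (.n 0 (.n 0 (.l 1) (.l 1)) (.n 0 (.l 1) (.l 1))) (.n 0 (.n 0 (.l 1) (.l 1)) (.n 0 (.l 1) (.l 1)))))
    [(69864587264, 1145372672), (16777216, 16777216), (1099243192320, 268435456)] rfl (by decide +kernel)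
theorem C1_c0_t212 : CovD 1 gC1 [(72155332608, 1145372672), (16777216, 16777216), (1099243192320, 268435456)] :=
  covD_E kC1_eq (.n 0 (.n 0 (.n 0 (.n 0 (.l 1) (.l 1)) (.n 0 (.l 1) (.l 1))) (.n 0 (.n 0 (.l 1) (.l 1)) (.n 0 (.l 1) (.l 1)))) (.n 0 (.n 0 (.n 0 (.l 1) (.l 1)) (.n 0 (.l 1) (.l 1))) (.n 0 (.n 0 (.l 1) (.l 1)) (.n 0 (.l 1) (.l 1)))))
    [(72155332608, 1145372672), (16777216, 16777216), (1099243192320, 268435456)] rfl (by decide +kernel)
end

mutual
theorem C1_c0_t213 : CovD 1 gC1 [(71009959936, 2290745344), (50331648, 16777216), (1065151889408, 34359738368)] :=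
  covD_E kC1_eq (.n 2 (.l 0) (.n 2 (.l 0) (.n 0 (.l 0) (.l 0))))
    [(71009959936, 2290745344), (50331648, 16777216), (1065151889408, 34359738368)] rfl (by decide +kernel)
theorem C1_c0_t214 : CovD 1 gC1 [(71009959936, 2290745344), (100663296, 33554432), (1065151889408, 34359738368)] :=
  covD_E kC1_eq (.n 2 (.l 0) (.n 0 (.l 0) (.l 0)))
    [(71009959936, 2290745344), (100663296, 33554432), (1065151889408, 34359738368)] rfl (by decide +kernel)
end

mutual
theorem C1_c0_t215 : CovD 1 gC1 [(71009959936, 2290745344), (201326592, 67108864), (1065151889408, 34359738368)] :=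
  covD_E kC1_eq (.n 2 (.l 0) (.l 0))
    [(71009959936, 2290745344), (201326592, 67108864), (1065151889408, 34359738368)] rfl (by decide +kernel)
theorem C1_c0_t216 : CovD 1 gC1 [(71009959936, 2290745344), (402653184, 134217728), (1065151889408, 34359738368)] :=
  covD_E kC1_eq (.l 0)
    [(71009959936, 2290745344), (402653184, 134217728), (1065151889408, 34359738368)] rfl (by decide +kernel)
end

mutual
theorem C1_c0_t217 : CovD 1 gC1 [(71009959936, 2290745344), (805306368, 268435456), (1065151889408, 34359738368)] :=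
  covD_E kC1_eq (.l 0)
    [(71009959936, 2290745344), (805306368, 268435456), (1065151889408, 34359738368)] rfl (by decide +kernel)
theorem C1_c0_t218 : CovD 1 gC1 [(71009959936, 2290745344), (1610612736, 536870912), (1030792151040, 68719476736)] :=
  covD_E kC1_eq (.l 0)
    [(71009959936, 2290745344), (1610612736, 536870912), (1030792151040, 68719476736)] rfl (by decide +kernel)
end

mutual
theorem C1_c0_t219 : CovD 1 gC1 [(71009959936, 2290745344), (3221225472, 1073741824), (1030792151040, 68719476736)] :=
  covD_E kC1_eq (.l 0)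
    [(71009959936, 2290745344), (3221225472, 1073741824), (1030792151040, 68719476736)] rfl (by decide +kernel)
theorem C1_c0_t220 : CovD 1 gC1 [(71009959936, 2290745344), (6442450944, 2147483648), (1030792151040, 68719476736)] :=
  covD_E kC1_eq (.l 0)
    [(71009959936, 2290745344), (6442450944, 2147483648), (1030792151040, 68719476736)] rfl (by decide +kernel)
end

mutual
theorem C1_c0_t221 : CovD 1 gC1 [(71009959936, 2290745344), (12884901888, 4294967296), (1030792151040, 68719476736)] :=
  covD_E kC1_eq (.l 0)
    [(71009959936, 2290745344), (12884901888, 4294967296), (1030792151040, 68719476736)] rfl (by decide +kernel)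
theorem C1_c0_t222 : CovD 1 gC1 [(71009959936, 2290745344), (25769803776, 8589934592), (1030792151040, 68719476736)] :=
  covD_E kC1_eq (.l 0)
    [(71009959936, 2290745344), (25769803776, 8589934592), (1030792151040, 68719476736)] rfl (by decide +kernel)
end

mutual
theorem C1_c0_t223 : CovD 1 gC1 [(71009959936, 2290745344), (51539607552, 17179869184), (1030792151040, 68719476736)] :=
  covD_E kC1_eq (.l 0)
    [(71009959936, 2290745344), (51539607552, 17179869184), (1030792151040, 68719476736)] rfl (by decide +kernel)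
theorem C1_c0_t224 : CovD 1 gC1 [(71009959936, 2290745344), (103079215104, 34359738368), (1030792151040, 68719476736)] :=
  covD_E kC1_eq (.l 0)
    [(71009959936, 2290745344), (103079215104, 34359738368), (1030792151040, 68719476736)] rfl (by decide +kernel)
end

mutual
theorem C1_c0_t231 : CovD 1 gC1 [(82463686656, 9162981376), (2147483648, 2147483648), (687194767360, 137438953472)] :=
  covD_E kC1_eq (.n 2 (.l 0) (.l 0))
    [(82463686656, 9162981376), (2147483648, 2147483648), (687194767360, 137438953472)] rfl (by decide +kernel)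
theorem C1_c0_t233 : CovD 1 gC1 [(82463686656, 9162981376), (2147483648, 2147483648), (893353197568, 68719476736)] :=
  covD_E kC1_eq (.l 0)
    [(82463686656, 9162981376), (2147483648, 2147483648), (893353197568, 68719476736)] rfl (by decide +kernel)
end

mutual
theorem C1_c0_t236 : CovD 1 gC1 [(82463686656, 9162981376), (1073741824, 1073741824), (996432412672, 34359738368)] :=
  covD_E kC1_eq (.l 0)
    [(82463686656, 9162981376), (1073741824, 1073741824), (996432412672, 34359738368)] rfl (by decide +kernel)
theorem C1_c0_t239 : CovD 1 gC1 [(82463686656, 9162981376), (536870912, 536870912), (1047972020224, 17179869184)] :=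
  covD_E kC1_eq (.l 0)
    [(82463686656, 9162981376), (536870912, 536870912), (1047972020224, 17179869184)] rfl (by decide +kernel)
end

mutual
theorem C1_c0_t242 : CovD 1 gC1 [(82463686656, 9162981376), (268435456, 268435456), (1073741824000, 8589934592)] :=
  covD_E kC1_eq (.l 0)
    [(82463686656, 9162981376), (268435456, 268435456), (1073741824000, 8589934592)] rfl (by decide +kernel)
theorem C1_c0_t248 : CovD 1 gC1 [(77882195968, 4581490688), (33554432, 33554432), (1086626725888, 4294967296)] :=
  covD_E kC1_eq (.l 0)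
    [(77882195968, 4581490688), (33554432, 33554432), (1086626725888, 4294967296)] rfl (by decide +kernel)
end

mutual
theorem C1_c0_t250 : CovD 1 gC1 [(77882195968, 4581490688), (33554432, 33554432), (1093069176832, 2147483648)] :=
  covD_E kC1_eq (.l 0)
    [(77882195968, 4581490688), (33554432, 33554432), (1093069176832, 2147483648)] rfl (by decide +kernel)
theorem C1_c0_t252 : CovD 1 gC1 [(77882195968, 4581490688), (33554432, 33554432), (1096290402304, 1073741824)] :=
  covD_E kC1_eq (.l 0)
    [(77882195968, 4581490688), (33554432, 33554432), (1096290402304, 1073741824)] rfl (by decide +kernel)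
end

mutual
theorem C1_c0_t254 : CovD 1 gC1 [(77882195968, 4581490688), (33554432, 33554432), (1097901015040, 536870912)] :=
  covD_E kC1_eq (.l 0)
    [(77882195968, 4581490688), (33554432, 33554432), (1097901015040, 536870912)] rfl (by decide +kernel)
theorem C1_c0_t258 : CovD 1 gC1 [(73873391616, 572686336), (33554432, 33554432), (1098974756864, 536870912)] :=
  covD_E kC1_eq (.n 0 (.n 0 (.n 1 (.n 0 (.l 1) (.l 1)) (.l 0)) (.n 0 (.l 1) (.l 1))) (.n 0 (.n 0 (.l 1) (.l 1)) (.n 0 (.l 1) (.l 1))))
    [(73873391616, 572686336), (33554432, 33554432), (1098974756864, 536870912)] rfl (by decide +kernel)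
end

mutual
theorem C1_c0_t259 : CovD 1 gC1 [(75018764288, 572686336), (33554432, 33554432), (1098974756864, 536870912)] :=
  covD_E kC1_eq (.n 0 (.n 0 (.n 0 (.l 1) (.l 1)) (.n 0 (.l 1) (.l 1))) (.n 0 (.n 0 (.l 1) (.l 1)) (.n 0 (.l 1) (.l 1))))
    [(75018764288, 572686336), (33554432, 33554432), (1098974756864, 536870912)] rfl (by decide +kernel)
theorem C1_c0_t260 : CovD 1 gC1 [(76736823296, 1145372672), (33554432, 33554432), (1098974756864, 536870912)] :=
  covD_E kC1_eq (.n 0 (.n 0 (.n 0 (.n 0 (.l 1) (.l 1)) (.n 0 (.l 1) (.l 1))) (.n 0 (.n 0 (.l 1) (.l 1)) (.n 0 (.l 1) (.l 1)))) (.n 0 (.n 0 (.n 0 (.l 1) (.l 1)) (.n 0 (.l 1) (.l 1))) (.n 0 (.n 0 (.l 1) (.l 1)) (.n 0 (.l 1) (.l 1)))))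
    [(76736823296, 1145372672), (33554432, 33554432), (1098974756864, 536870912)] rfl (by decide +kernel)
end

mutual
theorem C1_c0_t262 : CovD 1 gC1 [(79027568640, 1145372672), (33554432, 33554432), (1098974756864, 536870912)] :=
  covD_E kC1_eq (.n 0 (.n 0 (.n 0 (.n 0 (.l 1) (.l 1)) (.n 0 (.l 1) (.l 1))) (.n 0 (.n 0 (.l 1) (.l 1)) (.n 0 (.l 1) (.l 1)))) (.n 0 (.n 0 (.n 0 (.l 1) (.l 1)) (.n 0 (.l 1) (.l 1))) (.n 0 (.n 0 (.l 1) (.l 1)) (.n 0 (.l 1) (.l 1)))))
    [(79027568640, 1145372672), (33554432, 33554432), (1098974756864, 536870912)] rfl (by decide +kernel)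
theorem C1_c0_t263 : CovD 1 gC1 [(81318313984, 1145372672), (33554432, 33554432), (1098974756864, 536870912)] :=
  covD_E kC1_eq (.n 0 (.n 0 (.n 0 (.n 0 (.l 1) (.l 1)) (.n 0 (.l 1) (.l 1))) (.n 0 (.n 0 (.l 1) (.l 1)) (.n 0 (.l 1) (.l 1)))) (.n 0 (.n 0 (.n 0 (.l 1) (.l 1)) (.n 0 (.l 1) (.l 1))) (.n 0 (.n 0 (.l 1) (.l 1)) (.n 0 (.l 1) (.l 1)))))
    [(81318313984, 1145372672), (33554432, 33554432), (1098974756864, 536870912)] rfl (by decide +kernel)
end

mutual
theorem C1_c0_t264 : CovD 1 gC1 [(77882195968, 4581490688), (100663296, 33554432), (1090921693184, 8589934592)] :=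
  covD_E kC1_eq (.n 0 (.l 0) (.l 0))
    [(77882195968, 4581490688), (100663296, 33554432), (1090921693184, 8589934592)] rfl (by decide +kernel)
theorem C1_c0_t265 : CovD 1 gC1 [(77882195968, 4581490688), (201326592, 67108864), (1090921693184, 8589934592)] :=
  covD_E kC1_eq (.l 0)
    [(77882195968, 4581490688), (201326592, 67108864), (1090921693184, 8589934592)] rfl (by decide +kernel)
end

mutual
theorem C1_c0_t269 : CovD 1 gC1 [(87045177344, 4581490688), (33554432, 33554432), (1086626725888, 4294967296)] :=
  covD_E kC1_eq (.l 0)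
    [(87045177344, 4581490688), (33554432, 33554432), (1086626725888, 4294967296)] rfl (by decide +kernel)
theorem C1_c0_t272 : CovD 1 gC1 [(87045177344, 4581490688), (16777216, 16777216), (1093069176832, 2147483648)] :=
  covD_E kC1_eq (.l 0)
    [(87045177344, 4581490688), (16777216, 16777216), (1093069176832, 2147483648)] rfl (by decide +kernel)
end

mutual
theorem C1_c0_t274 : CovD 1 gC1 [(87045177344, 4581490688), (16777216, 16777216), (1096290402304, 1073741824)] :=
  covD_E kC1_eq (.l 0)
    [(87045177344, 4581490688), (16777216, 16777216), (1096290402304, 1073741824)] rfl (by decide +kernel)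
theorem C1_c0_t276 : CovD 1 gC1 [(87045177344, 4581490688), (16777216, 16777216), (1097901015040, 536870912)] :=
  covD_E kC1_eq (.l 0)
    [(87045177344, 4581490688), (16777216, 16777216), (1097901015040, 536870912)] rfl (by decide +kernel)
end

mutual
theorem C1_c0_t278 : CovD 1 gC1 [(87045177344, 4581490688), (16777216, 16777216), (1098706321408, 268435456)] :=
  covD_E kC1_eq (.l 0)
    [(87045177344, 4581490688), (16777216, 16777216), (1098706321408, 268435456)] rfl (by decide +kernel)
theorem C1_c0_t280 : CovD 1 gC1 [(87045177344, 4581490688), (16777216, 16777216), (1099108974592, 134217728)] :=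
  covD_E kC1_eq (.l 0)
    [(87045177344, 4581490688), (16777216, 16777216), (1099108974592, 134217728)] rfl (by decide +kernel)
end

mutual
theorem C1_c0_t282 : CovD 1 gC1 [(84754432000, 2290745344), (16777216, 16777216), (1099377410048, 134217728)] :=
  covD_E kC1_eq (.n 0 (.n 0 (.n 0 (.n 0 (.l 1) (.l 1)) (.n 0 (.l 1) (.l 1))) (.n 0 (.n 0 (.l 1) (.l 1)) (.n 0 (.l 1) (.l 1)))) (.n 0 (.n 0 (.n 0 (.l 1) (.l 1)) (.n 0 (.l 1) (.l 1))) (.n 0 (.n 0 (.l 1) (.l 1)) (.n 0 (.l 1) (.l 1)))))
    [(84754432000, 2290745344), (16777216, 16777216), (1099377410048, 134217728)] rfl (by decide +kernel)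
theorem C1_c0_t283 : CovD 1 gC1 [(89335922688, 2290745344), (16777216, 16777216), (1099377410048, 134217728)] :=
  covD_E kC1_eq (.n 0 (.n 0 (.n 0 (.n 0 (.l 1) (.l 1)) (.n 0 (.l 1) (.l 1))) (.n 0 (.n 0 (.l 1) (.l 1)) (.n 0 (.l 1) (.l 1)))) (.n 0 (.n 0 (.n 0 (.l 1) (.l 1)) (.n 0 (.l 1) (.l 1))) (.n 0 (.n 0 (.l 1) (.l 1)) (.n 0 (.l 1) (.l 1)))))
    [(89335922688, 2290745344), (16777216, 16777216), (1099377410048, 134217728)] rfl (by decide +kernel)
end

mutual
theorem C1_c0_t284 : CovD 1 gC1 [(87045177344, 4581490688), (50331648, 16777216), (1095216660480, 4294967296)] :=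
  covD_E kC1_eq (.l 0)
    [(87045177344, 4581490688), (50331648, 16777216), (1095216660480, 4294967296)] rfl (by decide +kernel)
theorem C1_c0_t285 : CovD 1 gC1 [(87045177344, 4581490688), (100663296, 33554432), (1090921693184, 8589934592)] :=
  covD_E kC1_eq (.n 0 (.l 0) (.l 0))
    [(87045177344, 4581490688), (100663296, 33554432), (1090921693184, 8589934592)] rfl (by decide +kernel)
end

mutual
theorem C1_c0_t286 : CovD 1 gC1 [(87045177344, 4581490688), (201326592, 67108864), (1090921693184, 8589934592)] :=
  covD_E kC1_eq (.l 0)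
    [(87045177344, 4581490688), (201326592, 67108864), (1090921693184, 8589934592)] rfl (by decide +kernel)
theorem C1_c0_t287 : CovD 1 gC1 [(82463686656, 9162981376), (402653184, 134217728), (1090921693184, 8589934592)] :=
  covD_E kC1_eq (.l 0)
    [(82463686656, 9162981376), (402653184, 134217728), (1090921693184, 8589934592)] rfl (by decide +kernel)
end

mutual
theorem C1_c0_t288 : CovD 1 gC1 [(82463686656, 9162981376), (805306368, 268435456), (1082331758592, 17179869184)] :=
  covD_E kC1_eq (.l 0)
    [(82463686656, 9162981376), (805306368, 268435456), (1082331758592, 17179869184)] rfl (by decide +kernel)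
theorem C1_c0_t289 : CovD 1 gC1 [(82463686656, 9162981376), (1610612736, 536870912), (1065151889408, 34359738368)] :=
  covD_E kC1_eq (.l 0)
    [(82463686656, 9162981376), (1610612736, 536870912), (1065151889408, 34359738368)] rfl (by decide +kernel)
end

mutual
theorem C1_c0_t290 : CovD 1 gC1 [(82463686656, 9162981376), (3221225472, 1073741824), (1030792151040, 68719476736)] :=
  covD_E kC1_eq (.l 0)
    [(82463686656, 9162981376), (3221225472, 1073741824), (1030792151040, 68719476736)] rfl (by decide +kernel)
theorem C1_c0_t291 : CovD 1 gC1 [(82463686656, 9162981376), (6442450944, 2147483648), (824633720832, 274877906944)] :=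
  covD_E kC1_eq (.n 2 (.n 2 (.l 0) (.l 0)) (.n 2 (.l 0) (.l 0)))
    [(82463686656, 9162981376), (6442450944, 2147483648), (824633720832, 274877906944)] rfl (by decide +kernel)
end

mutual
theorem C1_c0_t292 : CovD 1 gC1 [(82463686656, 9162981376), (12884901888, 4294967296), (824633720832, 274877906944)] :=
  covD_E kC1_eq (.n 2 (.n 2 (.l 0) (.l 0)) (.n 2 (.l 0) (.l 0)))
    [(82463686656, 9162981376), (12884901888, 4294967296), (824633720832, 274877906944)] rfl (by decide +kernel)
theorem C1_c0_t293 : CovD 1 gC1 [(82463686656, 9162981376), (25769803776, 8589934592), (824633720832, 274877906944)] :=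
  covD_E kC1_eq (.n 1 (.n 2 (.n 0 (.l 0) (.l 0)) (.n 2 (.l 0) (.l 0))) (.n 0 (.n 2 (.l 0) (.l 0)) (.n 2 (.l 0) (.l 0))))
    [(82463686656, 9162981376), (25769803776, 8589934592), (824633720832, 274877906944)] rfl (by decide +kernel)
end

mutual
theorem C1_c0_t294 : CovD 1 gC1 [(82463686656, 9162981376), (51539607552, 17179869184), (824633720832, 274877906944)] :=
  covD_E kC1_eq (.n 1 (.n 2 (.n 0 (.l 0) (.l 0)) (.n 2 (.l 0) (.n 0 (.l 0) (.l 0)))) (.n 2 (.l 0) (.n 0 (.l 0) (.l 0))))
    [(82463686656, 9162981376), (51539607552, 17179869184), (824633720832, 274877906944)] rfl (by decide +kernel)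
theorem C1_c0_t295 : CovD 1 gC1 [(82463686656, 9162981376), (103079215104, 34359738368), (824633720832, 274877906944)] :=
  covD_E kC1_eq (.n 1 (.n 2 (.l 0) (.n 0 (.l 0) (.l 0))) (.n 2 (.l 0) (.l 0)))
    [(82463686656, 9162981376), (103079215104, 34359738368), (824633720832, 274877906944)] rfl (by decide +kernel)
end

mutual
theorem C1_c0_t296 : CovD 1 gC1 [(73300705280, 18325962752), (206158430208, 68719476736), (824633720832, 274877906944)] :=
  covD_E kC1_eq (.n 0 (.n 0 (.n 2 (.l 0) (.n 0 (.l 0) (.l 0))) (.n 2 (.l 0) (.l 0))) (.n 0 (.n 2 (.l 0) (.l 0)) (.n 2 (.l 0) (.l 0))))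
    [(73300705280, 18325962752), (206158430208, 68719476736), (824633720832, 274877906944)] rfl (by decide +kernel)
theorem D1_c0_t1 : CovD 1 gD1 [(64137723904, 9162981376), (137438953472, 137438953472), (863554764800, 863554764800)] :=
  covD_E kD1_eq (.n 2 (.n 2 (.n 2 (.l 0) (.l 0)) (.n 0 (.n 1 (.l 0) (.l 0)) (.n 1 (.l 0) (.l 0)))) (.n 0 (.n 1 (.n 2 (.l 0) (.l 0)) (.n 2 (.l 0) (.l 0))) (.n 1 (.n 2 (.l 0) (.l 0)) (.n 2 (.l 0) (.l 0)))))
    [(64137723904, 9162981376), (137438953472, 137438953472), (863554764800, 863554764800)] rfl (by decide +kernel)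
end

theorem D1_c0_t2 : CovD 1 gD1 [(82463686656, 9162981376), (137438953472, 137438953472), (863554764800, 863554764800)] :=
  covD_E kD1_eq (.n 2 (.n 2 (.n 1 (.l 0) (.l 0)) (.n 2 (.l 0) (.l 0))) (.n 2 (.n 2 (.l 0) (.l 0)) (.n 2 (.l 0) (.l 0))))
    [(82463686656, 9162981376), (137438953472, 137438953472), (863554764800, 863554764800)] rfl (by decide +kernel)

theorem C1_c0_t4 : CovD 1 gC1 [(64137723904, 9162981376), (34359738368, 34359738368), (274877906944, 274877906944)] :=
  covD_split 1 (by decide +kernel) C1_c0_t5 C1_c0_t6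

theorem C1_c0_t3 : CovD 1 gC1 [(64137723904, 9162981376), (68719476736, 68719476736), (274877906944, 274877906944)] :=
  covD_split 1 (by decide +kernel) C1_c0_t4 C1_c0_t7

theorem C1_c0_t2 : CovD 1 gC1 [(64137723904, 9162981376), (137438953472, 137438953472), (274877906944, 274877906944)] :=
  covD_split 1 (by decide +kernel) C1_c0_t3 C1_c0_t8

theorem C1_c0_t10 : CovD 1 gC1 [(82463686656, 9162981376), (68719476736, 68719476736), (274877906944, 274877906944)] :=
  covD_split 1 (by decide +kernel) C1_c0_t11 C1_c0_t12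

theorem C1_c0_t9 : CovD 1 gC1 [(82463686656, 9162981376), (137438953472, 137438953472), (274877906944, 274877906944)] :=
  covD_split 1 (by decide +kernel) C1_c0_t10 C1_c0_t13

theorem C1_c0_t1 : CovD 1 gC1 [(73300705280, 18325962752), (137438953472, 137438953472), (274877906944, 274877906944)] :=
  covD_split 0 (by decide +kernel) C1_c0_t2 C1_c0_t9

theorem C1_c0_t50 : CovD 1 gC1 [(56120115200, 1145372672), (33554432, 33554432), (1099243192320, 268435456)] :=
  covD_split 0 (by decide +kernel) C1_c0_t51 C1_c0_t52

theorem C1_c0_t53 : CovD 1 gC1 [(58410860544, 1145372672), (33554432, 33554432), (1099243192320, 268435456)] :=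
  covD_split 0 (by decide +kernel) C1_c0_t54 C1_c0_t55

theorem C1_c0_t49 : CovD 1 gC1 [(57265487872, 2290745344), (33554432, 33554432), (1099243192320, 268435456)] :=
  covD_split 0 (by decide +kernel) C1_c0_t50 C1_c0_t53

theorem C1_c0_t47 : CovD 1 gC1 [(57265487872, 2290745344), (33554432, 33554432), (1098974756864, 536870912)] :=
  covD_split 2 (by decide +kernel) C1_c0_t48 C1_c0_t49

theorem C1_c0_t45 : CovD 1 gC1 [(57265487872, 2290745344), (33554432, 33554432), (1098437885952, 1073741824)] :=
  covD_split 2 (by decide +kernel) C1_c0_t46 C1_c0_t47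

theorem C1_c0_t43 : CovD 1 gC1 [(57265487872, 2290745344), (33554432, 33554432), (1097364144128, 2147483648)] :=
  covD_split 2 (by decide +kernel) C1_c0_t44 C1_c0_t45

theorem C1_c0_t41 : CovD 1 gC1 [(57265487872, 2290745344), (33554432, 33554432), (1095216660480, 4294967296)] :=
  covD_split 2 (by decide +kernel) C1_c0_t42 C1_c0_t43

theorem C1_c0_t39 : CovD 1 gC1 [(57265487872, 2290745344), (33554432, 33554432), (1090921693184, 8589934592)] :=
  covD_split 2 (by decide +kernel) C1_c0_t40 C1_c0_t41

theorem C1_c0_t37 : CovD 1 gC1 [(57265487872, 2290745344), (33554432, 33554432), (1082331758592, 17179869184)] :=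
  covD_split 2 (by decide +kernel) C1_c0_t38 C1_c0_t39

theorem C1_c0_t35 : CovD 1 gC1 [(57265487872, 2290745344), (33554432, 33554432), (1065151889408, 34359738368)] :=
  covD_split 2 (by decide +kernel) C1_c0_t36 C1_c0_t37

theorem C1_c0_t33 : CovD 1 gC1 [(57265487872, 2290745344), (33554432, 33554432), (1030792151040, 68719476736)] :=
  covD_split 2 (by decide +kernel) C1_c0_t34 C1_c0_t35

theorem C1_c0_t31 : CovD 1 gC1 [(57265487872, 2290745344), (33554432, 33554432), (962072674304, 137438953472)] :=
  covD_split 2 (by decide +kernel) C1_c0_t32 C1_c0_t33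

theorem C1_c0_t30 : CovD 1 gC1 [(57265487872, 2290745344), (67108864, 67108864), (962072674304, 137438953472)] :=
  covD_split 1 (by decide +kernel) C1_c0_t31 C1_c0_t56

theorem C1_c0_t29 : CovD 1 gC1 [(57265487872, 2290745344), (134217728, 134217728), (962072674304, 137438953472)] :=
  covD_split 1 (by decide +kernel) C1_c0_t30 C1_c0_t57

theorem C1_c0_t28 : CovD 1 gC1 [(57265487872, 2290745344), (268435456, 268435456), (962072674304, 137438953472)] :=
  covD_split 1 (by decide +kernel) C1_c0_t29 C1_c0_t58

theorem C1_c0_t27 : CovD 1 gC1 [(57265487872, 2290745344), (536870912, 536870912), (962072674304, 137438953472)] :=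
  covD_split 1 (by decide +kernel) C1_c0_t28 C1_c0_t59

theorem C1_c0_t26 : CovD 1 gC1 [(57265487872, 2290745344), (1073741824, 1073741824), (962072674304, 137438953472)] :=
  covD_split 1 (by decide +kernel) C1_c0_t27 C1_c0_t60

theorem C1_c0_t25 : CovD 1 gC1 [(57265487872, 2290745344), (2147483648, 2147483648), (962072674304, 137438953472)] :=
  covD_split 1 (by decide +kernel) C1_c0_t26 C1_c0_t61

theorem C1_c0_t24 : CovD 1 gC1 [(57265487872, 2290745344), (4294967296, 4294967296), (962072674304, 137438953472)] :=
  covD_split 1 (by decide +kernel) C1_c0_t25 C1_c0_t62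

theorem C1_c0_t23 : CovD 1 gC1 [(57265487872, 2290745344), (8589934592, 8589934592), (962072674304, 137438953472)] :=
  covD_split 1 (by decide +kernel) C1_c0_t24 C1_c0_t63

theorem C1_c0_t22 : CovD 1 gC1 [(57265487872, 2290745344), (17179869184, 17179869184), (962072674304, 137438953472)] :=
  covD_split 1 (by decide +kernel) C1_c0_t23 C1_c0_t64

theorem C1_c0_t21 : CovD 1 gC1 [(57265487872, 2290745344), (34359738368, 34359738368), (962072674304, 137438953472)] :=
  covD_split 1 (by decide +kernel) C1_c0_t22 C1_c0_t65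

theorem C1_c0_t20 : CovD 1 gC1 [(57265487872, 2290745344), (68719476736, 68719476736), (962072674304, 137438953472)] :=
  covD_split 1 (by decide +kernel) C1_c0_t21 C1_c0_t66

theorem C1_c0_t96 : CovD 1 gC1 [(60701605888, 1145372672), (67108864, 67108864), (1099243192320, 268435456)] :=
  covD_split 0 (by decide +kernel) C1_c0_t97 C1_c0_t98

theorem C1_c0_t94 : CovD 1 gC1 [(60701605888, 1145372672), (67108864, 67108864), (1098974756864, 536870912)] :=
  covD_split 2 (by decide +kernel) C1_c0_t95 C1_c0_t96

theorem C1_c0_t92 : CovD 1 gC1 [(60701605888, 1145372672), (67108864, 67108864), (1098437885952, 1073741824)] :=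
  covD_split 2 (by decide +kernel) C1_c0_t93 C1_c0_t94

theorem C1_c0_t90 : CovD 1 gC1 [(60701605888, 1145372672), (67108864, 67108864), (1097364144128, 2147483648)] :=
  covD_split 2 (by decide +kernel) C1_c0_t91 C1_c0_t92

theorem C1_c0_t88 : CovD 1 gC1 [(60701605888, 1145372672), (67108864, 67108864), (1095216660480, 4294967296)] :=
  covD_split 2 (by decide +kernel) C1_c0_t89 C1_c0_t90

theorem C1_c0_t86 : CovD 1 gC1 [(60701605888, 1145372672), (67108864, 67108864), (1090921693184, 8589934592)] :=
  covD_split 2 (by decide +kernel) C1_c0_t87 C1_c0_t88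

theorem C1_c0_t117 : CovD 1 gC1 [(62992351232, 1145372672), (4194304, 4194304), (1099444518912, 67108864)] :=
  covD_split 0 (by decide +kernel) C1_c0_t118 C1_c0_t119

theorem C1_c0_t115 : CovD 1 gC1 [(62992351232, 1145372672), (4194304, 4194304), (1099377410048, 134217728)] :=
  covD_split 2 (by decide +kernel) C1_c0_t116 C1_c0_t117

theorem C1_c0_t113 : CovD 1 gC1 [(62992351232, 1145372672), (4194304, 4194304), (1099243192320, 268435456)] :=
  covD_split 2 (by decide +kernel) C1_c0_t114 C1_c0_t115

theorem C1_c0_t111 : CovD 1 gC1 [(62992351232, 1145372672), (4194304, 4194304), (1098974756864, 536870912)] :=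
  covD_split 2 (by decide +kernel) C1_c0_t112 C1_c0_t113

theorem C1_c0_t109 : CovD 1 gC1 [(62992351232, 1145372672), (4194304, 4194304), (1098437885952, 1073741824)] :=
  covD_split 2 (by decide +kernel) C1_c0_t110 C1_c0_t111

theorem C1_c0_t107 : CovD 1 gC1 [(62992351232, 1145372672), (4194304, 4194304), (1097364144128, 2147483648)] :=
  covD_split 2 (by decide +kernel) C1_c0_t108 C1_c0_t109

theorem C1_c0_t106 : CovD 1 gC1 [(62992351232, 1145372672), (8388608, 8388608), (1097364144128, 2147483648)] :=
  covD_split 1 (by decide +kernel) C1_c0_t107 C1_c0_t120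

theorem C1_c0_t104 : CovD 1 gC1 [(62992351232, 1145372672), (8388608, 8388608), (1095216660480, 4294967296)] :=
  covD_split 2 (by decide +kernel) C1_c0_t105 C1_c0_t106

theorem C1_c0_t103 : CovD 1 gC1 [(62992351232, 1145372672), (16777216, 16777216), (1095216660480, 4294967296)] :=
  covD_split 1 (by decide +kernel) C1_c0_t104 C1_c0_t121

theorem C1_c0_t101 : CovD 1 gC1 [(62992351232, 1145372672), (16777216, 16777216), (1090921693184, 8589934592)] :=
  covD_split 2 (by decide +kernel) C1_c0_t102 C1_c0_t103

theorem C1_c0_t100 : CovD 1 gC1 [(62992351232, 1145372672), (33554432, 33554432), (1090921693184, 8589934592)] :=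
  covD_split 1 (by decide +kernel) C1_c0_t101 C1_c0_t122

theorem C1_c0_t99 : CovD 1 gC1 [(62992351232, 1145372672), (67108864, 67108864), (1090921693184, 8589934592)] :=
  covD_split 1 (by decide +kernel) C1_c0_t100 C1_c0_t123

theorem C1_c0_t85 : CovD 1 gC1 [(61846978560, 2290745344), (67108864, 67108864), (1090921693184, 8589934592)] :=
  covD_split 0 (by decide +kernel) C1_c0_t86 C1_c0_t99

theorem C1_c0_t83 : CovD 1 gC1 [(61846978560, 2290745344), (67108864, 67108864), (1082331758592, 17179869184)] :=
  covD_split 2 (by decide +kernel) C1_c0_t84 C1_c0_t85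

theorem C1_c0_t82 : CovD 1 gC1 [(61846978560, 2290745344), (134217728, 134217728), (1082331758592, 17179869184)] :=
  covD_split 1 (by decide +kernel) C1_c0_t83 C1_c0_t124

theorem C1_c0_t80 : CovD 1 gC1 [(61846978560, 2290745344), (134217728, 134217728), (1065151889408, 34359738368)] :=
  covD_split 2 (by decide +kernel) C1_c0_t81 C1_c0_t82

theorem C1_c0_t79 : CovD 1 gC1 [(61846978560, 2290745344), (268435456, 268435456), (1065151889408, 34359738368)] :=
  covD_split 1 (by decide +kernel) C1_c0_t80 C1_c0_t125

theorem C1_c0_t78 : CovD 1 gC1 [(61846978560, 2290745344), (536870912, 536870912), (1065151889408, 34359738368)] :=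
  covD_split 1 (by decide +kernel) C1_c0_t79 C1_c0_t126

theorem C1_c0_t76 : CovD 1 gC1 [(61846978560, 2290745344), (536870912, 536870912), (1030792151040, 68719476736)] :=
  covD_split 2 (by decide +kernel) C1_c0_t77 C1_c0_t78

theorem C1_c0_t75 : CovD 1 gC1 [(61846978560, 2290745344), (1073741824, 1073741824), (1030792151040, 68719476736)] :=
  covD_split 1 (by decide +kernel) C1_c0_t76 C1_c0_t127

theorem C1_c0_t73 : CovD 1 gC1 [(61846978560, 2290745344), (1073741824, 1073741824), (962072674304, 137438953472)] :=
  covD_split 2 (by decide +kernel) C1_c0_t74 C1_c0_t75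

theorem C1_c0_t72 : CovD 1 gC1 [(61846978560, 2290745344), (2147483648, 2147483648), (962072674304, 137438953472)] :=
  covD_split 1 (by decide +kernel) C1_c0_t73 C1_c0_t128

theorem C1_c0_t71 : CovD 1 gC1 [(61846978560, 2290745344), (4294967296, 4294967296), (962072674304, 137438953472)] :=
  covD_split 1 (by decide +kernel) C1_c0_t72 C1_c0_t129

theorem C1_c0_t70 : CovD 1 gC1 [(61846978560, 2290745344), (8589934592, 8589934592), (962072674304, 137438953472)] :=
  covD_split 1 (by decide +kernel) C1_c0_t71 C1_c0_t130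

theorem C1_c0_t69 : CovD 1 gC1 [(61846978560, 2290745344), (17179869184, 17179869184), (962072674304, 137438953472)] :=
  covD_split 1 (by decide +kernel) C1_c0_t70 C1_c0_t131

theorem C1_c0_t68 : CovD 1 gC1 [(61846978560, 2290745344), (34359738368, 34359738368), (962072674304, 137438953472)] :=
  covD_split 1 (by decide +kernel) C1_c0_t69 C1_c0_t132

theorem C1_c0_t67 : CovD 1 gC1 [(61846978560, 2290745344), (68719476736, 68719476736), (962072674304, 137438953472)] :=
  covD_split 1 (by decide +kernel) C1_c0_t68 C1_c0_t133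

theorem C1_c0_t19 : CovD 1 gC1 [(59556233216, 4581490688), (68719476736, 68719476736), (962072674304, 137438953472)] :=
  covD_split 0 (by decide +kernel) C1_c0_t20 C1_c0_t67

theorem C1_c0_t167 : CovD 1 gC1 [(66428469248, 2290745344), (16777216, 16777216), (1099377410048, 134217728)] :=
  covD_split 0 (by decide +kernel) C1_c0_t168 C1_c0_t169

theorem C1_c0_t165 : CovD 1 gC1 [(66428469248, 2290745344), (16777216, 16777216), (1099243192320, 268435456)] :=
  covD_split 2 (by decide +kernel) C1_c0_t166 C1_c0_t167

theorem C1_c0_t163 : CovD 1 gC1 [(66428469248, 2290745344), (16777216, 16777216), (1098974756864, 536870912)] :=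
  covD_split 2 (by decide +kernel) C1_c0_t164 C1_c0_t165

theorem C1_c0_t161 : CovD 1 gC1 [(66428469248, 2290745344), (16777216, 16777216), (1098437885952, 1073741824)] :=
  covD_split 2 (by decide +kernel) C1_c0_t162 C1_c0_t163

theorem C1_c0_t159 : CovD 1 gC1 [(66428469248, 2290745344), (16777216, 16777216), (1097364144128, 2147483648)] :=
  covD_split 2 (by decide +kernel) C1_c0_t160 C1_c0_t161

theorem C1_c0_t157 : CovD 1 gC1 [(66428469248, 2290745344), (16777216, 16777216), (1095216660480, 4294967296)] :=
  covD_split 2 (by decide +kernel) C1_c0_t158 C1_c0_t159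

theorem C1_c0_t155 : CovD 1 gC1 [(66428469248, 2290745344), (16777216, 16777216), (1090921693184, 8589934592)] :=
  covD_split 2 (by decide +kernel) C1_c0_t156 C1_c0_t157

theorem C1_c0_t153 : CovD 1 gC1 [(66428469248, 2290745344), (16777216, 16777216), (1082331758592, 17179869184)] :=
  covD_split 2 (by decide +kernel) C1_c0_t154 C1_c0_t155

theorem C1_c0_t151 : CovD 1 gC1 [(66428469248, 2290745344), (16777216, 16777216), (1065151889408, 34359738368)] :=
  covD_split 2 (by decide +kernel) C1_c0_t152 C1_c0_t153

theorem C1_c0_t150 : CovD 1 gC1 [(66428469248, 2290745344), (33554432, 33554432), (1065151889408, 34359738368)] :=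
  covD_split 1 (by decide +kernel) C1_c0_t151 C1_c0_t170

theorem C1_c0_t149 : CovD 1 gC1 [(66428469248, 2290745344), (67108864, 67108864), (1065151889408, 34359738368)] :=
  covD_split 1 (by decide +kernel) C1_c0_t150 C1_c0_t171

theorem C1_c0_t148 : CovD 1 gC1 [(66428469248, 2290745344), (134217728, 134217728), (1065151889408, 34359738368)] :=
  covD_split 1 (by decide +kernel) C1_c0_t149 C1_c0_t172

theorem C1_c0_t147 : CovD 1 gC1 [(66428469248, 2290745344), (268435456, 268435456), (1065151889408, 34359738368)] :=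
  covD_split 1 (by decide +kernel) C1_c0_t148 C1_c0_t173

theorem C1_c0_t146 : CovD 1 gC1 [(66428469248, 2290745344), (536870912, 536870912), (1065151889408, 34359738368)] :=
  covD_split 1 (by decide +kernel) C1_c0_t147 C1_c0_t174

theorem C1_c0_t144 : CovD 1 gC1 [(66428469248, 2290745344), (536870912, 536870912), (1030792151040, 68719476736)] :=
  covD_split 2 (by decide +kernel) C1_c0_t145 C1_c0_t146

theorem C1_c0_t143 : CovD 1 gC1 [(66428469248, 2290745344), (1073741824, 1073741824), (1030792151040, 68719476736)] :=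
  covD_split 1 (by decide +kernel) C1_c0_t144 C1_c0_t175

theorem C1_c0_t142 : CovD 1 gC1 [(66428469248, 2290745344), (2147483648, 2147483648), (1030792151040, 68719476736)] :=
  covD_split 1 (by decide +kernel) C1_c0_t143 C1_c0_t176

theorem C1_c0_t141 : CovD 1 gC1 [(66428469248, 2290745344), (4294967296, 4294967296), (1030792151040, 68719476736)] :=
  covD_split 1 (by decide +kernel) C1_c0_t142 C1_c0_t177

theorem C1_c0_t140 : CovD 1 gC1 [(66428469248, 2290745344), (8589934592, 8589934592), (1030792151040, 68719476736)] :=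
  covD_split 1 (by decide +kernel) C1_c0_t141 C1_c0_t178

theorem C1_c0_t139 : CovD 1 gC1 [(66428469248, 2290745344), (17179869184, 17179869184), (1030792151040, 68719476736)] :=
  covD_split 1 (by decide +kernel) C1_c0_t140 C1_c0_t179

theorem C1_c0_t138 : CovD 1 gC1 [(66428469248, 2290745344), (34359738368, 34359738368), (1030792151040, 68719476736)] :=
  covD_split 1 (by decide +kernel) C1_c0_t139 C1_c0_t180

theorem C1_c0_t137 : CovD 1 gC1 [(66428469248, 2290745344), (68719476736, 68719476736), (1030792151040, 68719476736)] :=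
  covD_split 1 (by decide +kernel) C1_c0_t138 C1_c0_t181

theorem C1_c0_t210 : CovD 1 gC1 [(71009959936, 2290745344), (16777216, 16777216), (1099243192320, 268435456)] :=
  covD_split 0 (by decide +kernel) C1_c0_t211 C1_c0_t212

theorem C1_c0_t208 : CovD 1 gC1 [(71009959936, 2290745344), (16777216, 16777216), (1098974756864, 536870912)] :=
  covD_split 2 (by decide +kernel) C1_c0_t209 C1_c0_t210

theorem C1_c0_t206 : CovD 1 gC1 [(71009959936, 2290745344), (16777216, 16777216), (1098437885952, 1073741824)] :=
  covD_split 2 (by decide +kernel) C1_c0_t207 C1_c0_t208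

theorem C1_c0_t204 : CovD 1 gC1 [(71009959936, 2290745344), (16777216, 16777216), (1097364144128, 2147483648)] :=
  covD_split 2 (by decide +kernel) C1_c0_t205 C1_c0_t206

theorem C1_c0_t202 : CovD 1 gC1 [(71009959936, 2290745344), (16777216, 16777216), (1095216660480, 4294967296)] :=
  covD_split 2 (by decide +kernel) C1_c0_t203 C1_c0_t204

theorem C1_c0_t200 : CovD 1 gC1 [(71009959936, 2290745344), (16777216, 16777216), (1090921693184, 8589934592)] :=
  covD_split 2 (by decide +kernel) C1_c0_t201 C1_c0_t202

theorem C1_c0_t198 : CovD 1 gC1 [(71009959936, 2290745344), (16777216, 16777216), (1082331758592, 17179869184)] :=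
  covD_split 2 (by decide +kernel) C1_c0_t199 C1_c0_t200

theorem C1_c0_t196 : CovD 1 gC1 [(71009959936, 2290745344), (16777216, 16777216), (1065151889408, 34359738368)] :=
  covD_split 2 (by decide +kernel) C1_c0_t197 C1_c0_t198

theorem C1_c0_t195 : CovD 1 gC1 [(71009959936, 2290745344), (33554432, 33554432), (1065151889408, 34359738368)] :=
  covD_split 1 (by decide +kernel) C1_c0_t196 C1_c0_t213

theorem C1_c0_t194 : CovD 1 gC1 [(71009959936, 2290745344), (67108864, 67108864), (1065151889408, 34359738368)] :=
  covD_split 1 (by decide +kernel) C1_c0_t195 C1_c0_t214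

theorem C1_c0_t193 : CovD 1 gC1 [(71009959936, 2290745344), (134217728, 134217728), (1065151889408, 34359738368)] :=
  covD_split 1 (by decide +kernel) C1_c0_t194 C1_c0_t215

theorem C1_c0_t192 : CovD 1 gC1 [(71009959936, 2290745344), (268435456, 268435456), (1065151889408, 34359738368)] :=
  covD_split 1 (by decide +kernel) C1_c0_t193 C1_c0_t216

theorem C1_c0_t191 : CovD 1 gC1 [(71009959936, 2290745344), (536870912, 536870912), (1065151889408, 34359738368)] :=
  covD_split 1 (by decide +kernel) C1_c0_t192 C1_c0_t217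

theorem C1_c0_t189 : CovD 1 gC1 [(71009959936, 2290745344), (536870912, 536870912), (1030792151040, 68719476736)] :=
  covD_split 2 (by decide +kernel) C1_c0_t190 C1_c0_t191

theorem C1_c0_t188 : CovD 1 gC1 [(71009959936, 2290745344), (1073741824, 1073741824), (1030792151040, 68719476736)] :=
  covD_split 1 (by decide +kernel) C1_c0_t189 C1_c0_t218

theorem C1_c0_t187 : CovD 1 gC1 [(71009959936, 2290745344), (2147483648, 2147483648), (1030792151040, 68719476736)] :=
  covD_split 1 (by decide +kernel) C1_c0_t188 C1_c0_t219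

theorem C1_c0_t186 : CovD 1 gC1 [(71009959936, 2290745344), (4294967296, 4294967296), (1030792151040, 68719476736)] :=
  covD_split 1 (by decide +kernel) C1_c0_t187 C1_c0_t220

theorem C1_c0_t185 : CovD 1 gC1 [(71009959936, 2290745344), (8589934592, 8589934592), (1030792151040, 68719476736)] :=
  covD_split 1 (by decide +kernel) C1_c0_t186 C1_c0_t221

theorem C1_c0_t184 : CovD 1 gC1 [(71009959936, 2290745344), (17179869184, 17179869184), (1030792151040, 68719476736)] :=
  covD_split 1 (by decide +kernel) C1_c0_t185 C1_c0_t222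

theorem C1_c0_t183 : CovD 1 gC1 [(71009959936, 2290745344), (34359738368, 34359738368), (1030792151040, 68719476736)] :=
  covD_split 1 (by decide +kernel) C1_c0_t184 C1_c0_t223

theorem C1_c0_t182 : CovD 1 gC1 [(71009959936, 2290745344), (68719476736, 68719476736), (1030792151040, 68719476736)] :=
  covD_split 1 (by decide +kernel) C1_c0_t183 C1_c0_t224

theorem C1_c0_t136 : CovD 1 gC1 [(68719214592, 4581490688), (68719476736, 68719476736), (1030792151040, 68719476736)] :=
  covD_split 0 (by decide +kernel) C1_c0_t137 C1_c0_t182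

theorem C1_c0_t134 : CovD 1 gC1 [(68719214592, 4581490688), (68719476736, 68719476736), (962072674304, 137438953472)] :=
  covD_split 2 (by decide +kernel) C1_c0_t135 C1_c0_t136

theorem C1_c0_t18 : CovD 1 gC1 [(64137723904, 9162981376), (68719476736, 68719476736), (962072674304, 137438953472)] :=
  covD_split 0 (by decide +kernel) C1_c0_t19 C1_c0_t134

theorem C1_c0_t16 : CovD 1 gC1 [(64137723904, 9162981376), (68719476736, 68719476736), (824633720832, 274877906944)] :=
  covD_split 2 (by decide +kernel) C1_c0_t17 C1_c0_t18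

theorem C1_c0_t257 : CovD 1 gC1 [(74446077952, 1145372672), (33554432, 33554432), (1098974756864, 536870912)] :=
  covD_split 0 (by decide +kernel) C1_c0_t258 C1_c0_t259

theorem C1_c0_t256 : CovD 1 gC1 [(75591450624, 2290745344), (33554432, 33554432), (1098974756864, 536870912)] :=
  covD_split 0 (by decide +kernel) C1_c0_t257 C1_c0_t260

theorem C1_c0_t261 : CovD 1 gC1 [(80172941312, 2290745344), (33554432, 33554432), (1098974756864, 536870912)] :=
  covD_split 0 (by decide +kernel) C1_c0_t262 C1_c0_t263

theorem C1_c0_t255 : CovD 1 gC1 [(77882195968, 4581490688), (33554432, 33554432), (1098974756864, 536870912)] :=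
  covD_split 0 (by decide +kernel) C1_c0_t256 C1_c0_t261

theorem C1_c0_t253 : CovD 1 gC1 [(77882195968, 4581490688), (33554432, 33554432), (1098437885952, 1073741824)] :=
  covD_split 2 (by decide +kernel) C1_c0_t254 C1_c0_t255

theorem C1_c0_t251 : CovD 1 gC1 [(77882195968, 4581490688), (33554432, 33554432), (1097364144128, 2147483648)] :=
  covD_split 2 (by decide +kernel) C1_c0_t252 C1_c0_t253

theorem C1_c0_t249 : CovD 1 gC1 [(77882195968, 4581490688), (33554432, 33554432), (1095216660480, 4294967296)] :=
  covD_split 2 (by decide +kernel) C1_c0_t250 C1_c0_t251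

theorem C1_c0_t247 : CovD 1 gC1 [(77882195968, 4581490688), (33554432, 33554432), (1090921693184, 8589934592)] :=
  covD_split 2 (by decide +kernel) C1_c0_t248 C1_c0_t249

theorem C1_c0_t246 : CovD 1 gC1 [(77882195968, 4581490688), (67108864, 67108864), (1090921693184, 8589934592)] :=
  covD_split 1 (by decide +kernel) C1_c0_t247 C1_c0_t264

theorem C1_c0_t245 : CovD 1 gC1 [(77882195968, 4581490688), (134217728, 134217728), (1090921693184, 8589934592)] :=
  covD_split 1 (by decide +kernel) C1_c0_t246 C1_c0_t265

theorem C1_c0_t281 : CovD 1 gC1 [(87045177344, 4581490688), (16777216, 16777216), (1099377410048, 134217728)] :=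
  covD_split 0 (by decide +kernel) C1_c0_t282 C1_c0_t283

theorem C1_c0_t279 : CovD 1 gC1 [(87045177344, 4581490688), (16777216, 16777216), (1099243192320, 268435456)] :=
  covD_split 2 (by decide +kernel) C1_c0_t280 C1_c0_t281

theorem C1_c0_t277 : CovD 1 gC1 [(87045177344, 4581490688), (16777216, 16777216), (1098974756864, 536870912)] :=
  covD_split 2 (by decide +kernel) C1_c0_t278 C1_c0_t279

theorem C1_c0_t275 : CovD 1 gC1 [(87045177344, 4581490688), (16777216, 16777216), (1098437885952, 1073741824)] :=
  covD_split 2 (by decide +kernel) C1_c0_t276 C1_c0_t277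

theorem C1_c0_t273 : CovD 1 gC1 [(87045177344, 4581490688), (16777216, 16777216), (1097364144128, 2147483648)] :=
  covD_split 2 (by decide +kernel) C1_c0_t274 C1_c0_t275

theorem C1_c0_t271 : CovD 1 gC1 [(87045177344, 4581490688), (16777216, 16777216), (1095216660480, 4294967296)] :=
  covD_split 2 (by decide +kernel) C1_c0_t272 C1_c0_t273

theorem C1_c0_t270 : CovD 1 gC1 [(87045177344, 4581490688), (33554432, 33554432), (1095216660480, 4294967296)] :=
  covD_split 1 (by decide +kernel) C1_c0_t271 C1_c0_t284

theorem C1_c0_t268 : CovD 1 gC1 [(87045177344, 4581490688), (33554432, 33554432), (1090921693184, 8589934592)] :=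
  covD_split 2 (by decide +kernel) C1_c0_t269 C1_c0_t270

theorem C1_c0_t267 : CovD 1 gC1 [(87045177344, 4581490688), (67108864, 67108864), (1090921693184, 8589934592)] :=
  covD_split 1 (by decide +kernel) C1_c0_t268 C1_c0_t285

theorem C1_c0_t266 : CovD 1 gC1 [(87045177344, 4581490688), (134217728, 134217728), (1090921693184, 8589934592)] :=
  covD_split 1 (by decide +kernel) C1_c0_t267 C1_c0_t286

theorem C1_c0_t244 : CovD 1 gC1 [(82463686656, 9162981376), (134217728, 134217728), (1090921693184, 8589934592)] :=
  covD_split 0 (by decide +kernel) C1_c0_t245 C1_c0_t266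

theorem C1_c0_t243 : CovD 1 gC1 [(82463686656, 9162981376), (268435456, 268435456), (1090921693184, 8589934592)] :=
  covD_split 1 (by decide +kernel) C1_c0_t244 C1_c0_t287

theorem C1_c0_t241 : CovD 1 gC1 [(82463686656, 9162981376), (268435456, 268435456), (1082331758592, 17179869184)] :=
  covD_split 2 (by decide +kernel) C1_c0_t242 C1_c0_t243

theorem C1_c0_t240 : CovD 1 gC1 [(82463686656, 9162981376), (536870912, 536870912), (1082331758592, 17179869184)] :=
  covD_split 1 (by decide +kernel) C1_c0_t241 C1_c0_t288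

theorem C1_c0_t238 : CovD 1 gC1 [(82463686656, 9162981376), (536870912, 536870912), (1065151889408, 34359738368)] :=
  covD_split 2 (by decide +kernel) C1_c0_t239 C1_c0_t240

theorem C1_c0_t237 : CovD 1 gC1 [(82463686656, 9162981376), (1073741824, 1073741824), (1065151889408, 34359738368)] :=
  covD_split 1 (by decide +kernel) C1_c0_t238 C1_c0_t289

theorem C1_c0_t235 : CovD 1 gC1 [(82463686656, 9162981376), (1073741824, 1073741824), (1030792151040, 68719476736)] :=
  covD_split 2 (by decide +kernel) C1_c0_t236 C1_c0_t237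

theorem C1_c0_t234 : CovD 1 gC1 [(82463686656, 9162981376), (2147483648, 2147483648), (1030792151040, 68719476736)] :=
  covD_split 1 (by decide +kernel) C1_c0_t235 C1_c0_t290

theorem C1_c0_t232 : CovD 1 gC1 [(82463686656, 9162981376), (2147483648, 2147483648), (962072674304, 137438953472)] :=
  covD_split 2 (by decide +kernel) C1_c0_t233 C1_c0_t234

theorem C1_c0_t230 : CovD 1 gC1 [(82463686656, 9162981376), (2147483648, 2147483648), (824633720832, 274877906944)] :=
  covD_split 2 (by decide +kernel) C1_c0_t231 C1_c0_t232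

theorem C1_c0_t229 : CovD 1 gC1 [(82463686656, 9162981376), (4294967296, 4294967296), (824633720832, 274877906944)] :=
  covD_split 1 (by decide +kernel) C1_c0_t230 C1_c0_t291

theorem C1_c0_t228 : CovD 1 gC1 [(82463686656, 9162981376), (8589934592, 8589934592), (824633720832, 274877906944)] :=
  covD_split 1 (by decide +kernel) C1_c0_t229 C1_c0_t292

theorem C1_c0_t227 : CovD 1 gC1 [(82463686656, 9162981376), (17179869184, 17179869184), (824633720832, 274877906944)] :=
  covD_split 1 (by decide +kernel) C1_c0_t228 C1_c0_t293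

theorem C1_c0_t226 : CovD 1 gC1 [(82463686656, 9162981376), (34359738368, 34359738368), (824633720832, 274877906944)] :=
  covD_split 1 (by decide +kernel) C1_c0_t227 C1_c0_t294

theorem C1_c0_t225 : CovD 1 gC1 [(82463686656, 9162981376), (68719476736, 68719476736), (824633720832, 274877906944)] :=
  covD_split 1 (by decide +kernel) C1_c0_t226 C1_c0_t295

theorem C1_c0_t15 : CovD 1 gC1 [(73300705280, 18325962752), (68719476736, 68719476736), (824633720832, 274877906944)] :=
  covD_split 0 (by decide +kernel) C1_c0_t16 C1_c0_t225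

theorem C1_c0_t14 : CovD 1 gC1 [(73300705280, 18325962752), (137438953472, 137438953472), (824633720832, 274877906944)] :=
  covD_split 1 (by decide +kernel) C1_c0_t15 C1_c0_t296

theorem C1_c0 : CovD 1 gC1 [(73300705280, 18325962752), (137438953472, 137438953472), (549755813888, 549755813888)] :=
  covD_split 2 (by decide +kernel) C1_c0_t1 C1_c0_t14

theorem D1_c0 : CovD 1 gD1 [(73300705280, 18325962752), (137438953472, 137438953472), (863554764800, 863554764800)] :=
  covD_split 0 (by decide +kernel) D1_c0_t1 D1_c0_t2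

end Pool.Agent.helper14.NR.E12a
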