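import Pool.Agent.helper14.NR.E12a.PN1

/-!
Generated: certificates.
-/

namespace Pool.Agent.helper14.NR.E12a

open Pool.Agent.helper31.IA (Z)
open Pool.Agent.helper31.IX (Op XOps runX Cov CovD cov_split covD_split)
open Pool.Agent.helper31.IC (TD)
open Pool.Agent.helper63.RG (reloc)
open Pool.Agent.helper63.NF hiding TD
open Pool.Agent.helper14.CF (xE covD_E)
open Pool.Agent.helper14.NR (share)

mutual
theorem E1_c0_t5 : CovD 1 gE1 [(57265487872, 2290745344), (137438953472, 137438953472), (215888691200, 215888691200)] :=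
  covD_E kE1_eq (.n 2 (.n 2 (.n 2 (.n 1 (.n 1 (.n 1 (.n 1 (.n 1 (.n 0 (.n 2 (.n 0 (.l 1) (.l 1)) (.l 0)) (.n 2 (.n 0 (.l 1) (.l 1)) (.l 0))) (.l 0)) (.l 0)) (.l 0)) (.l 0)) (.l 0)) (.l 0)) (.l 0)) (.n 0 (.l 0) (.l 0)))
    [(57265487872, 2290745344), (137438953472, 137438953472), (215888691200, 215888691200)] rfl (by decide +kernel)
theorem E1_c0_t6 : CovD 1 gE1 [(57265487872, 2290745344), (137438953472, 137438953472), (647666073600, 215888691200)] :=
  covD_E kE1_eq (.n 2 (.l 0) (.l 0))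
    [(57265487872, 2290745344), (137438953472, 137438953472), (647666073600, 215888691200)] rfl (by decide +kernel)
end

mutual
theorem E1_c0_t7 : CovD 1 gE1 [(61846978560, 2290745344), (137438953472, 137438953472), (431777382400, 431777382400)] :=
  covD_E kE1_eq (.n 2 (.n 2 (.n 2 (.n 2 (.n 1 (.n 1 (.n 1 (.n 1 (.n 1 (.n 0 (.n 1 (.n 0 (.l 1) (.l 1)) (.l 0)) (.n 0 (.l 1) (.l 1))) (.l 0)) (.l 0)) (.l 0)) (.l 0)) (.l 0)) (.l 0)) (.l 0)) (.n 0 (.l 0) (.l 0))) (.n 2 (.l 0) (.l 0)))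
    [(61846978560, 2290745344), (137438953472, 137438953472), (431777382400, 431777382400)] rfl (by decide +kernel)
theorem E1_c0_t9 : CovD 1 gE1 [(66428469248, 2290745344), (137438953472, 137438953472), (431777382400, 431777382400)] :=
  covD_E kE1_eq (.n 2 (.n 2 (.n 2 (.n 2 (.n 1 (.n 1 (.n 1 (.n 1 (.n 1 (.n 2 (.n 0 (.l 1) (.l 1)) (.l 0)) (.l 0)) (.l 0)) (.l 0)) (.l 0)) (.l 0)) (.l 0)) (.l 0)) (.n 0 (.l 0) (.l 0))) (.n 2 (.l 0) (.l 0)))
    [(66428469248, 2290745344), (137438953472, 137438953472), (431777382400, 431777382400)] rfl (by decide +kernel)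
end

mutual
theorem E1_c0_t10 : CovD 1 gE1 [(71009959936, 2290745344), (137438953472, 137438953472), (431777382400, 431777382400)] :=
  covD_E kE1_eq (.n 2 (.n 2 (.n 2 (.n 2 (.n 1 (.n 1 (.n 1 (.n 1 (.n 2 (.n 0 (.l 1) (.l 1)) (.l 0)) (.l 0)) (.l 0)) (.l 0)) (.l 0)) (.l 0)) (.l 0)) (.l 0)) (.n 2 (.l 0) (.l 0)))
    [(71009959936, 2290745344), (137438953472, 137438953472), (431777382400, 431777382400)] rfl (by decide +kernel)
theorem E1_c0_t13 : CovD 1 gE1 [(75591450624, 2290745344), (137438953472, 137438953472), (431777382400, 431777382400)] :=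
  covD_E kE1_eq (.n 2 (.n 2 (.n 2 (.n 2 (.n 1 (.n 1 (.n 1 (.n 1 (.n 0 (.n 0 (.l 1) (.l 1)) (.l 1)) (.l 0)) (.l 0)) (.l 0)) (.l 0)) (.l 0)) (.l 0)) (.l 0)) (.n 2 (.l 0) (.l 0)))
    [(75591450624, 2290745344), (137438953472, 137438953472), (431777382400, 431777382400)] rfl (by decide +kernel)
end

mutual
theorem E1_c0_t14 : CovD 1 gE1 [(80172941312, 2290745344), (137438953472, 137438953472), (431777382400, 431777382400)] :=
  covD_E kE1_eq (.n 2 (.n 2 (.n 2 (.n 2 (.n 1 (.n 1 (.n 1 (.n 1 (.n 0 (.l 1) (.l 1)) (.l 0)) (.l 0)) (.l 0)) (.l 0)) (.l 0)) (.l 0)) (.l 0)) (.n 2 (.l 0) (.l 0)))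
    [(80172941312, 2290745344), (137438953472, 137438953472), (431777382400, 431777382400)] rfl (by decide +kernel)
theorem E1_c0_t16 : CovD 1 gE1 [(84754432000, 2290745344), (137438953472, 137438953472), (431777382400, 431777382400)] :=
  covD_E kE1_eq (.n 2 (.n 2 (.n 2 (.n 2 (.n 1 (.n 1 (.n 1 (.n 0 (.n 0 (.l 1) (.l 1)) (.l 1)) (.l 0)) (.l 0)) (.l 0)) (.l 0)) (.l 0)) (.l 0)) (.n 2 (.l 0) (.l 0)))
    [(84754432000, 2290745344), (137438953472, 137438953472), (431777382400, 431777382400)] rfl (by decide +kernel)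
end

mutual
theorem E1_c0_t17 : CovD 1 gE1 [(89335922688, 2290745344), (137438953472, 137438953472), (431777382400, 431777382400)] :=
  covD_E kE1_eq (.n 2 (.n 2 (.n 2 (.n 2 (.n 1 (.n 1 (.n 1 (.n 0 (.l 1) (.l 1)) (.l 0)) (.l 0)) (.l 0)) (.l 0)) (.l 0)) (.l 0)) (.n 2 (.l 0) (.l 0)))
    [(89335922688, 2290745344), (137438953472, 137438953472), (431777382400, 431777382400)] rfl (by decide +kernel)
theorem E1_c0_t18 : CovD 1 gE1 [(73300705280, 18325962752), (137438953472, 137438953472), (1295332147200, 431777382400)] :=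
  covD_E kE1_eq (.n 0 (.n 0 (.n 2 (.n 2 (.l 0) (.l 0)) (.n 1 (.l 0) (.l 0))) (.n 2 (.n 2 (.l 0) (.l 0)) (.n 1 (.l 0) (.l 0)))) (.n 2 (.n 0 (.n 2 (.l 0) (.l 0)) (.n 2 (.l 0) (.l 0))) (.n 2 (.n 0 (.l 0) (.l 0)) (.l 0))))
    [(73300705280, 18325962752), (137438953472, 137438953472), (1295332147200, 431777382400)] rfl (by decide +kernel)
end

theorem E1_c0_t4 : CovD 1 gE1 [(57265487872, 2290745344), (137438953472, 137438953472), (431777382400, 431777382400)] :=
  covD_split 2 (by decide +kernel) E1_c0_t5 E1_c0_t6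

theorem E1_c0_t3 : CovD 1 gE1 [(59556233216, 4581490688), (137438953472, 137438953472), (431777382400, 431777382400)] :=
  covD_split 0 (by decide +kernel) E1_c0_t4 E1_c0_t7

theorem E1_c0_t8 : CovD 1 gE1 [(68719214592, 4581490688), (137438953472, 137438953472), (431777382400, 431777382400)] :=
  covD_split 0 (by decide +kernel) E1_c0_t9 E1_c0_t10

theorem E1_c0_t2 : CovD 1 gE1 [(64137723904, 9162981376), (137438953472, 137438953472), (431777382400, 431777382400)] :=
  covD_split 0 (by decide +kernel) E1_c0_t3 E1_c0_t8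

theorem E1_c0_t12 : CovD 1 gE1 [(77882195968, 4581490688), (137438953472, 137438953472), (431777382400, 431777382400)] :=
  covD_split 0 (by decide +kernel) E1_c0_t13 E1_c0_t14

theorem E1_c0_t15 : CovD 1 gE1 [(87045177344, 4581490688), (137438953472, 137438953472), (431777382400, 431777382400)] :=
  covD_split 0 (by decide +kernel) E1_c0_t16 E1_c0_t17

theorem E1_c0_t11 : CovD 1 gE1 [(82463686656, 9162981376), (137438953472, 137438953472), (431777382400, 431777382400)] :=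
  covD_split 0 (by decide +kernel) E1_c0_t12 E1_c0_t15

theorem E1_c0_t1 : CovD 1 gE1 [(73300705280, 18325962752), (137438953472, 137438953472), (431777382400, 431777382400)] :=
  covD_split 0 (by decide +kernel) E1_c0_t2 E1_c0_t11

theorem E1_c0 : CovD 1 gE1 [(73300705280, 18325962752), (137438953472, 137438953472), (863554764800, 863554764800)] :=
  covD_split 2 (by decide +kernel) E1_c0_t1 E1_c0_t18

end Pool.Agent.helper14.NR.E12a
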