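import Pool.Agent.helper14.NR.E12a.PN2

/-!
Generated: certificates.
-/

namespace Pool.Agent.helper14.NR.E12a

open Pool.Agent.helper31.IA (Z)
open Pool.Agent.helper31.IX (Op XOps runX Cov CovD cov_split covD_split)
open Pool.Agent.helper31.IC (TD)
open Pool.Agent.helper63.RG (reloc)
open Pool.Agent.helper63.NF hiding TD
open Pool.Agent.helper14.CF (xE covD_E)
open Pool.Agent.helper14.NR (share)

mutual
theorem B2_c0_t3 : CovD 1 gB2 [(64137723904, 9162981376), (137438953472, 137438953472), (13743947776, 13743947776)] :=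
  covD_E kB2_eq (.n 1 (.n 2 (.n 2 (.l 1) (.l 1)) (.n 2 (.l 1) (.l 1))) (.n 2 (.n 2 (.l 1) (.l 1)) (.n 2 (.l 1) (.l 1))))
    [(64137723904, 9162981376), (137438953472, 137438953472), (13743947776, 13743947776)] rfl (by decide +kernel)
theorem B2_c0_t4 : CovD 1 gB2 [(64137723904, 9162981376), (137438953472, 137438953472), (41231843328, 13743947776)] :=
  covD_E kB2_eq (.n 0 (.n 2 (.n 2 (.n 0 (.l 1) (.l 1)) (.l 1)) (.n 2 (.l 1) (.l 1))) (.n 1 (.n 2 (.l 1) (.l 1)) (.n 2 (.l 1) (.l 1))))
    [(64137723904, 9162981376), (137438953472, 137438953472), (41231843328, 13743947776)] rfl (by decide +kernel)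
end

mutual
theorem B2_c0_t5 : CovD 1 gB2 [(64137723904, 9162981376), (137438953472, 137438953472), (82463686656, 27487895552)] :=
  covD_E kB2_eq (.n 0 (.n 2 (.n 0 (.n 2 (.l 1) (.l 1)) (.n 2 (.l 1) (.l 1))) (.n 2 (.l 1) (.l 1))) (.n 2 (.n 2 (.l 1) (.n 0 (.l 1) (.l 1))) (.n 2 (.l 1) (.l 1))))
    [(64137723904, 9162981376), (137438953472, 137438953472), (82463686656, 27487895552)] rfl (by decide +kernel)
theorem B2_c0_t7 : CovD 1 gB2 [(82463686656, 9162981376), (137438953472, 137438953472), (27487895552, 27487895552)] :=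
  covD_E kB2_eq (.n 1 (.n 0 (.n 2 (.n 2 (.l 1) (.l 1)) (.n 2 (.l 1) (.l 1))) (.n 2 (.n 2 (.l 1) (.l 1)) (.n 2 (.l 1) (.l 1)))) (.n 2 (.n 2 (.l 1) (.l 1)) (.n 2 (.l 1) (.l 1))))
    [(82463686656, 9162981376), (137438953472, 137438953472), (27487895552, 27487895552)] rfl (by decide +kernel)
end

mutual
theorem B2_c0_t8 : CovD 1 gB2 [(82463686656, 9162981376), (137438953472, 137438953472), (82463686656, 27487895552)] :=
  covD_E kB2_eq (.n 0 (.n 2 (.n 2 (.l 1) (.l 1)) (.n 2 (.l 1) (.l 1))) (.n 2 (.n 2 (.l 1) (.l 1)) (.n 1 (.l 1) (.l 1))))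
    [(82463686656, 9162981376), (137438953472, 137438953472), (82463686656, 27487895552)] rfl (by decide +kernel)
theorem C2_c0_t8 : CovD 1 gC2 [(59556233216, 4581490688), (4294967296, 4294967296), (274877906944, 274877906944)] :=
  covD_E kC2_eq (.n 2 (.n 2 (.l 0) (.l 0)) (.n 2 (.l 0) (.l 0)))
    [(59556233216, 4581490688), (4294967296, 4294967296), (274877906944, 274877906944)] rfl (by decide +kernel)
end

mutual
theorem C2_c0_t10 : CovD 1 gC2 [(59556233216, 4581490688), (4294967296, 4294967296), (687194767360, 137438953472)] :=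
  covD_E kC2_eq (.n 2 (.l 0) (.l 0))
    [(59556233216, 4581490688), (4294967296, 4294967296), (687194767360, 137438953472)] rfl (by decide +kernel)
theorem C2_c0_t12 : CovD 1 gC2 [(59556233216, 4581490688), (4294967296, 4294967296), (893353197568, 68719476736)] :=
  covD_E kC2_eq (.l 0)
    [(59556233216, 4581490688), (4294967296, 4294967296), (893353197568, 68719476736)] rfl (by decide +kernel)
end

mutual
theorem C2_c0_t16 : CovD 1 gC2 [(59556233216, 4581490688), (1073741824, 1073741824), (996432412672, 34359738368)] :=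
  covD_E kC2_eq (.l 0)
    [(59556233216, 4581490688), (1073741824, 1073741824), (996432412672, 34359738368)] rfl (by decide +kernel)
theorem C2_c0_t21 : CovD 1 gC2 [(57265487872, 2290745344), (268435456, 268435456), (1047972020224, 17179869184)] :=
  covD_E kC2_eq (.l 0)
    [(57265487872, 2290745344), (268435456, 268435456), (1047972020224, 17179869184)] rfl (by decide +kernel)
end

mutual
theorem C2_c0_t23 : CovD 1 gC2 [(57265487872, 2290745344), (268435456, 268435456), (1073741824000, 8589934592)] :=
  covD_E kC2_eq (.l 0)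
    [(57265487872, 2290745344), (268435456, 268435456), (1073741824000, 8589934592)] rfl (by decide +kernel)
theorem C2_c0_t25 : CovD 1 gC2 [(57265487872, 2290745344), (268435456, 268435456), (1086626725888, 4294967296)] :=
  covD_E kC2_eq (.l 0)
    [(57265487872, 2290745344), (268435456, 268435456), (1086626725888, 4294967296)] rfl (by decide +kernel)
end

mutual
theorem C2_c0_t27 : CovD 1 gC2 [(57265487872, 2290745344), (268435456, 268435456), (1093069176832, 2147483648)] :=
  covD_E kC2_eq (.l 0)
    [(57265487872, 2290745344), (268435456, 268435456), (1093069176832, 2147483648)] rfl (by decide +kernel)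
theorem C2_c0_t29 : CovD 1 gC2 [(57265487872, 2290745344), (268435456, 268435456), (1096290402304, 1073741824)] :=
  covD_E kC2_eq (.l 0)
    [(57265487872, 2290745344), (268435456, 268435456), (1096290402304, 1073741824)] rfl (by decide +kernel)
end

mutual
theorem C2_c0_t30 : CovD 1 gC2 [(57265487872, 2290745344), (268435456, 268435456), (1098437885952, 1073741824)] :=
  covD_E kC2_eq (.n 0 (.n 0 (.n 0 (.n 0 (.l 1) (.l 1)) (.n 0 (.l 1) (.l 1))) (.n 0 (.n 0 (.l 1) (.l 1)) (.n 0 (.l 1) (.l 1)))) (.n 0 (.n 0 (.n 0 (.l 1) (.l 1)) (.n 0 (.l 1) (.l 1))) (.n 0 (.n 0 (.l 1) (.l 1)) (.n 0 (.l 1) (.l 1)))))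
    [(57265487872, 2290745344), (268435456, 268435456), (1098437885952, 1073741824)] rfl (by decide +kernel)
theorem C2_c0_t33 : CovD 1 gC2 [(61846978560, 2290745344), (67108864, 67108864), (1065151889408, 34359738368)] :=
  covD_E kC2_eq (.n 2 (.l 0) (.n 2 (.l 0) (.n 2 (.l 0) (.n 2 (.l 0) (.n 2 (.l 0) (.n 2 (.l 0) (.n 2 (.l 0) (.n 0 (.n 0 (.n 0 (.n 0 (.l 1) (.l 1)) (.l 1)) (.n 0 (.l 1) (.l 1))) (.n 0 (.n 0 (.l 1) (.l 1)) (.n 0 (.l 1) (.l 1)))))))))))
    [(61846978560, 2290745344), (67108864, 67108864), (1065151889408, 34359738368)] rfl (by decide +kernel)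
end

mutual
theorem C2_c0_t34 : CovD 1 gC2 [(61846978560, 2290745344), (201326592, 67108864), (1065151889408, 34359738368)] :=
  covD_E kC2_eq (.n 2 (.l 0) (.l 0))
    [(61846978560, 2290745344), (201326592, 67108864), (1065151889408, 34359738368)] rfl (by decide +kernel)
theorem C2_c0_t35 : CovD 1 gC2 [(61846978560, 2290745344), (402653184, 134217728), (1065151889408, 34359738368)] :=
  covD_E kC2_eq (.l 0)
    [(61846978560, 2290745344), (402653184, 134217728), (1065151889408, 34359738368)] rfl (by decide +kernel)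
end

mutual
theorem C2_c0_t36 : CovD 1 gC2 [(59556233216, 4581490688), (805306368, 268435456), (1065151889408, 34359738368)] :=
  covD_E kC2_eq (.l 0)
    [(59556233216, 4581490688), (805306368, 268435456), (1065151889408, 34359738368)] rfl (by decide +kernel)
theorem C2_c0_t37 : CovD 1 gC2 [(59556233216, 4581490688), (1610612736, 536870912), (1065151889408, 34359738368)] :=
  covD_E kC2_eq (.l 0)
    [(59556233216, 4581490688), (1610612736, 536870912), (1065151889408, 34359738368)] rfl (by decide +kernel)
end

mutual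
theorem C2_c0_t38 : CovD 1 gC2 [(59556233216, 4581490688), (3221225472, 1073741824), (1030792151040, 68719476736)] :=
  covD_E kC2_eq (.l 0)
    [(59556233216, 4581490688), (3221225472, 1073741824), (1030792151040, 68719476736)] rfl (by decide +kernel)
theorem C2_c0_t39 : CovD 1 gC2 [(59556233216, 4581490688), (6442450944, 2147483648), (1030792151040, 68719476736)] :=
  covD_E kC2_eq (.l 0)
    [(59556233216, 4581490688), (6442450944, 2147483648), (1030792151040, 68719476736)] rfl (by decide +kernel)
end

mutual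
theorem C2_c0_t41 : CovD 1 gC2 [(68719214592, 4581490688), (4294967296, 4294967296), (274877906944, 274877906944)] :=
  covD_E kC2_eq (.n 2 (.n 2 (.l 0) (.l 0)) (.n 2 (.l 0) (.l 0)))
    [(68719214592, 4581490688), (4294967296, 4294967296), (274877906944, 274877906944)] rfl (by decide +kernel)
theorem C2_c0_t43 : CovD 1 gC2 [(68719214592, 4581490688), (4294967296, 4294967296), (687194767360, 137438953472)] :=
  covD_E kC2_eq (.n 2 (.l 0) (.l 0))
    [(68719214592, 4581490688), (4294967296, 4294967296), (687194767360, 137438953472)] rfl (by decide +kernel)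
end

mutual
theorem C2_c0_t45 : CovD 1 gC2 [(68719214592, 4581490688), (4294967296, 4294967296), (893353197568, 68719476736)] :=
  covD_E kC2_eq (.l 0)
    [(68719214592, 4581490688), (4294967296, 4294967296), (893353197568, 68719476736)] rfl (by decide +kernel)
theorem C2_c0_t50 : CovD 1 gC2 [(68719214592, 4581490688), (536870912, 536870912), (996432412672, 34359738368)] :=
  covD_E kC2_eq (.l 0)
    [(68719214592, 4581490688), (536870912, 536870912), (996432412672, 34359738368)] rfl (by decide +kernel)
end

mutual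
theorem C2_c0_t55 : CovD 1 gC2 [(68719214592, 4581490688), (67108864, 67108864), (1047972020224, 17179869184)] :=
  covD_E kC2_eq (.l 0)
    [(68719214592, 4581490688), (67108864, 67108864), (1047972020224, 17179869184)] rfl (by decide +kernel)
theorem C2_c0_t57 : CovD 1 gC2 [(68719214592, 4581490688), (67108864, 67108864), (1073741824000, 8589934592)] :=
  covD_E kC2_eq (.l 0)
    [(68719214592, 4581490688), (67108864, 67108864), (1073741824000, 8589934592)] rfl (by decide +kernel)
end

mutual
theorem C2_c0_t59 : CovD 1 gC2 [(68719214592, 4581490688), (67108864, 67108864), (1086626725888, 4294967296)] :=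
  covD_E kC2_eq (.l 0)
    [(68719214592, 4581490688), (67108864, 67108864), (1086626725888, 4294967296)] rfl (by decide +kernel)
theorem C2_c0_t61 : CovD 1 gC2 [(68719214592, 4581490688), (67108864, 67108864), (1093069176832, 2147483648)] :=
  covD_E kC2_eq (.l 0)
    [(68719214592, 4581490688), (67108864, 67108864), (1093069176832, 2147483648)] rfl (by decide +kernel)
end

mutual
theorem C2_c0_t63 : CovD 1 gC2 [(68719214592, 4581490688), (67108864, 67108864), (1096290402304, 1073741824)] :=
  covD_E kC2_eq (.l 0)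
    [(68719214592, 4581490688), (67108864, 67108864), (1096290402304, 1073741824)] rfl (by decide +kernel)
theorem C2_c0_t65 : CovD 1 gC2 [(68719214592, 4581490688), (67108864, 67108864), (1097901015040, 536870912)] :=
  covD_E kC2_eq (.l 0)
    [(68719214592, 4581490688), (67108864, 67108864), (1097901015040, 536870912)] rfl (by decide +kernel)
end

mutual
theorem C2_c0_t66 : CovD 1 gC2 [(68719214592, 4581490688), (67108864, 67108864), (1098974756864, 536870912)] :=
  covD_E kC2_eq (.n 0 (.n 0 (.n 0 (.n 0 (.l 1) (.l 1)) (.n 0 (.l 1) (.l 1))) (.n 0 (.n 0 (.l 1) (.l 1)) (.n 0 (.l 1) (.l 1)))) (.n 0 (.n 0 (.n 0 (.l 1) (.l 1)) (.n 0 (.l 1) (.l 1))) (.n 0 (.n 0 (.l 1) (.l 1)) (.n 0 (.l 1) (.l 1)))))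
    [(68719214592, 4581490688), (67108864, 67108864), (1098974756864, 536870912)] rfl (by decide +kernel)
theorem C2_c0_t67 : CovD 1 gC2 [(68719214592, 4581490688), (201326592, 67108864), (1065151889408, 34359738368)] :=
  covD_E kC2_eq (.n 2 (.l 0) (.n 0 (.l 0) (.l 0)))
    [(68719214592, 4581490688), (201326592, 67108864), (1065151889408, 34359738368)] rfl (by decide +kernel)
end

mutual
theorem C2_c0_t68 : CovD 1 gC2 [(68719214592, 4581490688), (402653184, 134217728), (1065151889408, 34359738368)] :=
  covD_E kC2_eq (.n 0 (.l 0) (.l 0))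
    [(68719214592, 4581490688), (402653184, 134217728), (1065151889408, 34359738368)] rfl (by decide +kernel)
theorem C2_c0_t69 : CovD 1 gC2 [(68719214592, 4581490688), (805306368, 268435456), (1065151889408, 34359738368)] :=
  covD_E kC2_eq (.l 0)
    [(68719214592, 4581490688), (805306368, 268435456), (1065151889408, 34359738368)] rfl (by decide +kernel)
end

mutual
theorem C2_c0_t70 : CovD 1 gC2 [(68719214592, 4581490688), (1610612736, 536870912), (1030792151040, 68719476736)] :=
  covD_E kC2_eq (.l 0)
    [(68719214592, 4581490688), (1610612736, 536870912), (1030792151040, 68719476736)] rfl (by decide +kernel)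
theorem C2_c0_t71 : CovD 1 gC2 [(68719214592, 4581490688), (3221225472, 1073741824), (1030792151040, 68719476736)] :=
  covD_E kC2_eq (.l 0)
    [(68719214592, 4581490688), (3221225472, 1073741824), (1030792151040, 68719476736)] rfl (by decide +kernel)
end

mutual
theorem C2_c0_t72 : CovD 1 gC2 [(68719214592, 4581490688), (6442450944, 2147483648), (1030792151040, 68719476736)] :=
  covD_E kC2_eq (.l 0)
    [(68719214592, 4581490688), (6442450944, 2147483648), (1030792151040, 68719476736)] rfl (by decide +kernel)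
theorem C2_c0_t73 : CovD 1 gC2 [(64137723904, 9162981376), (12884901888, 4294967296), (549755813888, 549755813888)] :=
  covD_E kC2_eq (.n 2 (.n 2 (.n 2 (.l 0) (.l 0)) (.n 2 (.l 0) (.l 0))) (.n 2 (.n 2 (.l 0) (.n 0 (.l 0) (.l 0))) (.n 0 (.n 0 (.l 0) (.l 0)) (.n 0 (.l 0) (.l 0)))))
    [(64137723904, 9162981376), (12884901888, 4294967296), (549755813888, 549755813888)] rfl (by decide +kernel)
end

mutual
theorem C2_c0_t74 : CovD 1 gC2 [(64137723904, 9162981376), (25769803776, 8589934592), (549755813888, 549755813888)] :=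
  covD_E kC2_eq (.n 2 (.n 2 (.n 2 (.l 0) (.l 0)) (.n 0 (.n 0 (.l 0) (.l 0)) (.n 0 (.l 0) (.l 0)))) (.n 0 (.n 2 (.n 0 (.l 0) (.l 0)) (.n 2 (.l 0) (.l 0))) (.n 2 (.n 0 (.l 0) (.l 0)) (.n 2 (.l 0) (.l 0)))))
    [(64137723904, 9162981376), (25769803776, 8589934592), (549755813888, 549755813888)] rfl (by decide +kernel)
theorem C2_c0_t75 : CovD 1 gC2 [(64137723904, 9162981376), (51539607552, 17179869184), (549755813888, 549755813888)] :=
  covD_E kC2_eq (.n 2 (.n 2 (.n 2 (.l 0) (.l 0)) (.n 0 (.n 0 (.l 0) (.l 0)) (.n 0 (.l 0) (.l 0)))) (.n 0 (.n 1 (.n 2 (.l 0) (.n 0 (.l 0) (.l 0))) (.n 2 (.l 0) (.l 0))) (.n 1 (.n 2 (.l 0) (.n 0 (.l 0) (.l 0))) (.n 2 (.l 0) (.l 0)))))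
    [(64137723904, 9162981376), (51539607552, 17179869184), (549755813888, 549755813888)] rfl (by decide +kernel)
end

mutual
theorem C2_c0_t76 : CovD 1 gC2 [(64137723904, 9162981376), (103079215104, 34359738368), (549755813888, 549755813888)] :=
  covD_E kC2_eq (.n 0 (.n 2 (.n 2 (.l 0) (.l 0)) (.n 1 (.n 2 (.l 0) (.l 0)) (.n 2 (.l 0) (.l 0)))) (.n 2 (.n 2 (.l 0) (.l 0)) (.n 1 (.n 2 (.l 0) (.l 0)) (.n 2 (.l 0) (.l 0)))))
    [(64137723904, 9162981376), (103079215104, 34359738368), (549755813888, 549755813888)] rfl (by decide +kernel)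
theorem C2_c0_t77 : CovD 1 gC2 [(64137723904, 9162981376), (206158430208, 68719476736), (549755813888, 549755813888)] :=
  covD_E kC2_eq (.n 0 (.n 2 (.n 2 (.l 0) (.l 0)) (.n 2 (.l 0) (.n 0 (.l 0) (.l 0)))) (.n 2 (.n 2 (.l 0) (.l 0)) (.n 2 (.l 0) (.l 0))))
    [(64137723904, 9162981376), (206158430208, 68719476736), (549755813888, 549755813888)] rfl (by decide +kernel)
end

mutual
theorem C2_c0_t81 : CovD 1 gC2 [(82463686656, 9162981376), (34359738368, 34359738368), (274877906944, 274877906944)] :=
  covD_E kC2_eq (.n 1 (.n 1 (.n 0 (.n 2 (.n 2 (.l 0) (.l 0)) (.n 2 (.l 0) (.l 0))) (.n 2 (.n 2 (.l 0) (.l 0)) (.n 2 (.l 0) (.l 0)))) (.n 2 (.n 2 (.l 0) (.l 0)) (.n 2 (.l 0) (.l 0)))) (.n 2 (.n 0 (.l 0) (.l 0)) (.n 2 (.l 0) (.l 0))))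
    [(82463686656, 9162981376), (34359738368, 34359738368), (274877906944, 274877906944)] rfl (by decide +kernel)
theorem C2_c0_t82 : CovD 1 gC2 [(82463686656, 9162981376), (103079215104, 34359738368), (274877906944, 274877906944)] :=
  covD_E kC2_eq (.n 0 (.n 2 (.l 0) (.l 0)) (.n 2 (.l 0) (.l 0)))
    [(82463686656, 9162981376), (103079215104, 34359738368), (274877906944, 274877906944)] rfl (by decide +kernel)
end

mutual
theorem C2_c0_t83 : CovD 1 gC2 [(82463686656, 9162981376), (206158430208, 68719476736), (274877906944, 274877906944)] :=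
  covD_E kC2_eq (.n 0 (.n 2 (.l 0) (.l 0)) (.n 2 (.l 0) (.l 0)))
    [(82463686656, 9162981376), (206158430208, 68719476736), (274877906944, 274877906944)] rfl (by decide +kernel)
theorem C2_c0_t85 : CovD 1 gC2 [(82463686656, 9162981376), (137438953472, 137438953472), (687194767360, 137438953472)] :=
  covD_E kC2_eq (.n 1 (.n 1 (.n 1 (.n 1 (.n 0 (.n 2 (.l 0) (.l 0)) (.n 2 (.l 0) (.l 0))) (.n 2 (.l 0) (.n 0 (.l 0) (.l 0)))) (.n 1 (.n 0 (.l 0) (.l 0)) (.l 0))) (.n 1 (.n 0 (.l 0) (.l 0)) (.l 0))) (.n 0 (.l 0) (.l 0)))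
    [(82463686656, 9162981376), (137438953472, 137438953472), (687194767360, 137438953472)] rfl (by decide +kernel)
end

mutual
theorem C2_c0_t93 : CovD 1 gC2 [(77882195968, 4581490688), (4294967296, 4294967296), (893353197568, 68719476736)] :=
  covD_E kC2_eq (.l 0)
    [(77882195968, 4581490688), (4294967296, 4294967296), (893353197568, 68719476736)] rfl (by decide +kernel)
theorem C2_c0_t98 : CovD 1 gC2 [(77882195968, 4581490688), (536870912, 536870912), (996432412672, 34359738368)] :=
  covD_E kC2_eq (.l 0)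
    [(77882195968, 4581490688), (536870912, 536870912), (996432412672, 34359738368)] rfl (by decide +kernel)
end

mutual
theorem C2_c0_t101 : CovD 1 gC2 [(77882195968, 4581490688), (268435456, 268435456), (1047972020224, 17179869184)] :=
  covD_E kC2_eq (.l 0)
    [(77882195968, 4581490688), (268435456, 268435456), (1047972020224, 17179869184)] rfl (by decide +kernel)
theorem C2_c0_t104 : CovD 1 gC2 [(77882195968, 4581490688), (134217728, 134217728), (1073741824000, 8589934592)] :=
  covD_E kC2_eq (.l 0)
    [(77882195968, 4581490688), (134217728, 134217728), (1073741824000, 8589934592)] rfl (by decide +kernel)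
end

mutual
theorem C2_c0_t106 : CovD 1 gC2 [(77882195968, 4581490688), (134217728, 134217728), (1086626725888, 4294967296)] :=
  covD_E kC2_eq (.l 0)
    [(77882195968, 4581490688), (134217728, 134217728), (1086626725888, 4294967296)] rfl (by decide +kernel)
theorem C2_c0_t108 : CovD 1 gC2 [(77882195968, 4581490688), (134217728, 134217728), (1093069176832, 2147483648)] :=
  covD_E kC2_eq (.l 0)
    [(77882195968, 4581490688), (134217728, 134217728), (1093069176832, 2147483648)] rfl (by decide +kernel)
end

mutual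
theorem C2_c0_t110 : CovD 1 gC2 [(77882195968, 4581490688), (134217728, 134217728), (1096290402304, 1073741824)] :=
  covD_E kC2_eq (.l 0)
    [(77882195968, 4581490688), (134217728, 134217728), (1096290402304, 1073741824)] rfl (by decide +kernel)
theorem C2_c0_t111 : CovD 1 gC2 [(77882195968, 4581490688), (134217728, 134217728), (1098437885952, 1073741824)] :=
  covD_E kC2_eq (.n 0 (.n 0 (.n 0 (.n 0 (.l 1) (.l 1)) (.n 0 (.l 1) (.l 1))) (.n 0 (.n 0 (.l 1) (.l 1)) (.n 0 (.l 1) (.l 1)))) (.n 0 (.n 0 (.n 0 (.l 1) (.l 1)) (.n 0 (.l 1) (.l 1))) (.n 0 (.n 0 (.l 1) (.l 1)) (.n 0 (.l 1) (.l 1)))))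
    [(77882195968, 4581490688), (134217728, 134217728), (1098437885952, 1073741824)] rfl (by decide +kernel)
end

mutual
theorem C2_c0_t112 : CovD 1 gC2 [(77882195968, 4581490688), (402653184, 134217728), (1082331758592, 17179869184)] :=
  covD_E kC2_eq (.l 0)
    [(77882195968, 4581490688), (402653184, 134217728), (1082331758592, 17179869184)] rfl (by decide +kernel)
theorem C2_c0_t113 : CovD 1 gC2 [(77882195968, 4581490688), (805306368, 268435456), (1065151889408, 34359738368)] :=
  covD_E kC2_eq (.l 0)
    [(77882195968, 4581490688), (805306368, 268435456), (1065151889408, 34359738368)] rfl (by decide +kernel)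
end

mutual
theorem C2_c0_t114 : CovD 1 gC2 [(77882195968, 4581490688), (1610612736, 536870912), (1030792151040, 68719476736)] :=
  covD_E kC2_eq (.l 0)
    [(77882195968, 4581490688), (1610612736, 536870912), (1030792151040, 68719476736)] rfl (by decide +kernel)
theorem C2_c0_t115 : CovD 1 gC2 [(77882195968, 4581490688), (3221225472, 1073741824), (1030792151040, 68719476736)] :=
  covD_E kC2_eq (.l 0)
    [(77882195968, 4581490688), (3221225472, 1073741824), (1030792151040, 68719476736)] rfl (by decide +kernel)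
end

mutual
theorem C2_c0_t116 : CovD 1 gC2 [(77882195968, 4581490688), (6442450944, 2147483648), (1030792151040, 68719476736)] :=
  covD_E kC2_eq (.l 0)
    [(77882195968, 4581490688), (6442450944, 2147483648), (1030792151040, 68719476736)] rfl (by decide +kernel)
theorem C2_c0_t117 : CovD 1 gC2 [(77882195968, 4581490688), (12884901888, 4294967296), (962072674304, 137438953472)] :=
  covD_E kC2_eq (.n 0 (.l 0) (.l 0))
    [(77882195968, 4581490688), (12884901888, 4294967296), (962072674304, 137438953472)] rfl (by decide +kernel)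
end

mutual
theorem C2_c0_t118 : CovD 1 gC2 [(77882195968, 4581490688), (25769803776, 8589934592), (962072674304, 137438953472)] :=
  covD_E kC2_eq (.n 2 (.l 0) (.n 0 (.l 0) (.l 0)))
    [(77882195968, 4581490688), (25769803776, 8589934592), (962072674304, 137438953472)] rfl (by decide +kernel)
theorem C2_c0_t119 : CovD 1 gC2 [(77882195968, 4581490688), (51539607552, 17179869184), (962072674304, 137438953472)] :=
  covD_E kC2_eq (.n 1 (.n 0 (.l 0) (.l 0)) (.l 0))
    [(77882195968, 4581490688), (51539607552, 17179869184), (962072674304, 137438953472)] rfl (by decide +kernel)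
end

mutual
theorem C2_c0_t120 : CovD 1 gC2 [(77882195968, 4581490688), (103079215104, 34359738368), (962072674304, 137438953472)] :=
  covD_E kC2_eq (.n 1 (.l 0) (.l 0))
    [(77882195968, 4581490688), (103079215104, 34359738368), (962072674304, 137438953472)] rfl (by decide +kernel)
theorem C2_c0_t121 : CovD 1 gC2 [(77882195968, 4581490688), (206158430208, 68719476736), (962072674304, 137438953472)] :=
  covD_E kC2_eq (.l 0)
    [(77882195968, 4581490688), (206158430208, 68719476736), (962072674304, 137438953472)] rfl (by decide +kernel)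
end

mutual
theorem C2_c0_t128 : CovD 1 gC2 [(87045177344, 4581490688), (4294967296, 4294967296), (893353197568, 68719476736)] :=
  covD_E kC2_eq (.l 0)
    [(87045177344, 4581490688), (4294967296, 4294967296), (893353197568, 68719476736)] rfl (by decide +kernel)
theorem C2_c0_t133 : CovD 1 gC2 [(87045177344, 4581490688), (536870912, 536870912), (996432412672, 34359738368)] :=
  covD_E kC2_eq (.l 0)
    [(87045177344, 4581490688), (536870912, 536870912), (996432412672, 34359738368)] rfl (by decide +kernel)
end

mutual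
theorem C2_c0_t136 : CovD 1 gC2 [(87045177344, 4581490688), (134217728, 134217728), (1065151889408, 34359738368)] :=
  covD_E kC2_eq (.n 2 (.l 0) (.n 2 (.l 0) (.n 2 (.l 0) (.n 2 (.l 0) (.n 2 (.l 0) (.n 2 (.l 0) (.n 0 (.n 0 (.n 2 (.l 0) (.n 0 (.l 1) (.l 1))) (.n 0 (.l 1) (.l 1))) (.n 0 (.n 0 (.l 1) (.l 1)) (.n 0 (.l 1) (.l 1))))))))))
    [(87045177344, 4581490688), (134217728, 134217728), (1065151889408, 34359738368)] rfl (by decide +kernel)
theorem C2_c0_t137 : CovD 1 gC2 [(87045177344, 4581490688), (402653184, 134217728), (1065151889408, 34359738368)] :=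
  covD_E kC2_eq (.n 0 (.l 0) (.l 0))
    [(87045177344, 4581490688), (402653184, 134217728), (1065151889408, 34359738368)] rfl (by decide +kernel)
end

mutual
theorem C2_c0_t138 : CovD 1 gC2 [(87045177344, 4581490688), (805306368, 268435456), (1065151889408, 34359738368)] :=
  covD_E kC2_eq (.l 0)
    [(87045177344, 4581490688), (805306368, 268435456), (1065151889408, 34359738368)] rfl (by decide +kernel)
theorem C2_c0_t139 : CovD 1 gC2 [(87045177344, 4581490688), (1610612736, 536870912), (1030792151040, 68719476736)] :=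
  covD_E kC2_eq (.l 0)
    [(87045177344, 4581490688), (1610612736, 536870912), (1030792151040, 68719476736)] rfl (by decide +kernel)
end

mutual
theorem C2_c0_t140 : CovD 1 gC2 [(87045177344, 4581490688), (3221225472, 1073741824), (1030792151040, 68719476736)] :=
  covD_E kC2_eq (.l 0)
    [(87045177344, 4581490688), (3221225472, 1073741824), (1030792151040, 68719476736)] rfl (by decide +kernel)
theorem C2_c0_t141 : CovD 1 gC2 [(87045177344, 4581490688), (6442450944, 2147483648), (1030792151040, 68719476736)] :=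
  covD_E kC2_eq (.l 0)
    [(87045177344, 4581490688), (6442450944, 2147483648), (1030792151040, 68719476736)] rfl (by decide +kernel)
end

mutual
theorem C2_c0_t142 : CovD 1 gC2 [(87045177344, 4581490688), (12884901888, 4294967296), (962072674304, 137438953472)] :=
  covD_E kC2_eq (.n 0 (.l 0) (.l 0))
    [(87045177344, 4581490688), (12884901888, 4294967296), (962072674304, 137438953472)] rfl (by decide +kernel)
theorem C2_c0_t143 : CovD 1 gC2 [(87045177344, 4581490688), (25769803776, 8589934592), (962072674304, 137438953472)] :=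
  covD_E kC2_eq (.n 2 (.l 0) (.n 0 (.l 0) (.l 0)))
    [(87045177344, 4581490688), (25769803776, 8589934592), (962072674304, 137438953472)] rfl (by decide +kernel)
end

mutual
theorem C2_c0_t144 : CovD 1 gC2 [(87045177344, 4581490688), (51539607552, 17179869184), (962072674304, 137438953472)] :=
  covD_E kC2_eq (.n 1 (.n 0 (.l 0) (.l 0)) (.l 0))
    [(87045177344, 4581490688), (51539607552, 17179869184), (962072674304, 137438953472)] rfl (by decide +kernel)
theorem C2_c0_t145 : CovD 1 gC2 [(87045177344, 4581490688), (103079215104, 34359738368), (962072674304, 137438953472)] :=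
  covD_E kC2_eq (.n 1 (.l 0) (.l 0))
    [(87045177344, 4581490688), (103079215104, 34359738368), (962072674304, 137438953472)] rfl (by decide +kernel)
end

mutual
theorem C2_c0_t146 : CovD 1 gC2 [(87045177344, 4581490688), (206158430208, 68719476736), (962072674304, 137438953472)] :=
  covD_E kC2_eq (.l 0)
    [(87045177344, 4581490688), (206158430208, 68719476736), (962072674304, 137438953472)] rfl (by decide +kernel)
theorem D2_c0_t1 : CovD 1 gD2 [(64137723904, 9162981376), (137438953472, 137438953472), (863554764800, 863554764800)] :=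
  covD_E kD2_eq (.n 2 (.n 2 (.n 2 (.l 0) (.l 0)) (.n 0 (.n 1 (.l 0) (.l 0)) (.n 1 (.l 0) (.l 0)))) (.n 0 (.n 1 (.n 2 (.l 0) (.l 0)) (.n 2 (.l 0) (.l 0))) (.n 1 (.n 2 (.l 0) (.l 0)) (.n 2 (.l 0) (.l 0)))))
    [(64137723904, 9162981376), (137438953472, 137438953472), (863554764800, 863554764800)] rfl (by decide +kernel)
end

mutual
theorem D2_c0_t2 : CovD 1 gD2 [(82463686656, 9162981376), (137438953472, 137438953472), (863554764800, 863554764800)] :=
  covD_E kD2_eq (.n 2 (.n 2 (.n 1 (.l 0) (.l 0)) (.n 2 (.l 0) (.l 0))) (.n 2 (.n 2 (.l 0) (.l 0)) (.n 2 (.l 0) (.l 0))))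
    [(82463686656, 9162981376), (137438953472, 137438953472), (863554764800, 863554764800)] rfl (by decide +kernel)
theorem E2_c0_t4 : CovD 1 gE2 [(59556233216, 4581490688), (137438953472, 137438953472), (215888691200, 215888691200)] :=
  covD_E kE2_eq (.n 2 (.n 0 (.n 2 (.n 1 (.l 1) (.l 1)) (.n 2 (.n 0 (.l 0) (.l 0)) (.l 0))) (.n 0 (.n 1 (.n 0 (.l 1) (.l 1)) (.l 1)) (.n 1 (.l 1) (.l 1)))) (.n 2 (.n 2 (.n 0 (.l 0) (.l 0)) (.l 0)) (.n 0 (.l 0) (.l 0))))
    [(59556233216, 4581490688), (137438953472, 137438953472), (215888691200, 215888691200)] rfl (by decide +kernel)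
end

mutual
theorem E2_c0_t5 : CovD 1 gE2 [(59556233216, 4581490688), (137438953472, 137438953472), (647666073600, 215888691200)] :=
  covD_E kE2_eq (.n 2 (.n 2 (.l 0) (.l 0)) (.l 0))
    [(59556233216, 4581490688), (137438953472, 137438953472), (647666073600, 215888691200)] rfl (by decide +kernel)
theorem E2_c0_t6 : CovD 1 gE2 [(68719214592, 4581490688), (137438953472, 137438953472), (431777382400, 431777382400)] :=
  covD_E kE2_eq (.n 2 (.n 2 (.n 0 (.n 1 (.n 0 (.l 1) (.l 1)) (.l 1)) (.n 1 (.l 1) (.l 1))) (.n 2 (.n 2 (.n 0 (.l 0) (.l 0)) (.l 0)) (.l 0))) (.n 2 (.n 2 (.l 0) (.l 0)) (.l 0)))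
    [(68719214592, 4581490688), (137438953472, 137438953472), (431777382400, 431777382400)] rfl (by decide +kernel)
end

mutual
theorem E2_c0_t7 : CovD 1 gE2 [(82463686656, 9162981376), (137438953472, 137438953472), (431777382400, 431777382400)] :=
  covD_E kE2_eq (.n 0 (.n 2 (.n 2 (.n 1 (.l 1) (.l 1)) (.n 2 (.n 0 (.l 0) (.l 0)) (.l 0))) (.n 2 (.n 0 (.l 0) (.l 0)) (.l 0))) (.n 2 (.n 2 (.l 1) (.n 2 (.n 0 (.l 0) (.l 0)) (.l 0))) (.n 2 (.l 0) (.l 0))))
    [(82463686656, 9162981376), (137438953472, 137438953472), (431777382400, 431777382400)] rfl (by decide +kernel)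
theorem E2_c0_t8 : CovD 1 gE2 [(73300705280, 18325962752), (137438953472, 137438953472), (1295332147200, 431777382400)] :=
  covD_E kE2_eq (.n 0 (.n 0 (.n 2 (.n 2 (.l 0) (.l 0)) (.n 2 (.l 0) (.l 0))) (.n 2 (.n 2 (.l 0) (.l 0)) (.n 1 (.l 0) (.l 0)))) (.n 2 (.n 0 (.n 2 (.l 0) (.l 0)) (.n 2 (.l 0) (.l 0))) (.n 2 (.n 0 (.l 0) (.l 0)) (.l 0))))
    [(73300705280, 18325962752), (137438953472, 137438953472), (1295332147200, 431777382400)] rfl (by decide +kernel)
end

theorem B2_c0_t2 : CovD 1 gB2 [(64137723904, 9162981376), (137438953472, 137438953472), (27487895552, 27487895552)] :=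
  covD_split 2 (by decide +kernel) B2_c0_t3 B2_c0_t4

theorem B2_c0_t1 : CovD 1 gB2 [(64137723904, 9162981376), (137438953472, 137438953472), (54975791104, 54975791104)] :=
  covD_split 2 (by decide +kernel) B2_c0_t2 B2_c0_t5

theorem B2_c0_t6 : CovD 1 gB2 [(82463686656, 9162981376), (137438953472, 137438953472), (54975791104, 54975791104)] :=
  covD_split 2 (by decide +kernel) B2_c0_t7 B2_c0_t8

theorem B2_c0 : CovD 1 gB2 [(73300705280, 18325962752), (137438953472, 137438953472), (54975791104, 54975791104)] :=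
  covD_split 0 (by decide +kernel) B2_c0_t1 B2_c0_t6

theorem C2_c0_t28 : CovD 1 gC2 [(57265487872, 2290745344), (268435456, 268435456), (1097364144128, 2147483648)] :=
  covD_split 2 (by decide +kernel) C2_c0_t29 C2_c0_t30

theorem C2_c0_t26 : CovD 1 gC2 [(57265487872, 2290745344), (268435456, 268435456), (1095216660480, 4294967296)] :=
  covD_split 2 (by decide +kernel) C2_c0_t27 C2_c0_t28

theorem C2_c0_t24 : CovD 1 gC2 [(57265487872, 2290745344), (268435456, 268435456), (1090921693184, 8589934592)] :=
  covD_split 2 (by decide +kernel) C2_c0_t25 C2_c0_t26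

theorem C2_c0_t22 : CovD 1 gC2 [(57265487872, 2290745344), (268435456, 268435456), (1082331758592, 17179869184)] :=
  covD_split 2 (by decide +kernel) C2_c0_t23 C2_c0_t24

theorem C2_c0_t20 : CovD 1 gC2 [(57265487872, 2290745344), (268435456, 268435456), (1065151889408, 34359738368)] :=
  covD_split 2 (by decide +kernel) C2_c0_t21 C2_c0_t22

theorem C2_c0_t32 : CovD 1 gC2 [(61846978560, 2290745344), (134217728, 134217728), (1065151889408, 34359738368)] :=
  covD_split 1 (by decide +kernel) C2_c0_t33 C2_c0_t34

theorem C2_c0_t31 : CovD 1 gC2 [(61846978560, 2290745344), (268435456, 268435456), (1065151889408, 34359738368)] :=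
  covD_split 1 (by decide +kernel) C2_c0_t32 C2_c0_t35

theorem C2_c0_t19 : CovD 1 gC2 [(59556233216, 4581490688), (268435456, 268435456), (1065151889408, 34359738368)] :=
  covD_split 0 (by decide +kernel) C2_c0_t20 C2_c0_t31

theorem C2_c0_t18 : CovD 1 gC2 [(59556233216, 4581490688), (536870912, 536870912), (1065151889408, 34359738368)] :=
  covD_split 1 (by decide +kernel) C2_c0_t19 C2_c0_t36

theorem C2_c0_t17 : CovD 1 gC2 [(59556233216, 4581490688), (1073741824, 1073741824), (1065151889408, 34359738368)] :=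
  covD_split 1 (by decide +kernel) C2_c0_t18 C2_c0_t37

theorem C2_c0_t15 : CovD 1 gC2 [(59556233216, 4581490688), (1073741824, 1073741824), (1030792151040, 68719476736)] :=
  covD_split 2 (by decide +kernel) C2_c0_t16 C2_c0_t17

theorem C2_c0_t14 : CovD 1 gC2 [(59556233216, 4581490688), (2147483648, 2147483648), (1030792151040, 68719476736)] :=
  covD_split 1 (by decide +kernel) C2_c0_t15 C2_c0_t38

theorem C2_c0_t13 : CovD 1 gC2 [(59556233216, 4581490688), (4294967296, 4294967296), (1030792151040, 68719476736)] :=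
  covD_split 1 (by decide +kernel) C2_c0_t14 C2_c0_t39

theorem C2_c0_t11 : CovD 1 gC2 [(59556233216, 4581490688), (4294967296, 4294967296), (962072674304, 137438953472)] :=
  covD_split 2 (by decide +kernel) C2_c0_t12 C2_c0_t13

theorem C2_c0_t9 : CovD 1 gC2 [(59556233216, 4581490688), (4294967296, 4294967296), (824633720832, 274877906944)] :=
  covD_split 2 (by decide +kernel) C2_c0_t10 C2_c0_t11

theorem C2_c0_t7 : CovD 1 gC2 [(59556233216, 4581490688), (4294967296, 4294967296), (549755813888, 549755813888)] :=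
  covD_split 2 (by decide +kernel) C2_c0_t8 C2_c0_t9

theorem C2_c0_t64 : CovD 1 gC2 [(68719214592, 4581490688), (67108864, 67108864), (1098437885952, 1073741824)] :=
  covD_split 2 (by decide +kernel) C2_c0_t65 C2_c0_t66

theorem C2_c0_t62 : CovD 1 gC2 [(68719214592, 4581490688), (67108864, 67108864), (1097364144128, 2147483648)] :=
  covD_split 2 (by decide +kernel) C2_c0_t63 C2_c0_t64

theorem C2_c0_t60 : CovD 1 gC2 [(68719214592, 4581490688), (67108864, 67108864), (1095216660480, 4294967296)] :=
  covD_split 2 (by decide +kernel) C2_c0_t61 C2_c0_t62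

theorem C2_c0_t58 : CovD 1 gC2 [(68719214592, 4581490688), (67108864, 67108864), (1090921693184, 8589934592)] :=
  covD_split 2 (by decide +kernel) C2_c0_t59 C2_c0_t60

theorem C2_c0_t56 : CovD 1 gC2 [(68719214592, 4581490688), (67108864, 67108864), (1082331758592, 17179869184)] :=
  covD_split 2 (by decide +kernel) C2_c0_t57 C2_c0_t58

theorem C2_c0_t54 : CovD 1 gC2 [(68719214592, 4581490688), (67108864, 67108864), (1065151889408, 34359738368)] :=
  covD_split 2 (by decide +kernel) C2_c0_t55 C2_c0_t56

theorem C2_c0_t53 : CovD 1 gC2 [(68719214592, 4581490688), (134217728, 134217728), (1065151889408, 34359738368)] :=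
  covD_split 1 (by decide +kernel) C2_c0_t54 C2_c0_t67

theorem C2_c0_t52 : CovD 1 gC2 [(68719214592, 4581490688), (268435456, 268435456), (1065151889408, 34359738368)] :=
  covD_split 1 (by decide +kernel) C2_c0_t53 C2_c0_t68

theorem C2_c0_t51 : CovD 1 gC2 [(68719214592, 4581490688), (536870912, 536870912), (1065151889408, 34359738368)] :=
  covD_split 1 (by decide +kernel) C2_c0_t52 C2_c0_t69

theorem C2_c0_t49 : CovD 1 gC2 [(68719214592, 4581490688), (536870912, 536870912), (1030792151040, 68719476736)] :=
  covD_split 2 (by decide +kernel) C2_c0_t50 C2_c0_t51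

theorem C2_c0_t48 : CovD 1 gC2 [(68719214592, 4581490688), (1073741824, 1073741824), (1030792151040, 68719476736)] :=
  covD_split 1 (by decide +kernel) C2_c0_t49 C2_c0_t70

theorem C2_c0_t47 : CovD 1 gC2 [(68719214592, 4581490688), (2147483648, 2147483648), (1030792151040, 68719476736)] :=
  covD_split 1 (by decide +kernel) C2_c0_t48 C2_c0_t71

theorem C2_c0_t46 : CovD 1 gC2 [(68719214592, 4581490688), (4294967296, 4294967296), (1030792151040, 68719476736)] :=
  covD_split 1 (by decide +kernel) C2_c0_t47 C2_c0_t72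

theorem C2_c0_t44 : CovD 1 gC2 [(68719214592, 4581490688), (4294967296, 4294967296), (962072674304, 137438953472)] :=
  covD_split 2 (by decide +kernel) C2_c0_t45 C2_c0_t46

theorem C2_c0_t42 : CovD 1 gC2 [(68719214592, 4581490688), (4294967296, 4294967296), (824633720832, 274877906944)] :=
  covD_split 2 (by decide +kernel) C2_c0_t43 C2_c0_t44

theorem C2_c0_t40 : CovD 1 gC2 [(68719214592, 4581490688), (4294967296, 4294967296), (549755813888, 549755813888)] :=
  covD_split 2 (by decide +kernel) C2_c0_t41 C2_c0_t42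

theorem C2_c0_t6 : CovD 1 gC2 [(64137723904, 9162981376), (4294967296, 4294967296), (549755813888, 549755813888)] :=
  covD_split 0 (by decide +kernel) C2_c0_t7 C2_c0_t40

theorem C2_c0_t5 : CovD 1 gC2 [(64137723904, 9162981376), (8589934592, 8589934592), (549755813888, 549755813888)] :=
  covD_split 1 (by decide +kernel) C2_c0_t6 C2_c0_t73

theorem C2_c0_t4 : CovD 1 gC2 [(64137723904, 9162981376), (17179869184, 17179869184), (549755813888, 549755813888)] :=
  covD_split 1 (by decide +kernel) C2_c0_t5 C2_c0_t74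

theorem C2_c0_t3 : CovD 1 gC2 [(64137723904, 9162981376), (34359738368, 34359738368), (549755813888, 549755813888)] :=
  covD_split 1 (by decide +kernel) C2_c0_t4 C2_c0_t75

theorem C2_c0_t2 : CovD 1 gC2 [(64137723904, 9162981376), (68719476736, 68719476736), (549755813888, 549755813888)] :=
  covD_split 1 (by decide +kernel) C2_c0_t3 C2_c0_t76

theorem C2_c0_t1 : CovD 1 gC2 [(64137723904, 9162981376), (137438953472, 137438953472), (549755813888, 549755813888)] :=
  covD_split 1 (by decide +kernel) C2_c0_t2 C2_c0_t77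

theorem C2_c0_t80 : CovD 1 gC2 [(82463686656, 9162981376), (68719476736, 68719476736), (274877906944, 274877906944)] :=
  covD_split 1 (by decide +kernel) C2_c0_t81 C2_c0_t82

theorem C2_c0_t79 : CovD 1 gC2 [(82463686656, 9162981376), (137438953472, 137438953472), (274877906944, 274877906944)] :=
  covD_split 1 (by decide +kernel) C2_c0_t80 C2_c0_t83

theorem C2_c0_t109 : CovD 1 gC2 [(77882195968, 4581490688), (134217728, 134217728), (1097364144128, 2147483648)] :=
  covD_split 2 (by decide +kernel) C2_c0_t110 C2_c0_t111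

theorem C2_c0_t107 : CovD 1 gC2 [(77882195968, 4581490688), (134217728, 134217728), (1095216660480, 4294967296)] :=
  covD_split 2 (by decide +kernel) C2_c0_t108 C2_c0_t109

theorem C2_c0_t105 : CovD 1 gC2 [(77882195968, 4581490688), (134217728, 134217728), (1090921693184, 8589934592)] :=
  covD_split 2 (by decide +kernel) C2_c0_t106 C2_c0_t107

theorem C2_c0_t103 : CovD 1 gC2 [(77882195968, 4581490688), (134217728, 134217728), (1082331758592, 17179869184)] :=
  covD_split 2 (by decide +kernel) C2_c0_t104 C2_c0_t105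

theorem C2_c0_t102 : CovD 1 gC2 [(77882195968, 4581490688), (268435456, 268435456), (1082331758592, 17179869184)] :=
  covD_split 1 (by decide +kernel) C2_c0_t103 C2_c0_t112

theorem C2_c0_t100 : CovD 1 gC2 [(77882195968, 4581490688), (268435456, 268435456), (1065151889408, 34359738368)] :=
  covD_split 2 (by decide +kernel) C2_c0_t101 C2_c0_t102

theorem C2_c0_t99 : CovD 1 gC2 [(77882195968, 4581490688), (536870912, 536870912), (1065151889408, 34359738368)] :=
  covD_split 1 (by decide +kernel) C2_c0_t100 C2_c0_t113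

theorem C2_c0_t97 : CovD 1 gC2 [(77882195968, 4581490688), (536870912, 536870912), (1030792151040, 68719476736)] :=
  covD_split 2 (by decide +kernel) C2_c0_t98 C2_c0_t99

theorem C2_c0_t96 : CovD 1 gC2 [(77882195968, 4581490688), (1073741824, 1073741824), (1030792151040, 68719476736)] :=
  covD_split 1 (by decide +kernel) C2_c0_t97 C2_c0_t114

theorem C2_c0_t95 : CovD 1 gC2 [(77882195968, 4581490688), (2147483648, 2147483648), (1030792151040, 68719476736)] :=
  covD_split 1 (by decide +kernel) C2_c0_t96 C2_c0_t115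

theorem C2_c0_t94 : CovD 1 gC2 [(77882195968, 4581490688), (4294967296, 4294967296), (1030792151040, 68719476736)] :=
  covD_split 1 (by decide +kernel) C2_c0_t95 C2_c0_t116

theorem C2_c0_t92 : CovD 1 gC2 [(77882195968, 4581490688), (4294967296, 4294967296), (962072674304, 137438953472)] :=
  covD_split 2 (by decide +kernel) C2_c0_t93 C2_c0_t94

theorem C2_c0_t91 : CovD 1 gC2 [(77882195968, 4581490688), (8589934592, 8589934592), (962072674304, 137438953472)] :=
  covD_split 1 (by decide +kernel) C2_c0_t92 C2_c0_t117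

theorem C2_c0_t90 : CovD 1 gC2 [(77882195968, 4581490688), (17179869184, 17179869184), (962072674304, 137438953472)] :=
  covD_split 1 (by decide +kernel) C2_c0_t91 C2_c0_t118

theorem C2_c0_t89 : CovD 1 gC2 [(77882195968, 4581490688), (34359738368, 34359738368), (962072674304, 137438953472)] :=
  covD_split 1 (by decide +kernel) C2_c0_t90 C2_c0_t119

theorem C2_c0_t88 : CovD 1 gC2 [(77882195968, 4581490688), (68719476736, 68719476736), (962072674304, 137438953472)] :=
  covD_split 1 (by decide +kernel) C2_c0_t89 C2_c0_t120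

theorem C2_c0_t87 : CovD 1 gC2 [(77882195968, 4581490688), (137438953472, 137438953472), (962072674304, 137438953472)] :=
  covD_split 1 (by decide +kernel) C2_c0_t88 C2_c0_t121

theorem C2_c0_t135 : CovD 1 gC2 [(87045177344, 4581490688), (268435456, 268435456), (1065151889408, 34359738368)] :=
  covD_split 1 (by decide +kernel) C2_c0_t136 C2_c0_t137

theorem C2_c0_t134 : CovD 1 gC2 [(87045177344, 4581490688), (536870912, 536870912), (1065151889408, 34359738368)] :=
  covD_split 1 (by decide +kernel) C2_c0_t135 C2_c0_t138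

theorem C2_c0_t132 : CovD 1 gC2 [(87045177344, 4581490688), (536870912, 536870912), (1030792151040, 68719476736)] :=
  covD_split 2 (by decide +kernel) C2_c0_t133 C2_c0_t134

theorem C2_c0_t131 : CovD 1 gC2 [(87045177344, 4581490688), (1073741824, 1073741824), (1030792151040, 68719476736)] :=
  covD_split 1 (by decide +kernel) C2_c0_t132 C2_c0_t139

theorem C2_c0_t130 : CovD 1 gC2 [(87045177344, 4581490688), (2147483648, 2147483648), (1030792151040, 68719476736)] :=
  covD_split 1 (by decide +kernel) C2_c0_t131 C2_c0_t140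

theorem C2_c0_t129 : CovD 1 gC2 [(87045177344, 4581490688), (4294967296, 4294967296), (1030792151040, 68719476736)] :=
  covD_split 1 (by decide +kernel) C2_c0_t130 C2_c0_t141

theorem C2_c0_t127 : CovD 1 gC2 [(87045177344, 4581490688), (4294967296, 4294967296), (962072674304, 137438953472)] :=
  covD_split 2 (by decide +kernel) C2_c0_t128 C2_c0_t129

theorem C2_c0_t126 : CovD 1 gC2 [(87045177344, 4581490688), (8589934592, 8589934592), (962072674304, 137438953472)] :=
  covD_split 1 (by decide +kernel) C2_c0_t127 C2_c0_t142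

theorem C2_c0_t125 : CovD 1 gC2 [(87045177344, 4581490688), (17179869184, 17179869184), (962072674304, 137438953472)] :=
  covD_split 1 (by decide +kernel) C2_c0_t126 C2_c0_t143

theorem C2_c0_t124 : CovD 1 gC2 [(87045177344, 4581490688), (34359738368, 34359738368), (962072674304, 137438953472)] :=
  covD_split 1 (by decide +kernel) C2_c0_t125 C2_c0_t144

theorem C2_c0_t123 : CovD 1 gC2 [(87045177344, 4581490688), (68719476736, 68719476736), (962072674304, 137438953472)] :=
  covD_split 1 (by decide +kernel) C2_c0_t124 C2_c0_t145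

theorem C2_c0_t122 : CovD 1 gC2 [(87045177344, 4581490688), (137438953472, 137438953472), (962072674304, 137438953472)] :=
  covD_split 1 (by decide +kernel) C2_c0_t123 C2_c0_t146

theorem C2_c0_t86 : CovD 1 gC2 [(82463686656, 9162981376), (137438953472, 137438953472), (962072674304, 137438953472)] :=
  covD_split 0 (by decide +kernel) C2_c0_t87 C2_c0_t122

theorem C2_c0_t84 : CovD 1 gC2 [(82463686656, 9162981376), (137438953472, 137438953472), (824633720832, 274877906944)] :=
  covD_split 2 (by decide +kernel) C2_c0_t85 C2_c0_t86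

theorem C2_c0_t78 : CovD 1 gC2 [(82463686656, 9162981376), (137438953472, 137438953472), (549755813888, 549755813888)] :=
  covD_split 2 (by decide +kernel) C2_c0_t79 C2_c0_t84

theorem C2_c0 : CovD 1 gC2 [(73300705280, 18325962752), (137438953472, 137438953472), (549755813888, 549755813888)] :=
  covD_split 0 (by decide +kernel) C2_c0_t1 C2_c0_t78

theorem D2_c0 : CovD 1 gD2 [(73300705280, 18325962752), (137438953472, 137438953472), (863554764800, 863554764800)] :=
  covD_split 0 (by decide +kernel) D2_c0_t1 D2_c0_t2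

theorem E2_c0_t3 : CovD 1 gE2 [(59556233216, 4581490688), (137438953472, 137438953472), (431777382400, 431777382400)] :=
  covD_split 2 (by decide +kernel) E2_c0_t4 E2_c0_t5

theorem E2_c0_t2 : CovD 1 gE2 [(64137723904, 9162981376), (137438953472, 137438953472), (431777382400, 431777382400)] :=
  covD_split 0 (by decide +kernel) E2_c0_t3 E2_c0_t6

theorem E2_c0_t1 : CovD 1 gE2 [(73300705280, 18325962752), (137438953472, 137438953472), (431777382400, 431777382400)] :=
  covD_split 0 (by decide +kernel) E2_c0_t2 E2_c0_t7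

theorem E2_c0 : CovD 1 gE2 [(73300705280, 18325962752), (137438953472, 137438953472), (863554764800, 863554764800)] :=
  covD_split 2 (by decide +kernel) E2_c0_t1 E2_c0_t8

end Pool.Agent.helper14.NR.E12a
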