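import Pool.Agent.helper14.NR.E12a.PN3

/-!
Generated: certificates.
-/

namespace Pool.Agent.helper14.NR.E12a

open Pool.Agent.helper31.IA (Z)
open Pool.Agent.helper31.IX (Op XOps runX Cov CovD cov_split covD_split)
open Pool.Agent.helper31.IC (TD)
open Pool.Agent.helper63.RG (reloc)
open Pool.Agent.helper63.NF hiding TD
open Pool.Agent.helper14.CF (xE covD_E)
open Pool.Agent.helper14.NR (share)

mutual
theorem C3_c0_t4 : CovD 1 gC3 [(64137723904, 9162981376), (68719476736, 68719476736), (137438953472, 137438953472)] :=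
  covD_E kC3_eq (.n 1 (.n 1 (.n 1 (.n 0 (.n 2 (.l 0) (.l 0)) (.n 2 (.l 0) (.l 0))) (.n 2 (.l 0) (.l 0))) (.n 2 (.l 0) (.l 0))) (.n 0 (.l 0) (.l 0)))
    [(64137723904, 9162981376), (68719476736, 68719476736), (137438953472, 137438953472)] rfl (by decide +kernel)
theorem C3_c0_t5 : CovD 1 gC3 [(64137723904, 9162981376), (68719476736, 68719476736), (412316860416, 137438953472)] :=
  covD_E kC3_eq (.n 0 (.n 1 (.n 1 (.n 1 (.n 2 (.l 0) (.l 0)) (.n 0 (.l 0) (.l 0))) (.n 0 (.l 0) (.l 0))) (.l 0)) (.n 1 (.n 1 (.n 1 (.n 2 (.l 0) (.l 0)) (.n 0 (.l 0) (.l 0))) (.n 0 (.l 0) (.l 0))) (.l 0)))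
    [(64137723904, 9162981376), (68719476736, 68719476736), (412316860416, 137438953472)] rfl (by decide +kernel)
end

mutual
theorem C3_c0_t7 : CovD 1 gC3 [(82463686656, 9162981376), (34359738368, 34359738368), (274877906944, 274877906944)] :=
  covD_E kC3_eq (.n 1 (.n 1 (.n 0 (.n 2 (.n 2 (.l 0) (.l 0)) (.n 2 (.l 0) (.l 0))) (.n 2 (.n 2 (.l 0) (.l 0)) (.n 2 (.l 0) (.l 0)))) (.n 2 (.n 2 (.l 0) (.l 0)) (.n 2 (.l 0) (.l 0)))) (.n 2 (.n 0 (.l 0) (.l 0)) (.n 2 (.l 0) (.l 0))))
    [(82463686656, 9162981376), (34359738368, 34359738368), (274877906944, 274877906944)] rfl (by decide +kernel)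
theorem C3_c0_t8 : CovD 1 gC3 [(82463686656, 9162981376), (103079215104, 34359738368), (274877906944, 274877906944)] :=
  covD_E kC3_eq (.n 0 (.n 2 (.l 0) (.l 0)) (.n 2 (.l 0) (.l 0)))
    [(82463686656, 9162981376), (103079215104, 34359738368), (274877906944, 274877906944)] rfl (by decide +kernel)
end

mutual
theorem C3_c0_t9 : CovD 1 gC3 [(73300705280, 18325962752), (206158430208, 68719476736), (274877906944, 274877906944)] :=
  covD_E kC3_eq (.n 0 (.n 0 (.n 2 (.l 0) (.l 0)) (.n 2 (.l 0) (.l 0))) (.n 0 (.n 2 (.l 0) (.l 0)) (.n 2 (.l 0) (.l 0))))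
    [(73300705280, 18325962752), (206158430208, 68719476736), (274877906944, 274877906944)] rfl (by decide +kernel)
theorem C3_c0_t13 : CovD 1 gC3 [(59556233216, 4581490688), (137438953472, 137438953472), (687194767360, 137438953472)] :=
  covD_E kC3_eq (.n 1 (.n 1 (.n 1 (.n 1 (.n 2 (.l 0) (.n 0 (.l 0) (.l 0))) (.n 2 (.l 0) (.l 0))) (.n 1 (.l 0) (.l 0))) (.n 0 (.l 0) (.l 0))) (.l 0))
    [(59556233216, 4581490688), (137438953472, 137438953472), (687194767360, 137438953472)] rfl (by decide +kernel)
end

mutual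
theorem C3_c0_t14 : CovD 1 gC3 [(68719214592, 4581490688), (137438953472, 137438953472), (687194767360, 137438953472)] :=
  covD_E kC3_eq (.n 1 (.n 1 (.n 1 (.n 1 (.n 2 (.l 0) (.l 0)) (.n 2 (.l 0) (.l 0))) (.n 1 (.l 0) (.l 0))) (.n 0 (.l 0) (.l 0))) (.l 0))
    [(68719214592, 4581490688), (137438953472, 137438953472), (687194767360, 137438953472)] rfl (by decide +kernel)
theorem C3_c0_t15 : CovD 1 gC3 [(82463686656, 9162981376), (137438953472, 137438953472), (687194767360, 137438953472)] :=
  covD_E kC3_eq (.n 1 (.n 1 (.n 1 (.n 1 (.n 0 (.n 2 (.l 0) (.l 0)) (.n 2 (.l 0) (.l 0))) (.n 2 (.l 0) (.n 0 (.l 0) (.l 0)))) (.n 0 (.n 1 (.l 0) (.l 0)) (.n 1 (.l 0) (.l 0)))) (.n 1 (.n 0 (.l 0) (.l 0)) (.l 0))) (.n 0 (.l 0) (.l 0)))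
    [(82463686656, 9162981376), (137438953472, 137438953472), (687194767360, 137438953472)] rfl (by decide +kernel)
end

mutual
theorem C3_c0_t19 : CovD 1 gC3 [(59556233216, 4581490688), (137438953472, 137438953472), (893353197568, 68719476736)] :=
  covD_E kC3_eq (.n 1 (.n 1 (.n 1 (.n 1 (.n 0 (.l 0) (.l 0)) (.l 0)) (.l 0)) (.l 0)) (.l 0))
    [(59556233216, 4581490688), (137438953472, 137438953472), (893353197568, 68719476736)] rfl (by decide +kernel)
theorem C3_c0_t26 : CovD 1 gC3 [(57265487872, 2290745344), (4294967296, 4294967296), (1030792151040, 68719476736)] :=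
  covD_E kC3_eq (.n 1 (.n 1 (.n 1 (.n 2 (.l 0) (.n 2 (.l 0) (.n 2 (.l 0) (.n 2 (.l 0) (.n 2 (.l 0) (.n 0 (.n 0 (.n 0 (.l 1) (.l 1)) (.n 0 (.l 1) (.l 1))) (.n 0 (.n 0 (.l 1) (.l 1)) (.n 0 (.l 1) (.l 1))))))))) (.l 0)) (.l 0)) (.l 0))
    [(57265487872, 2290745344), (4294967296, 4294967296), (1030792151040, 68719476736)] rfl (by decide +kernel)
end

mutual
theorem C3_c0_t27 : CovD 1 gC3 [(57265487872, 2290745344), (12884901888, 4294967296), (1030792151040, 68719476736)] :=
  covD_E kC3_eq (.l 0)
    [(57265487872, 2290745344), (12884901888, 4294967296), (1030792151040, 68719476736)] rfl (by decide +kernel)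
theorem C3_c0_t28 : CovD 1 gC3 [(57265487872, 2290745344), (25769803776, 8589934592), (1030792151040, 68719476736)] :=
  covD_E kC3_eq (.l 0)
    [(57265487872, 2290745344), (25769803776, 8589934592), (1030792151040, 68719476736)] rfl (by decide +kernel)
end

mutual
theorem C3_c0_t29 : CovD 1 gC3 [(57265487872, 2290745344), (51539607552, 17179869184), (1030792151040, 68719476736)] :=
  covD_E kC3_eq (.l 0)
    [(57265487872, 2290745344), (51539607552, 17179869184), (1030792151040, 68719476736)] rfl (by decide +kernel)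
theorem C3_c0_t30 : CovD 1 gC3 [(57265487872, 2290745344), (103079215104, 34359738368), (1030792151040, 68719476736)] :=
  covD_E kC3_eq (.l 0)
    [(57265487872, 2290745344), (103079215104, 34359738368), (1030792151040, 68719476736)] rfl (by decide +kernel)
end

mutual
theorem C3_c0_t35 : CovD 1 gC3 [(61846978560, 2290745344), (4294967296, 4294967296), (1030792151040, 68719476736)] :=
  covD_E kC3_eq (.n 1 (.n 1 (.n 1 (.n 2 (.l 0) (.n 2 (.l 0) (.n 2 (.l 0) (.n 2 (.l 0) (.n 2 (.l 0) (.n 0 (.n 0 (.n 0 (.l 1) (.l 1)) (.n 0 (.l 1) (.l 1))) (.n 0 (.n 0 (.l 1) (.l 1)) (.n 0 (.l 1) (.l 1))))))))) (.l 0)) (.l 0)) (.l 0))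
    [(61846978560, 2290745344), (4294967296, 4294967296), (1030792151040, 68719476736)] rfl (by decide +kernel)
theorem C3_c0_t36 : CovD 1 gC3 [(61846978560, 2290745344), (12884901888, 4294967296), (1030792151040, 68719476736)] :=
  covD_E kC3_eq (.l 0)
    [(61846978560, 2290745344), (12884901888, 4294967296), (1030792151040, 68719476736)] rfl (by decide +kernel)
end

mutual
theorem C3_c0_t37 : CovD 1 gC3 [(61846978560, 2290745344), (25769803776, 8589934592), (1030792151040, 68719476736)] :=
  covD_E kC3_eq (.l 0)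
    [(61846978560, 2290745344), (25769803776, 8589934592), (1030792151040, 68719476736)] rfl (by decide +kernel)
theorem C3_c0_t38 : CovD 1 gC3 [(61846978560, 2290745344), (51539607552, 17179869184), (1030792151040, 68719476736)] :=
  covD_E kC3_eq (.l 0)
    [(61846978560, 2290745344), (51539607552, 17179869184), (1030792151040, 68719476736)] rfl (by decide +kernel)
end

mutual
theorem C3_c0_t39 : CovD 1 gC3 [(61846978560, 2290745344), (103079215104, 34359738368), (1030792151040, 68719476736)] :=
  covD_E kC3_eq (.l 0)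
    [(61846978560, 2290745344), (103079215104, 34359738368), (1030792151040, 68719476736)] rfl (by decide +kernel)
theorem C3_c0_t40 : CovD 1 gC3 [(59556233216, 4581490688), (206158430208, 68719476736), (1030792151040, 68719476736)] :=
  covD_E kC3_eq (.l 0)
    [(59556233216, 4581490688), (206158430208, 68719476736), (1030792151040, 68719476736)] rfl (by decide +kernel)
end

mutual
theorem C3_c0_t47 : CovD 1 gC3 [(68719214592, 4581490688), (4294967296, 4294967296), (893353197568, 68719476736)] :=
  covD_E kC3_eq (.l 0)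
    [(68719214592, 4581490688), (4294967296, 4294967296), (893353197568, 68719476736)] rfl (by decide +kernel)
theorem C3_c0_t52 : CovD 1 gC3 [(68719214592, 4581490688), (536870912, 536870912), (996432412672, 34359738368)] :=
  covD_E kC3_eq (.l 0)
    [(68719214592, 4581490688), (536870912, 536870912), (996432412672, 34359738368)] rfl (by decide +kernel)
end

mutual
theorem C3_c0_t54 : CovD 1 gC3 [(68719214592, 4581490688), (268435456, 268435456), (1065151889408, 34359738368)] :=
  covD_E kC3_eq (.n 1 (.n 2 (.l 0) (.n 2 (.l 0) (.n 2 (.l 0) (.n 2 (.l 0) (.n 2 (.l 0) (.n 0 (.n 0 (.n 0 (.n 0 (.l 1) (.l 1)) (.l 1)) (.n 0 (.l 1) (.l 1))) (.n 0 (.n 0 (.l 1) (.l 1)) (.n 0 (.l 1) (.l 1))))))))) (.n 0 (.l 0) (.l 0)))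
    [(68719214592, 4581490688), (268435456, 268435456), (1065151889408, 34359738368)] rfl (by decide +kernel)
theorem C3_c0_t55 : CovD 1 gC3 [(68719214592, 4581490688), (805306368, 268435456), (1065151889408, 34359738368)] :=
  covD_E kC3_eq (.l 0)
    [(68719214592, 4581490688), (805306368, 268435456), (1065151889408, 34359738368)] rfl (by decide +kernel)
end

mutual
theorem C3_c0_t56 : CovD 1 gC3 [(68719214592, 4581490688), (1610612736, 536870912), (1030792151040, 68719476736)] :=
  covD_E kC3_eq (.l 0)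
    [(68719214592, 4581490688), (1610612736, 536870912), (1030792151040, 68719476736)] rfl (by decide +kernel)
theorem C3_c0_t57 : CovD 1 gC3 [(68719214592, 4581490688), (3221225472, 1073741824), (1030792151040, 68719476736)] :=
  covD_E kC3_eq (.l 0)
    [(68719214592, 4581490688), (3221225472, 1073741824), (1030792151040, 68719476736)] rfl (by decide +kernel)
end

mutual
theorem C3_c0_t58 : CovD 1 gC3 [(68719214592, 4581490688), (6442450944, 2147483648), (1030792151040, 68719476736)] :=
  covD_E kC3_eq (.l 0)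
    [(68719214592, 4581490688), (6442450944, 2147483648), (1030792151040, 68719476736)] rfl (by decide +kernel)
theorem C3_c0_t59 : CovD 1 gC3 [(68719214592, 4581490688), (12884901888, 4294967296), (962072674304, 137438953472)] :=
  covD_E kC3_eq (.n 0 (.l 0) (.l 0))
    [(68719214592, 4581490688), (12884901888, 4294967296), (962072674304, 137438953472)] rfl (by decide +kernel)
end

mutual
theorem C3_c0_t60 : CovD 1 gC3 [(68719214592, 4581490688), (25769803776, 8589934592), (962072674304, 137438953472)] :=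
  covD_E kC3_eq (.n 2 (.l 0) (.l 0))
    [(68719214592, 4581490688), (25769803776, 8589934592), (962072674304, 137438953472)] rfl (by decide +kernel)
theorem C3_c0_t61 : CovD 1 gC3 [(68719214592, 4581490688), (51539607552, 17179869184), (962072674304, 137438953472)] :=
  covD_E kC3_eq (.n 1 (.n 0 (.l 0) (.l 0)) (.l 0))
    [(68719214592, 4581490688), (51539607552, 17179869184), (962072674304, 137438953472)] rfl (by decide +kernel)
end

mutual
theorem C3_c0_t62 : CovD 1 gC3 [(68719214592, 4581490688), (103079215104, 34359738368), (962072674304, 137438953472)] :=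
  covD_E kC3_eq (.n 1 (.l 0) (.l 0))
    [(68719214592, 4581490688), (103079215104, 34359738368), (962072674304, 137438953472)] rfl (by decide +kernel)
theorem C3_c0_t63 : CovD 1 gC3 [(68719214592, 4581490688), (206158430208, 68719476736), (962072674304, 137438953472)] :=
  covD_E kC3_eq (.n 0 (.l 0) (.l 0))
    [(68719214592, 4581490688), (206158430208, 68719476736), (962072674304, 137438953472)] rfl (by decide +kernel)
end

mutual
theorem C3_c0_t70 : CovD 1 gC3 [(77882195968, 4581490688), (4294967296, 4294967296), (962072674304, 137438953472)] :=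
  covD_E kC3_eq (.n 2 (.l 0) (.n 1 (.n 1 (.n 2 (.l 0) (.n 2 (.l 0) (.n 2 (.l 0) (.n 2 (.l 0) (.n 2 (.l 0) (.n 0 (.n 0 (.n 0 (.l 1) (.l 1)) (.n 0 (.l 1) (.l 1))) (.n 0 (.n 0 (.l 1) (.l 1)) (.n 0 (.l 1) (.l 1))))))))) (.l 0)) (.l 0)))
    [(77882195968, 4581490688), (4294967296, 4294967296), (962072674304, 137438953472)] rfl (by decide +kernel)
theorem C3_c0_t71 : CovD 1 gC3 [(77882195968, 4581490688), (12884901888, 4294967296), (962072674304, 137438953472)] :=
  covD_E kC3_eq (.n 0 (.l 0) (.l 0))
    [(77882195968, 4581490688), (12884901888, 4294967296), (962072674304, 137438953472)] rfl (by decide +kernel)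
end

mutual
theorem C3_c0_t72 : CovD 1 gC3 [(77882195968, 4581490688), (25769803776, 8589934592), (962072674304, 137438953472)] :=
  covD_E kC3_eq (.n 2 (.l 0) (.n 0 (.l 0) (.l 0)))
    [(77882195968, 4581490688), (25769803776, 8589934592), (962072674304, 137438953472)] rfl (by decide +kernel)
theorem C3_c0_t73 : CovD 1 gC3 [(77882195968, 4581490688), (51539607552, 17179869184), (962072674304, 137438953472)] :=
  covD_E kC3_eq (.n 1 (.n 0 (.l 0) (.l 0)) (.l 0))
    [(77882195968, 4581490688), (51539607552, 17179869184), (962072674304, 137438953472)] rfl (by decide +kernel)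
end

mutual
theorem C3_c0_t74 : CovD 1 gC3 [(77882195968, 4581490688), (103079215104, 34359738368), (962072674304, 137438953472)] :=
  covD_E kC3_eq (.n 1 (.l 0) (.l 0))
    [(77882195968, 4581490688), (103079215104, 34359738368), (962072674304, 137438953472)] rfl (by decide +kernel)
theorem C3_c0_t75 : CovD 1 gC3 [(77882195968, 4581490688), (206158430208, 68719476736), (962072674304, 137438953472)] :=
  covD_E kC3_eq (.n 0 (.l 0) (.l 0))
    [(77882195968, 4581490688), (206158430208, 68719476736), (962072674304, 137438953472)] rfl (by decide +kernel)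
end

mutual
theorem C3_c0_t81 : CovD 1 gC3 [(87045177344, 4581490688), (4294967296, 4294967296), (962072674304, 137438953472)] :=
  covD_E kC3_eq (.n 2 (.l 0) (.n 1 (.n 1 (.n 2 (.l 0) (.n 2 (.l 0) (.n 2 (.l 0) (.n 2 (.l 0) (.n 0 (.n 0 (.n 2 (.l 0) (.n 0 (.l 1) (.l 1))) (.n 0 (.l 1) (.l 1))) (.n 0 (.n 0 (.l 1) (.l 1)) (.n 0 (.l 1) (.l 1)))))))) (.l 0)) (.l 0)))
    [(87045177344, 4581490688), (4294967296, 4294967296), (962072674304, 137438953472)] rfl (by decide +kernel)
theorem C3_c0_t82 : CovD 1 gC3 [(87045177344, 4581490688), (12884901888, 4294967296), (962072674304, 137438953472)] :=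
  covD_E kC3_eq (.n 1 (.l 0) (.l 0))
    [(87045177344, 4581490688), (12884901888, 4294967296), (962072674304, 137438953472)] rfl (by decide +kernel)
end

mutual
theorem C3_c0_t83 : CovD 1 gC3 [(87045177344, 4581490688), (25769803776, 8589934592), (962072674304, 137438953472)] :=
  covD_E kC3_eq (.n 2 (.l 0) (.n 0 (.l 0) (.l 0)))
    [(87045177344, 4581490688), (25769803776, 8589934592), (962072674304, 137438953472)] rfl (by decide +kernel)
theorem C3_c0_t84 : CovD 1 gC3 [(87045177344, 4581490688), (51539607552, 17179869184), (962072674304, 137438953472)] :=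
  covD_E kC3_eq (.n 1 (.n 0 (.l 0) (.l 0)) (.l 0))
    [(87045177344, 4581490688), (51539607552, 17179869184), (962072674304, 137438953472)] rfl (by decide +kernel)
end

mutual
theorem C3_c0_t85 : CovD 1 gC3 [(87045177344, 4581490688), (103079215104, 34359738368), (962072674304, 137438953472)] :=
  covD_E kC3_eq (.n 1 (.l 0) (.l 0))
    [(87045177344, 4581490688), (103079215104, 34359738368), (962072674304, 137438953472)] rfl (by decide +kernel)
theorem C3_c0_t86 : CovD 1 gC3 [(87045177344, 4581490688), (206158430208, 68719476736), (962072674304, 137438953472)] :=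
  covD_E kC3_eq (.l 0)
    [(87045177344, 4581490688), (206158430208, 68719476736), (962072674304, 137438953472)] rfl (by decide +kernel)
end

mutual
theorem D3_c0_t1 : CovD 1 gD3 [(64137723904, 9162981376), (137438953472, 137438953472), (863554764800, 863554764800)] :=
  covD_E kD3_eq (.n 2 (.n 2 (.n 2 (.l 0) (.l 0)) (.n 2 (.l 0) (.l 0))) (.n 0 (.n 1 (.n 2 (.l 0) (.l 0)) (.n 2 (.l 0) (.l 0))) (.n 1 (.n 2 (.l 0) (.l 0)) (.n 2 (.l 0) (.l 0)))))
    [(64137723904, 9162981376), (137438953472, 137438953472), (863554764800, 863554764800)] rfl (by decide +kernel)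
theorem D3_c0_t2 : CovD 1 gD3 [(82463686656, 9162981376), (137438953472, 137438953472), (863554764800, 863554764800)] :=
  covD_E kD3_eq (.n 2 (.n 2 (.n 1 (.l 0) (.l 0)) (.n 2 (.l 0) (.l 0))) (.n 2 (.n 2 (.l 0) (.l 0)) (.n 2 (.l 0) (.l 0))))
    [(82463686656, 9162981376), (137438953472, 137438953472), (863554764800, 863554764800)] rfl (by decide +kernel)
end

mutual
theorem E3_c0_t3 : CovD 1 gE3 [(59556233216, 4581490688), (137438953472, 137438953472), (431777382400, 431777382400)] :=
  covD_E kE3_eq (.n 0 (.n 2 (.n 0 (.l 1) (.l 1)) (.n 2 (.n 2 (.n 2 (.n 0 (.l 0) (.l 0)) (.l 0)) (.n 0 (.l 0) (.l 0))) (.n 2 (.l 0) (.l 0)))) (.n 2 (.l 1) (.n 2 (.n 2 (.n 0 (.l 1) (.l 1)) (.l 0)) (.n 2 (.l 0) (.l 0)))))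
    [(59556233216, 4581490688), (137438953472, 137438953472), (431777382400, 431777382400)] rfl (by decide +kernel)
theorem E3_c0_t4 : CovD 1 gE3 [(68719214592, 4581490688), (137438953472, 137438953472), (431777382400, 431777382400)] :=
  covD_E kE3_eq (.n 2 (.l 1) (.n 2 (.n 0 (.n 2 (.l 1) (.l 0)) (.n 0 (.l 1) (.l 1))) (.n 2 (.l 0) (.l 0))))
    [(68719214592, 4581490688), (137438953472, 137438953472), (431777382400, 431777382400)] rfl (by decide +kernel)
end

mutual
theorem E3_c0_t5 : CovD 1 gE3 [(82463686656, 9162981376), (137438953472, 137438953472), (431777382400, 431777382400)] :=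
  covD_E kE3_eq (.n 2 (.l 1) (.n 0 (.n 2 (.n 0 (.l 1) (.l 1)) (.l 0)) (.n 2 (.l 1) (.n 0 (.l 0) (.l 0)))))
    [(82463686656, 9162981376), (137438953472, 137438953472), (431777382400, 431777382400)] rfl (by decide +kernel)
theorem E3_c0_t6 : CovD 1 gE3 [(73300705280, 18325962752), (137438953472, 137438953472), (1295332147200, 431777382400)] :=
  covD_E kE3_eq (.n 0 (.n 0 (.n 2 (.n 2 (.n 0 (.l 0) (.l 0)) (.l 0)) (.n 2 (.l 0) (.l 0))) (.n 2 (.n 2 (.l 0) (.l 0)) (.n 1 (.l 0) (.l 0)))) (.n 2 (.n 0 (.n 2 (.l 0) (.l 0)) (.n 2 (.l 0) (.l 0))) (.n 2 (.n 0 (.l 0) (.l 0)) (.l 0))))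
    [(73300705280, 18325962752), (137438953472, 137438953472), (1295332147200, 431777382400)] rfl (by decide +kernel)
end

theorem C3_c0_t3 : CovD 1 gC3 [(64137723904, 9162981376), (68719476736, 68719476736), (274877906944, 274877906944)] :=
  covD_split 2 (by decide +kernel) C3_c0_t4 C3_c0_t5

theorem C3_c0_t6 : CovD 1 gC3 [(82463686656, 9162981376), (68719476736, 68719476736), (274877906944, 274877906944)] :=
  covD_split 1 (by decide +kernel) C3_c0_t7 C3_c0_t8

theorem C3_c0_t2 : CovD 1 gC3 [(73300705280, 18325962752), (68719476736, 68719476736), (274877906944, 274877906944)] :=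
  covD_split 0 (by decide +kernel) C3_c0_t3 C3_c0_t6

theorem C3_c0_t1 : CovD 1 gC3 [(73300705280, 18325962752), (137438953472, 137438953472), (274877906944, 274877906944)] :=
  covD_split 1 (by decide +kernel) C3_c0_t2 C3_c0_t9

theorem C3_c0_t12 : CovD 1 gC3 [(64137723904, 9162981376), (137438953472, 137438953472), (687194767360, 137438953472)] :=
  covD_split 0 (by decide +kernel) C3_c0_t13 C3_c0_t14

theorem C3_c0_t11 : CovD 1 gC3 [(73300705280, 18325962752), (137438953472, 137438953472), (687194767360, 137438953472)] :=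
  covD_split 0 (by decide +kernel) C3_c0_t12 C3_c0_t15

theorem C3_c0_t25 : CovD 1 gC3 [(57265487872, 2290745344), (8589934592, 8589934592), (1030792151040, 68719476736)] :=
  covD_split 1 (by decide +kernel) C3_c0_t26 C3_c0_t27

theorem C3_c0_t24 : CovD 1 gC3 [(57265487872, 2290745344), (17179869184, 17179869184), (1030792151040, 68719476736)] :=
  covD_split 1 (by decide +kernel) C3_c0_t25 C3_c0_t28

theorem C3_c0_t23 : CovD 1 gC3 [(57265487872, 2290745344), (34359738368, 34359738368), (1030792151040, 68719476736)] :=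
  covD_split 1 (by decide +kernel) C3_c0_t24 C3_c0_t29

theorem C3_c0_t22 : CovD 1 gC3 [(57265487872, 2290745344), (68719476736, 68719476736), (1030792151040, 68719476736)] :=
  covD_split 1 (by decide +kernel) C3_c0_t23 C3_c0_t30

theorem C3_c0_t34 : CovD 1 gC3 [(61846978560, 2290745344), (8589934592, 8589934592), (1030792151040, 68719476736)] :=
  covD_split 1 (by decide +kernel) C3_c0_t35 C3_c0_t36

theorem C3_c0_t33 : CovD 1 gC3 [(61846978560, 2290745344), (17179869184, 17179869184), (1030792151040, 68719476736)] :=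
  covD_split 1 (by decide +kernel) C3_c0_t34 C3_c0_t37

theorem C3_c0_t32 : CovD 1 gC3 [(61846978560, 2290745344), (34359738368, 34359738368), (1030792151040, 68719476736)] :=
  covD_split 1 (by decide +kernel) C3_c0_t33 C3_c0_t38

theorem C3_c0_t31 : CovD 1 gC3 [(61846978560, 2290745344), (68719476736, 68719476736), (1030792151040, 68719476736)] :=
  covD_split 1 (by decide +kernel) C3_c0_t32 C3_c0_t39

theorem C3_c0_t21 : CovD 1 gC3 [(59556233216, 4581490688), (68719476736, 68719476736), (1030792151040, 68719476736)] :=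
  covD_split 0 (by decide +kernel) C3_c0_t22 C3_c0_t31

theorem C3_c0_t20 : CovD 1 gC3 [(59556233216, 4581490688), (137438953472, 137438953472), (1030792151040, 68719476736)] :=
  covD_split 1 (by decide +kernel) C3_c0_t21 C3_c0_t40

theorem C3_c0_t18 : CovD 1 gC3 [(59556233216, 4581490688), (137438953472, 137438953472), (962072674304, 137438953472)] :=
  covD_split 2 (by decide +kernel) C3_c0_t19 C3_c0_t20

theorem C3_c0_t53 : CovD 1 gC3 [(68719214592, 4581490688), (536870912, 536870912), (1065151889408, 34359738368)] :=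
  covD_split 1 (by decide +kernel) C3_c0_t54 C3_c0_t55

theorem C3_c0_t51 : CovD 1 gC3 [(68719214592, 4581490688), (536870912, 536870912), (1030792151040, 68719476736)] :=
  covD_split 2 (by decide +kernel) C3_c0_t52 C3_c0_t53

theorem C3_c0_t50 : CovD 1 gC3 [(68719214592, 4581490688), (1073741824, 1073741824), (1030792151040, 68719476736)] :=
  covD_split 1 (by decide +kernel) C3_c0_t51 C3_c0_t56

theorem C3_c0_t49 : CovD 1 gC3 [(68719214592, 4581490688), (2147483648, 2147483648), (1030792151040, 68719476736)] :=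
  covD_split 1 (by decide +kernel) C3_c0_t50 C3_c0_t57

theorem C3_c0_t48 : CovD 1 gC3 [(68719214592, 4581490688), (4294967296, 4294967296), (1030792151040, 68719476736)] :=
  covD_split 1 (by decide +kernel) C3_c0_t49 C3_c0_t58

theorem C3_c0_t46 : CovD 1 gC3 [(68719214592, 4581490688), (4294967296, 4294967296), (962072674304, 137438953472)] :=
  covD_split 2 (by decide +kernel) C3_c0_t47 C3_c0_t48

theorem C3_c0_t45 : CovD 1 gC3 [(68719214592, 4581490688), (8589934592, 8589934592), (962072674304, 137438953472)] :=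
  covD_split 1 (by decide +kernel) C3_c0_t46 C3_c0_t59

theorem C3_c0_t44 : CovD 1 gC3 [(68719214592, 4581490688), (17179869184, 17179869184), (962072674304, 137438953472)] :=
  covD_split 1 (by decide +kernel) C3_c0_t45 C3_c0_t60

theorem C3_c0_t43 : CovD 1 gC3 [(68719214592, 4581490688), (34359738368, 34359738368), (962072674304, 137438953472)] :=
  covD_split 1 (by decide +kernel) C3_c0_t44 C3_c0_t61

theorem C3_c0_t42 : CovD 1 gC3 [(68719214592, 4581490688), (68719476736, 68719476736), (962072674304, 137438953472)] :=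
  covD_split 1 (by decide +kernel) C3_c0_t43 C3_c0_t62

theorem C3_c0_t41 : CovD 1 gC3 [(68719214592, 4581490688), (137438953472, 137438953472), (962072674304, 137438953472)] :=
  covD_split 1 (by decide +kernel) C3_c0_t42 C3_c0_t63

theorem C3_c0_t17 : CovD 1 gC3 [(64137723904, 9162981376), (137438953472, 137438953472), (962072674304, 137438953472)] :=
  covD_split 0 (by decide +kernel) C3_c0_t18 C3_c0_t41

theorem C3_c0_t69 : CovD 1 gC3 [(77882195968, 4581490688), (8589934592, 8589934592), (962072674304, 137438953472)] :=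
  covD_split 1 (by decide +kernel) C3_c0_t70 C3_c0_t71

theorem C3_c0_t68 : CovD 1 gC3 [(77882195968, 4581490688), (17179869184, 17179869184), (962072674304, 137438953472)] :=
  covD_split 1 (by decide +kernel) C3_c0_t69 C3_c0_t72

theorem C3_c0_t67 : CovD 1 gC3 [(77882195968, 4581490688), (34359738368, 34359738368), (962072674304, 137438953472)] :=
  covD_split 1 (by decide +kernel) C3_c0_t68 C3_c0_t73

theorem C3_c0_t66 : CovD 1 gC3 [(77882195968, 4581490688), (68719476736, 68719476736), (962072674304, 137438953472)] :=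
  covD_split 1 (by decide +kernel) C3_c0_t67 C3_c0_t74

theorem C3_c0_t65 : CovD 1 gC3 [(77882195968, 4581490688), (137438953472, 137438953472), (962072674304, 137438953472)] :=
  covD_split 1 (by decide +kernel) C3_c0_t66 C3_c0_t75

theorem C3_c0_t80 : CovD 1 gC3 [(87045177344, 4581490688), (8589934592, 8589934592), (962072674304, 137438953472)] :=
  covD_split 1 (by decide +kernel) C3_c0_t81 C3_c0_t82

theorem C3_c0_t79 : CovD 1 gC3 [(87045177344, 4581490688), (17179869184, 17179869184), (962072674304, 137438953472)] :=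
  covD_split 1 (by decide +kernel) C3_c0_t80 C3_c0_t83

theorem C3_c0_t78 : CovD 1 gC3 [(87045177344, 4581490688), (34359738368, 34359738368), (962072674304, 137438953472)] :=
  covD_split 1 (by decide +kernel) C3_c0_t79 C3_c0_t84

theorem C3_c0_t77 : CovD 1 gC3 [(87045177344, 4581490688), (68719476736, 68719476736), (962072674304, 137438953472)] :=
  covD_split 1 (by decide +kernel) C3_c0_t78 C3_c0_t85

theorem C3_c0_t76 : CovD 1 gC3 [(87045177344, 4581490688), (137438953472, 137438953472), (962072674304, 137438953472)] :=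
  covD_split 1 (by decide +kernel) C3_c0_t77 C3_c0_t86

theorem C3_c0_t64 : CovD 1 gC3 [(82463686656, 9162981376), (137438953472, 137438953472), (962072674304, 137438953472)] :=
  covD_split 0 (by decide +kernel) C3_c0_t65 C3_c0_t76

theorem C3_c0_t16 : CovD 1 gC3 [(73300705280, 18325962752), (137438953472, 137438953472), (962072674304, 137438953472)] :=
  covD_split 0 (by decide +kernel) C3_c0_t17 C3_c0_t64

theorem C3_c0_t10 : CovD 1 gC3 [(73300705280, 18325962752), (137438953472, 137438953472), (824633720832, 274877906944)] :=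
  covD_split 2 (by decide +kernel) C3_c0_t11 C3_c0_t16

theorem C3_c0 : CovD 1 gC3 [(73300705280, 18325962752), (137438953472, 137438953472), (549755813888, 549755813888)] :=
  covD_split 2 (by decide +kernel) C3_c0_t1 C3_c0_t10

theorem D3_c0 : CovD 1 gD3 [(73300705280, 18325962752), (137438953472, 137438953472), (863554764800, 863554764800)] :=
  covD_split 0 (by decide +kernel) D3_c0_t1 D3_c0_t2

theorem E3_c0_t2 : CovD 1 gE3 [(64137723904, 9162981376), (137438953472, 137438953472), (431777382400, 431777382400)] :=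
  covD_split 0 (by decide +kernel) E3_c0_t3 E3_c0_t4

theorem E3_c0_t1 : CovD 1 gE3 [(73300705280, 18325962752), (137438953472, 137438953472), (431777382400, 431777382400)] :=
  covD_split 0 (by decide +kernel) E3_c0_t2 E3_c0_t5

theorem E3_c0 : CovD 1 gE3 [(73300705280, 18325962752), (137438953472, 137438953472), (863554764800, 863554764800)] :=
  covD_split 2 (by decide +kernel) E3_c0_t1 E3_c0_t6

end Pool.Agent.helper14.NR.E12a
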