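import Pool.Agent.helper14.NR.E12a.PN4

/-!
Generated: certificates.
-/

namespace Pool.Agent.helper14.NR.E12a

open Pool.Agent.helper31.IA (Z)
open Pool.Agent.helper31.IX (Op XOps runX Cov CovD cov_split covD_split)
open Pool.Agent.helper31.IC (TD)
open Pool.Agent.helper63.RG (reloc)
open Pool.Agent.helper63.NF hiding TD
open Pool.Agent.helper14.CF (xE covD_E)
open Pool.Agent.helper14.NR (share)

mutual
theorem A4_c0_t9 : CovD 1 gA4 [(64137723904, 9162981376), (68719476736, 68719476736), (42949672960, 42949672960)] :=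
  covD_E kA4_eq (.l 2)
    [(64137723904, 9162981376), (68719476736, 68719476736), (42949672960, 42949672960)] rfl (by decide +kernel)
theorem A4_c0_t12 : CovD 1 gA4 [(64137723904, 9162981376), (34359738368, 34359738368), (107374182400, 21474836480)] :=
  covD_E kA4_eq (.l 2)
    [(64137723904, 9162981376), (34359738368, 34359738368), (107374182400, 21474836480)] rfl (by decide +kernel)
end

mutual
theorem A4_c0_t14 : CovD 1 gA4 [(59556233216, 4581490688), (34359738368, 34359738368), (150323855360, 21474836480)] :=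
  covD_E kA4_eq (.n 1 (.n 0 (.n 1 (.n 1 (.l 0) (.l 0)) (.n 1 (.l 0) (.l 0))) (.n 1 (.n 1 (.l 0) (.l 0)) (.n 1 (.l 0) (.l 0)))) (.n 1 (.n 2 (.l 0) (.l 0)) (.l 0)))
    [(59556233216, 4581490688), (34359738368, 34359738368), (150323855360, 21474836480)] rfl (by decide +kernel)
theorem A4_c0_t15 : CovD 1 gA4 [(68719214592, 4581490688), (34359738368, 34359738368), (150323855360, 21474836480)] :=
  covD_E kA4_eq (.n 1 (.n 1 (.n 2 (.n 0 (.l 0) (.l 0)) (.l 0)) (.n 0 (.n 1 (.l 0) (.l 0)) (.n 1 (.l 0) (.l 0)))) (.n 1 (.n 2 (.l 0) (.l 0)) (.l 0)))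
    [(68719214592, 4581490688), (34359738368, 34359738368), (150323855360, 21474836480)] rfl (by decide +kernel)
end

mutual
theorem A4_c0_t16 : CovD 1 gA4 [(64137723904, 9162981376), (103079215104, 34359738368), (128849018880, 42949672960)] :=
  covD_E kA4_eq (.n 2 (.l 2) (.n 0 (.n 1 (.l 0) (.l 0)) (.n 1 (.l 0) (.l 0))))
    [(64137723904, 9162981376), (103079215104, 34359738368), (128849018880, 42949672960)] rfl (by decide +kernel)
theorem A4_c0_t20 : CovD 1 gA4 [(59556233216, 4581490688), (17179869184, 17179869184), (257698037760, 85899345920)] :=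
  covD_E kA4_eq (.n 1 (.n 2 (.n 2 (.n 0 (.l 0) (.l 0)) (.l 0)) (.n 0 (.l 0) (.l 0))) (.n 2 (.n 2 (.n 0 (.l 0) (.l 0)) (.l 0)) (.n 0 (.l 0) (.l 0))))
    [(59556233216, 4581490688), (17179869184, 17179869184), (257698037760, 85899345920)] rfl (by decide +kernel)
end

mutual
theorem A4_c0_t21 : CovD 1 gA4 [(59556233216, 4581490688), (51539607552, 17179869184), (257698037760, 85899345920)] :=
  covD_E kA4_eq (.n 1 (.n 2 (.n 2 (.n 0 (.l 0) (.l 0)) (.l 0)) (.n 0 (.l 0) (.l 0))) (.n 2 (.n 2 (.l 0) (.l 0)) (.n 0 (.l 0) (.l 0))))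
    [(59556233216, 4581490688), (51539607552, 17179869184), (257698037760, 85899345920)] rfl (by decide +kernel)
theorem A4_c0_t22 : CovD 1 gA4 [(59556233216, 4581490688), (103079215104, 34359738368), (257698037760, 85899345920)] :=
  covD_E kA4_eq (.n 1 (.n 2 (.n 2 (.l 0) (.l 0)) (.n 2 (.l 0) (.l 0))) (.n 0 (.n 2 (.l 0) (.l 0)) (.n 2 (.l 0) (.l 0))))
    [(59556233216, 4581490688), (103079215104, 34359738368), (257698037760, 85899345920)] rfl (by decide +kernel)
end

mutual
theorem A4_c0_t25 : CovD 1 gA4 [(68719214592, 4581490688), (17179869184, 17179869184), (257698037760, 85899345920)] :=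
  covD_E kA4_eq (.n 1 (.n 2 (.n 2 (.n 0 (.l 0) (.l 0)) (.l 0)) (.n 2 (.l 0) (.l 0))) (.n 2 (.n 2 (.n 0 (.l 0) (.l 0)) (.l 0)) (.n 0 (.l 0) (.l 0))))
    [(68719214592, 4581490688), (17179869184, 17179869184), (257698037760, 85899345920)] rfl (by decide +kernel)
theorem A4_c0_t26 : CovD 1 gA4 [(68719214592, 4581490688), (51539607552, 17179869184), (257698037760, 85899345920)] :=
  covD_E kA4_eq (.n 1 (.n 2 (.n 2 (.n 0 (.l 0) (.l 0)) (.l 0)) (.n 0 (.l 0) (.l 0))) (.n 2 (.n 2 (.l 0) (.l 0)) (.n 0 (.l 0) (.l 0))))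
    [(68719214592, 4581490688), (51539607552, 17179869184), (257698037760, 85899345920)] rfl (by decide +kernel)
end

mutual
theorem A4_c0_t27 : CovD 1 gA4 [(68719214592, 4581490688), (103079215104, 34359738368), (257698037760, 85899345920)] :=
  covD_E kA4_eq (.n 1 (.n 2 (.n 2 (.l 0) (.l 0)) (.n 2 (.l 0) (.l 0))) (.n 0 (.n 2 (.l 0) (.l 0)) (.n 2 (.l 0) (.l 0))))
    [(68719214592, 4581490688), (103079215104, 34359738368), (257698037760, 85899345920)] rfl (by decide +kernel)
theorem A4_c0_t30 : CovD 1 gA4 [(59556233216, 4581490688), (34359738368, 34359738368), (515396075520, 171798691840)] :=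
  covD_E kA4_eq (.n 1 (.n 2 (.n 1 (.n 2 (.l 0) (.l 0)) (.n 2 (.l 0) (.l 0))) (.n 2 (.l 0) (.l 0))) (.n 2 (.n 0 (.n 2 (.l 0) (.l 0)) (.n 2 (.l 0) (.l 0))) (.n 2 (.l 0) (.l 0))))
    [(59556233216, 4581490688), (34359738368, 34359738368), (515396075520, 171798691840)] rfl (by decide +kernel)
end

mutual
theorem A4_c0_t31 : CovD 1 gA4 [(59556233216, 4581490688), (103079215104, 34359738368), (515396075520, 171798691840)] :=
  covD_E kA4_eq (.n 1 (.n 2 (.n 2 (.n 0 (.l 0) (.l 0)) (.l 0)) (.n 2 (.l 0) (.l 0))) (.n 2 (.n 2 (.l 0) (.l 0)) (.n 0 (.l 0) (.l 0))))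
    [(59556233216, 4581490688), (103079215104, 34359738368), (515396075520, 171798691840)] rfl (by decide +kernel)
theorem A4_c0_t33 : CovD 1 gA4 [(68719214592, 4581490688), (34359738368, 34359738368), (515396075520, 171798691840)] :=
  covD_E kA4_eq (.n 1 (.n 2 (.n 1 (.n 2 (.l 0) (.l 0)) (.n 2 (.l 0) (.l 0))) (.n 2 (.l 0) (.l 0))) (.n 2 (.n 0 (.n 2 (.l 0) (.l 0)) (.n 2 (.l 0) (.l 0))) (.n 2 (.l 0) (.l 0))))
    [(68719214592, 4581490688), (34359738368, 34359738368), (515396075520, 171798691840)] rfl (by decide +kernel)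
end

mutual
theorem A4_c0_t34 : CovD 1 gA4 [(68719214592, 4581490688), (103079215104, 34359738368), (515396075520, 171798691840)] :=
  covD_E kA4_eq (.n 1 (.n 2 (.n 2 (.n 0 (.l 0) (.l 0)) (.l 0)) (.n 2 (.l 0) (.l 0))) (.n 2 (.n 2 (.l 0) (.l 0)) (.n 0 (.l 0) (.l 0))))
    [(68719214592, 4581490688), (103079215104, 34359738368), (515396075520, 171798691840)] rfl (by decide +kernel)
theorem A4_c0_t36 : CovD 1 gA4 [(64137723904, 9162981376), (34359738368, 34359738368), (1030792151040, 343597383680)] :=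
  covD_E kA4_eq (.n 0 (.n 2 (.n 2 (.n 2 (.l 0) (.l 0)) (.n 0 (.l 0) (.l 0))) (.n 2 (.l 0) (.l 0))) (.n 2 (.n 2 (.n 2 (.l 0) (.l 0)) (.n 0 (.l 0) (.l 0))) (.n 2 (.l 0) (.l 0))))
    [(64137723904, 9162981376), (34359738368, 34359738368), (1030792151040, 343597383680)] rfl (by decide +kernel)
end

mutual
theorem A4_c0_t37 : CovD 1 gA4 [(64137723904, 9162981376), (103079215104, 34359738368), (1030792151040, 343597383680)] :=
  covD_E kA4_eq (.n 0 (.n 2 (.n 2 (.n 2 (.n 0 (.l 0) (.l 0)) (.l 0)) (.n 0 (.l 0) (.l 0))) (.n 2 (.l 0) (.l 0))) (.n 2 (.n 2 (.n 2 (.l 0) (.l 0)) (.n 0 (.l 0) (.l 0))) (.n 2 (.l 0) (.l 0))))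
    [(64137723904, 9162981376), (103079215104, 34359738368), (1030792151040, 343597383680)] rfl (by decide +kernel)
theorem A4_c0_t38 : CovD 1 gA4 [(64137723904, 9162981376), (68719476736, 68719476736), (2061584302080, 687194767360)] :=
  covD_E kA4_eq (.n 0 (.n 2 (.n 2 (.n 2 (.n 0 (.l 0) (.l 0)) (.l 0)) (.n 0 (.l 0) (.l 0))) (.n 2 (.n 0 (.l 0) (.l 0)) (.l 0))) (.n 2 (.n 2 (.n 2 (.l 0) (.l 0)) (.n 0 (.l 0) (.l 0))) (.n 2 (.n 0 (.l 0) (.l 0)) (.l 0))))
    [(64137723904, 9162981376), (68719476736, 68719476736), (2061584302080, 687194767360)] rfl (by decide +kernel)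
end

mutual
theorem A4_c0_t43 : CovD 1 gA4 [(59556233216, 4581490688), (171798691840, 34359738368), (343597383680, 343597383680)] :=
  covD_E kA4_eq (.n 2 (.n 2 (.n 2 (.l 2) (.n 0 (.l 0) (.l 0))) (.n 0 (.n 2 (.l 0) (.l 0)) (.n 2 (.l 0) (.l 0)))) (.n 2 (.n 0 (.n 2 (.l 0) (.l 0)) (.n 2 (.l 0) (.l 0))) (.n 2 (.l 0) (.l 0))))
    [(59556233216, 4581490688), (171798691840, 34359738368), (343597383680, 343597383680)] rfl (by decide +kernel)
theorem A4_c0_t44 : CovD 1 gA4 [(59556233216, 4581490688), (171798691840, 34359738368), (1030792151040, 343597383680)] :=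
  covD_E kA4_eq (.n 2 (.n 0 (.n 2 (.l 0) (.l 0)) (.n 2 (.l 0) (.l 0))) (.n 2 (.l 0) (.l 0)))
    [(59556233216, 4581490688), (171798691840, 34359738368), (1030792151040, 343597383680)] rfl (by decide +kernel)
end

mutual
theorem A4_c0_t45 : CovD 1 gA4 [(59556233216, 4581490688), (240518168576, 34359738368), (687194767360, 687194767360)] :=
  covD_E kA4_eq (.n 2 (.n 2 (.n 2 (.n 2 (.l 2) (.n 0 (.l 0) (.l 0))) (.n 2 (.n 0 (.l 0) (.l 0)) (.l 0))) (.n 2 (.n 2 (.l 0) (.l 0)) (.n 0 (.l 0) (.l 0)))) (.n 2 (.n 2 (.l 0) (.l 0)) (.n 2 (.l 0) (.l 0))))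
    [(59556233216, 4581490688), (240518168576, 34359738368), (687194767360, 687194767360)] rfl (by decide +kernel)
theorem A4_c0_t46 : CovD 1 gA4 [(59556233216, 4581490688), (206158430208, 68719476736), (2061584302080, 687194767360)] :=
  covD_E kA4_eq (.n 2 (.n 2 (.n 2 (.l 0) (.l 0)) (.n 0 (.l 0) (.l 0))) (.n 2 (.n 0 (.l 0) (.l 0)) (.l 0)))
    [(59556233216, 4581490688), (206158430208, 68719476736), (2061584302080, 687194767360)] rfl (by decide +kernel)
end

mutual
theorem A4_c0_t50 : CovD 1 gA4 [(68719214592, 4581490688), (171798691840, 34359738368), (343597383680, 343597383680)] :=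
  covD_E kA4_eq (.n 2 (.n 2 (.n 2 (.l 2) (.n 0 (.l 0) (.l 0))) (.n 0 (.n 2 (.l 0) (.l 0)) (.n 2 (.l 0) (.l 0)))) (.n 2 (.n 2 (.n 0 (.l 0) (.l 0)) (.l 0)) (.n 2 (.l 0) (.l 0))))
    [(68719214592, 4581490688), (171798691840, 34359738368), (343597383680, 343597383680)] rfl (by decide +kernel)
theorem A4_c0_t51 : CovD 1 gA4 [(68719214592, 4581490688), (171798691840, 34359738368), (1030792151040, 343597383680)] :=
  covD_E kA4_eq (.n 2 (.n 2 (.n 0 (.l 0) (.l 0)) (.l 0)) (.n 2 (.l 0) (.l 0)))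
    [(68719214592, 4581490688), (171798691840, 34359738368), (1030792151040, 343597383680)] rfl (by decide +kernel)
end

mutual
theorem A4_c0_t52 : CovD 1 gA4 [(68719214592, 4581490688), (240518168576, 34359738368), (687194767360, 687194767360)] :=
  covD_E kA4_eq (.n 2 (.n 2 (.n 2 (.n 2 (.l 2) (.n 0 (.l 0) (.l 0))) (.n 2 (.n 0 (.l 0) (.l 0)) (.l 0))) (.n 2 (.n 2 (.l 0) (.l 0)) (.n 0 (.l 0) (.l 0)))) (.n 2 (.n 2 (.l 0) (.l 0)) (.n 2 (.l 0) (.l 0))))
    [(68719214592, 4581490688), (240518168576, 34359738368), (687194767360, 687194767360)] rfl (by decide +kernel)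
theorem A4_c0_t53 : CovD 1 gA4 [(68719214592, 4581490688), (206158430208, 68719476736), (2061584302080, 687194767360)] :=
  covD_E kA4_eq (.n 2 (.n 2 (.n 2 (.l 0) (.l 0)) (.n 0 (.l 0) (.l 0))) (.n 2 (.l 0) (.l 0)))
    [(68719214592, 4581490688), (206158430208, 68719476736), (2061584302080, 687194767360)] rfl (by decide +kernel)
end

mutual
theorem A4_c0_t59 : CovD 1 gA4 [(82463686656, 9162981376), (137438953472, 137438953472), (42949672960, 42949672960)] :=
  covD_E kA4_eq (.l 2)
    [(82463686656, 9162981376), (137438953472, 137438953472), (42949672960, 42949672960)] rfl (by decide +kernel)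
theorem A4_c0_t63 : CovD 1 gA4 [(82463686656, 9162981376), (34359738368, 34359738368), (107374182400, 21474836480)] :=
  covD_E kA4_eq (.l 2)
    [(82463686656, 9162981376), (34359738368, 34359738368), (107374182400, 21474836480)] rfl (by decide +kernel)
end

mutual
theorem A4_c0_t65 : CovD 1 gA4 [(82463686656, 9162981376), (34359738368, 34359738368), (139586437120, 10737418240)] :=
  covD_E kA4_eq (.n 1 (.n 0 (.n 1 (.n 0 (.l 0) (.l 0)) (.n 1 (.l 0) (.l 0))) (.n 1 (.n 1 (.l 0) (.l 0)) (.n 1 (.l 0) (.l 0)))) (.n 1 (.n 0 (.l 0) (.l 0)) (.l 0)))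
    [(82463686656, 9162981376), (34359738368, 34359738368), (139586437120, 10737418240)] rfl (by decide +kernel)
theorem A4_c0_t66 : CovD 1 gA4 [(82463686656, 9162981376), (34359738368, 34359738368), (161061273600, 10737418240)] :=
  covD_E kA4_eq (.n 1 (.n 0 (.n 1 (.l 0) (.n 0 (.l 0) (.l 0))) (.n 0 (.n 1 (.l 0) (.l 0)) (.n 1 (.l 0) (.l 0)))) (.n 1 (.n 0 (.l 0) (.l 0)) (.l 0)))
    [(82463686656, 9162981376), (34359738368, 34359738368), (161061273600, 10737418240)] rfl (by decide +kernel)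
end

mutual
theorem A4_c0_t67 : CovD 1 gA4 [(82463686656, 9162981376), (103079215104, 34359738368), (128849018880, 42949672960)] :=
  covD_E kA4_eq (.n 2 (.l 2) (.n 0 (.n 1 (.l 0) (.l 0)) (.n 1 (.l 0) (.l 0))))
    [(82463686656, 9162981376), (103079215104, 34359738368), (128849018880, 42949672960)] rfl (by decide +kernel)
theorem A4_c0_t68 : CovD 1 gA4 [(82463686656, 9162981376), (206158430208, 68719476736), (128849018880, 42949672960)] :=
  covD_E kA4_eq (.n 0 (.n 0 (.n 1 (.l 0) (.l 0)) (.n 1 (.l 0) (.l 0))) (.n 0 (.n 1 (.l 0) (.l 0)) (.n 1 (.l 0) (.l 0))))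
    [(82463686656, 9162981376), (206158430208, 68719476736), (128849018880, 42949672960)] rfl (by decide +kernel)
end

mutual
theorem A4_c0_t73 : CovD 1 gA4 [(77882195968, 4581490688), (17179869184, 17179869184), (257698037760, 85899345920)] :=
  covD_E kA4_eq (.n 1 (.n 2 (.n 2 (.n 1 (.l 0) (.l 0)) (.l 0)) (.n 2 (.l 0) (.l 0))) (.n 2 (.n 2 (.n 1 (.l 0) (.l 0)) (.l 0)) (.n 2 (.l 0) (.l 0))))
    [(77882195968, 4581490688), (17179869184, 17179869184), (257698037760, 85899345920)] rfl (by decide +kernel)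
theorem A4_c0_t74 : CovD 1 gA4 [(77882195968, 4581490688), (51539607552, 17179869184), (257698037760, 85899345920)] :=
  covD_E kA4_eq (.n 1 (.n 2 (.n 2 (.n 0 (.l 0) (.l 0)) (.l 0)) (.n 0 (.l 0) (.l 0))) (.n 2 (.n 2 (.l 0) (.l 0)) (.n 0 (.l 0) (.l 0))))
    [(77882195968, 4581490688), (51539607552, 17179869184), (257698037760, 85899345920)] rfl (by decide +kernel)
end

mutual
theorem A4_c0_t75 : CovD 1 gA4 [(77882195968, 4581490688), (103079215104, 34359738368), (257698037760, 85899345920)] :=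
  covD_E kA4_eq (.n 1 (.n 2 (.n 2 (.l 0) (.l 0)) (.n 2 (.l 0) (.l 0))) (.n 2 (.n 0 (.l 0) (.l 0)) (.l 0)))
    [(77882195968, 4581490688), (103079215104, 34359738368), (257698037760, 85899345920)] rfl (by decide +kernel)
theorem A4_c0_t76 : CovD 1 gA4 [(77882195968, 4581490688), (206158430208, 68719476736), (257698037760, 85899345920)] :=
  covD_E kA4_eq (.n 1 (.n 0 (.n 2 (.l 0) (.l 0)) (.n 2 (.l 0) (.l 0))) (.n 2 (.n 0 (.l 0) (.l 0)) (.l 0)))
    [(77882195968, 4581490688), (206158430208, 68719476736), (257698037760, 85899345920)] rfl (by decide +kernel)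
end

mutual
theorem A4_c0_t80 : CovD 1 gA4 [(87045177344, 4581490688), (17179869184, 17179869184), (257698037760, 85899345920)] :=
  covD_E kA4_eq (.n 1 (.n 2 (.n 2 (.n 1 (.l 0) (.l 0)) (.l 0)) (.n 2 (.l 0) (.l 0))) (.n 2 (.n 2 (.n 1 (.l 0) (.l 0)) (.l 0)) (.n 2 (.l 0) (.l 0))))
    [(87045177344, 4581490688), (17179869184, 17179869184), (257698037760, 85899345920)] rfl (by decide +kernel)
theorem A4_c0_t81 : CovD 1 gA4 [(87045177344, 4581490688), (51539607552, 17179869184), (257698037760, 85899345920)] :=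
  covD_E kA4_eq (.n 1 (.n 2 (.n 2 (.n 0 (.l 0) (.l 0)) (.l 0)) (.n 0 (.l 0) (.l 0))) (.n 2 (.n 2 (.l 0) (.l 0)) (.n 0 (.l 0) (.l 0))))
    [(87045177344, 4581490688), (51539607552, 17179869184), (257698037760, 85899345920)] rfl (by decide +kernel)
end

mutual
theorem A4_c0_t82 : CovD 1 gA4 [(87045177344, 4581490688), (103079215104, 34359738368), (257698037760, 85899345920)] :=
  covD_E kA4_eq (.n 1 (.n 2 (.n 2 (.l 0) (.l 0)) (.n 2 (.l 0) (.l 0))) (.n 2 (.n 0 (.l 0) (.l 0)) (.l 0)))
    [(87045177344, 4581490688), (103079215104, 34359738368), (257698037760, 85899345920)] rfl (by decide +kernel)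
theorem A4_c0_t83 : CovD 1 gA4 [(87045177344, 4581490688), (206158430208, 68719476736), (257698037760, 85899345920)] :=
  covD_E kA4_eq (.n 1 (.n 0 (.n 2 (.l 0) (.l 0)) (.n 2 (.l 0) (.l 0))) (.n 2 (.l 0) (.l 0)))
    [(87045177344, 4581490688), (206158430208, 68719476736), (257698037760, 85899345920)] rfl (by decide +kernel)
end

mutual
theorem A4_c0_t87 : CovD 1 gA4 [(77882195968, 4581490688), (34359738368, 34359738368), (515396075520, 171798691840)] :=
  covD_E kA4_eq (.n 1 (.n 2 (.n 1 (.n 2 (.l 0) (.l 0)) (.n 2 (.l 0) (.l 0))) (.n 2 (.l 0) (.l 0))) (.n 2 (.n 0 (.n 2 (.l 0) (.l 0)) (.n 2 (.l 0) (.l 0))) (.n 2 (.l 0) (.l 0))))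
    [(77882195968, 4581490688), (34359738368, 34359738368), (515396075520, 171798691840)] rfl (by decide +kernel)
theorem A4_c0_t88 : CovD 1 gA4 [(77882195968, 4581490688), (103079215104, 34359738368), (515396075520, 171798691840)] :=
  covD_E kA4_eq (.n 1 (.n 2 (.n 2 (.n 0 (.l 0) (.l 0)) (.l 0)) (.n 2 (.l 0) (.l 0))) (.n 2 (.n 2 (.l 0) (.l 0)) (.n 2 (.l 0) (.l 0))))
    [(77882195968, 4581490688), (103079215104, 34359738368), (515396075520, 171798691840)] rfl (by decide +kernel)
end

mutual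
theorem A4_c0_t89 : CovD 1 gA4 [(77882195968, 4581490688), (206158430208, 68719476736), (515396075520, 171798691840)] :=
  covD_E kA4_eq (.n 1 (.n 2 (.n 2 (.l 0) (.l 0)) (.n 2 (.l 0) (.l 0))) (.n 2 (.n 2 (.l 0) (.l 0)) (.n 0 (.l 0) (.l 0))))
    [(77882195968, 4581490688), (206158430208, 68719476736), (515396075520, 171798691840)] rfl (by decide +kernel)
theorem A4_c0_t92 : CovD 1 gA4 [(87045177344, 4581490688), (34359738368, 34359738368), (515396075520, 171798691840)] :=
  covD_E kA4_eq (.n 1 (.n 2 (.n 1 (.n 2 (.l 0) (.l 0)) (.n 2 (.l 0) (.l 0))) (.n 2 (.l 0) (.l 0))) (.n 2 (.n 1 (.n 2 (.l 0) (.l 0)) (.n 2 (.l 0) (.l 0))) (.n 2 (.l 0) (.l 0))))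
    [(87045177344, 4581490688), (34359738368, 34359738368), (515396075520, 171798691840)] rfl (by decide +kernel)
end

mutual
theorem A4_c0_t93 : CovD 1 gA4 [(87045177344, 4581490688), (103079215104, 34359738368), (515396075520, 171798691840)] :=
  covD_E kA4_eq (.n 1 (.n 2 (.n 2 (.n 0 (.l 0) (.l 0)) (.l 0)) (.n 2 (.l 0) (.l 0))) (.n 2 (.n 2 (.l 0) (.l 0)) (.n 2 (.l 0) (.l 0))))
    [(87045177344, 4581490688), (103079215104, 34359738368), (515396075520, 171798691840)] rfl (by decide +kernel)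
theorem A4_c0_t94 : CovD 1 gA4 [(87045177344, 4581490688), (206158430208, 68719476736), (515396075520, 171798691840)] :=
  covD_E kA4_eq (.n 1 (.n 2 (.n 2 (.l 0) (.l 0)) (.n 2 (.l 0) (.l 0))) (.n 2 (.n 2 (.l 0) (.l 0)) (.n 0 (.l 0) (.l 0))))
    [(87045177344, 4581490688), (206158430208, 68719476736), (515396075520, 171798691840)] rfl (by decide +kernel)
end

mutual
theorem A4_c0_t97 : CovD 1 gA4 [(77882195968, 4581490688), (68719476736, 68719476736), (1030792151040, 343597383680)] :=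
  covD_E kA4_eq (.n 1 (.n 2 (.n 2 (.n 2 (.l 0) (.l 0)) (.n 0 (.l 0) (.l 0))) (.n 2 (.l 0) (.l 0))) (.n 2 (.n 2 (.n 2 (.l 0) (.l 0)) (.n 0 (.l 0) (.l 0))) (.n 2 (.l 0) (.l 0))))
    [(77882195968, 4581490688), (68719476736, 68719476736), (1030792151040, 343597383680)] rfl (by decide +kernel)
theorem A4_c0_t98 : CovD 1 gA4 [(77882195968, 4581490688), (206158430208, 68719476736), (1030792151040, 343597383680)] :=
  covD_E kA4_eq (.n 1 (.n 2 (.n 2 (.n 0 (.l 0) (.l 0)) (.l 0)) (.n 2 (.l 0) (.l 0))) (.n 2 (.n 2 (.l 0) (.l 0)) (.n 2 (.l 0) (.l 0))))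
    [(77882195968, 4581490688), (206158430208, 68719476736), (1030792151040, 343597383680)] rfl (by decide +kernel)
end

mutual
theorem A4_c0_t100 : CovD 1 gA4 [(87045177344, 4581490688), (68719476736, 68719476736), (1030792151040, 343597383680)] :=
  covD_E kA4_eq (.n 1 (.n 2 (.n 1 (.n 2 (.l 0) (.l 0)) (.n 2 (.n 0 (.l 0) (.l 0)) (.l 0))) (.n 2 (.l 0) (.l 0))) (.n 2 (.n 2 (.n 2 (.l 0) (.l 0)) (.n 0 (.l 0) (.l 0))) (.n 2 (.l 0) (.l 0))))
    [(87045177344, 4581490688), (68719476736, 68719476736), (1030792151040, 343597383680)] rfl (by decide +kernel)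
theorem A4_c0_t101 : CovD 1 gA4 [(87045177344, 4581490688), (206158430208, 68719476736), (1030792151040, 343597383680)] :=
  covD_E kA4_eq (.n 1 (.n 2 (.n 2 (.n 0 (.l 0) (.l 0)) (.l 0)) (.n 2 (.l 0) (.l 0))) (.n 2 (.n 2 (.l 0) (.l 0)) (.n 0 (.l 0) (.l 0))))
    [(87045177344, 4581490688), (206158430208, 68719476736), (1030792151040, 343597383680)] rfl (by decide +kernel)
end

mutual
theorem A4_c0_t103 : CovD 1 gA4 [(77882195968, 4581490688), (137438953472, 137438953472), (2061584302080, 687194767360)] :=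
  covD_E kA4_eq (.n 1 (.n 2 (.n 2 (.n 2 (.l 0) (.l 0)) (.n 0 (.l 0) (.l 0))) (.n 2 (.n 0 (.l 0) (.l 0)) (.l 0))) (.n 2 (.n 2 (.n 2 (.l 0) (.l 0)) (.n 0 (.l 0) (.l 0))) (.n 2 (.l 0) (.l 0))))
    [(77882195968, 4581490688), (137438953472, 137438953472), (2061584302080, 687194767360)] rfl (by decide +kernel)
theorem A4_c0_t104 : CovD 1 gA4 [(87045177344, 4581490688), (137438953472, 137438953472), (2061584302080, 687194767360)] :=
  covD_E kA4_eq (.n 1 (.n 2 (.n 2 (.n 2 (.l 0) (.l 0)) (.n 0 (.l 0) (.l 0))) (.n 2 (.l 0) (.l 0))) (.n 2 (.n 1 (.n 2 (.l 0) (.l 0)) (.n 2 (.l 0) (.l 0))) (.n 2 (.l 0) (.l 0))))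
    [(87045177344, 4581490688), (137438953472, 137438953472), (2061584302080, 687194767360)] rfl (by decide +kernel)
end

mutual
theorem A4_c0_t109 : CovD 1 gA4 [(57265487872, 2290745344), (137438953472, 137438953472), (3435973836800, 687194767360)] :=
  covD_E kA4_eq (.n 1 (.n 2 (.l 0) (.l 0)) (.n 2 (.l 0) (.l 0)))
    [(57265487872, 2290745344), (137438953472, 137438953472), (3435973836800, 687194767360)] rfl (by decide +kernel)
theorem A4_c0_t110 : CovD 1 gA4 [(57265487872, 2290745344), (137438953472, 137438953472), (4810363371520, 687194767360)] :=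
  covD_E kA4_eq (.n 0 (.n 2 (.n 2 (.n 1 (.n 2 (.n 0 (.l 0) (.l 0)) (.l 1)) (.n 2 (.l 0) (.l 1))) (.l 1)) (.l 1)) (.n 2 (.n 2 (.n 2 (.l 0) (.n 2 (.n 1 (.l 1) (.l 0)) (.l 1))) (.l 1)) (.l 1)))
    [(57265487872, 2290745344), (137438953472, 137438953472), (4810363371520, 687194767360)] rfl (by decide +kernel)
end

mutual
theorem A4_c0_t111 : CovD 1 gA4 [(61846978560, 2290745344), (137438953472, 137438953472), (4123168604160, 1374389534720)] :=
  covD_E kA4_eq (.n 2 (.n 1 (.n 2 (.l 0) (.l 0)) (.n 2 (.l 0) (.l 0))) (.n 0 (.n 2 (.n 2 (.n 2 (.l 0) (.n 2 (.l 0) (.n 0 (.l 1) (.l 1)))) (.l 1)) (.l 1)) (.n 2 (.n 1 (.n 2 (.l 0) (.l 1)) (.n 2 (.l 0) (.l 1))) (.l 1))))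
    [(61846978560, 2290745344), (137438953472, 137438953472), (4123168604160, 1374389534720)] rfl (by decide +kernel)
theorem A4_c0_t113 : CovD 1 gA4 [(68719214592, 4581490688), (137438953472, 137438953472), (3435973836800, 687194767360)] :=
  covD_E kA4_eq (.n 1 (.n 0 (.n 2 (.l 0) (.l 0)) (.n 2 (.l 0) (.l 0))) (.n 2 (.n 0 (.l 0) (.l 0)) (.l 0)))
    [(68719214592, 4581490688), (137438953472, 137438953472), (3435973836800, 687194767360)] rfl (by decide +kernel)
end

mutual
theorem A4_c0_t114 : CovD 1 gA4 [(68719214592, 4581490688), (137438953472, 137438953472), (4810363371520, 687194767360)] :=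
  covD_E kA4_eq (.n 0 (.n 2 (.n 2 (.n 0 (.l 0) (.l 0)) (.n 2 (.n 0 (.n 0 (.l 1) (.l 0)) (.l 0)) (.l 1))) (.l 1)) (.n 1 (.n 2 (.n 2 (.l 0) (.l 0)) (.l 1)) (.n 2 (.n 2 (.l 0) (.l 0)) (.l 1))))
    [(68719214592, 4581490688), (137438953472, 137438953472), (4810363371520, 687194767360)] rfl (by decide +kernel)
theorem A4_c0_t116 : CovD 1 gA4 [(77882195968, 4581490688), (137438953472, 137438953472), (4123168604160, 1374389534720)] :=
  covD_E kA4_eq (.n 1 (.n 2 (.n 0 (.n 2 (.l 0) (.l 0)) (.n 2 (.l 0) (.l 0))) (.n 2 (.l 0) (.n 2 (.n 0 (.l 0) (.l 0)) (.l 1)))) (.n 2 (.n 2 (.n 0 (.l 0) (.l 0)) (.l 0)) (.n 2 (.l 0) (.n 0 (.n 2 (.l 0) (.l 1)) (.l 0)))))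
    [(77882195968, 4581490688), (137438953472, 137438953472), (4123168604160, 1374389534720)] rfl (by decide +kernel)
end

mutual
theorem A4_c0_t117 : CovD 1 gA4 [(87045177344, 4581490688), (137438953472, 137438953472), (4123168604160, 1374389534720)] :=
  covD_E kA4_eq (.n 1 (.n 2 (.n 0 (.n 2 (.l 0) (.l 0)) (.n 2 (.l 0) (.l 0))) (.n 2 (.l 0) (.l 0))) (.n 2 (.n 2 (.n 0 (.l 0) (.l 0)) (.l 0)) (.n 2 (.l 0) (.l 0))))
    [(87045177344, 4581490688), (137438953472, 137438953472), (4123168604160, 1374389534720)] rfl (by decide +kernel)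
theorem A4_c0_t118 : CovD 1 gA4 [(73300705280, 18325962752), (137438953472, 137438953472), (8246337208320, 2748779069440)] :=
  covD_E kA4_eq (.n 0 (.n 0 (.n 2 (.n 2 (.l 1) (.l 1)) (.l 1)) (.n 2 (.n 2 (.l 1) (.l 1)) (.l 1))) (.n 0 (.n 2 (.n 2 (.n 0 (.l 1) (.l 1)) (.l 1)) (.l 1)) (.n 2 (.n 2 (.n 2 (.n 0 (.l 1) (.n 1 (.l 0) (.l 0))) (.l 1)) (.l 1)) (.l 1))))
    [(73300705280, 18325962752), (137438953472, 137438953472), (8246337208320, 2748779069440)] rfl (by decide +kernel)
end

theorem B4_c0 : CovD 1 gB4 [(73300705280, 18325962752), (137438953472, 137438953472), (54975791104, 54975791104)] :=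
  covD_E kB4_eq (.n 0 (.n 2 (.n 2 (.l 1) (.n 0 (.l 1) (.l 1))) (.n 0 (.n 2 (.l 1) (.l 1)) (.n 2 (.l 1) (.l 1)))) (.n 2 (.n 2 (.l 1) (.l 1)) (.n 2 (.l 1) (.l 1))))
    [(73300705280, 18325962752), (137438953472, 137438953472), (54975791104, 54975791104)] rfl (by decide +kernel)

theorem A4_c0_t13 : CovD 1 gA4 [(64137723904, 9162981376), (34359738368, 34359738368), (150323855360, 21474836480)] :=
  covD_split 0 (by decide +kernel) A4_c0_t14 A4_c0_t15

theorem A4_c0_t11 : CovD 1 gA4 [(64137723904, 9162981376), (34359738368, 34359738368), (128849018880, 42949672960)] :=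
  covD_split 2 (by decide +kernel) A4_c0_t12 A4_c0_t13

theorem A4_c0_t10 : CovD 1 gA4 [(64137723904, 9162981376), (68719476736, 68719476736), (128849018880, 42949672960)] :=
  covD_split 1 (by decide +kernel) A4_c0_t11 A4_c0_t16

theorem A4_c0_t8 : CovD 1 gA4 [(64137723904, 9162981376), (68719476736, 68719476736), (85899345920, 85899345920)] :=
  covD_split 2 (by decide +kernel) A4_c0_t9 A4_c0_t10

theorem A4_c0_t19 : CovD 1 gA4 [(59556233216, 4581490688), (34359738368, 34359738368), (257698037760, 85899345920)] :=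
  covD_split 1 (by decide +kernel) A4_c0_t20 A4_c0_t21

theorem A4_c0_t18 : CovD 1 gA4 [(59556233216, 4581490688), (68719476736, 68719476736), (257698037760, 85899345920)] :=
  covD_split 1 (by decide +kernel) A4_c0_t19 A4_c0_t22

theorem A4_c0_t24 : CovD 1 gA4 [(68719214592, 4581490688), (34359738368, 34359738368), (257698037760, 85899345920)] :=
  covD_split 1 (by decide +kernel) A4_c0_t25 A4_c0_t26

theorem A4_c0_t23 : CovD 1 gA4 [(68719214592, 4581490688), (68719476736, 68719476736), (257698037760, 85899345920)] :=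
  covD_split 1 (by decide +kernel) A4_c0_t24 A4_c0_t27

theorem A4_c0_t17 : CovD 1 gA4 [(64137723904, 9162981376), (68719476736, 68719476736), (257698037760, 85899345920)] :=
  covD_split 0 (by decide +kernel) A4_c0_t18 A4_c0_t23

theorem A4_c0_t7 : CovD 1 gA4 [(64137723904, 9162981376), (68719476736, 68719476736), (171798691840, 171798691840)] :=
  covD_split 2 (by decide +kernel) A4_c0_t8 A4_c0_t17

theorem A4_c0_t29 : CovD 1 gA4 [(59556233216, 4581490688), (68719476736, 68719476736), (515396075520, 171798691840)] :=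
  covD_split 1 (by decide +kernel) A4_c0_t30 A4_c0_t31

theorem A4_c0_t32 : CovD 1 gA4 [(68719214592, 4581490688), (68719476736, 68719476736), (515396075520, 171798691840)] :=
  covD_split 1 (by decide +kernel) A4_c0_t33 A4_c0_t34

theorem A4_c0_t28 : CovD 1 gA4 [(64137723904, 9162981376), (68719476736, 68719476736), (515396075520, 171798691840)] :=
  covD_split 0 (by decide +kernel) A4_c0_t29 A4_c0_t32

theorem A4_c0_t6 : CovD 1 gA4 [(64137723904, 9162981376), (68719476736, 68719476736), (343597383680, 343597383680)] :=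
  covD_split 2 (by decide +kernel) A4_c0_t7 A4_c0_t28

theorem A4_c0_t35 : CovD 1 gA4 [(64137723904, 9162981376), (68719476736, 68719476736), (1030792151040, 343597383680)] :=
  covD_split 1 (by decide +kernel) A4_c0_t36 A4_c0_t37

theorem A4_c0_t5 : CovD 1 gA4 [(64137723904, 9162981376), (68719476736, 68719476736), (687194767360, 687194767360)] :=
  covD_split 2 (by decide +kernel) A4_c0_t6 A4_c0_t35

theorem A4_c0_t4 : CovD 1 gA4 [(64137723904, 9162981376), (68719476736, 68719476736), (1374389534720, 1374389534720)] :=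
  covD_split 2 (by decide +kernel) A4_c0_t5 A4_c0_t38

theorem A4_c0_t42 : CovD 1 gA4 [(59556233216, 4581490688), (171798691840, 34359738368), (687194767360, 687194767360)] :=
  covD_split 2 (by decide +kernel) A4_c0_t43 A4_c0_t44

theorem A4_c0_t41 : CovD 1 gA4 [(59556233216, 4581490688), (206158430208, 68719476736), (687194767360, 687194767360)] :=
  covD_split 1 (by decide +kernel) A4_c0_t42 A4_c0_t45

theorem A4_c0_t40 : CovD 1 gA4 [(59556233216, 4581490688), (206158430208, 68719476736), (1374389534720, 1374389534720)] :=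
  covD_split 2 (by decide +kernel) A4_c0_t41 A4_c0_t46

theorem A4_c0_t49 : CovD 1 gA4 [(68719214592, 4581490688), (171798691840, 34359738368), (687194767360, 687194767360)] :=
  covD_split 2 (by decide +kernel) A4_c0_t50 A4_c0_t51

theorem A4_c0_t48 : CovD 1 gA4 [(68719214592, 4581490688), (206158430208, 68719476736), (687194767360, 687194767360)] :=
  covD_split 1 (by decide +kernel) A4_c0_t49 A4_c0_t52

theorem A4_c0_t47 : CovD 1 gA4 [(68719214592, 4581490688), (206158430208, 68719476736), (1374389534720, 1374389534720)] :=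
  covD_split 2 (by decide +kernel) A4_c0_t48 A4_c0_t53

theorem A4_c0_t39 : CovD 1 gA4 [(64137723904, 9162981376), (206158430208, 68719476736), (1374389534720, 1374389534720)] :=
  covD_split 0 (by decide +kernel) A4_c0_t40 A4_c0_t47

theorem A4_c0_t3 : CovD 1 gA4 [(64137723904, 9162981376), (137438953472, 137438953472), (1374389534720, 1374389534720)] :=
  covD_split 1 (by decide +kernel) A4_c0_t4 A4_c0_t39

theorem A4_c0_t64 : CovD 1 gA4 [(82463686656, 9162981376), (34359738368, 34359738368), (150323855360, 21474836480)] :=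
  covD_split 2 (by decide +kernel) A4_c0_t65 A4_c0_t66

theorem A4_c0_t62 : CovD 1 gA4 [(82463686656, 9162981376), (34359738368, 34359738368), (128849018880, 42949672960)] :=
  covD_split 2 (by decide +kernel) A4_c0_t63 A4_c0_t64

theorem A4_c0_t61 : CovD 1 gA4 [(82463686656, 9162981376), (68719476736, 68719476736), (128849018880, 42949672960)] :=
  covD_split 1 (by decide +kernel) A4_c0_t62 A4_c0_t67

theorem A4_c0_t60 : CovD 1 gA4 [(82463686656, 9162981376), (137438953472, 137438953472), (128849018880, 42949672960)] :=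
  covD_split 1 (by decide +kernel) A4_c0_t61 A4_c0_t68

theorem A4_c0_t58 : CovD 1 gA4 [(82463686656, 9162981376), (137438953472, 137438953472), (85899345920, 85899345920)] :=
  covD_split 2 (by decide +kernel) A4_c0_t59 A4_c0_t60

theorem A4_c0_t72 : CovD 1 gA4 [(77882195968, 4581490688), (34359738368, 34359738368), (257698037760, 85899345920)] :=
  covD_split 1 (by decide +kernel) A4_c0_t73 A4_c0_t74

theorem A4_c0_t71 : CovD 1 gA4 [(77882195968, 4581490688), (68719476736, 68719476736), (257698037760, 85899345920)] :=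
  covD_split 1 (by decide +kernel) A4_c0_t72 A4_c0_t75

theorem A4_c0_t70 : CovD 1 gA4 [(77882195968, 4581490688), (137438953472, 137438953472), (257698037760, 85899345920)] :=
  covD_split 1 (by decide +kernel) A4_c0_t71 A4_c0_t76

theorem A4_c0_t79 : CovD 1 gA4 [(87045177344, 4581490688), (34359738368, 34359738368), (257698037760, 85899345920)] :=
  covD_split 1 (by decide +kernel) A4_c0_t80 A4_c0_t81

theorem A4_c0_t78 : CovD 1 gA4 [(87045177344, 4581490688), (68719476736, 68719476736), (257698037760, 85899345920)] :=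
  covD_split 1 (by decide +kernel) A4_c0_t79 A4_c0_t82

theorem A4_c0_t77 : CovD 1 gA4 [(87045177344, 4581490688), (137438953472, 137438953472), (257698037760, 85899345920)] :=
  covD_split 1 (by decide +kernel) A4_c0_t78 A4_c0_t83

theorem A4_c0_t69 : CovD 1 gA4 [(82463686656, 9162981376), (137438953472, 137438953472), (257698037760, 85899345920)] :=
  covD_split 0 (by decide +kernel) A4_c0_t70 A4_c0_t77

theorem A4_c0_t57 : CovD 1 gA4 [(82463686656, 9162981376), (137438953472, 137438953472), (171798691840, 171798691840)] :=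
  covD_split 2 (by decide +kernel) A4_c0_t58 A4_c0_t69

theorem A4_c0_t86 : CovD 1 gA4 [(77882195968, 4581490688), (68719476736, 68719476736), (515396075520, 171798691840)] :=
  covD_split 1 (by decide +kernel) A4_c0_t87 A4_c0_t88

theorem A4_c0_t85 : CovD 1 gA4 [(77882195968, 4581490688), (137438953472, 137438953472), (515396075520, 171798691840)] :=
  covD_split 1 (by decide +kernel) A4_c0_t86 A4_c0_t89

theorem A4_c0_t91 : CovD 1 gA4 [(87045177344, 4581490688), (68719476736, 68719476736), (515396075520, 171798691840)] :=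
  covD_split 1 (by decide +kernel) A4_c0_t92 A4_c0_t93

theorem A4_c0_t90 : CovD 1 gA4 [(87045177344, 4581490688), (137438953472, 137438953472), (515396075520, 171798691840)] :=
  covD_split 1 (by decide +kernel) A4_c0_t91 A4_c0_t94

theorem A4_c0_t84 : CovD 1 gA4 [(82463686656, 9162981376), (137438953472, 137438953472), (515396075520, 171798691840)] :=
  covD_split 0 (by decide +kernel) A4_c0_t85 A4_c0_t90

theorem A4_c0_t56 : CovD 1 gA4 [(82463686656, 9162981376), (137438953472, 137438953472), (343597383680, 343597383680)] :=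
  covD_split 2 (by decide +kernel) A4_c0_t57 A4_c0_t84

theorem A4_c0_t96 : CovD 1 gA4 [(77882195968, 4581490688), (137438953472, 137438953472), (1030792151040, 343597383680)] :=
  covD_split 1 (by decide +kernel) A4_c0_t97 A4_c0_t98

theorem A4_c0_t99 : CovD 1 gA4 [(87045177344, 4581490688), (137438953472, 137438953472), (1030792151040, 343597383680)] :=
  covD_split 1 (by decide +kernel) A4_c0_t100 A4_c0_t101

theorem A4_c0_t95 : CovD 1 gA4 [(82463686656, 9162981376), (137438953472, 137438953472), (1030792151040, 343597383680)] :=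
  covD_split 0 (by decide +kernel) A4_c0_t96 A4_c0_t99

theorem A4_c0_t55 : CovD 1 gA4 [(82463686656, 9162981376), (137438953472, 137438953472), (687194767360, 687194767360)] :=
  covD_split 2 (by decide +kernel) A4_c0_t56 A4_c0_t95

theorem A4_c0_t102 : CovD 1 gA4 [(82463686656, 9162981376), (137438953472, 137438953472), (2061584302080, 687194767360)] :=
  covD_split 0 (by decide +kernel) A4_c0_t103 A4_c0_t104

theorem A4_c0_t54 : CovD 1 gA4 [(82463686656, 9162981376), (137438953472, 137438953472), (1374389534720, 1374389534720)] :=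
  covD_split 2 (by decide +kernel) A4_c0_t55 A4_c0_t102

theorem A4_c0_t2 : CovD 1 gA4 [(73300705280, 18325962752), (137438953472, 137438953472), (1374389534720, 1374389534720)] :=
  covD_split 0 (by decide +kernel) A4_c0_t3 A4_c0_t54

theorem A4_c0_t108 : CovD 1 gA4 [(57265487872, 2290745344), (137438953472, 137438953472), (4123168604160, 1374389534720)] :=
  covD_split 2 (by decide +kernel) A4_c0_t109 A4_c0_t110

theorem A4_c0_t107 : CovD 1 gA4 [(59556233216, 4581490688), (137438953472, 137438953472), (4123168604160, 1374389534720)] :=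
  covD_split 0 (by decide +kernel) A4_c0_t108 A4_c0_t111

theorem A4_c0_t112 : CovD 1 gA4 [(68719214592, 4581490688), (137438953472, 137438953472), (4123168604160, 1374389534720)] :=
  covD_split 2 (by decide +kernel) A4_c0_t113 A4_c0_t114

theorem A4_c0_t106 : CovD 1 gA4 [(64137723904, 9162981376), (137438953472, 137438953472), (4123168604160, 1374389534720)] :=
  covD_split 0 (by decide +kernel) A4_c0_t107 A4_c0_t112

theorem A4_c0_t115 : CovD 1 gA4 [(82463686656, 9162981376), (137438953472, 137438953472), (4123168604160, 1374389534720)] :=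
  covD_split 0 (by decide +kernel) A4_c0_t116 A4_c0_t117

theorem A4_c0_t105 : CovD 1 gA4 [(73300705280, 18325962752), (137438953472, 137438953472), (4123168604160, 1374389534720)] :=
  covD_split 0 (by decide +kernel) A4_c0_t106 A4_c0_t115

theorem A4_c0_t1 : CovD 1 gA4 [(73300705280, 18325962752), (137438953472, 137438953472), (2748779069440, 2748779069440)] :=
  covD_split 2 (by decide +kernel) A4_c0_t2 A4_c0_t105

theorem A4_c0 : CovD 1 gA4 [(73300705280, 18325962752), (137438953472, 137438953472), (5497558138880, 5497558138880)] :=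
  covD_split 2 (by decide +kernel) A4_c0_t1 A4_c0_t118

end Pool.Agent.helper14.NR.E12a
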