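import Pool.Agent.helper14.NR.E12a.PN4

/-!
Generated: certificates.
-/

namespace Pool.Agent.helper14.NR.E12a

open Pool.Agent.helper31.IA (Z)
open Pool.Agent.helper31.IX (Op XOps runX Cov CovD cov_split covD_split)
open Pool.Agent.helper31.IC (TD)
open Pool.Agent.helper63.RG (reloc)
open Pool.Agent.helper63.NF hiding TD
open Pool.Agent.helper14.CF (xE covD_E)
open Pool.Agent.helper14.NR (share)

mutual
theorem C4_c0_t3 : CovD 1 gC4 [(64137723904, 9162981376), (137438953472, 137438953472), (137438953472, 137438953472)] :=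
  covD_E kC4_eq (.n 1 (.n 1 (.n 1 (.n 1 (.n 0 (.n 2 (.l 0) (.l 0)) (.n 2 (.l 0) (.l 0))) (.n 2 (.l 0) (.n 0 (.l 0) (.l 0)))) (.n 2 (.l 0) (.n 0 (.l 0) (.l 0)))) (.n 0 (.l 0) (.l 0))) (.n 0 (.l 0) (.l 0)))
    [(64137723904, 9162981376), (137438953472, 137438953472), (137438953472, 137438953472)] rfl (by decide +kernel)
theorem C4_c0_t5 : CovD 1 gC4 [(59556233216, 4581490688), (137438953472, 137438953472), (412316860416, 137438953472)] :=
  covD_E kC4_eq (.n 1 (.n 1 (.n 1 (.n 1 (.n 2 (.l 0) (.l 0)) (.n 2 (.l 0) (.l 0))) (.n 0 (.l 0) (.l 0))) (.n 0 (.l 0) (.l 0))) (.l 0))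
    [(59556233216, 4581490688), (137438953472, 137438953472), (412316860416, 137438953472)] rfl (by decide +kernel)
end

mutual
theorem C4_c0_t6 : CovD 1 gC4 [(68719214592, 4581490688), (137438953472, 137438953472), (412316860416, 137438953472)] :=
  covD_E kC4_eq (.n 1 (.n 1 (.n 1 (.n 1 (.n 2 (.l 0) (.l 0)) (.n 2 (.l 0) (.l 0))) (.n 0 (.l 0) (.l 0))) (.l 0)) (.l 0))
    [(68719214592, 4581490688), (137438953472, 137438953472), (412316860416, 137438953472)] rfl (by decide +kernel)
theorem C4_c0_t14 : CovD 1 gC4 [(59556233216, 4581490688), (4294967296, 4294967296), (687194767360, 137438953472)] :=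
  covD_E kC4_eq (.n 2 (.l 0) (.l 0))
    [(59556233216, 4581490688), (4294967296, 4294967296), (687194767360, 137438953472)] rfl (by decide +kernel)
end

mutual
theorem C4_c0_t16 : CovD 1 gC4 [(59556233216, 4581490688), (4294967296, 4294967296), (893353197568, 68719476736)] :=
  covD_E kC4_eq (.l 0)
    [(59556233216, 4581490688), (4294967296, 4294967296), (893353197568, 68719476736)] rfl (by decide +kernel)
theorem C4_c0_t17 : CovD 1 gC4 [(59556233216, 4581490688), (4294967296, 4294967296), (1030792151040, 68719476736)] :=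
  covD_E kC4_eq (.n 1 (.n 1 (.n 2 (.l 0) (.n 2 (.l 0) (.n 2 (.l 0) (.n 2 (.l 0) (.n 2 (.l 0) (.n 0 (.n 0 (.n 0 (.n 0 (.l 1) (.l 1)) (.l 1)) (.n 0 (.l 1) (.l 1))) (.n 0 (.n 0 (.l 1) (.l 1)) (.n 0 (.l 1) (.l 1))))))))) (.l 0)) (.l 0))
    [(59556233216, 4581490688), (4294967296, 4294967296), (1030792151040, 68719476736)] rfl (by decide +kernel)
end

mutual
theorem C4_c0_t18 : CovD 1 gC4 [(59556233216, 4581490688), (12884901888, 4294967296), (824633720832, 274877906944)] :=
  covD_E kC4_eq (.n 2 (.n 2 (.l 0) (.l 0)) (.n 0 (.l 0) (.l 0)))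
    [(59556233216, 4581490688), (12884901888, 4294967296), (824633720832, 274877906944)] rfl (by decide +kernel)
theorem C4_c0_t19 : CovD 1 gC4 [(59556233216, 4581490688), (25769803776, 8589934592), (824633720832, 274877906944)] :=
  covD_E kC4_eq (.n 2 (.n 2 (.l 0) (.l 0)) (.n 2 (.l 0) (.n 0 (.l 0) (.l 0))))
    [(59556233216, 4581490688), (25769803776, 8589934592), (824633720832, 274877906944)] rfl (by decide +kernel)
end

mutual
theorem C4_c0_t20 : CovD 1 gC4 [(59556233216, 4581490688), (51539607552, 17179869184), (824633720832, 274877906944)] :=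
  covD_E kC4_eq (.n 2 (.n 2 (.l 0) (.l 0)) (.n 1 (.n 0 (.l 0) (.l 0)) (.l 0)))
    [(59556233216, 4581490688), (51539607552, 17179869184), (824633720832, 274877906944)] rfl (by decide +kernel)
theorem C4_c0_t21 : CovD 1 gC4 [(59556233216, 4581490688), (103079215104, 34359738368), (824633720832, 274877906944)] :=
  covD_E kC4_eq (.n 1 (.n 2 (.l 0) (.l 0)) (.n 2 (.l 0) (.l 0)))
    [(59556233216, 4581490688), (103079215104, 34359738368), (824633720832, 274877906944)] rfl (by decide +kernel)
end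

mutual
theorem C4_c0_t22 : CovD 1 gC4 [(59556233216, 4581490688), (206158430208, 68719476736), (824633720832, 274877906944)] :=
  covD_E kC4_eq (.n 0 (.n 2 (.l 0) (.l 0)) (.n 2 (.l 0) (.l 0)))
    [(59556233216, 4581490688), (206158430208, 68719476736), (824633720832, 274877906944)] rfl (by decide +kernel)
theorem C4_c0_t28 : CovD 1 gC4 [(68719214592, 4581490688), (8589934592, 8589934592), (687194767360, 137438953472)] :=
  covD_E kC4_eq (.n 2 (.l 0) (.n 0 (.l 0) (.l 0)))
    [(68719214592, 4581490688), (8589934592, 8589934592), (687194767360, 137438953472)] rfl (by decide +kernel)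
end

mutual
theorem C4_c0_t30 : CovD 1 gC4 [(68719214592, 4581490688), (4294967296, 4294967296), (962072674304, 137438953472)] :=
  covD_E kC4_eq (.n 2 (.l 0) (.n 1 (.n 1 (.n 2 (.l 0) (.n 2 (.l 0) (.n 2 (.l 0) (.n 2 (.l 0) (.n 0 (.n 0 (.n 0 (.n 0 (.l 1) (.l 1)) (.l 1)) (.n 0 (.l 1) (.l 1))) (.n 0 (.n 0 (.l 1) (.l 1)) (.n 0 (.l 1) (.l 1)))))))) (.l 0)) (.l 0)))
    [(68719214592, 4581490688), (4294967296, 4294967296), (962072674304, 137438953472)] rfl (by decide +kernel)
theorem C4_c0_t31 : CovD 1 gC4 [(68719214592, 4581490688), (12884901888, 4294967296), (962072674304, 137438953472)] :=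
  covD_E kC4_eq (.n 2 (.l 0) (.l 0))
    [(68719214592, 4581490688), (12884901888, 4294967296), (962072674304, 137438953472)] rfl (by decide +kernel)
end

mutual
theorem C4_c0_t32 : CovD 1 gC4 [(68719214592, 4581490688), (25769803776, 8589934592), (824633720832, 274877906944)] :=
  covD_E kC4_eq (.n 2 (.n 2 (.l 0) (.l 0)) (.n 2 (.l 0) (.n 0 (.l 0) (.l 0))))
    [(68719214592, 4581490688), (25769803776, 8589934592), (824633720832, 274877906944)] rfl (by decide +kernel)
theorem C4_c0_t33 : CovD 1 gC4 [(68719214592, 4581490688), (51539607552, 17179869184), (824633720832, 274877906944)] :=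
  covD_E kC4_eq (.n 1 (.n 2 (.l 0) (.n 0 (.l 0) (.l 0))) (.n 2 (.l 0) (.l 0)))
    [(68719214592, 4581490688), (51539607552, 17179869184), (824633720832, 274877906944)] rfl (by decide +kernel)
end

mutual
theorem C4_c0_t34 : CovD 1 gC4 [(68719214592, 4581490688), (103079215104, 34359738368), (824633720832, 274877906944)] :=
  covD_E kC4_eq (.n 1 (.n 2 (.l 0) (.l 0)) (.n 2 (.l 0) (.l 0)))
    [(68719214592, 4581490688), (103079215104, 34359738368), (824633720832, 274877906944)] rfl (by decide +kernel)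
theorem C4_c0_t35 : CovD 1 gC4 [(68719214592, 4581490688), (206158430208, 68719476736), (824633720832, 274877906944)] :=
  covD_E kC4_eq (.n 2 (.l 0) (.n 0 (.l 0) (.l 0)))
    [(68719214592, 4581490688), (206158430208, 68719476736), (824633720832, 274877906944)] rfl (by decide +kernel)
end

mutual
theorem C4_c0_t42 : CovD 1 gC4 [(77882195968, 4581490688), (8589934592, 8589934592), (274877906944, 274877906944)] :=
  covD_E kC4_eq (.n 2 (.n 2 (.l 0) (.l 0)) (.n 2 (.l 0) (.l 0)))
    [(77882195968, 4581490688), (8589934592, 8589934592), (274877906944, 274877906944)] rfl (by decide +kernel)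
theorem C4_c0_t44 : CovD 1 gC4 [(77882195968, 4581490688), (8589934592, 8589934592), (687194767360, 137438953472)] :=
  covD_E kC4_eq (.n 2 (.l 0) (.n 0 (.l 0) (.l 0)))
    [(77882195968, 4581490688), (8589934592, 8589934592), (687194767360, 137438953472)] rfl (by decide +kernel)
end

mutual
theorem C4_c0_t46 : CovD 1 gC4 [(77882195968, 4581490688), (4294967296, 4294967296), (962072674304, 137438953472)] :=
  covD_E kC4_eq (.n 2 (.l 0) (.n 1 (.n 1 (.n 1 (.n 2 (.l 0) (.n 1 (.n 2 (.l 0) (.n 2 (.l 0) (.n 2 (.l 0) (.n 2 (.l 0) (.n 0 (.n 0 (.n 0 (.l 1) (.l 1)) (.l 1)) (.n 0 (.l 1) (.l 1))))))) (.l 0))) (.l 0)) (.l 0)) (.l 0)))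
    [(77882195968, 4581490688), (4294967296, 4294967296), (962072674304, 137438953472)] rfl (by decide +kernel)
theorem C4_c0_t47 : CovD 1 gC4 [(77882195968, 4581490688), (12884901888, 4294967296), (962072674304, 137438953472)] :=
  covD_E kC4_eq (.n 2 (.l 0) (.l 0))
    [(77882195968, 4581490688), (12884901888, 4294967296), (962072674304, 137438953472)] rfl (by decide +kernel)
end

mutual
theorem C4_c0_t49 : CovD 1 gC4 [(87045177344, 4581490688), (8589934592, 8589934592), (274877906944, 274877906944)] :=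
  covD_E kC4_eq (.n 2 (.n 2 (.l 0) (.l 0)) (.n 2 (.l 0) (.l 0)))
    [(87045177344, 4581490688), (8589934592, 8589934592), (274877906944, 274877906944)] rfl (by decide +kernel)
theorem C4_c0_t50 : CovD 1 gC4 [(87045177344, 4581490688), (8589934592, 8589934592), (824633720832, 274877906944)] :=
  covD_E kC4_eq (.n 2 (.n 2 (.l 0) (.n 0 (.l 0) (.l 0))) (.n 1 (.n 2 (.l 0) (.n 1 (.n 2 (.l 0) (.n 2 (.l 0) (.n 2 (.l 0) (.n 2 (.l 0) (.n 0 (.n 0 (.n 0 (.l 1) (.l 1)) (.l 1)) (.n 0 (.l 1) (.l 1))))))) (.l 0))) (.n 2 (.l 0) (.l 0))))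
    [(87045177344, 4581490688), (8589934592, 8589934592), (824633720832, 274877906944)] rfl (by decide +kernel)
end

mutual
theorem C4_c0_t51 : CovD 1 gC4 [(82463686656, 9162981376), (25769803776, 8589934592), (549755813888, 549755813888)] :=
  covD_E kC4_eq (.n 2 (.n 2 (.n 2 (.l 0) (.l 0)) (.n 2 (.l 0) (.l 0))) (.n 1 (.n 2 (.n 2 (.l 0) (.l 0)) (.n 2 (.l 0) (.n 0 (.l 0) (.l 0)))) (.n 2 (.n 0 (.l 0) (.l 0)) (.n 2 (.l 0) (.l 0)))))
    [(82463686656, 9162981376), (25769803776, 8589934592), (549755813888, 549755813888)] rfl (by decide +kernel)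
theorem C4_c0_t52 : CovD 1 gC4 [(82463686656, 9162981376), (51539607552, 17179869184), (549755813888, 549755813888)] :=
  covD_E kC4_eq (.n 2 (.n 2 (.n 2 (.l 0) (.l 0)) (.n 2 (.l 0) (.l 0))) (.n 1 (.n 2 (.n 0 (.l 0) (.l 0)) (.n 2 (.l 0) (.n 0 (.l 0) (.l 0)))) (.n 0 (.n 2 (.l 0) (.l 0)) (.n 2 (.l 0) (.l 0)))))
    [(82463686656, 9162981376), (51539607552, 17179869184), (549755813888, 549755813888)] rfl (by decide +kernel)
end

mutual
theorem C4_c0_t53 : CovD 1 gC4 [(82463686656, 9162981376), (103079215104, 34359738368), (549755813888, 549755813888)] :=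
  covD_E kC4_eq (.n 1 (.n 2 (.n 2 (.l 0) (.l 0)) (.n 0 (.n 2 (.l 0) (.l 0)) (.n 2 (.l 0) (.l 0)))) (.n 2 (.n 2 (.l 0) (.l 0)) (.n 2 (.l 0) (.n 0 (.l 0) (.l 0)))))
    [(82463686656, 9162981376), (103079215104, 34359738368), (549755813888, 549755813888)] rfl (by decide +kernel)
theorem C4_c0_t54 : CovD 1 gC4 [(82463686656, 9162981376), (206158430208, 68719476736), (549755813888, 549755813888)] :=
  covD_E kC4_eq (.n 0 (.n 2 (.n 2 (.l 0) (.l 0)) (.n 2 (.l 0) (.n 0 (.l 0) (.l 0)))) (.n 2 (.n 2 (.l 0) (.l 0)) (.n 2 (.l 0) (.n 0 (.l 0) (.l 0)))))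
    [(82463686656, 9162981376), (206158430208, 68719476736), (549755813888, 549755813888)] rfl (by decide +kernel)
end

mutual
theorem D4_c0_t1 : CovD 1 gD4 [(64137723904, 9162981376), (137438953472, 137438953472), (863554764800, 863554764800)] :=
  covD_E kD4_eq (.n 2 (.n 2 (.n 2 (.l 0) (.l 0)) (.n 0 (.n 1 (.l 0) (.l 0)) (.n 1 (.l 0) (.l 0)))) (.n 0 (.n 2 (.n 1 (.l 0) (.l 0)) (.n 2 (.l 0) (.l 0))) (.n 1 (.n 2 (.l 0) (.l 0)) (.n 2 (.l 0) (.l 0)))))
    [(64137723904, 9162981376), (137438953472, 137438953472), (863554764800, 863554764800)] rfl (by decide +kernel)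
theorem D4_c0_t2 : CovD 1 gD4 [(82463686656, 9162981376), (137438953472, 137438953472), (863554764800, 863554764800)] :=
  covD_E kD4_eq (.n 2 (.n 2 (.n 1 (.l 0) (.l 0)) (.n 2 (.l 0) (.n 0 (.l 0) (.l 0)))) (.n 0 (.n 1 (.n 2 (.l 0) (.l 0)) (.n 2 (.l 0) (.l 0))) (.n 2 (.n 1 (.l 0) (.l 0)) (.n 2 (.l 0) (.l 0)))))
    [(82463686656, 9162981376), (137438953472, 137438953472), (863554764800, 863554764800)] rfl (by decide +kernel)
end

mutual
theorem E4_c0_t1 : CovD 1 gE4 [(73300705280, 18325962752), (137438953472, 137438953472), (431777382400, 431777382400)] :=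
  covD_E kE4_eq (.n 0 (.n 2 (.l 1) (.n 0 (.n 2 (.l 1) (.n 0 (.n 2 (.l 1) (.n 2 (.l 0) (.l 0))) (.n 0 (.l 1) (.l 1)))) (.n 0 (.l 1) (.l 1)))) (.n 2 (.l 1) (.n 0 (.l 1) (.l 1))))
    [(73300705280, 18325962752), (137438953472, 137438953472), (431777382400, 431777382400)] rfl (by decide +kernel)
theorem E4_c0_t3 : CovD 1 gE4 [(64137723904, 9162981376), (137438953472, 137438953472), (1295332147200, 431777382400)] :=
  covD_E kE4_eq (.n 0 (.n 2 (.n 2 (.n 2 (.n 0 (.l 0) (.l 0)) (.l 0)) (.n 0 (.l 0) (.l 0))) (.n 2 (.l 0) (.l 0))) (.n 2 (.n 2 (.n 2 (.n 0 (.l 0) (.l 0)) (.l 0)) (.n 0 (.l 0) (.l 0))) (.n 2 (.l 0) (.l 0))))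
    [(64137723904, 9162981376), (137438953472, 137438953472), (1295332147200, 431777382400)] rfl (by decide +kernel)
end

theorem E4_c0_t4 : CovD 1 gE4 [(82463686656, 9162981376), (137438953472, 137438953472), (1295332147200, 431777382400)] :=
  covD_E kE4_eq (.n 1 (.n 2 (.n 2 (.n 0 (.l 0) (.l 0)) (.l 0)) (.n 2 (.l 0) (.l 0))) (.n 2 (.n 0 (.n 2 (.l 0) (.l 0)) (.n 2 (.l 0) (.l 0))) (.n 2 (.l 0) (.l 0))))
    [(82463686656, 9162981376), (137438953472, 137438953472), (1295332147200, 431777382400)] rfl (by decide +kernel)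

theorem C4_c0_t4 : CovD 1 gC4 [(64137723904, 9162981376), (137438953472, 137438953472), (412316860416, 137438953472)] :=
  covD_split 0 (by decide +kernel) C4_c0_t5 C4_c0_t6

theorem C4_c0_t2 : CovD 1 gC4 [(64137723904, 9162981376), (137438953472, 137438953472), (274877906944, 274877906944)] :=
  covD_split 2 (by decide +kernel) C4_c0_t3 C4_c0_t4

theorem C4_c0_t15 : CovD 1 gC4 [(59556233216, 4581490688), (4294967296, 4294967296), (962072674304, 137438953472)] :=
  covD_split 2 (by decide +kernel) C4_c0_t16 C4_c0_t17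

theorem C4_c0_t13 : CovD 1 gC4 [(59556233216, 4581490688), (4294967296, 4294967296), (824633720832, 274877906944)] :=
  covD_split 2 (by decide +kernel) C4_c0_t14 C4_c0_t15

theorem C4_c0_t12 : CovD 1 gC4 [(59556233216, 4581490688), (8589934592, 8589934592), (824633720832, 274877906944)] :=
  covD_split 1 (by decide +kernel) C4_c0_t13 C4_c0_t18

theorem C4_c0_t11 : CovD 1 gC4 [(59556233216, 4581490688), (17179869184, 17179869184), (824633720832, 274877906944)] :=
  covD_split 1 (by decide +kernel) C4_c0_t12 C4_c0_t19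

theorem C4_c0_t10 : CovD 1 gC4 [(59556233216, 4581490688), (34359738368, 34359738368), (824633720832, 274877906944)] :=
  covD_split 1 (by decide +kernel) C4_c0_t11 C4_c0_t20

theorem C4_c0_t9 : CovD 1 gC4 [(59556233216, 4581490688), (68719476736, 68719476736), (824633720832, 274877906944)] :=
  covD_split 1 (by decide +kernel) C4_c0_t10 C4_c0_t21

theorem C4_c0_t8 : CovD 1 gC4 [(59556233216, 4581490688), (137438953472, 137438953472), (824633720832, 274877906944)] :=
  covD_split 1 (by decide +kernel) C4_c0_t9 C4_c0_t22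

theorem C4_c0_t29 : CovD 1 gC4 [(68719214592, 4581490688), (8589934592, 8589934592), (962072674304, 137438953472)] :=
  covD_split 1 (by decide +kernel) C4_c0_t30 C4_c0_t31

theorem C4_c0_t27 : CovD 1 gC4 [(68719214592, 4581490688), (8589934592, 8589934592), (824633720832, 274877906944)] :=
  covD_split 2 (by decide +kernel) C4_c0_t28 C4_c0_t29

theorem C4_c0_t26 : CovD 1 gC4 [(68719214592, 4581490688), (17179869184, 17179869184), (824633720832, 274877906944)] :=
  covD_split 1 (by decide +kernel) C4_c0_t27 C4_c0_t32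

theorem C4_c0_t25 : CovD 1 gC4 [(68719214592, 4581490688), (34359738368, 34359738368), (824633720832, 274877906944)] :=
  covD_split 1 (by decide +kernel) C4_c0_t26 C4_c0_t33

theorem C4_c0_t24 : CovD 1 gC4 [(68719214592, 4581490688), (68719476736, 68719476736), (824633720832, 274877906944)] :=
  covD_split 1 (by decide +kernel) C4_c0_t25 C4_c0_t34

theorem C4_c0_t23 : CovD 1 gC4 [(68719214592, 4581490688), (137438953472, 137438953472), (824633720832, 274877906944)] :=
  covD_split 1 (by decide +kernel) C4_c0_t24 C4_c0_t35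

theorem C4_c0_t7 : CovD 1 gC4 [(64137723904, 9162981376), (137438953472, 137438953472), (824633720832, 274877906944)] :=
  covD_split 0 (by decide +kernel) C4_c0_t8 C4_c0_t23

theorem C4_c0_t1 : CovD 1 gC4 [(64137723904, 9162981376), (137438953472, 137438953472), (549755813888, 549755813888)] :=
  covD_split 2 (by decide +kernel) C4_c0_t2 C4_c0_t7

theorem C4_c0_t45 : CovD 1 gC4 [(77882195968, 4581490688), (8589934592, 8589934592), (962072674304, 137438953472)] :=
  covD_split 1 (by decide +kernel) C4_c0_t46 C4_c0_t47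

theorem C4_c0_t43 : CovD 1 gC4 [(77882195968, 4581490688), (8589934592, 8589934592), (824633720832, 274877906944)] :=
  covD_split 2 (by decide +kernel) C4_c0_t44 C4_c0_t45

theorem C4_c0_t41 : CovD 1 gC4 [(77882195968, 4581490688), (8589934592, 8589934592), (549755813888, 549755813888)] :=
  covD_split 2 (by decide +kernel) C4_c0_t42 C4_c0_t43

theorem C4_c0_t48 : CovD 1 gC4 [(87045177344, 4581490688), (8589934592, 8589934592), (549755813888, 549755813888)] :=
  covD_split 2 (by decide +kernel) C4_c0_t49 C4_c0_t50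

theorem C4_c0_t40 : CovD 1 gC4 [(82463686656, 9162981376), (8589934592, 8589934592), (549755813888, 549755813888)] :=
  covD_split 0 (by decide +kernel) C4_c0_t41 C4_c0_t48

theorem C4_c0_t39 : CovD 1 gC4 [(82463686656, 9162981376), (17179869184, 17179869184), (549755813888, 549755813888)] :=
  covD_split 1 (by decide +kernel) C4_c0_t40 C4_c0_t51

theorem C4_c0_t38 : CovD 1 gC4 [(82463686656, 9162981376), (34359738368, 34359738368), (549755813888, 549755813888)] :=
  covD_split 1 (by decide +kernel) C4_c0_t39 C4_c0_t52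

theorem C4_c0_t37 : CovD 1 gC4 [(82463686656, 9162981376), (68719476736, 68719476736), (549755813888, 549755813888)] :=
  covD_split 1 (by decide +kernel) C4_c0_t38 C4_c0_t53

theorem C4_c0_t36 : CovD 1 gC4 [(82463686656, 9162981376), (137438953472, 137438953472), (549755813888, 549755813888)] :=
  covD_split 1 (by decide +kernel) C4_c0_t37 C4_c0_t54

theorem C4_c0 : CovD 1 gC4 [(73300705280, 18325962752), (137438953472, 137438953472), (549755813888, 549755813888)] :=
  covD_split 0 (by decide +kernel) C4_c0_t1 C4_c0_t36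

theorem D4_c0 : CovD 1 gD4 [(73300705280, 18325962752), (137438953472, 137438953472), (863554764800, 863554764800)] :=
  covD_split 0 (by decide +kernel) D4_c0_t1 D4_c0_t2

theorem E4_c0_t2 : CovD 1 gE4 [(73300705280, 18325962752), (137438953472, 137438953472), (1295332147200, 431777382400)] :=
  covD_split 0 (by decide +kernel) E4_c0_t3 E4_c0_t4

theorem E4_c0 : CovD 1 gE4 [(73300705280, 18325962752), (137438953472, 137438953472), (863554764800, 863554764800)] :=
  covD_split 2 (by decide +kernel) E4_c0_t1 E4_c0_t2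

end Pool.Agent.helper14.NR.E12a
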