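import Pool.Agent.helper14.NR.E12a.PN5

/-!
Generated: certificates.
-/

namespace Pool.Agent.helper14.NR.E12a

open Pool.Agent.helper31.IA (Z)
open Pool.Agent.helper31.IX (Op XOps runX Cov CovD cov_split covD_split)
open Pool.Agent.helper31.IC (TD)
open Pool.Agent.helper63.RG (reloc)
open Pool.Agent.helper63.NF hiding TD
open Pool.Agent.helper14.CF (xE covD_E)
open Pool.Agent.helper14.NR (share)

mutual
theorem A5_c1_t8 : CovD 1 gA5 [(82463686656, 9162981376), (17179869184, 17179869184), (42949672960, 42949672960)] :=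
  covD_E kA5_eq (.l 2)
    [(82463686656, 9162981376), (17179869184, 17179869184), (42949672960, 42949672960)] rfl (by decide +kernel)
theorem A5_c1_t9 : CovD 1 gA5 [(82463686656, 9162981376), (17179869184, 17179869184), (128849018880, 42949672960)] :=
  covD_E kA5_eq (.n 2 (.l 2) (.n 0 (.n 1 (.n 2 (.n 1 (.l 0) (.l 0)) (.l 0)) (.n 0 (.n 1 (.l 0) (.l 0)) (.n 1 (.l 0) (.l 0)))) (.n 1 (.n 0 (.n 1 (.l 0) (.l 0)) (.n 1 (.l 0) (.l 0))) (.n 1 (.n 1 (.l 0) (.l 0)) (.n 0 (.l 0) (.l 0))))))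
    [(82463686656, 9162981376), (17179869184, 17179869184), (128849018880, 42949672960)] rfl (by decide +kernel)
end

mutual
theorem A5_c1_t11 : CovD 1 gA5 [(77882195968, 4581490688), (17179869184, 17179869184), (257698037760, 85899345920)] :=
  covD_E kA5_eq (.n 1 (.n 2 (.n 2 (.n 0 (.l 0) (.l 0)) (.l 0)) (.n 2 (.l 0) (.l 0))) (.n 2 (.n 2 (.n 1 (.l 0) (.l 0)) (.l 0)) (.n 0 (.l 0) (.l 0))))
    [(77882195968, 4581490688), (17179869184, 17179869184), (257698037760, 85899345920)] rfl (by decide +kernel)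
theorem A5_c1_t12 : CovD 1 gA5 [(87045177344, 4581490688), (17179869184, 17179869184), (257698037760, 85899345920)] :=
  covD_E kA5_eq (.n 1 (.n 2 (.n 2 (.n 1 (.l 0) (.l 0)) (.l 0)) (.n 2 (.l 0) (.l 0))) (.n 2 (.n 2 (.n 1 (.l 0) (.l 0)) (.l 0)) (.n 0 (.l 0) (.l 0))))
    [(87045177344, 4581490688), (17179869184, 17179869184), (257698037760, 85899345920)] rfl (by decide +kernel)
end

mutual
theorem A5_c1_t13 : CovD 1 gA5 [(82463686656, 9162981376), (17179869184, 17179869184), (515396075520, 171798691840)] :=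
  covD_E kA5_eq (.n 0 (.n 2 (.n 1 (.n 2 (.l 0) (.l 0)) (.n 2 (.l 0) (.l 0))) (.n 2 (.l 0) (.l 0))) (.n 2 (.n 1 (.n 2 (.l 0) (.l 0)) (.n 2 (.l 0) (.l 0))) (.n 2 (.l 0) (.l 0))))
    [(82463686656, 9162981376), (17179869184, 17179869184), (515396075520, 171798691840)] rfl (by decide +kernel)
theorem A5_c1_t15 : CovD 1 gA5 [(77882195968, 4581490688), (17179869184, 17179869184), (1030792151040, 343597383680)] :=
  covD_E kA5_eq (.n 2 (.n 2 (.n 2 (.l 0) (.l 0)) (.n 2 (.l 0) (.l 0))) (.n 2 (.n 2 (.l 0) (.l 0)) (.n 0 (.l 0) (.l 0))))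
    [(77882195968, 4581490688), (17179869184, 17179869184), (1030792151040, 343597383680)] rfl (by decide +kernel)
end

mutual
theorem A5_c1_t16 : CovD 1 gA5 [(87045177344, 4581490688), (17179869184, 17179869184), (1030792151040, 343597383680)] :=
  covD_E kA5_eq (.n 2 (.n 2 (.n 0 (.n 2 (.l 0) (.l 0)) (.n 2 (.l 0) (.l 0))) (.n 2 (.l 0) (.l 0))) (.n 2 (.n 2 (.l 0) (.l 0)) (.n 0 (.l 0) (.l 0))))
    [(87045177344, 4581490688), (17179869184, 17179869184), (1030792151040, 343597383680)] rfl (by decide +kernel)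
theorem A5_c1_t20 : CovD 1 gA5 [(82463686656, 9162981376), (51539607552, 17179869184), (85899345920, 85899345920)] :=
  covD_E kA5_eq (.n 2 (.l 2) (.n 2 (.l 2) (.n 0 (.n 1 (.n 2 (.l 0) (.l 0)) (.l 0)) (.n 1 (.n 2 (.l 0) (.l 0)) (.l 0)))))
    [(82463686656, 9162981376), (51539607552, 17179869184), (85899345920, 85899345920)] rfl (by decide +kernel)
end

mutual
theorem A5_c1_t21 : CovD 1 gA5 [(82463686656, 9162981376), (51539607552, 17179869184), (257698037760, 85899345920)] :=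
  covD_E kA5_eq (.n 0 (.n 2 (.n 1 (.n 2 (.n 0 (.l 0) (.l 0)) (.l 0)) (.n 2 (.l 0) (.l 0))) (.n 2 (.n 0 (.l 0) (.l 0)) (.l 0))) (.n 2 (.n 1 (.n 2 (.n 0 (.l 0) (.l 0)) (.l 0)) (.n 2 (.l 0) (.l 0))) (.n 2 (.n 0 (.l 0) (.l 0)) (.l 0))))
    [(82463686656, 9162981376), (51539607552, 17179869184), (257698037760, 85899345920)] rfl (by decide +kernel)
theorem A5_c1_t22 : CovD 1 gA5 [(82463686656, 9162981376), (51539607552, 17179869184), (515396075520, 171798691840)] :=
  covD_E kA5_eq (.n 0 (.n 2 (.n 2 (.n 0 (.l 0) (.l 0)) (.l 0)) (.n 2 (.l 0) (.l 0))) (.n 2 (.n 2 (.n 0 (.l 0) (.l 0)) (.l 0)) (.n 2 (.l 0) (.l 0))))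
    [(82463686656, 9162981376), (51539607552, 17179869184), (515396075520, 171798691840)] rfl (by decide +kernel)
end

mutual
theorem A5_c1_t23 : CovD 1 gA5 [(82463686656, 9162981376), (51539607552, 17179869184), (1030792151040, 343597383680)] :=
  covD_E kA5_eq (.n 0 (.n 2 (.n 2 (.n 2 (.l 0) (.l 0)) (.n 2 (.l 0) (.l 0))) (.n 2 (.n 2 (.l 0) (.l 0)) (.n 0 (.l 0) (.l 0)))) (.n 2 (.n 2 (.n 2 (.l 0) (.l 0)) (.n 2 (.l 0) (.l 0))) (.n 2 (.n 0 (.l 0) (.l 0)) (.l 0))))
    [(82463686656, 9162981376), (51539607552, 17179869184), (1030792151040, 343597383680)] rfl (by decide +kernel)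
theorem A5_c1_t27 : CovD 1 gA5 [(82463686656, 9162981376), (85899345920, 17179869184), (171798691840, 171798691840)] :=
  covD_E kA5_eq (.n 2 (.n 2 (.l 2) (.n 2 (.l 2) (.n 0 (.l 0) (.l 0)))) (.n 0 (.n 2 (.n 2 (.l 0) (.l 0)) (.n 2 (.l 0) (.l 0))) (.n 2 (.n 2 (.l 0) (.l 0)) (.n 1 (.l 0) (.l 0)))))
    [(82463686656, 9162981376), (85899345920, 17179869184), (171798691840, 171798691840)] rfl (by decide +kernel)
end

mutual
theorem A5_c1_t28 : CovD 1 gA5 [(82463686656, 9162981376), (85899345920, 17179869184), (515396075520, 171798691840)] :=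
  covD_E kA5_eq (.n 0 (.n 2 (.n 2 (.n 0 (.l 0) (.l 0)) (.l 0)) (.n 2 (.l 0) (.l 0))) (.n 2 (.n 2 (.n 0 (.l 0) (.l 0)) (.l 0)) (.n 2 (.l 0) (.l 0))))
    [(82463686656, 9162981376), (85899345920, 17179869184), (515396075520, 171798691840)] rfl (by decide +kernel)
theorem A5_c1_t29 : CovD 1 gA5 [(82463686656, 9162981376), (120259084288, 17179869184), (343597383680, 343597383680)] :=
  covD_E kA5_eq (.n 2 (.n 2 (.n 2 (.l 2) (.n 0 (.l 0) (.l 0))) (.n 0 (.n 2 (.l 0) (.l 0)) (.n 2 (.l 0) (.l 0)))) (.n 0 (.n 2 (.n 2 (.l 0) (.l 0)) (.n 2 (.l 0) (.l 0))) (.n 2 (.n 2 (.l 0) (.l 0)) (.n 2 (.l 0) (.l 0)))))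
    [(82463686656, 9162981376), (120259084288, 17179869184), (343597383680, 343597383680)] rfl (by decide +kernel)
end

mutual
theorem A5_c1_t31 : CovD 1 gA5 [(77882195968, 4581490688), (103079215104, 34359738368), (1030792151040, 343597383680)] :=
  covD_E kA5_eq (.n 2 (.n 0 (.n 2 (.n 2 (.l 0) (.l 0)) (.n 2 (.l 0) (.l 0))) (.n 2 (.n 2 (.l 0) (.l 0)) (.n 2 (.l 0) (.l 0)))) (.n 2 (.n 2 (.n 0 (.l 0) (.l 0)) (.l 0)) (.n 0 (.l 0) (.l 0))))
    [(77882195968, 4581490688), (103079215104, 34359738368), (1030792151040, 343597383680)] rfl (by decide +kernel)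
theorem A5_c1_t32 : CovD 1 gA5 [(87045177344, 4581490688), (103079215104, 34359738368), (1030792151040, 343597383680)] :=
  covD_E kA5_eq (.n 2 (.n 0 (.n 2 (.n 2 (.l 0) (.l 0)) (.n 2 (.l 0) (.l 0))) (.n 2 (.n 2 (.l 0) (.l 0)) (.n 2 (.l 0) (.l 0)))) (.n 2 (.n 2 (.l 0) (.l 0)) (.n 0 (.l 0) (.l 0))))
    [(87045177344, 4581490688), (103079215104, 34359738368), (1030792151040, 343597383680)] rfl (by decide +kernel)
end

mutual
theorem A5_c1_t34 : CovD 1 gA5 [(77882195968, 4581490688), (68719476736, 68719476736), (2061584302080, 687194767360)] :=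
  covD_E kA5_eq (.n 1 (.n 2 (.n 2 (.n 2 (.n 0 (.l 0) (.l 0)) (.l 0)) (.n 0 (.l 0) (.l 0))) (.n 2 (.l 0) (.l 0))) (.n 2 (.n 2 (.n 2 (.n 0 (.l 0) (.l 0)) (.l 0)) (.n 0 (.l 0) (.l 0))) (.n 2 (.l 0) (.l 0))))
    [(77882195968, 4581490688), (68719476736, 68719476736), (2061584302080, 687194767360)] rfl (by decide +kernel)
theorem A5_c1_t35 : CovD 1 gA5 [(87045177344, 4581490688), (68719476736, 68719476736), (2061584302080, 687194767360)] :=
  covD_E kA5_eq (.n 2 (.n 2 (.n 1 (.n 2 (.l 0) (.l 0)) (.n 2 (.l 0) (.l 0))) (.n 2 (.n 0 (.l 0) (.l 0)) (.l 0))) (.n 0 (.n 2 (.l 0) (.l 0)) (.n 2 (.l 0) (.l 0))))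
    [(87045177344, 4581490688), (68719476736, 68719476736), (2061584302080, 687194767360)] rfl (by decide +kernel)
end

mutual
theorem A5_c1_t40 : CovD 1 gA5 [(82463686656, 9162981376), (206158430208, 68719476736), (85899345920, 85899345920)] :=
  covD_E kA5_eq (.n 2 (.l 2) (.n 0 (.n 0 (.n 1 (.l 0) (.l 0)) (.n 1 (.l 0) (.l 0))) (.n 1 (.n 1 (.l 0) (.l 0)) (.n 0 (.l 0) (.l 0)))))
    [(82463686656, 9162981376), (206158430208, 68719476736), (85899345920, 85899345920)] rfl (by decide +kernel)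
theorem A5_c1_t41 : CovD 1 gA5 [(82463686656, 9162981376), (206158430208, 68719476736), (257698037760, 85899345920)] :=
  covD_E kA5_eq (.n 0 (.n 0 (.n 1 (.n 2 (.l 0) (.l 0)) (.n 2 (.l 0) (.l 0))) (.n 1 (.n 2 (.l 0) (.l 0)) (.n 2 (.l 0) (.l 0)))) (.n 0 (.n 1 (.n 2 (.l 0) (.l 0)) (.n 2 (.l 0) (.l 0))) (.n 1 (.n 2 (.l 0) (.l 0)) (.n 2 (.l 0) (.l 0)))))
    [(82463686656, 9162981376), (206158430208, 68719476736), (257698037760, 85899345920)] rfl (by decide +kernel)
end

mutual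
theorem A5_c1_t43 : CovD 1 gA5 [(77882195968, 4581490688), (206158430208, 68719476736), (515396075520, 171798691840)] :=
  covD_E kA5_eq (.n 1 (.n 0 (.n 2 (.n 2 (.l 0) (.l 0)) (.n 2 (.l 0) (.l 0))) (.n 2 (.n 2 (.l 0) (.l 0)) (.n 2 (.l 0) (.l 0)))) (.n 2 (.n 2 (.n 0 (.l 0) (.l 0)) (.l 0)) (.n 2 (.l 0) (.l 0))))
    [(77882195968, 4581490688), (206158430208, 68719476736), (515396075520, 171798691840)] rfl (by decide +kernel)
theorem A5_c1_t44 : CovD 1 gA5 [(87045177344, 4581490688), (206158430208, 68719476736), (515396075520, 171798691840)] :=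
  covD_E kA5_eq (.n 0 (.n 1 (.n 2 (.n 2 (.l 0) (.l 0)) (.n 2 (.l 0) (.l 0))) (.n 2 (.n 2 (.l 0) (.l 0)) (.n 2 (.l 0) (.l 0)))) (.n 1 (.n 2 (.n 2 (.l 0) (.l 0)) (.n 2 (.l 0) (.l 0))) (.n 2 (.n 2 (.l 0) (.l 0)) (.n 2 (.l 0) (.l 0)))))
    [(87045177344, 4581490688), (206158430208, 68719476736), (515396075520, 171798691840)] rfl (by decide +kernel)
end

mutual
theorem A5_c1_t47 : CovD 1 gA5 [(77882195968, 4581490688), (171798691840, 34359738368), (1030792151040, 343597383680)] :=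
  covD_E kA5_eq (.n 2 (.n 2 (.n 0 (.n 2 (.l 0) (.l 0)) (.n 2 (.l 0) (.l 0))) (.n 2 (.n 0 (.l 0) (.l 0)) (.l 0))) (.n 2 (.n 2 (.l 0) (.l 0)) (.n 0 (.l 0) (.l 0))))
    [(77882195968, 4581490688), (171798691840, 34359738368), (1030792151040, 343597383680)] rfl (by decide +kernel)
theorem A5_c1_t48 : CovD 1 gA5 [(77882195968, 4581490688), (240518168576, 34359738368), (1030792151040, 343597383680)] :=
  covD_E kA5_eq (.n 2 (.n 2 (.n 2 (.l 0) (.l 0)) (.n 2 (.l 0) (.l 0))) (.n 2 (.n 2 (.l 0) (.l 0)) (.n 0 (.l 0) (.l 0))))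
    [(77882195968, 4581490688), (240518168576, 34359738368), (1030792151040, 343597383680)] rfl (by decide +kernel)
end

mutual
theorem A5_c1_t50 : CovD 1 gA5 [(87045177344, 4581490688), (171798691840, 34359738368), (1030792151040, 343597383680)] :=
  covD_E kA5_eq (.n 2 (.n 2 (.n 0 (.n 2 (.l 0) (.l 0)) (.n 2 (.l 0) (.l 0))) (.n 2 (.l 0) (.l 0))) (.n 2 (.n 2 (.l 0) (.l 0)) (.n 0 (.l 0) (.l 0))))
    [(87045177344, 4581490688), (171798691840, 34359738368), (1030792151040, 343597383680)] rfl (by decide +kernel)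
theorem A5_c1_t51 : CovD 1 gA5 [(87045177344, 4581490688), (240518168576, 34359738368), (1030792151040, 343597383680)] :=
  covD_E kA5_eq (.n 2 (.n 2 (.n 2 (.l 0) (.l 0)) (.n 2 (.l 0) (.l 0))) (.n 2 (.n 0 (.l 0) (.l 0)) (.l 0)))
    [(87045177344, 4581490688), (240518168576, 34359738368), (1030792151040, 343597383680)] rfl (by decide +kernel)
end

mutual
theorem A5_c1_t53 : CovD 1 gA5 [(77882195968, 4581490688), (206158430208, 68719476736), (2061584302080, 687194767360)] :=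
  covD_E kA5_eq (.n 2 (.n 2 (.n 1 (.n 2 (.l 0) (.l 0)) (.n 2 (.l 0) (.l 0))) (.n 2 (.n 0 (.l 0) (.l 0)) (.l 0))) (.n 2 (.n 0 (.l 0) (.l 0)) (.l 0)))
    [(77882195968, 4581490688), (206158430208, 68719476736), (2061584302080, 687194767360)] rfl (by decide +kernel)
theorem A5_c1_t54 : CovD 1 gA5 [(87045177344, 4581490688), (206158430208, 68719476736), (2061584302080, 687194767360)] :=
  covD_E kA5_eq (.n 2 (.n 1 (.n 2 (.n 2 (.l 0) (.l 0)) (.n 0 (.l 0) (.l 0))) (.n 2 (.n 2 (.l 0) (.l 0)) (.l 0))) (.n 2 (.n 0 (.l 0) (.l 0)) (.l 0)))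
    [(87045177344, 4581490688), (206158430208, 68719476736), (2061584302080, 687194767360)] rfl (by decide +kernel)
end

mutual
theorem A5_c2_t3 : CovD 1 gA5 [(59556233216, 4581490688), (137438953472, 137438953472), (3435973836800, 687194767360)] :=
  covD_E kA5_eq (.n 1 (.n 2 (.n 2 (.n 0 (.l 0) (.l 0)) (.l 0)) (.n 0 (.l 0) (.l 0))) (.n 2 (.n 2 (.n 0 (.l 0) (.l 0)) (.l 0)) (.n 0 (.l 0) (.l 0))))
    [(59556233216, 4581490688), (137438953472, 137438953472), (3435973836800, 687194767360)] rfl (by decide +kernel)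
theorem A5_c2_t6 : CovD 1 gA5 [(57265487872, 2290745344), (137438953472, 137438953472), (4466765987840, 343597383680)] :=
  covD_E kA5_eq (.n 0 (.n 2 (.n 1 (.n 0 (.l 0) (.l 0)) (.l 0)) (.n 2 (.n 2 (.n 0 (.n 1 (.l 1) (.l 0)) (.l 0)) (.l 1)) (.l 1))) (.n 1 (.n 2 (.l 0) (.n 2 (.l 0) (.l 1))) (.n 2 (.l 0) (.n 2 (.l 0) (.l 1)))))
    [(57265487872, 2290745344), (137438953472, 137438953472), (4466765987840, 343597383680)] rfl (by decide +kernel)
end

mutual
theorem A5_c2_t7 : CovD 1 gA5 [(61846978560, 2290745344), (137438953472, 137438953472), (4466765987840, 343597383680)] :=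
  covD_E kA5_eq (.n 0 (.n 1 (.n 2 (.l 0) (.n 0 (.l 0) (.l 0))) (.n 2 (.l 0) (.l 0))) (.n 1 (.l 0) (.l 0)))
    [(61846978560, 2290745344), (137438953472, 137438953472), (4466765987840, 343597383680)] rfl (by decide +kernel)
theorem A5_c2_t8 : CovD 1 gA5 [(59556233216, 4581490688), (137438953472, 137438953472), (5153960755200, 343597383680)] :=
  covD_E kA5_eq (.n 2 (.n 0 (.l 1) (.n 0 (.l 1) (.n 0 (.l 1) (.n 1 (.l 1) (.l 0))))) (.l 1))
    [(59556233216, 4581490688), (137438953472, 137438953472), (5153960755200, 343597383680)] rfl (by decide +kernel)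
end

mutual
theorem A5_c2_t10 : CovD 1 gA5 [(68719214592, 4581490688), (137438953472, 137438953472), (3435973836800, 687194767360)] :=
  covD_E kA5_eq (.n 1 (.n 2 (.n 2 (.l 0) (.l 0)) (.n 0 (.l 0) (.l 0))) (.n 0 (.n 2 (.l 0) (.l 0)) (.n 2 (.l 0) (.l 0))))
    [(68719214592, 4581490688), (137438953472, 137438953472), (3435973836800, 687194767360)] rfl (by decide +kernel)
theorem A5_c2_t11 : CovD 1 gA5 [(68719214592, 4581490688), (137438953472, 137438953472), (4810363371520, 687194767360)] :=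
  covD_E kA5_eq (.n 2 (.n 1 (.n 0 (.l 0) (.l 0)) (.l 0)) (.n 0 (.n 2 (.n 1 (.n 0 (.l 0) (.l 0)) (.l 0)) (.n 0 (.l 1) (.l 1))) (.n 1 (.l 0) (.l 0))))
    [(68719214592, 4581490688), (137438953472, 137438953472), (4810363371520, 687194767360)] rfl (by decide +kernel)
end

mutual
theorem A5_c2_t13 : CovD 1 gA5 [(77882195968, 4581490688), (137438953472, 137438953472), (4123168604160, 1374389534720)] :=
  covD_E kA5_eq (.n 1 (.n 2 (.n 2 (.n 2 (.l 0) (.l 0)) (.n 0 (.l 0) (.l 0))) (.n 2 (.n 0 (.l 0) (.l 0)) (.l 0))) (.n 2 (.n 2 (.n 0 (.l 0) (.l 0)) (.l 0)) (.n 2 (.l 0) (.l 0))))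
    [(77882195968, 4581490688), (137438953472, 137438953472), (4123168604160, 1374389534720)] rfl (by decide +kernel)
theorem A5_c2_t14 : CovD 1 gA5 [(87045177344, 4581490688), (137438953472, 137438953472), (4123168604160, 1374389534720)] :=
  covD_E kA5_eq (.n 1 (.n 2 (.n 1 (.n 2 (.l 0) (.l 0)) (.n 2 (.l 0) (.l 0))) (.n 2 (.n 0 (.l 0) (.l 0)) (.l 0))) (.n 2 (.n 2 (.n 0 (.l 0) (.l 0)) (.l 0)) (.n 2 (.l 0) (.l 0))))
    [(87045177344, 4581490688), (137438953472, 137438953472), (4123168604160, 1374389534720)] rfl (by decide +kernel)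
end

mutual
theorem A5_c3_t1 : CovD 1 gA5 [(64137723904, 9162981376), (137438953472, 137438953472), (8246337208320, 2748779069440)] :=
  covD_E kA5_eq (.n 0 (.n 2 (.n 2 (.n 0 (.l 1) (.l 1)) (.l 1)) (.l 1)) (.n 2 (.n 2 (.n 2 (.n 0 (.l 1) (.n 0 (.l 1) (.n 1 (.l 1) (.l 0)))) (.l 1)) (.l 1)) (.l 1)))
    [(64137723904, 9162981376), (137438953472, 137438953472), (8246337208320, 2748779069440)] rfl (by decide +kernel)
theorem A5_c3_t3 : CovD 1 gA5 [(77882195968, 4581490688), (137438953472, 137438953472), (8246337208320, 2748779069440)] :=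
  covD_E kA5_eq (.n 2 (.n 2 (.n 2 (.n 1 (.l 0) (.l 0)) (.n 0 (.l 1) (.n 1 (.l 0) (.l 0)))) (.n 0 (.l 1) (.n 2 (.l 1) (.l 1)))) (.n 2 (.l 1) (.l 1)))
    [(77882195968, 4581490688), (137438953472, 137438953472), (8246337208320, 2748779069440)] rfl (by decide +kernel)
end

mutual
theorem A5_c3_t4 : CovD 1 gA5 [(87045177344, 4581490688), (137438953472, 137438953472), (8246337208320, 2748779069440)] :=
  covD_E kA5_eq (.n 1 (.n 2 (.n 2 (.n 2 (.l 0) (.l 0)) (.n 0 (.l 0) (.l 0))) (.n 2 (.n 0 (.l 0) (.l 0)) (.l 1))) (.n 2 (.n 0 (.n 2 (.l 0) (.l 0)) (.n 2 (.l 0) (.l 0))) (.n 2 (.l 0) (.l 0))))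
    [(87045177344, 4581490688), (137438953472, 137438953472), (8246337208320, 2748779069440)] rfl (by decide +kernel)
theorem B5_c0 : CovD 1 gB5 [(73300705280, 18325962752), (137438953472, 137438953472), (54975791104, 54975791104)] :=
  covD_E kB5_eq (.n 0 (.n 2 (.n 2 (.l 1) (.l 1)) (.n 2 (.l 1) (.l 1))) (.n 0 (.n 2 (.l 1) (.n 0 (.l 1) (.l 1))) (.n 2 (.n 2 (.l 1) (.l 1)) (.n 2 (.l 1) (.n 1 (.l 1) (.l 1))))))
    [(73300705280, 18325962752), (137438953472, 137438953472), (54975791104, 54975791104)] rfl (by decide +kernel)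
end

theorem A5_c1_t7 : CovD 1 gA5 [(82463686656, 9162981376), (17179869184, 17179869184), (85899345920, 85899345920)] :=
  covD_split 2 (by decide +kernel) A5_c1_t8 A5_c1_t9

theorem A5_c1_t10 : CovD 1 gA5 [(82463686656, 9162981376), (17179869184, 17179869184), (257698037760, 85899345920)] :=
  covD_split 0 (by decide +kernel) A5_c1_t11 A5_c1_t12

theorem A5_c1_t6 : CovD 1 gA5 [(82463686656, 9162981376), (17179869184, 17179869184), (171798691840, 171798691840)] :=
  covD_split 2 (by decide +kernel) A5_c1_t7 A5_c1_t10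

theorem A5_c1_t5 : CovD 1 gA5 [(82463686656, 9162981376), (17179869184, 17179869184), (343597383680, 343597383680)] :=
  covD_split 2 (by decide +kernel) A5_c1_t6 A5_c1_t13

theorem A5_c1_t14 : CovD 1 gA5 [(82463686656, 9162981376), (17179869184, 17179869184), (1030792151040, 343597383680)] :=
  covD_split 0 (by decide +kernel) A5_c1_t15 A5_c1_t16

theorem A5_c1_t4 : CovD 1 gA5 [(82463686656, 9162981376), (17179869184, 17179869184), (687194767360, 687194767360)] :=
  covD_split 2 (by decide +kernel) A5_c1_t5 A5_c1_t14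

theorem A5_c1_t19 : CovD 1 gA5 [(82463686656, 9162981376), (51539607552, 17179869184), (171798691840, 171798691840)] :=
  covD_split 2 (by decide +kernel) A5_c1_t20 A5_c1_t21

theorem A5_c1_t18 : CovD 1 gA5 [(82463686656, 9162981376), (51539607552, 17179869184), (343597383680, 343597383680)] :=
  covD_split 2 (by decide +kernel) A5_c1_t19 A5_c1_t22

theorem A5_c1_t17 : CovD 1 gA5 [(82463686656, 9162981376), (51539607552, 17179869184), (687194767360, 687194767360)] :=
  covD_split 2 (by decide +kernel) A5_c1_t18 A5_c1_t23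

theorem A5_c1_t3 : CovD 1 gA5 [(82463686656, 9162981376), (34359738368, 34359738368), (687194767360, 687194767360)] :=
  covD_split 1 (by decide +kernel) A5_c1_t4 A5_c1_t17

theorem A5_c1_t26 : CovD 1 gA5 [(82463686656, 9162981376), (85899345920, 17179869184), (343597383680, 343597383680)] :=
  covD_split 2 (by decide +kernel) A5_c1_t27 A5_c1_t28

theorem A5_c1_t25 : CovD 1 gA5 [(82463686656, 9162981376), (103079215104, 34359738368), (343597383680, 343597383680)] :=
  covD_split 1 (by decide +kernel) A5_c1_t26 A5_c1_t29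

theorem A5_c1_t30 : CovD 1 gA5 [(82463686656, 9162981376), (103079215104, 34359738368), (1030792151040, 343597383680)] :=
  covD_split 0 (by decide +kernel) A5_c1_t31 A5_c1_t32

theorem A5_c1_t24 : CovD 1 gA5 [(82463686656, 9162981376), (103079215104, 34359738368), (687194767360, 687194767360)] :=
  covD_split 2 (by decide +kernel) A5_c1_t25 A5_c1_t30

theorem A5_c1_t2 : CovD 1 gA5 [(82463686656, 9162981376), (68719476736, 68719476736), (687194767360, 687194767360)] :=
  covD_split 1 (by decide +kernel) A5_c1_t3 A5_c1_t24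

theorem A5_c1_t33 : CovD 1 gA5 [(82463686656, 9162981376), (68719476736, 68719476736), (2061584302080, 687194767360)] :=
  covD_split 0 (by decide +kernel) A5_c1_t34 A5_c1_t35

theorem A5_c1_t1 : CovD 1 gA5 [(82463686656, 9162981376), (68719476736, 68719476736), (1374389534720, 1374389534720)] :=
  covD_split 2 (by decide +kernel) A5_c1_t2 A5_c1_t33

theorem A5_c1_t39 : CovD 1 gA5 [(82463686656, 9162981376), (206158430208, 68719476736), (171798691840, 171798691840)] :=
  covD_split 2 (by decide +kernel) A5_c1_t40 A5_c1_t41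

theorem A5_c1_t42 : CovD 1 gA5 [(82463686656, 9162981376), (206158430208, 68719476736), (515396075520, 171798691840)] :=
  covD_split 0 (by decide +kernel) A5_c1_t43 A5_c1_t44

theorem A5_c1_t38 : CovD 1 gA5 [(82463686656, 9162981376), (206158430208, 68719476736), (343597383680, 343597383680)] :=
  covD_split 2 (by decide +kernel) A5_c1_t39 A5_c1_t42

theorem A5_c1_t46 : CovD 1 gA5 [(77882195968, 4581490688), (206158430208, 68719476736), (1030792151040, 343597383680)] :=
  covD_split 1 (by decide +kernel) A5_c1_t47 A5_c1_t48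

theorem A5_c1_t49 : CovD 1 gA5 [(87045177344, 4581490688), (206158430208, 68719476736), (1030792151040, 343597383680)] :=
  covD_split 1 (by decide +kernel) A5_c1_t50 A5_c1_t51

theorem A5_c1_t45 : CovD 1 gA5 [(82463686656, 9162981376), (206158430208, 68719476736), (1030792151040, 343597383680)] :=
  covD_split 0 (by decide +kernel) A5_c1_t46 A5_c1_t49

theorem A5_c1_t37 : CovD 1 gA5 [(82463686656, 9162981376), (206158430208, 68719476736), (687194767360, 687194767360)] :=
  covD_split 2 (by decide +kernel) A5_c1_t38 A5_c1_t45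

theorem A5_c1_t52 : CovD 1 gA5 [(82463686656, 9162981376), (206158430208, 68719476736), (2061584302080, 687194767360)] :=
  covD_split 0 (by decide +kernel) A5_c1_t53 A5_c1_t54

theorem A5_c1_t36 : CovD 1 gA5 [(82463686656, 9162981376), (206158430208, 68719476736), (1374389534720, 1374389534720)] :=
  covD_split 2 (by decide +kernel) A5_c1_t37 A5_c1_t52

theorem A5_c1 : CovD 1 gA5 [(82463686656, 9162981376), (137438953472, 137438953472), (1374389534720, 1374389534720)] :=
  covD_split 1 (by decide +kernel) A5_c1_t1 A5_c1_t36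

theorem A5_c2_t5 : CovD 1 gA5 [(59556233216, 4581490688), (137438953472, 137438953472), (4466765987840, 343597383680)] :=
  covD_split 0 (by decide +kernel) A5_c2_t6 A5_c2_t7

theorem A5_c2_t4 : CovD 1 gA5 [(59556233216, 4581490688), (137438953472, 137438953472), (4810363371520, 687194767360)] :=
  covD_split 2 (by decide +kernel) A5_c2_t5 A5_c2_t8

theorem A5_c2_t2 : CovD 1 gA5 [(59556233216, 4581490688), (137438953472, 137438953472), (4123168604160, 1374389534720)] :=
  covD_split 2 (by decide +kernel) A5_c2_t3 A5_c2_t4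

theorem A5_c2_t9 : CovD 1 gA5 [(68719214592, 4581490688), (137438953472, 137438953472), (4123168604160, 1374389534720)] :=
  covD_split 2 (by decide +kernel) A5_c2_t10 A5_c2_t11

theorem A5_c2_t1 : CovD 1 gA5 [(64137723904, 9162981376), (137438953472, 137438953472), (4123168604160, 1374389534720)] :=
  covD_split 0 (by decide +kernel) A5_c2_t2 A5_c2_t9

theorem A5_c2_t12 : CovD 1 gA5 [(82463686656, 9162981376), (137438953472, 137438953472), (4123168604160, 1374389534720)] :=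
  covD_split 0 (by decide +kernel) A5_c2_t13 A5_c2_t14

theorem A5_c2 : CovD 1 gA5 [(73300705280, 18325962752), (137438953472, 137438953472), (4123168604160, 1374389534720)] :=
  covD_split 0 (by decide +kernel) A5_c2_t1 A5_c2_t12

theorem A5_c3_t2 : CovD 1 gA5 [(82463686656, 9162981376), (137438953472, 137438953472), (8246337208320, 2748779069440)] :=
  covD_split 0 (by decide +kernel) A5_c3_t3 A5_c3_t4

theorem A5_c3 : CovD 1 gA5 [(73300705280, 18325962752), (137438953472, 137438953472), (8246337208320, 2748779069440)] :=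
  covD_split 0 (by decide +kernel) A5_c3_t1 A5_c3_t2

end Pool.Agent.helper14.NR.E12a
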