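import Pool.Agent.helper14.NR.E12a.PZ

/-!
Generated: certificates.
-/

namespace Pool.Agent.helper14.NR.E12a

open Pool.Agent.helper31.IA (Z)
open Pool.Agent.helper31.IX (Op XOps runX Cov CovD cov_split covD_split)
open Pool.Agent.helper31.IC (TD)
open Pool.Agent.helper63.RG (reloc)
open Pool.Agent.helper63.NF hiding TD
open Pool.Agent.helper14.CF (xE covD_E)
open Pool.Agent.helper14.NR (share)

mutual
theorem Z_c0_t6 : CovD 1 gZ [(64137723904, 9162981376), (17179869184, 17179869184), (185541853184, 130567110656)] :=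
  covD_E kZ_eq (.n 2 (.n 2 (.n 2 (.n 2 (.n 0 (.l 0) (.l 0)) (.l 0)) (.n 0 (.l 0) (.l 0))) (.n 2 (.l 0) (.n 0 (.l 0) (.l 0)))) (.n 0 (.n 2 (.n 2 (.l 0) (.l 0)) (.n 2 (.l 0) (.l 0))) (.n 2 (.n 2 (.l 0) (.l 0)) (.n 2 (.l 0) (.l 0)))))
    [(64137723904, 9162981376), (17179869184, 17179869184), (185541853184, 130567110656)] rfl (by decide +kernel)
theorem Z_c0_t8 : CovD 1 gZ [(59556233216, 4581490688), (51539607552, 17179869184), (185541853184, 130567110656)] :=
  covD_E kZ_eq (.n 2 (.n 2 (.n 2 (.n 0 (.l 0) (.l 0)) (.l 0)) (.n 2 (.l 0) (.l 0))) (.n 2 (.n 2 (.l 0) (.l 0)) (.n 2 (.l 0) (.l 0))))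
    [(59556233216, 4581490688), (51539607552, 17179869184), (185541853184, 130567110656)] rfl (by decide +kernel)
end

mutual
theorem Z_c0_t9 : CovD 1 gZ [(68719214592, 4581490688), (51539607552, 17179869184), (185541853184, 130567110656)] :=
  covD_E kZ_eq (.n 2 (.n 2 (.n 2 (.n 0 (.l 0) (.l 0)) (.l 0)) (.n 2 (.l 0) (.l 0))) (.n 2 (.n 2 (.l 0) (.l 0)) (.n 2 (.l 0) (.l 0))))
    [(68719214592, 4581490688), (51539607552, 17179869184), (185541853184, 130567110656)] rfl (by decide +kernel)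
theorem Z_c0_t11 : CovD 1 gZ [(59556233216, 4581490688), (34359738368, 34359738368), (446676074496, 130567110656)] :=
  covD_E kZ_eq (.n 2 (.n 1 (.n 2 (.n 2 (.l 0) (.l 0)) (.n 2 (.l 0) (.l 0))) (.n 2 (.n 2 (.l 0) (.l 0)) (.n 2 (.l 0) (.l 0)))) (.n 2 (.n 2 (.n 0 (.l 0) (.l 0)) (.l 0)) (.n 2 (.l 0) (.l 0))))
    [(59556233216, 4581490688), (34359738368, 34359738368), (446676074496, 130567110656)] rfl (by decide +kernel)
end

mutual
theorem Z_c0_t12 : CovD 1 gZ [(68719214592, 4581490688), (34359738368, 34359738368), (446676074496, 130567110656)] :=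
  covD_E kZ_eq (.n 2 (.n 1 (.n 2 (.n 2 (.l 0) (.l 0)) (.n 2 (.l 0) (.l 0))) (.n 2 (.n 2 (.l 0) (.l 0)) (.n 2 (.l 0) (.l 0)))) (.n 2 (.n 2 (.l 0) (.l 0)) (.n 0 (.l 0) (.l 0))))
    [(68719214592, 4581490688), (34359738368, 34359738368), (446676074496, 130567110656)] rfl (by decide +kernel)
theorem Z_c0_t15 : CovD 1 gZ [(59556233216, 4581490688), (103079215104, 34359738368), (185541853184, 130567110656)] :=
  covD_E kZ_eq (.n 2 (.n 2 (.n 1 (.n 2 (.l 0) (.l 0)) (.n 2 (.l 0) (.l 0))) (.n 2 (.n 0 (.l 0) (.l 0)) (.l 0))) (.n 2 (.n 2 (.l 0) (.l 0)) (.n 2 (.l 0) (.l 0))))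
    [(59556233216, 4581490688), (103079215104, 34359738368), (185541853184, 130567110656)] rfl (by decide +kernel)
end

mutual
theorem Z_c0_t16 : CovD 1 gZ [(59556233216, 4581490688), (103079215104, 34359738368), (446676074496, 130567110656)] :=
  covD_E kZ_eq (.n 2 (.n 2 (.n 2 (.l 0) (.l 0)) (.n 2 (.l 0) (.l 0))) (.n 2 (.n 2 (.l 0) (.l 0)) (.n 0 (.l 0) (.l 0))))
    [(59556233216, 4581490688), (103079215104, 34359738368), (446676074496, 130567110656)] rfl (by decide +kernel)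
theorem Z_c0_t18 : CovD 1 gZ [(68719214592, 4581490688), (103079215104, 34359738368), (185541853184, 130567110656)] :=
  covD_E kZ_eq (.n 2 (.n 1 (.n 2 (.n 2 (.l 0) (.l 0)) (.n 2 (.l 0) (.l 0))) (.n 2 (.n 2 (.l 0) (.l 0)) (.n 2 (.l 0) (.l 0)))) (.n 2 (.n 2 (.l 0) (.l 0)) (.n 2 (.l 0) (.l 0))))
    [(68719214592, 4581490688), (103079215104, 34359738368), (185541853184, 130567110656)] rfl (by decide +kernel)
end

mutual
theorem Z_c0_t19 : CovD 1 gZ [(68719214592, 4581490688), (103079215104, 34359738368), (446676074496, 130567110656)] :=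
  covD_E kZ_eq (.n 2 (.n 2 (.n 2 (.l 0) (.l 0)) (.n 2 (.l 0) (.l 0))) (.n 0 (.n 2 (.l 0) (.l 0)) (.n 2 (.l 0) (.l 0))))
    [(68719214592, 4581490688), (103079215104, 34359738368), (446676074496, 130567110656)] rfl (by decide +kernel)
theorem Z_c0_t22 : CovD 1 gZ [(59556233216, 4581490688), (171798691840, 34359738368), (316108963840, 261134221312)] :=
  covD_E kZ_eq (.n 2 (.n 2 (.n 2 (.n 2 (.n 1 (.l 0) (.l 0)) (.l 0)) (.n 2 (.l 0) (.l 0))) (.n 2 (.n 2 (.l 0) (.l 0)) (.n 1 (.l 0) (.l 0)))) (.n 2 (.n 0 (.n 2 (.l 0) (.l 0)) (.n 2 (.l 0) (.l 0))) (.n 2 (.l 0) (.l 0))))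
    [(59556233216, 4581490688), (171798691840, 34359738368), (316108963840, 261134221312)] rfl (by decide +kernel)
end

mutual
theorem Z_c0_t23 : CovD 1 gZ [(59556233216, 4581490688), (240518168576, 34359738368), (316108963840, 261134221312)] :=
  covD_E kZ_eq (.n 2 (.n 2 (.n 2 (.n 2 (.l 0) (.l 0)) (.n 2 (.l 0) (.l 0))) (.n 2 (.n 0 (.l 0) (.l 0)) (.l 0))) (.n 2 (.n 2 (.l 0) (.l 0)) (.n 2 (.l 0) (.l 0))))
    [(59556233216, 4581490688), (240518168576, 34359738368), (316108963840, 261134221312)] rfl (by decide +kernel)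
theorem Z_c0_t25 : CovD 1 gZ [(68719214592, 4581490688), (171798691840, 34359738368), (316108963840, 261134221312)] :=
  covD_E kZ_eq (.n 2 (.n 2 (.n 2 (.n 2 (.n 1 (.l 0) (.l 0)) (.l 0)) (.n 2 (.l 0) (.l 0))) (.n 2 (.n 2 (.l 0) (.l 0)) (.n 1 (.l 0) (.l 0)))) (.n 2 (.n 2 (.n 0 (.l 0) (.l 0)) (.l 0)) (.n 2 (.l 0) (.l 0))))
    [(68719214592, 4581490688), (171798691840, 34359738368), (316108963840, 261134221312)] rfl (by decide +kernel)
end

mutual
theorem Z_c0_t26 : CovD 1 gZ [(68719214592, 4581490688), (240518168576, 34359738368), (316108963840, 261134221312)] :=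
  covD_E kZ_eq (.n 2 (.n 2 (.n 2 (.n 2 (.l 0) (.l 0)) (.n 2 (.l 0) (.l 0))) (.n 2 (.n 0 (.l 0) (.l 0)) (.l 0))) (.n 2 (.n 2 (.l 0) (.l 0)) (.n 2 (.l 0) (.l 0))))
    [(68719214592, 4581490688), (240518168576, 34359738368), (316108963840, 261134221312)] rfl (by decide +kernel)
theorem Z_c0_t32 : CovD 1 gZ [(82463686656, 9162981376), (17179869184, 17179869184), (120258297856, 65283555328)] :=
  covD_E kZ_eq (.n 2 (.n 2 (.n 2 (.l 0) (.l 0)) (.n 0 (.l 0) (.l 0))) (.n 2 (.l 0) (.n 0 (.l 0) (.l 0))))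
    [(82463686656, 9162981376), (17179869184, 17179869184), (120258297856, 65283555328)] rfl (by decide +kernel)
end

mutual
theorem Z_c0_t33 : CovD 1 gZ [(82463686656, 9162981376), (17179869184, 17179869184), (250825408512, 65283555328)] :=
  covD_E kZ_eq (.n 0 (.n 2 (.n 2 (.l 0) (.l 0)) (.n 2 (.l 0) (.l 0))) (.n 2 (.n 2 (.l 0) (.n 0 (.l 0) (.l 0))) (.n 2 (.n 1 (.l 0) (.l 0)) (.n 2 (.l 0) (.l 0)))))
    [(82463686656, 9162981376), (17179869184, 17179869184), (250825408512, 65283555328)] rfl (by decide +kernel)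
theorem Z_c0_t34 : CovD 1 gZ [(82463686656, 9162981376), (51539607552, 17179869184), (185541853184, 130567110656)] :=
  covD_E kZ_eq (.n 2 (.n 2 (.n 2 (.n 2 (.l 0) (.l 0)) (.n 0 (.l 0) (.l 0))) (.n 2 (.l 0) (.n 0 (.l 0) (.l 0)))) (.n 0 (.n 2 (.n 2 (.l 0) (.l 0)) (.n 2 (.l 0) (.l 0))) (.n 2 (.n 2 (.l 0) (.l 0)) (.n 2 (.l 0) (.n 0 (.l 0) (.l 0))))))
    [(82463686656, 9162981376), (51539607552, 17179869184), (185541853184, 130567110656)] rfl (by decide +kernel)
end

mutual
theorem Z_c0_t36 : CovD 1 gZ [(77882195968, 4581490688), (34359738368, 34359738368), (446676074496, 130567110656)] :=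
  covD_E kZ_eq (.n 2 (.n 1 (.n 2 (.n 2 (.l 0) (.l 0)) (.n 2 (.l 0) (.l 0))) (.n 2 (.n 2 (.l 0) (.l 0)) (.n 2 (.l 0) (.l 0)))) (.n 2 (.n 2 (.n 0 (.l 0) (.l 0)) (.l 0)) (.n 2 (.l 0) (.l 0))))
    [(77882195968, 4581490688), (34359738368, 34359738368), (446676074496, 130567110656)] rfl (by decide +kernel)
theorem Z_c0_t38 : CovD 1 gZ [(87045177344, 4581490688), (34359738368, 34359738368), (381392519168, 65283555328)] :=
  covD_E kZ_eq (.n 1 (.n 2 (.n 2 (.n 2 (.l 0) (.l 0)) (.n 1 (.l 0) (.l 0))) (.n 2 (.n 0 (.l 0) (.l 0)) (.l 0))) (.n 2 (.n 2 (.n 0 (.l 0) (.l 0)) (.l 0)) (.n 2 (.l 0) (.l 0))))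
    [(87045177344, 4581490688), (34359738368, 34359738368), (381392519168, 65283555328)] rfl (by decide +kernel)
end

mutual
theorem Z_c0_t39 : CovD 1 gZ [(87045177344, 4581490688), (34359738368, 34359738368), (511959629824, 65283555328)] :=
  covD_E kZ_eq (.n 2 (.n 2 (.n 0 (.l 0) (.l 0)) (.l 0)) (.n 2 (.l 0) (.l 0)))
    [(87045177344, 4581490688), (34359738368, 34359738368), (511959629824, 65283555328)] rfl (by decide +kernel)
theorem Z_c0_t42 : CovD 1 gZ [(82463686656, 9162981376), (85899345920, 17179869184), (185541853184, 130567110656)] :=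
  covD_E kZ_eq (.n 2 (.n 2 (.n 1 (.n 2 (.l 0) (.l 0)) (.n 2 (.l 0) (.l 0))) (.n 2 (.l 0) (.n 0 (.l 0) (.l 0)))) (.n 0 (.n 2 (.n 2 (.l 0) (.l 0)) (.n 2 (.l 0) (.l 0))) (.n 2 (.n 2 (.l 0) (.l 0)) (.n 2 (.l 0) (.l 0)))))
    [(82463686656, 9162981376), (85899345920, 17179869184), (185541853184, 130567110656)] rfl (by decide +kernel)
end

mutual
theorem Z_c0_t43 : CovD 1 gZ [(82463686656, 9162981376), (120259084288, 17179869184), (185541853184, 130567110656)] :=
  covD_E kZ_eq (.n 2 (.n 2 (.n 2 (.n 0 (.l 0) (.l 0)) (.l 0)) (.n 2 (.l 0) (.l 0))) (.n 2 (.n 2 (.l 0) (.l 0)) (.n 2 (.l 0) (.l 0))))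
    [(82463686656, 9162981376), (120259084288, 17179869184), (185541853184, 130567110656)] rfl (by decide +kernel)
theorem Z_c0_t45 : CovD 1 gZ [(77882195968, 4581490688), (103079215104, 34359738368), (446676074496, 130567110656)] :=
  covD_E kZ_eq (.n 2 (.n 2 (.n 2 (.l 0) (.l 0)) (.n 2 (.l 0) (.l 0))) (.n 0 (.n 2 (.l 0) (.l 0)) (.n 2 (.l 0) (.l 0))))
    [(77882195968, 4581490688), (103079215104, 34359738368), (446676074496, 130567110656)] rfl (by decide +kernel)
end

mutual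
theorem Z_c0_t46 : CovD 1 gZ [(87045177344, 4581490688), (103079215104, 34359738368), (446676074496, 130567110656)] :=
  covD_E kZ_eq (.n 2 (.n 2 (.n 2 (.n 0 (.l 0) (.l 0)) (.l 0)) (.n 2 (.l 0) (.l 0))) (.n 2 (.n 2 (.l 0) (.l 0)) (.n 0 (.l 0) (.l 0))))
    [(87045177344, 4581490688), (103079215104, 34359738368), (446676074496, 130567110656)] rfl (by decide +kernel)
theorem Z_c0_t50 : CovD 1 gZ [(82463686656, 9162981376), (154618822656, 17179869184), (185541853184, 130567110656)] :=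
  covD_E kZ_eq (.n 2 (.n 2 (.n 2 (.n 0 (.l 0) (.l 0)) (.l 0)) (.n 2 (.l 0) (.l 0))) (.n 2 (.n 2 (.l 0) (.l 0)) (.n 2 (.l 0) (.l 0))))
    [(82463686656, 9162981376), (154618822656, 17179869184), (185541853184, 130567110656)] rfl (by decide +kernel)
end

mutual
theorem Z_c0_t51 : CovD 1 gZ [(82463686656, 9162981376), (188978561024, 17179869184), (185541853184, 130567110656)] :=
  covD_E kZ_eq (.n 2 (.n 2 (.n 2 (.l 0) (.l 0)) (.n 2 (.l 0) (.l 0))) (.n 2 (.n 2 (.l 0) (.l 0)) (.n 0 (.l 0) (.l 0))))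
    [(82463686656, 9162981376), (188978561024, 17179869184), (185541853184, 130567110656)] rfl (by decide +kernel)
theorem Z_c0_t52 : CovD 1 gZ [(82463686656, 9162981376), (171798691840, 34359738368), (446676074496, 130567110656)] :=
  covD_E kZ_eq (.n 2 (.n 2 (.n 0 (.n 0 (.l 0) (.l 0)) (.n 1 (.l 0) (.l 0))) (.n 2 (.n 0 (.l 0) (.l 0)) (.l 0))) (.n 0 (.n 2 (.l 0) (.l 0)) (.n 2 (.l 0) (.l 0))))
    [(82463686656, 9162981376), (171798691840, 34359738368), (446676074496, 130567110656)] rfl (by decide +kernel)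
end

mutual
theorem Z_c0_t54 : CovD 1 gZ [(82463686656, 9162981376), (240518168576, 34359738368), (185541853184, 130567110656)] :=
  covD_E kZ_eq (.n 2 (.n 2 (.n 0 (.n 2 (.l 0) (.l 0)) (.n 2 (.l 0) (.l 0))) (.n 2 (.l 0) (.l 0))) (.n 2 (.n 2 (.l 0) (.l 0)) (.n 0 (.l 0) (.l 0))))
    [(82463686656, 9162981376), (240518168576, 34359738368), (185541853184, 130567110656)] rfl (by decide +kernel)
theorem Z_c0_t55 : CovD 1 gZ [(82463686656, 9162981376), (240518168576, 34359738368), (446676074496, 130567110656)] :=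
  covD_E kZ_eq (.n 0 (.n 2 (.n 2 (.l 0) (.l 0)) (.n 2 (.l 0) (.l 0))) (.n 2 (.n 2 (.l 0) (.l 0)) (.n 2 (.l 0) (.l 0))))
    [(82463686656, 9162981376), (240518168576, 34359738368), (446676074496, 130567110656)] rfl (by decide +kernel)
end

mutual
theorem Z_c0_t60 : CovD 1 gZ [(59556233216, 4581490688), (34359738368, 34359738368), (838377406464, 261134221312)] :=
  covD_E kZ_eq (.n 2 (.n 0 (.n 2 (.n 2 (.l 0) (.l 0)) (.n 2 (.l 0) (.l 0))) (.n 2 (.n 2 (.l 0) (.l 0)) (.n 2 (.l 0) (.l 0)))) (.n 2 (.n 2 (.l 0) (.l 0)) (.n 2 (.l 0) (.l 0))))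
    [(59556233216, 4581490688), (34359738368, 34359738368), (838377406464, 261134221312)] rfl (by decide +kernel)
theorem Z_c0_t61 : CovD 1 gZ [(59556233216, 4581490688), (103079215104, 34359738368), (838377406464, 261134221312)] :=
  covD_E kZ_eq (.n 2 (.n 2 (.n 2 (.n 0 (.l 0) (.l 0)) (.l 0)) (.n 2 (.l 0) (.l 0))) (.n 2 (.n 2 (.l 0) (.l 0)) (.n 2 (.l 0) (.l 0))))
    [(59556233216, 4581490688), (103079215104, 34359738368), (838377406464, 261134221312)] rfl (by decide +kernel)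
end

mutual
theorem Z_c0_t62 : CovD 1 gZ [(59556233216, 4581490688), (206158430208, 68719476736), (838377406464, 261134221312)] :=
  covD_E kZ_eq (.n 2 (.n 0 (.n 2 (.n 2 (.l 0) (.l 0)) (.n 2 (.l 0) (.l 0))) (.n 2 (.n 2 (.l 0) (.l 0)) (.n 2 (.l 0) (.l 0)))) (.n 2 (.n 2 (.l 0) (.l 0)) (.n 2 (.l 0) (.l 0))))
    [(59556233216, 4581490688), (206158430208, 68719476736), (838377406464, 261134221312)] rfl (by decide +kernel)
theorem Z_c0_t64 : CovD 1 gZ [(68719214592, 4581490688), (68719476736, 68719476736), (838377406464, 261134221312)] :=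
  covD_E kZ_eq (.n 2 (.n 1 (.n 2 (.n 2 (.n 0 (.l 0) (.l 0)) (.l 0)) (.n 2 (.l 0) (.l 0))) (.n 2 (.n 2 (.l 0) (.l 0)) (.n 2 (.l 0) (.l 0)))) (.n 2 (.n 2 (.n 0 (.l 0) (.l 0)) (.l 0)) (.n 2 (.l 0) (.l 0))))
    [(68719214592, 4581490688), (68719476736, 68719476736), (838377406464, 261134221312)] rfl (by decide +kernel)
end

mutual
theorem Z_c0_t65 : CovD 1 gZ [(68719214592, 4581490688), (206158430208, 68719476736), (838377406464, 261134221312)] :=
  covD_E kZ_eq (.n 2 (.n 2 (.n 0 (.n 2 (.l 0) (.l 0)) (.n 2 (.l 0) (.l 0))) (.n 2 (.l 0) (.l 0))) (.n 2 (.n 2 (.l 0) (.l 0)) (.n 0 (.l 0) (.l 0))))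
    [(68719214592, 4581490688), (206158430208, 68719476736), (838377406464, 261134221312)] rfl (by decide +kernel)
theorem Z_c0_t68 : CovD 1 gZ [(77882195968, 4581490688), (68719476736, 68719476736), (838377406464, 261134221312)] :=
  covD_E kZ_eq (.n 2 (.n 1 (.n 2 (.n 2 (.n 0 (.l 0) (.l 0)) (.l 0)) (.n 2 (.l 0) (.l 0))) (.n 2 (.n 2 (.l 0) (.l 0)) (.n 2 (.l 0) (.l 0)))) (.n 2 (.n 2 (.l 0) (.l 0)) (.n 1 (.l 0) (.l 0))))
    [(77882195968, 4581490688), (68719476736, 68719476736), (838377406464, 261134221312)] rfl (by decide +kernel)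
end

mutual
theorem Z_c0_t69 : CovD 1 gZ [(77882195968, 4581490688), (206158430208, 68719476736), (838377406464, 261134221312)] :=
  covD_E kZ_eq (.n 2 (.n 2 (.n 0 (.n 2 (.l 0) (.l 0)) (.n 2 (.l 0) (.l 0))) (.n 2 (.l 0) (.l 0))) (.n 2 (.n 2 (.l 0) (.l 0)) (.n 0 (.l 0) (.l 0))))
    [(77882195968, 4581490688), (206158430208, 68719476736), (838377406464, 261134221312)] rfl (by decide +kernel)
theorem Z_c0_t71 : CovD 1 gZ [(87045177344, 4581490688), (68719476736, 68719476736), (838377406464, 261134221312)] :=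
  covD_E kZ_eq (.n 2 (.n 1 (.n 2 (.n 2 (.n 0 (.l 0) (.l 0)) (.l 0)) (.n 2 (.l 0) (.l 0))) (.n 2 (.n 2 (.l 0) (.l 0)) (.n 2 (.l 0) (.l 0)))) (.n 2 (.n 2 (.n 0 (.l 0) (.l 0)) (.l 0)) (.n 1 (.l 0) (.l 0))))
    [(87045177344, 4581490688), (68719476736, 68719476736), (838377406464, 261134221312)] rfl (by decide +kernel)
end

mutual
theorem Z_c0_t72 : CovD 1 gZ [(87045177344, 4581490688), (206158430208, 68719476736), (838377406464, 261134221312)] :=
  covD_E kZ_eq (.n 2 (.n 2 (.n 0 (.n 2 (.l 0) (.l 0)) (.n 2 (.l 0) (.l 0))) (.n 2 (.l 0) (.l 0))) (.n 2 (.n 2 (.l 0) (.l 0)) (.n 0 (.l 0) (.l 0))))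
    [(87045177344, 4581490688), (206158430208, 68719476736), (838377406464, 261134221312)] rfl (by decide +kernel)
theorem T_c0 : CovD 1 gT [(73300705280, 18325962752), (137438953472, 137438953472)] :=
  covD_E kT_eq (.l 0)
    [(73300705280, 18325962752), (137438953472, 137438953472)] rfl (by decide +kernel)
end

theorem S_c0 : CovD 0 gS [(73300705280, 18325962752), (137438953472, 137438953472)] :=
  covD_E kS_eq (.n 1 (.l 0) (.l 0))
    [(73300705280, 18325962752), (137438953472, 137438953472)] rfl (by decide +kernel)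

theorem Z_c0_t7 : CovD 1 gZ [(64137723904, 9162981376), (51539607552, 17179869184), (185541853184, 130567110656)] :=
  covD_split 0 (by decide +kernel) Z_c0_t8 Z_c0_t9

theorem Z_c0_t5 : CovD 1 gZ [(64137723904, 9162981376), (34359738368, 34359738368), (185541853184, 130567110656)] :=
  covD_split 1 (by decide +kernel) Z_c0_t6 Z_c0_t7

theorem Z_c0_t10 : CovD 1 gZ [(64137723904, 9162981376), (34359738368, 34359738368), (446676074496, 130567110656)] :=
  covD_split 0 (by decide +kernel) Z_c0_t11 Z_c0_t12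

theorem Z_c0_t4 : CovD 1 gZ [(64137723904, 9162981376), (34359738368, 34359738368), (316108963840, 261134221312)] :=
  covD_split 2 (by decide +kernel) Z_c0_t5 Z_c0_t10

theorem Z_c0_t14 : CovD 1 gZ [(59556233216, 4581490688), (103079215104, 34359738368), (316108963840, 261134221312)] :=
  covD_split 2 (by decide +kernel) Z_c0_t15 Z_c0_t16

theorem Z_c0_t17 : CovD 1 gZ [(68719214592, 4581490688), (103079215104, 34359738368), (316108963840, 261134221312)] :=
  covD_split 2 (by decide +kernel) Z_c0_t18 Z_c0_t19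

theorem Z_c0_t13 : CovD 1 gZ [(64137723904, 9162981376), (103079215104, 34359738368), (316108963840, 261134221312)] :=
  covD_split 0 (by decide +kernel) Z_c0_t14 Z_c0_t17

theorem Z_c0_t3 : CovD 1 gZ [(64137723904, 9162981376), (68719476736, 68719476736), (316108963840, 261134221312)] :=
  covD_split 1 (by decide +kernel) Z_c0_t4 Z_c0_t13

theorem Z_c0_t21 : CovD 1 gZ [(59556233216, 4581490688), (206158430208, 68719476736), (316108963840, 261134221312)] :=
  covD_split 1 (by decide +kernel) Z_c0_t22 Z_c0_t23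

theorem Z_c0_t24 : CovD 1 gZ [(68719214592, 4581490688), (206158430208, 68719476736), (316108963840, 261134221312)] :=
  covD_split 1 (by decide +kernel) Z_c0_t25 Z_c0_t26

theorem Z_c0_t20 : CovD 1 gZ [(64137723904, 9162981376), (206158430208, 68719476736), (316108963840, 261134221312)] :=
  covD_split 0 (by decide +kernel) Z_c0_t21 Z_c0_t24

theorem Z_c0_t2 : CovD 1 gZ [(64137723904, 9162981376), (137438953472, 137438953472), (316108963840, 261134221312)] :=
  covD_split 1 (by decide +kernel) Z_c0_t3 Z_c0_t20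

theorem Z_c0_t31 : CovD 1 gZ [(82463686656, 9162981376), (17179869184, 17179869184), (185541853184, 130567110656)] :=
  covD_split 2 (by decide +kernel) Z_c0_t32 Z_c0_t33

theorem Z_c0_t30 : CovD 1 gZ [(82463686656, 9162981376), (34359738368, 34359738368), (185541853184, 130567110656)] :=
  covD_split 1 (by decide +kernel) Z_c0_t31 Z_c0_t34

theorem Z_c0_t37 : CovD 1 gZ [(87045177344, 4581490688), (34359738368, 34359738368), (446676074496, 130567110656)] :=
  covD_split 2 (by decide +kernel) Z_c0_t38 Z_c0_t39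

theorem Z_c0_t35 : CovD 1 gZ [(82463686656, 9162981376), (34359738368, 34359738368), (446676074496, 130567110656)] :=
  covD_split 0 (by decide +kernel) Z_c0_t36 Z_c0_t37

theorem Z_c0_t29 : CovD 1 gZ [(82463686656, 9162981376), (34359738368, 34359738368), (316108963840, 261134221312)] :=
  covD_split 2 (by decide +kernel) Z_c0_t30 Z_c0_t35

theorem Z_c0_t41 : CovD 1 gZ [(82463686656, 9162981376), (103079215104, 34359738368), (185541853184, 130567110656)] :=
  covD_split 1 (by decide +kernel) Z_c0_t42 Z_c0_t43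

theorem Z_c0_t44 : CovD 1 gZ [(82463686656, 9162981376), (103079215104, 34359738368), (446676074496, 130567110656)] :=
  covD_split 0 (by decide +kernel) Z_c0_t45 Z_c0_t46

theorem Z_c0_t40 : CovD 1 gZ [(82463686656, 9162981376), (103079215104, 34359738368), (316108963840, 261134221312)] :=
  covD_split 2 (by decide +kernel) Z_c0_t41 Z_c0_t44

theorem Z_c0_t28 : CovD 1 gZ [(82463686656, 9162981376), (68719476736, 68719476736), (316108963840, 261134221312)] :=
  covD_split 1 (by decide +kernel) Z_c0_t29 Z_c0_t40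

theorem Z_c0_t49 : CovD 1 gZ [(82463686656, 9162981376), (171798691840, 34359738368), (185541853184, 130567110656)] :=
  covD_split 1 (by decide +kernel) Z_c0_t50 Z_c0_t51

theorem Z_c0_t48 : CovD 1 gZ [(82463686656, 9162981376), (171798691840, 34359738368), (316108963840, 261134221312)] :=
  covD_split 2 (by decide +kernel) Z_c0_t49 Z_c0_t52

theorem Z_c0_t53 : CovD 1 gZ [(82463686656, 9162981376), (240518168576, 34359738368), (316108963840, 261134221312)] :=
  covD_split 2 (by decide +kernel) Z_c0_t54 Z_c0_t55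

theorem Z_c0_t47 : CovD 1 gZ [(82463686656, 9162981376), (206158430208, 68719476736), (316108963840, 261134221312)] :=
  covD_split 1 (by decide +kernel) Z_c0_t48 Z_c0_t53

theorem Z_c0_t27 : CovD 1 gZ [(82463686656, 9162981376), (137438953472, 137438953472), (316108963840, 261134221312)] :=
  covD_split 1 (by decide +kernel) Z_c0_t28 Z_c0_t47

theorem Z_c0_t1 : CovD 1 gZ [(73300705280, 18325962752), (137438953472, 137438953472), (316108963840, 261134221312)] :=
  covD_split 0 (by decide +kernel) Z_c0_t2 Z_c0_t27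

theorem Z_c0_t59 : CovD 1 gZ [(59556233216, 4581490688), (68719476736, 68719476736), (838377406464, 261134221312)] :=
  covD_split 1 (by decide +kernel) Z_c0_t60 Z_c0_t61

theorem Z_c0_t58 : CovD 1 gZ [(59556233216, 4581490688), (137438953472, 137438953472), (838377406464, 261134221312)] :=
  covD_split 1 (by decide +kernel) Z_c0_t59 Z_c0_t62

theorem Z_c0_t63 : CovD 1 gZ [(68719214592, 4581490688), (137438953472, 137438953472), (838377406464, 261134221312)] :=
  covD_split 1 (by decide +kernel) Z_c0_t64 Z_c0_t65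

theorem Z_c0_t57 : CovD 1 gZ [(64137723904, 9162981376), (137438953472, 137438953472), (838377406464, 261134221312)] :=
  covD_split 0 (by decide +kernel) Z_c0_t58 Z_c0_t63

theorem Z_c0_t67 : CovD 1 gZ [(77882195968, 4581490688), (137438953472, 137438953472), (838377406464, 261134221312)] :=
  covD_split 1 (by decide +kernel) Z_c0_t68 Z_c0_t69

theorem Z_c0_t70 : CovD 1 gZ [(87045177344, 4581490688), (137438953472, 137438953472), (838377406464, 261134221312)] :=
  covD_split 1 (by decide +kernel) Z_c0_t71 Z_c0_t72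

theorem Z_c0_t66 : CovD 1 gZ [(82463686656, 9162981376), (137438953472, 137438953472), (838377406464, 261134221312)] :=
  covD_split 0 (by decide +kernel) Z_c0_t67 Z_c0_t70

theorem Z_c0_t56 : CovD 1 gZ [(73300705280, 18325962752), (137438953472, 137438953472), (838377406464, 261134221312)] :=
  covD_split 0 (by decide +kernel) Z_c0_t57 Z_c0_t66

theorem Z_c0 : CovD 1 gZ [(73300705280, 18325962752), (137438953472, 137438953472), (577243185152, 522268442624)] :=
  covD_split 2 (by decide +kernel) Z_c0_t1 Z_c0_t56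

end Pool.Agent.helper14.NR.E12a
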