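import Pool.Agent.helper14.NR.E12a.Tab
import Pool.Agent.helper14.NR.Share

/-!
Generated: programs and compiled forms.
-/

namespace Pool.Agent.helper14.NR.E12a

open Pool.Agent.helper31.IA (Z)
open Pool.Agent.helper31.IX (Op XOps runX Cov CovD cov_split covD_split)
open Pool.Agent.helper31.IC (TD)
open Pool.Agent.helper63.RG (reloc)
open Pool.Agent.helper63.NF hiding TD
open Pool.Agent.helper14.CF (xE covD_E)
open Pool.Agent.helper14.NR (share)

def p2_2 : List Op := [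
  .pos 0,
  .inv 0,
  .mul 1 2,
  .scale ⟨2199023255552, 0, 0, 0⟩ 0,
  .exp 1,
  .neg 2,
  .exp 0,
  .mul 2 2,
  .mul 1 1,
  .mul 0 0,
  .sub 5 3,
  .add 6 4,
  .mul 1 0,
  .scale ⟨549755813888, 0, 0, 0⟩ 0,
  .mul 3 3,
  .mul 1 13,
  .scale ⟨2199023255552, 0, 0, 0⟩ 16,
  .neg 0,
  .exp 0,
  .const ⟨1099511627776, 0, 0, 0⟩,
  .add 1 0,
  .pos 0,
  .inv 0,
  .mul 3 0,
  .add 15 14,
  .scale ⟨549755813888, 0, 0, 0⟩ 0,
  .const ⟨73282879488, 0, 0, 0⟩,
  .sub 25 0,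
  .mul 27 27,
  .mul 0 28,
  .mul 2 29,
  .mul 3 2,
  .mul 4 4,
  .mul 0 32,
  .mul 1 6,
  .scale ⟨42172396096, 0, 0, 0⟩ 34,
  .scale ⟨0, 48427854528, 0, 0⟩ 7,
  .add 1 0,
  .scale ⟨66093996032, 0, 0, 0⟩ 8,
  .add 1 0,
  .scale ⟨0, 1044675583488, 0, 0⟩ 12,
  .add 1 0,
  .scale ⟨410170653504, 0, 0, 0⟩ 11,
  .add 1 0,
  .scale ⟨0, 420259439232, 0, 0⟩ 12,
  .add 1 0,
  .scale ⟨0, 331523791552, 0, 0⟩ 13,
  .add 1 0,
  .scale ⟨10714258418368, 0, 0, 0⟩ 14,
  .add 1 0,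
  .scale ⟨33047020316544, 0, 0, 0⟩ 15,
  .add 1 0,
  .const ⟨496709953792, 0, 0, 0⟩,
  .add 1 0,
  .scale ⟨0, 4887813888, 0, 0⟩ 53,
  .scale ⟨0, 691350336, 0, 0⟩ 26,
  .add 1 0,
  .scale ⟨175688843200, 0, 0, 0⟩ 29,
  .add 1 0,
  .scale ⟨0, 137678679232, 0, 0⟩ 28,
  .add 1 0,
  .scale ⟨44561730752, 0, 0, 0⟩ 28,
  .add 1 0,
  .const ⟨11108343872, 0, 0, 0⟩,
  .add 1 0,
  .scale ⟨216169536, 0, 0, 0⟩ 64,
  .scale ⟨0, 15447747392, 0, 0⟩ 38,
  .add 1 0,
  .const ⟨0, 1652812096, 0, 0⟩,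
  .add 1 0,
  .add 44 70,
  .pos 0,
  .inv 0,
  .mul 0 0,
  .sub 52 0,
  .mul 0 71,
  .sub 64 2,
  .mul 0 73,
  .scale ⟨0, 5669356830720, 0, 0⟩ 49,
  .const ⟨0, 756719550464, 0, 0⟩,
  .add 1 0,
  .sub 5 0,
  .pos 0,
  .inv 0,
  .scale ⟨31362867265536, 0, 0, 0⟩ 0,
  .add 2 0,
  .pos 0,
  .inv 0,
  .scale ⟨0, 209880174976, 0, 0⟩ 84,
  .scale ⟨1611298385536, 0, 0, 0⟩ 58,
  .add 1 0,
  .const ⟨92142591104, 0, 0, 0⟩,
  .add 1 0,
  .scale ⟨216841913024, 0, 0, 0⟩ 89,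
  .scale ⟨28832252189888, 0, 0, 0⟩ 63,
  .add 1 0,
  .const ⟨1407557260096, 0, 0, 0⟩,
  .add 1 0,
  .mul 13 0,
  .add 6 0,
  .mul 0 12,
  .scale ⟨0, 5336064, 0, 0⟩ 23,
  .const ⟨132853632, 0, 0, 0⟩,
  .add 1 0,
  .mul 26 0,
  .add 0 32,
  .mul 28 0,
  .add 0 39,
  .mul 30 0,
  .add 8 52,
  .add 1 0,
  .mul 31 0,
  .neg 0,
  .exp 0,
  .sub 0 90,
  .add 0 91,
  .mul 93 0,
  .add 0 93,
  .pos 0,
  .mul 91 3,
  .add 0 95,
  .pos 0,
  .log 0,
  .add 118 103,
  .scale ⟨44356599808, 0, 0, 0⟩ 118,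
  .scale ⟨0, 173921599488, 0, 0⟩ 91,
  .add 1 0,
  .scale ⟨0, 103794540544, 0, 0⟩ 92,
  .add 1 0,
  .scale ⟨243861553152, 0, 0, 0⟩ 96,
  .add 1 0,
  .scale ⟨164836409344, 0, 0, 0⟩ 95,
  .add 1 0,
  .const ⟨65757708288, 0, 0, 0⟩,
  .add 1 0,
  .scale ⟨879662989312, 0, 0, 0⟩ 130,
  .add 0 129,
  .pos 0,
  .inv 0,
  .mul 14 3,
  .scale ⟨2199023255552, 0, 0, 0⟩ 0,
  .mul 0 2,
  .mul 0 137,
  .sub 116 0,
  .pos 0,
  .log 0,
  .mul 25 2,
  .add 0 119,
  .pos 0,
  .log 0,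
  .sub 116 70,
  .add 0 117,
  .add 35 2,
  .sub 0 6,
  .mul 0 144,
  .add 142 0,
  .exp 0,
  .sub 0 128,
  .sub 41 11,
  .sub 0 9,
  .scale ⟨2199023255552, 0, 0, 0⟩ 34,
  .add 1 0,
  .mul 0 152,
  .exp 0,
  .sub 0 135,
  .add 83 141,
  .mul 8 0,
  .mul 16 16,
  .scale ⟨2199023255552, 0, 0, 0⟩ 0,
  .sub 2 0,
  .mul 146 146,
  .scale ⟨549755813888, 0, 0, 0⟩ 0,
  .sub 2 0,
  .mul 149 8,
  .const ⟨2199023255552, 0, 0, 0⟩,
  .add 17 0,
  .mul 2 0,
  .add 4 0,
  .pos 26,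
  .inv 26,
  .mul 1 0,
  .mul 0 1,
  .add 0 152,
  .pos 0,
  .log 0,
  .scale ⟨549755813888, 0, 0, 0⟩ 0,
  .exp 0,
  .sub 0 156,
  .mul 34 0,
  .add 36 0,
  .mul 36 170,
  .pos 0,
  .log 0,
  .add 0 6,
  .mul 0 180,
  .pos 65,
  .inv 65,
  .mul 175 114,
  .mul 1 0,
  .mul 0 8,
  .add 0 167,
  .pos 0,
  .mul 180 117,
  .mul 0 1,
  .scale ⟨0, 115322912768, 0, 0⟩ 190,
  .scale ⟨0, 1118470340608, 0, 0⟩ 163,
  .add 1 0,
  .scale ⟨2155810914304, 0, 0, 0⟩ 164,
  .add 1 0,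
  .scale ⟨821178793984, 0, 0, 0⟩ 168,
  .add 1 0,
  .scale ⟨7825673420800, 0, 0, 0⟩ 167,
  .add 1 0,
  .const ⟨702342234112, 0, 0, 0⟩,
  .add 1 0,
  .scale ⟨3298534883328, 0, 0, 0⟩ 197,
  .exp 0,
  .pos 2,
  .scale ⟨2199023255552, 0, 0, 0⟩ 178,
  .mul 0 17,
  .mul 0 2,
  .inv 18,
  .mul 21 0,
  .inv 7,
  .mul 6 0,
  .mul 2 0,
  .mul 5 0,
  .lt 0 1099510579200,
  .mul 196 196,
  .const ⟨13370233192448, 0, 0, 0⟩,
  .add 1 0,
  .pos 0,
  .inv 0,
  .mul 37 214,
  .mul 0 0,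
  .sub 0 5,
  .mul 0 3,
  .lt 0 1099510579200,
  .scale ⟨1099511627776, 0, 0, 0⟩ 91,
  .pos 0,
  .inv 0,
  .scale ⟨152633344, 0, 0, 0⟩ 148,
  .const ⟨0, 1604780032, 0, 0⟩,
  .add 1 0,
  .mul 151 0,
  .scale ⟨48103424, 0, 0, 0⟩ 226,
  .scale ⟨555419107328, 0, 0, 0⟩ 200,
  .add 1 0,
  .const ⟨42810802176, 0, 0, 0⟩,
  .add 1 0,
  .add 5 0,
  .mul 158 0,
  .scale ⟨0, 4716036096, 0, 0⟩ 233,
  .scale ⟨40837578752, 0, 0, 0⟩ 206,
  .add 1 0,
  .scale ⟨376434786304, 0, 0, 0⟩ 209,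
  .add 1 0,
  .const ⟨1093434933248, 0, 0, 0⟩,
  .add 1 0,
  .add 7 0,
  .mul 110 57,
  .mul 0 20,
  .scale ⟨549755813888, 0, 0, 0⟩ 0,
  .add 219 65,
  .pos 0,
  .inv 0,
  .mul 0 0,
  .sub 227 0,
  .mul 0 246,
  .sub 239 2,
  .mul 0 248,
  .scale ⟨0, 5669356830720, 0, 0⟩ 224,
  .const ⟨0, 756719550464, 0, 0⟩,
  .add 1 0,
  .sub 5 0,
  .pos 0,
  .inv 0,
  .scale ⟨31362867265536, 0, 0, 0⟩ 0,
  .add 2 0,
  .pos 0,
  .inv 0,
  .scale ⟨0, 209880174976, 0, 0⟩ 259,
  .scale ⟨1611298385536, 0, 0, 0⟩ 233,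
  .add 1 0,
  .const ⟨92142591104, 0, 0, 0⟩,
  .add 1 0,
  .scale ⟨216841913024, 0, 0, 0⟩ 264,
  .scale ⟨28832252189888, 0, 0, 0⟩ 238,
  .add 1 0,
  .const ⟨1407557260096, 0, 0, 0⟩,
  .add 1 0,
  .mul 13 0,
  .add 6 0,
  .mul 0 12,
  .scale ⟨0, 5336064, 0, 0⟩ 23,
  .const ⟨132853632, 0, 0, 0⟩,
  .add 1 0,
  .mul 26 0,
  .add 0 207,
  .mul 28 0,
  .add 0 214,
  .mul 30 0,
  .add 8 227,
  .add 1 0,
  .mul 31 0,
  .neg 0,
  .exp 0,
  .sub 0 265,
  .add 0 266,
  .mul 268 0,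
  .add 0 268,
  .pos 0,
  .mul 266 3,
  .add 0 270,
  .pos 0,
  .log 0,
  .scale ⟨659814350848, 0, 0, 0⟩ 113,
  .add 0 292,
  .pos 0,
  .inv 0,
  .scale ⟨24650448896, 0, 0, 0⟩ 295,
  .scale ⟨0, 138267852800, 0, 0⟩ 268,
  .add 1 0,
  .scale ⟨0, 28878569472, 0, 0⟩ 269,
  .add 1 0,
  .scale ⟨256626589696, 0, 0, 0⟩ 273,
  .add 1 0,
  .scale ⟨0, 67853352960, 0, 0⟩ 272,
  .add 1 0,
  .const ⟨56332386304, 0, 0, 0⟩,
  .add 1 0,
  .scale ⟨1099511627776, 0, 0, 0⟩ 0,
  .mul 0 85,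
  .mul 0 118,
  .mul 178 14,
  .mul 1 0,
  .add 203 194,
  .sub 0 20,
  .sub 0 130,
  .exp 0,
  .const ⟨0, 0, 0, 0⟩,
  .mul 75 1,
  .mul 0 29,
  .mul 0 7,
  .rball 3 0,
  .sub 300 79,
  .mul 323 0,
  .sub 302 7,
  .scale ⟨1099511627776, 0, 0, 0⟩ 0,
  .mul 0 80,
  .mul 84 0,
  .add 4 0,
  .add 0 7,
  .lt 0 1099510579200]

set_option maxRecDepth 1000000 in
noncomputable def c2_2 {α : Type} (cst : Z → α) (add sub mul : α → α → α) (scale : Z → α → α)
    (neg inv exp log : α → α) (ok : α → Bool) (isPos : Nat → α → Bool) (isLt : α → Nat → Bool)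
    (ball : Nat → α → α) (rball : α → α → α) : List α → Bool
  | [x0, x1, x2, x3] =>
  isPos 3 x0 && (
  let v0 := inv x0; ok v0 && (
  let v1 := mul x0 x1; ok v1 && (
  let v2 := scale ⟨2199023255552, 0, 0, 0⟩ v1; ok v2 && (
  let v3 := exp v1; ok v3 && (
  let v4 := neg v1; ok v4 && (
  let v5 := exp v4; ok v5 && (
  let v6 := mul v3 v3; ok v6 && (
  let v7 := mul v5 v5; ok v7 && (
  let v8 := mul v7 v7; ok v8 && (
  let v9 := sub v3 v5; ok v9 && (
  let v10 := add v3 v5; ok v10 && (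
  let v11 := mul v9 v10; ok v11 && (
  let v12 := scale ⟨549755813888, 0, 0, 0⟩ v11; ok v12 && (
  let v13 := mul v9 v9; ok v13 && (
  let v14 := mul v12 v0; ok v14 && (
  let v15 := scale ⟨2199023255552, 0, 0, 0⟩ x1; ok v15 && (
  let v16 := neg v15; ok v16 && (
  let v17 := exp v16; ok v17 && (
  let v18 := cst ⟨1099511627776, 0, 0, 0⟩; ok v18 && (
  let v19 := add v17 v18; ok v19 && (
  isPos 3 v19 && (
  let v20 := inv v19; ok v20 && (
  let v21 := mul v17 v20; ok v21 && (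
  let v22 := add v6 v7; ok v22 && (
  let v23 := scale ⟨549755813888, 0, 0, 0⟩ v22; ok v23 && (
  let v24 := cst ⟨73282879488, 0, 0, 0⟩; ok v24 && (
  let v25 := sub x0 v24; ok v25 && (
  let v26 := mul x1 x1; ok v26 && (
  let v27 := mul v26 x1; ok v27 && (
  let v28 := mul v25 x1; ok v28 && (
  let v29 := mul v25 v26; ok v29 && (
  let v30 := mul v25 v25; ok v30 && (
  let v31 := mul v30 x1; ok v31 && (
  let v32 := mul v30 v25; ok v32 && (
  let v33 := scale ⟨42172396096, 0, 0, 0⟩ x1; ok v33 && (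
  let v34 := scale ⟨0, 48427854528, 0, 0⟩ v26; ok v34 && (
  let v35 := add v33 v34; ok v35 && (
  let v36 := scale ⟨66093996032, 0, 0, 0⟩ v27; ok v36 && (
  let v37 := add v35 v36; ok v37 && (
  let v38 := scale ⟨0, 1044675583488, 0, 0⟩ v25; ok v38 && (
  let v39 := add v37 v38; ok v39 && (
  let v40 := scale ⟨410170653504, 0, 0, 0⟩ v28; ok v40 && (
  let v41 := add v39 v40; ok v41 && (
  let v42 := scale ⟨0, 420259439232, 0, 0⟩ v29; ok v42 && (
  let v43 := add v41 v42; ok v43 && (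
  let v44 := scale ⟨0, 331523791552, 0, 0⟩ v30; ok v44 && (
  let v45 := add v43 v44; ok v45 && (
  let v46 := scale ⟨10714258418368, 0, 0, 0⟩ v31; ok v46 && (
  let v47 := add v45 v46; ok v47 && (
  let v48 := scale ⟨33047020316544, 0, 0, 0⟩ v32; ok v48 && (
  let v49 := add v47 v48; ok v49 && (
  let v50 := cst ⟨496709953792, 0, 0, 0⟩; ok v50 && (
  let v51 := add v49 v50; ok v51 && (
  let v52 := scale ⟨0, 4887813888, 0, 0⟩ x1; ok v52 && (
  let v53 := scale ⟨0, 691350336, 0, 0⟩ v26; ok v53 && (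
  let v54 := add v52 v53; ok v54 && (
  let v55 := scale ⟨175688843200, 0, 0, 0⟩ v25; ok v55 && (
  let v56 := add v54 v55; ok v56 && (
  let v57 := scale ⟨0, 137678679232, 0, 0⟩ v28; ok v57 && (
  let v58 := add v56 v57; ok v58 && (
  let v59 := scale ⟨44561730752, 0, 0, 0⟩ v30; ok v59 && (
  let v60 := add v58 v59; ok v60 && (
  let v61 := cst ⟨11108343872, 0, 0, 0⟩; ok v61 && (
  let v62 := add v60 v61; ok v62 && (
  let v63 := scale ⟨216169536, 0, 0, 0⟩ x1; ok v63 && (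
  let v64 := scale ⟨0, 15447747392, 0, 0⟩ v25; ok v64 && (
  let v65 := add v63 v64; ok v65 && (
  let v66 := cst ⟨0, 1652812096, 0, 0⟩; ok v66 && (
  let v67 := add v65 v66; ok v67 && (
  let v68 := add v23 x2; ok v68 && (
  isPos 3 v68 && (
  let v69 := inv v68; ok v69 && (
  let v70 := mul v69 v69; ok v70 && (
  let v71 := sub v18 v70; ok v71 && (
  let v72 := mul v71 v0; ok v72 && (
  let v73 := sub v8 v70; ok v73 && (
  let v74 := mul v73 v0; ok v74 && (
  let v75 := scale ⟨0, 5669356830720, 0, 0⟩ v25; ok v75 && (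
  let v76 := cst ⟨0, 756719550464, 0, 0⟩; ok v76 && (
  let v77 := add v75 v76; ok v77 && (
  let v78 := sub v72 v77; ok v78 && (
  isPos 3 v78 && (
  let v79 := inv v78; ok v79 && (
  let v80 := scale ⟨31362867265536, 0, 0, 0⟩ v79; ok v80 && (
  let v81 := add v78 v80; ok v81 && (
  isPos 3 v81 && (
  let v82 := inv v81; ok v82 && (
  let v83 := scale ⟨0, 209880174976, 0, 0⟩ x1; ok v83 && (
  let v84 := scale ⟨1611298385536, 0, 0, 0⟩ v25; ok v84 && (
  let v85 := add v83 v84; ok v85 && (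
  let v86 := cst ⟨92142591104, 0, 0, 0⟩; ok v86 && (
  let v87 := add v85 v86; ok v87 && (
  let v88 := scale ⟨216841913024, 0, 0, 0⟩ x1; ok v88 && (
  let v89 := scale ⟨28832252189888, 0, 0, 0⟩ v25; ok v89 && (
  let v90 := add v88 v89; ok v90 && (
  let v91 := cst ⟨1407557260096, 0, 0, 0⟩; ok v91 && (
  let v92 := add v90 v91; ok v92 && (
  let v93 := mul v79 v92; ok v93 && (
  let v94 := add v87 v93; ok v94 && (
  let v95 := mul v94 v82; ok v95 && (
  let v96 := scale ⟨0, 5336064, 0, 0⟩ v72; ok v96 && (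
  let v97 := cst ⟨132853632, 0, 0, 0⟩; ok v97 && (
  let v98 := add v96 v97; ok v98 && (
  let v99 := mul v72 v98; ok v99 && (
  let v100 := add v99 v67; ok v100 && (
  let v101 := mul v72 v100; ok v101 && (
  let v102 := add v101 v62; ok v102 && (
  let v103 := mul v72 v102; ok v103 && (
  let v104 := add v95 v51; ok v104 && (
  let v105 := add v103 v104; ok v105 && (
  let v106 := mul v74 v105; ok v106 && (
  let v107 := neg v106; ok v107 && (
  let v108 := exp v107; ok v108 && (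
  let v109 := sub v108 v18; ok v109 && (
  let v110 := add v109 v18; ok v110 && (
  let v111 := mul v17 v110; ok v111 && (
  let v112 := add v111 v18; ok v112 && (
  isPos 3 v112 && (
  let v113 := mul v21 v109; ok v113 && (
  let v114 := add v113 v18; ok v114 && (
  isPos 3 v114 && (
  let v115 := log v114; ok v115 && (
  let v116 := add x2 v12; ok v116 && (
  let v117 := scale ⟨44356599808, 0, 0, 0⟩ x1; ok v117 && (
  let v118 := scale ⟨0, 173921599488, 0, 0⟩ v26; ok v118 && (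
  let v119 := add v117 v118; ok v119 && (
  let v120 := scale ⟨0, 103794540544, 0, 0⟩ v27; ok v120 && (
  let v121 := add v119 v120; ok v121 && (
  let v122 := scale ⟨243861553152, 0, 0, 0⟩ v25; ok v122 && (
  let v123 := add v121 v122; ok v123 && (
  let v124 := scale ⟨164836409344, 0, 0, 0⟩ v28; ok v124 && (
  let v125 := add v123 v124; ok v125 && (
  let v126 := cst ⟨65757708288, 0, 0, 0⟩; ok v126 && (
  let v127 := add v125 v126; ok v127 && (
  let v128 := scale ⟨879662989312, 0, 0, 0⟩ x2; ok v128 && (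
  let v129 := add v128 x0; ok v129 && (
  isPos 3 v129 && (
  let v130 := inv v129; ok v130 && (
  let v131 := mul v116 v127; ok v131 && (
  let v132 := scale ⟨2199023255552, 0, 0, 0⟩ v131; ok v132 && (
  let v133 := mul v132 v130; ok v133 && (
  let v134 := mul v133 x3; ok v134 && (
  let v135 := sub v18 v134; ok v135 && (
  isPos 3 v135 && (
  let v136 := log v135; ok v136 && (
  let v137 := mul v111 v134; ok v137 && (
  let v138 := add v137 v18; ok v138 && (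
  isPos 3 v138 && (
  let v139 := log v138; ok v139 && (
  let v140 := sub v23 v69; ok v140 && (
  let v141 := add v140 v23; ok v141 && (
  let v142 := add v106 v139; ok v142 && (
  let v143 := sub v142 v136; ok v143 && (
  let v144 := mul v143 x0; ok v144 && (
  let v145 := add v2 v144; ok v145 && (
  let v146 := exp v145; ok v146 && (
  let v147 := sub v146 v18; ok v147 && (
  let v148 := sub v106 v136; ok v148 && (
  let v149 := sub v148 v139; ok v149 && (
  let v150 := scale ⟨2199023255552, 0, 0, 0⟩ v115; ok v150 && (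
  let v151 := add v149 v150; ok v151 && (
  let v152 := mul v151 x0; ok v152 && (
  let v153 := exp v152; ok v153 && (
  let v154 := sub v153 v18; ok v154 && (
  let v155 := add v71 v13; ok v155 && (
  let v156 := mul v147 v155; ok v156 && (
  let v157 := mul v140 v140; ok v157 && (
  let v158 := scale ⟨2199023255552, 0, 0, 0⟩ v157; ok v158 && (
  let v159 := sub v156 v158; ok v159 && (
  let v160 := mul v13 v13; ok v160 && (
  let v161 := scale ⟨549755813888, 0, 0, 0⟩ v160; ok v161 && (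
  let v162 := sub v159 v161; ok v162 && (
  let v163 := mul v13 v154; ok v163 && (
  let v164 := cst ⟨2199023255552, 0, 0, 0⟩; ok v164 && (
  let v165 := add v147 v164; ok v165 && (
  let v166 := mul v163 v165; ok v166 && (
  let v167 := add v162 v166; ok v167 && (
  isPos 3 v141 && (
  let v168 := inv v141; ok v168 && (
  let v169 := mul v167 v168; ok v169 && (
  let v170 := mul v169 v168; ok v170 && (
  let v171 := add v170 v18; ok v171 && (
  isPos 3 v171 && (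
  let v172 := log v171; ok v172 && (
  let v173 := scale ⟨549755813888, 0, 0, 0⟩ v172; ok v173 && (
  let v174 := exp v173; ok v174 && (
  let v175 := sub v174 v18; ok v175 && (
  let v176 := mul v141 v175; ok v176 && (
  let v177 := add v140 v176; ok v177 && (
  let v178 := mul v141 v7; ok v178 && (
  isPos 3 v178 && (
  let v179 := log v178; ok v179 && (
  let v180 := add v179 v173; ok v180 && (
  let v181 := mul v180 v0; ok v181 && (
  isPos 3 v116 && (
  let v182 := inv v116; ok v182 && (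
  let v183 := mul v7 v68; ok v183 && (
  let v184 := mul v182 v183; ok v184 && (
  let v185 := mul v184 v176; ok v185 && (
  let v186 := add v185 v18; ok v186 && (
  isPos 3 v186 && (
  let v187 := mul v6 v69; ok v187 && (
  let v188 := mul v187 v186; ok v188 && (
  let v189 := scale ⟨0, 115322912768, 0, 0⟩ x1; ok v189 && (
  let v190 := scale ⟨0, 1118470340608, 0, 0⟩ v26; ok v190 && (
  let v191 := add v189 v190; ok v191 && (
  let v192 := scale ⟨2155810914304, 0, 0, 0⟩ v27; ok v192 && (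
  let v193 := add v191 v192; ok v193 && (
  let v194 := scale ⟨821178793984, 0, 0, 0⟩ v25; ok v194 && (
  let v195 := add v193 v194; ok v195 && (
  let v196 := scale ⟨7825673420800, 0, 0, 0⟩ v28; ok v196 && (
  let v197 := add v195 v196; ok v197 && (
  let v198 := cst ⟨702342234112, 0, 0, 0⟩; ok v198 && (
  let v199 := add v197 v198; ok v199 && (
  let v200 := scale ⟨3298534883328, 0, 0, 0⟩ v2; ok v200 && (
  let v201 := exp v200; ok v201 && (
  isPos 3 v199 && (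
  let v202 := scale ⟨2199023255552, 0, 0, 0⟩ v23; ok v202 && (
  let v203 := mul v202 v185; ok v203 && (
  let v204 := mul v203 v201; ok v204 && (
  let v205 := inv v186; ok v205 && (
  let v206 := mul v184 v205; ok v206 && (
  let v207 := inv v199; ok v207 && (
  let v208 := mul v201 v207; ok v208 && (
  let v209 := mul v206 v208; ok v209 && (
  let v210 := mul v204 v209; ok v210 && (
  isLt v210 1099510579200 && (
  let v211 := mul v14 v14; ok v211 && (
  let v212 := cst ⟨13370233192448, 0, 0, 0⟩; ok v212 && (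
  let v213 := add v211 v212; ok v213 && (
  isPos 3 v213 && (
  let v214 := inv v213; ok v214 && (
  let v215 := mul v177 v0; ok v215 && (
  let v216 := mul v215 v215; ok v216 && (
  let v217 := sub v216 v211; ok v217 && (
  let v218 := mul v217 v214; ok v218 && (
  isLt v218 1099510579200 && (
  let v219 := scale ⟨1099511627776, 0, 0, 0⟩ v127; ok v219 && (
  isPos 3 v219 && (
  let v220 := inv v219; ok v220 && (
  let v221 := scale ⟨152633344, 0, 0, 0⟩ v72; ok v221 && (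
  let v222 := cst ⟨0, 1604780032, 0, 0⟩; ok v222 && (
  let v223 := add v221 v222; ok v223 && (
  let v224 := mul v72 v223; ok v224 && (
  let v225 := scale ⟨48103424, 0, 0, 0⟩ x1; ok v225 && (
  let v226 := scale ⟨555419107328, 0, 0, 0⟩ v25; ok v226 && (
  let v227 := add v225 v226; ok v227 && (
  let v228 := cst ⟨42810802176, 0, 0, 0⟩; ok v228 && (
  let v229 := add v227 v228; ok v229 && (
  let v230 := add v224 v229; ok v230 && (
  let v231 := mul v72 v230; ok v231 && (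
  let v232 := scale ⟨0, 4716036096, 0, 0⟩ x1; ok v232 && (
  let v233 := scale ⟨40837578752, 0, 0, 0⟩ v26; ok v233 && (
  let v234 := add v232 v233; ok v234 && (
  let v235 := scale ⟨376434786304, 0, 0, 0⟩ v25; ok v235 && (
  let v236 := add v234 v235; ok v236 && (
  let v237 := cst ⟨1093434933248, 0, 0, 0⟩; ok v237 && (
  let v238 := add v236 v237; ok v238 && (
  let v239 := add v231 v238; ok v239 && (
  let v240 := mul v129 v182; ok v240 && (
  let v241 := mul v240 v220; ok v241 && (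
  let v242 := scale ⟨549755813888, 0, 0, 0⟩ v241; ok v242 && (
  let v243 := add v23 v177; ok v243 && (
  isPos 3 v243 && (
  let v244 := inv v243; ok v244 && (
  let v245 := mul v244 v244; ok v245 && (
  let v246 := sub v18 v245; ok v246 && (
  let v247 := mul v246 v0; ok v247 && (
  let v248 := sub v8 v245; ok v248 && (
  let v249 := mul v248 v0; ok v249 && (
  let v250 := scale ⟨0, 5669356830720, 0, 0⟩ v25; ok v250 && (
  let v251 := cst ⟨0, 756719550464, 0, 0⟩; ok v251 && (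
  let v252 := add v250 v251; ok v252 && (
  let v253 := sub v247 v252; ok v253 && (
  isPos 3 v253 && (
  let v254 := inv v253; ok v254 && (
  let v255 := scale ⟨31362867265536, 0, 0, 0⟩ v254; ok v255 && (
  let v256 := add v253 v255; ok v256 && (
  isPos 3 v256 && (
  let v257 := inv v256; ok v257 && (
  let v258 := scale ⟨0, 209880174976, 0, 0⟩ x1; ok v258 && (
  let v259 := scale ⟨1611298385536, 0, 0, 0⟩ v25; ok v259 && (
  let v260 := add v258 v259; ok v260 && (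
  let v261 := cst ⟨92142591104, 0, 0, 0⟩; ok v261 && (
  let v262 := add v260 v261; ok v262 && (
  let v263 := scale ⟨216841913024, 0, 0, 0⟩ x1; ok v263 && (
  let v264 := scale ⟨28832252189888, 0, 0, 0⟩ v25; ok v264 && (
  let v265 := add v263 v264; ok v265 && (
  let v266 := cst ⟨1407557260096, 0, 0, 0⟩; ok v266 && (
  let v267 := add v265 v266; ok v267 && (
  let v268 := mul v254 v267; ok v268 && (
  let v269 := add v262 v268; ok v269 && (
  let v270 := mul v269 v257; ok v270 && (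
  let v271 := scale ⟨0, 5336064, 0, 0⟩ v247; ok v271 && (
  let v272 := cst ⟨132853632, 0, 0, 0⟩; ok v272 && (
  let v273 := add v271 v272; ok v273 && (
  let v274 := mul v247 v273; ok v274 && (
  let v275 := add v274 v67; ok v275 && (
  let v276 := mul v247 v275; ok v276 && (
  let v277 := add v276 v62; ok v277 && (
  let v278 := mul v247 v277; ok v278 && (
  let v279 := add v270 v51; ok v279 && (
  let v280 := add v278 v279; ok v280 && (
  let v281 := mul v249 v280; ok v281 && (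
  let v282 := neg v281; ok v282 && (
  let v283 := exp v282; ok v283 && (
  let v284 := sub v283 v18; ok v284 && (
  let v285 := add v284 v18; ok v285 && (
  let v286 := mul v17 v285; ok v286 && (
  let v287 := add v286 v18; ok v287 && (
  isPos 3 v287 && (
  let v288 := mul v21 v284; ok v288 && (
  let v289 := add v288 v18; ok v289 && (
  isPos 3 v289 && (
  let v290 := log v289; ok v290 && (
  let v291 := scale ⟨659814350848, 0, 0, 0⟩ v177; ok v291 && (
  let v292 := add v291 x0; ok v292 && (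
  isPos 3 v292 && (
  let v293 := inv v292; ok v293 && (
  let v294 := scale ⟨24650448896, 0, 0, 0⟩ x1; ok v294 && (
  let v295 := scale ⟨0, 138267852800, 0, 0⟩ v26; ok v295 && (
  let v296 := add v294 v295; ok v296 && (
  let v297 := scale ⟨0, 28878569472, 0, 0⟩ v27; ok v297 && (
  let v298 := add v296 v297; ok v298 && (
  let v299 := scale ⟨256626589696, 0, 0, 0⟩ v25; ok v299 && (
  let v300 := add v298 v299; ok v300 && (
  let v301 := scale ⟨0, 67853352960, 0, 0⟩ v28; ok v301 && (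
  let v302 := add v300 v301; ok v302 && (
  let v303 := cst ⟨56332386304, 0, 0, 0⟩; ok v303 && (
  let v304 := add v302 v303; ok v304 && (
  let v305 := scale ⟨1099511627776, 0, 0, 0⟩ v304; ok v305 && (
  let v306 := mul v305 v220; ok v306 && (
  let v307 := mul v306 v188; ok v307 && (
  let v308 := mul v129 v293; ok v308 && (
  let v309 := mul v307 v308; ok v309 && (
  let v310 := add v106 v115; ok v310 && (
  let v311 := sub v310 v290; ok v311 && (
  let v312 := sub v311 v181; ok v312 && (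
  let v313 := exp v312; ok v313 && (
  let v314 := cst ⟨0, 0, 0, 0⟩; ok v314 && (
  let v315 := mul v239 v313; ok v315 && (
  let v316 := mul v315 v286; ok v316 && (
  let v317 := mul v316 v309; ok v317 && (
  let v318 := rball v314 v317; ok v318 && (
  let v319 := sub v18 v239; ok v319 && (
  let v320 := mul x3 v319; ok v320 && (
  let v321 := sub v18 v313; ok v321 && (
  let v322 := scale ⟨1099511627776, 0, 0, 0⟩ v321; ok v322 && (
  let v323 := mul v322 v242; ok v323 && (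
  let v324 := mul v239 v323; ok v324 && (
  let v325 := add v320 v324; ok v325 && (
  let v326 := add v325 v318; ok v326 && (
  isLt v326 1099510579200 && (
  true))))))))))))))))))))))))))))))))))))))))))))))))))))))))))))))))))))))))))))))))))))))))))))))))))))))))))))))))))))))))))))))))))))))))))))))))))))))))))))))))))))))))))))))))))))))))))))))))))))))))))))))))))))))))))))))))))))))))))))))))))))))))))))))))))))))))))))))))))))))))))))))))))))))))))))))))))))))))))))))))))))))))))))))))))))))))))))))))))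
  | _ => false

set_option maxRecDepth 1000000 in
theorem c2_2_eq (X : XOps) (m : List X.O.α)
    (h : c2_2 X.O.cst X.O.add X.O.sub X.O.mul X.O.scale X.O.neg X.O.inv X.O.exp X.O.log X.O.ok
      X.O.isPos X.O.isLt X.ball X.rball m = true) :
    runX X 3 p2_2 m = true := by
  match m, h with
  | [x0, x1, x2, x3], h => exact h

def p1_A2 : List Op := [
  .mul 0 1,
  .scale ⟨2199023255552, 0, 0, 0⟩ 0,
  .exp 1,
  .neg 2,
  .exp 0,
  .mul 0 0,
  .sub 3 1,
  .add 4 2,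
  .mul 1 0,
  .scale ⟨549755813888, 0, 0, 0⟩ 0,
  .inv 10,
  .mul 1 0,
  .const ⟨1099511627776, 0, 0, 0⟩,
  .const ⟨73282879488, 0, 0, 0⟩,
  .sub 14 0,
  .mul 16 16,
  .mul 0 17,
  .mul 2 18,
  .scale ⟨1597613015040, 0, 0, 0⟩ 19,
  .scale ⟨0, 1515899584512, 0, 0⟩ 3,
  .add 1 0,
  .scale ⟨0, 3777009811456, 0, 0⟩ 4,
  .add 1 0,
  .scale ⟨0, 6598169460736, 0, 0⟩ 8,
  .add 1 0,
  .scale ⟨717785792512, 0, 0, 0⟩ 7,
  .add 1 0,
  .const ⟨2309189599232, 0, 0, 0⟩,
  .add 1 0,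
  .scale ⟨4398046511104, 0, 0, 0⟩ 27,
  .neg 0,
  .exp 0,
  .mul 26 26,
  .mul 23 4,
  .add 0 21,
  .mul 3 0,
  .scale ⟨1099511627776, 0, 0, 0⟩ 3,
  .add 0 24,
  .mul 32 0,
  .scale ⟨2199023255552, 0, 0, 0⟩ 0,
  .mul 11 8,
  .sub 1 0,
  .mul 32 32,
  .mul 0 1,
  .add 8 31,
  .mul 45 47,
  .scale ⟨0, 0, 1099511627776, 0⟩ 0,
  .mul 0 2,
  .add 4 0,
  .mul 2 7,
  .add 5 0,
  .inv 0,
  .mul 3 0]

set_option maxRecDepth 1000000 in
noncomputable def c_A2_0 {α : Type} (cst : Z → α) (add sub mul : α → α → α) (scale : Z → α → α)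
    (neg inv exp log : α → α) (ok : α → Bool) (isPos : Nat → α → Bool) (isLt : α → Nat → Bool)
    (ball : Nat → α → α) (rball : α → α → α) : List α → Bool
  | [x0, x1, x2, x3] =>
  let v0 := mul x0 x1; ok v0 && (
  let v1 := scale ⟨2199023255552, 0, 0, 0⟩ v0; ok v1 && (
  let v2 := exp v0; ok v2 && (
  let v3 := neg v0; ok v3 && (
  let v4 := exp v3; ok v4 && (
  let v5 := mul v4 v4; ok v5 && (
  let v6 := sub v2 v4; ok v6 && (
  let v7 := add v2 v4; ok v7 && (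
  let v8 := mul v6 v7; ok v8 && (
  let v9 := scale ⟨549755813888, 0, 0, 0⟩ v8; ok v9 && (
  let v10 := inv x0; ok v10 && (
  let v11 := mul v9 v10; ok v11 && (
  let v12 := cst ⟨1099511627776, 0, 0, 0⟩; ok v12 && (
  let v13 := cst ⟨73282879488, 0, 0, 0⟩; ok v13 && (
  let v14 := sub x0 v13; ok v14 && (
  let v15 := mul x1 x1; ok v15 && (
  let v16 := mul v15 x1; ok v16 && (
  let v17 := mul v14 x1; ok v17 && (
  let v18 := scale ⟨1597613015040, 0, 0, 0⟩ x1; ok v18 && (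
  let v19 := scale ⟨0, 1515899584512, 0, 0⟩ v15; ok v19 && (
  let v20 := add v18 v19; ok v20 && (
  let v21 := scale ⟨0, 3777009811456, 0, 0⟩ v16; ok v21 && (
  let v22 := add v20 v21; ok v22 && (
  let v23 := scale ⟨0, 6598169460736, 0, 0⟩ v14; ok v23 && (
  let v24 := add v22 v23; ok v24 && (
  let v25 := scale ⟨717785792512, 0, 0, 0⟩ v17; ok v25 && (
  let v26 := add v24 v25; ok v26 && (
  let v27 := cst ⟨2309189599232, 0, 0, 0⟩; ok v27 && (
  let v28 := add v26 v27; ok v28 && (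
  let v29 := scale ⟨4398046511104, 0, 0, 0⟩ v1; ok v29 && (
  let v30 := neg v29; ok v30 && (
  let v31 := exp v30; ok v31 && (
  let v32 := mul v5 v5; ok v32 && (
  let v33 := mul v9 v28; ok v33 && (
  let v34 := add v33 v12; ok v34 && (
  let v35 := mul v31 v34; ok v35 && (
  let v36 := scale ⟨1099511627776, 0, 0, 0⟩ v32; ok v36 && (
  let v37 := add v36 v12; ok v37 && (
  let v38 := mul v5 v37; ok v38 && (
  let v39 := scale ⟨2199023255552, 0, 0, 0⟩ v38; ok v39 && (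
  let v40 := mul v28 v31; ok v40 && (
  let v41 := sub v39 v40; ok v41 && (
  let v42 := mul v9 v9; ok v42 && (
  let v43 := mul v42 v41; ok v43 && (
  let v44 := add v35 v12; ok v44 && (
  let v45 := mul x0 x2; ok v45 && (
  let v46 := scale ⟨0, 0, 1099511627776, 0⟩ v45; ok v46 && (
  let v47 := mul v46 v44; ok v47 && (
  let v48 := add v43 v47; ok v48 && (
  let v49 := mul v46 v41; ok v49 && (
  let v50 := add v44 v49; ok v50 && (
  let v51 := inv v50; ok v51 && (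
  let v52 := mul v48 v51; ok v52 && (
  c2_2 cst add sub mul scale neg inv exp log ok isPos isLt ball rball [x0, x1, v52, x3])))))))))))))))))))))))))))))))))))))))))))))))))))))
  | _ => false

set_option maxRecDepth 1000000 in
theorem c_A2_0_eq (X : XOps) (m : List X.O.α)
    (h : c_A2_0 X.O.cst X.O.add X.O.sub X.O.mul X.O.scale X.O.neg X.O.inv X.O.exp X.O.log X.O.ok
      X.O.isPos X.O.isLt X.ball X.rball m = true) :
    runX X 3 (p1_A2 ++ reloc [53, 54, 0, 56] 57 0 p2_2) m = true := by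
  match m, h with
  | [x0, x1, x2, x3], h => exact share (c2_2_eq X) [x0, x1, x2, x3] (Nat.le_of_ble_eq_true rfl) h

def p_A2_1 : List Op := [
  .mul 0 1,
  .scale ⟨2199023255552, 0, 0, 0⟩ 0,
  .exp 1,
  .neg 2,
  .exp 0,
  .mul 0 0,
  .sub 3 1,
  .add 4 2,
  .mul 1 0,
  .scale ⟨549755813888, 0, 0, 0⟩ 0,
  .inv 10,
  .mul 1 0,
  .const ⟨1099511627776, 0, 0, 0⟩,
  .const ⟨73282879488, 0, 0, 0⟩,
  .sub 14 0,
  .mul 16 16,
  .mul 0 17,
  .mul 2 18,
  .scale ⟨1597613015040, 0, 0, 0⟩ 19,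
  .scale ⟨0, 1515899584512, 0, 0⟩ 3,
  .add 1 0,
  .scale ⟨0, 3777009811456, 0, 0⟩ 4,
  .add 1 0,
  .scale ⟨0, 6598169460736, 0, 0⟩ 8,
  .add 1 0,
  .scale ⟨717785792512, 0, 0, 0⟩ 7,
  .add 1 0,
  .const ⟨2309189599232, 0, 0, 0⟩,
  .add 1 0,
  .scale ⟨4398046511104, 0, 0, 0⟩ 27,
  .neg 0,
  .exp 0,
  .mul 26 26,
  .mul 23 4,
  .add 0 21,
  .mul 3 0,
  .scale ⟨1099511627776, 0, 0, 0⟩ 3,
  .add 0 24,
  .mul 32 0,
  .scale ⟨2199023255552, 0, 0, 0⟩ 0,
  .mul 11 8,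
  .sub 1 0,
  .mul 32 32,
  .mul 0 1,
  .add 8 31,
  .mul 45 47,
  .scale ⟨0, 0, 1099511627776, 0⟩ 0,
  .mul 0 2,
  .add 4 0,
  .mul 2 7,
  .add 5 0,
  .inv 0,
  .mul 3 0,
  .mul 43 43,
  .mul 54 54,
  .scale ⟨12837657247744, 0, 0, 0⟩ 0,
  .add 2 0,
  .mul 4 4,
  .sub 0 4,
  .inv 0,
  .mul 3 0,
  .lt 0 1099511627520]

set_option maxRecDepth 1000000 in
noncomputable def c_A2_1 {α : Type} (cst : Z → α) (add sub mul : α → α → α) (scale : Z → α → α)
    (neg inv exp log : α → α) (ok : α → Bool) (isPos : Nat → α → Bool) (isLt : α → Nat → Bool)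
    (ball : Nat → α → α) (rball : α → α → α) : List α → Bool
  | [x0, x1, x2, x3] =>
  let v0 := mul x0 x1; ok v0 && (
  let v1 := scale ⟨2199023255552, 0, 0, 0⟩ v0; ok v1 && (
  let v2 := exp v0; ok v2 && (
  let v3 := neg v0; ok v3 && (
  let v4 := exp v3; ok v4 && (
  let v5 := mul v4 v4; ok v5 && (
  let v6 := sub v2 v4; ok v6 && (
  let v7 := add v2 v4; ok v7 && (
  let v8 := mul v6 v7; ok v8 && (
  let v9 := scale ⟨549755813888, 0, 0, 0⟩ v8; ok v9 && (
  let v10 := inv x0; ok v10 && (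
  let v11 := mul v9 v10; ok v11 && (
  let v12 := cst ⟨1099511627776, 0, 0, 0⟩; ok v12 && (
  let v13 := cst ⟨73282879488, 0, 0, 0⟩; ok v13 && (
  let v14 := sub x0 v13; ok v14 && (
  let v15 := mul x1 x1; ok v15 && (
  let v16 := mul v15 x1; ok v16 && (
  let v17 := mul v14 x1; ok v17 && (
  let v18 := scale ⟨1597613015040, 0, 0, 0⟩ x1; ok v18 && (
  let v19 := scale ⟨0, 1515899584512, 0, 0⟩ v15; ok v19 && (
  let v20 := add v18 v19; ok v20 && (
  let v21 := scale ⟨0, 3777009811456, 0, 0⟩ v16; ok v21 && (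
  let v22 := add v20 v21; ok v22 && (
  let v23 := scale ⟨0, 6598169460736, 0, 0⟩ v14; ok v23 && (
  let v24 := add v22 v23; ok v24 && (
  let v25 := scale ⟨717785792512, 0, 0, 0⟩ v17; ok v25 && (
  let v26 := add v24 v25; ok v26 && (
  let v27 := cst ⟨2309189599232, 0, 0, 0⟩; ok v27 && (
  let v28 := add v26 v27; ok v28 && (
  let v29 := scale ⟨4398046511104, 0, 0, 0⟩ v1; ok v29 && (
  let v30 := neg v29; ok v30 && (
  let v31 := exp v30; ok v31 && (
  let v32 := mul v5 v5; ok v32 && (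
  let v33 := mul v9 v28; ok v33 && (
  let v34 := add v33 v12; ok v34 && (
  let v35 := mul v31 v34; ok v35 && (
  let v36 := scale ⟨1099511627776, 0, 0, 0⟩ v32; ok v36 && (
  let v37 := add v36 v12; ok v37 && (
  let v38 := mul v5 v37; ok v38 && (
  let v39 := scale ⟨2199023255552, 0, 0, 0⟩ v38; ok v39 && (
  let v40 := mul v28 v31; ok v40 && (
  let v41 := sub v39 v40; ok v41 && (
  let v42 := mul v9 v9; ok v42 && (
  let v43 := mul v42 v41; ok v43 && (
  let v44 := add v35 v12; ok v44 && (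
  let v45 := mul x0 x2; ok v45 && (
  let v46 := scale ⟨0, 0, 1099511627776, 0⟩ v45; ok v46 && (
  let v47 := mul v46 v44; ok v47 && (
  let v48 := add v43 v47; ok v48 && (
  let v49 := mul v46 v41; ok v49 && (
  let v50 := add v44 v49; ok v50 && (
  let v51 := inv v50; ok v51 && (
  let v52 := mul v48 v51; ok v52 && (
  let v53 := mul v9 v9; ok v53 && (
  let v54 := mul x0 x0; ok v54 && (
  let v55 := scale ⟨12837657247744, 0, 0, 0⟩ v54; ok v55 && (
  let v56 := add v53 v55; ok v56 && (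
  let v57 := mul v52 v52; ok v57 && (
  let v58 := sub v57 v53; ok v58 && (
  let v59 := inv v58; ok v59 && (
  let v60 := mul v56 v59; ok v60 && (
  isLt v60 1099511627520 && (
  true))))))))))))))))))))))))))))))))))))))))))))))))))))))))))))))
  | _ => false

set_option maxRecDepth 1000000 in
theorem c_A2_1_eq (X : XOps) (m : List X.O.α)
    (h : c_A2_1 X.O.cst X.O.add X.O.sub X.O.mul X.O.scale X.O.neg X.O.inv X.O.exp X.O.log X.O.ok
      X.O.isPos X.O.isLt X.ball X.rball m = true) :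
    runX X 3 p_A2_1 m = true := by
  match m, h with
  | [x0, x1, x2, x3], h => exact h

def p_A2_2 : List Op := [
  .mul 0 1,
  .scale ⟨2199023255552, 0, 0, 0⟩ 0,
  .exp 1,
  .neg 2,
  .exp 0,
  .mul 0 0,
  .sub 3 1,
  .add 4 2,
  .mul 1 0,
  .scale ⟨549755813888, 0, 0, 0⟩ 0,
  .inv 10,
  .mul 1 0,
  .const ⟨1099511627776, 0, 0, 0⟩,
  .const ⟨73282879488, 0, 0, 0⟩,
  .sub 14 0,
  .mul 16 16,
  .mul 0 17,
  .mul 2 18,
  .scale ⟨1597613015040, 0, 0, 0⟩ 19,
  .scale ⟨0, 1515899584512, 0, 0⟩ 3,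
  .add 1 0,
  .scale ⟨0, 3777009811456, 0, 0⟩ 4,
  .add 1 0,
  .scale ⟨0, 6598169460736, 0, 0⟩ 8,
  .add 1 0,
  .scale ⟨717785792512, 0, 0, 0⟩ 7,
  .add 1 0,
  .const ⟨2309189599232, 0, 0, 0⟩,
  .add 1 0,
  .scale ⟨4398046511104, 0, 0, 0⟩ 27,
  .neg 0,
  .exp 0,
  .mul 26 26,
  .mul 23 4,
  .add 0 21,
  .mul 3 0,
  .scale ⟨1099511627776, 0, 0, 0⟩ 3,
  .add 0 24,
  .mul 32 0,
  .scale ⟨2199023255552, 0, 0, 0⟩ 0,
  .mul 11 8,
  .sub 1 0,
  .mul 32 32,
  .mul 0 1,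
  .add 8 31,
  .mul 45 47,
  .scale ⟨0, 0, 1099511627776, 0⟩ 0,
  .mul 0 2,
  .add 4 0,
  .mul 2 7,
  .add 5 0,
  .inv 0,
  .mul 3 0,
  .inv 53,
  .mul 1 0,
  .scale ⟨8796093022208, 0, 0, 0⟩ 0,
  .lt 0 1099511627520]

set_option maxRecDepth 1000000 in
noncomputable def c_A2_2 {α : Type} (cst : Z → α) (add sub mul : α → α → α) (scale : Z → α → α)
    (neg inv exp log : α → α) (ok : α → Bool) (isPos : Nat → α → Bool) (isLt : α → Nat → Bool)
    (ball : Nat → α → α) (rball : α → α → α) : List α → Bool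
  | [x0, x1, x2, x3] =>
  let v0 := mul x0 x1; ok v0 && (
  let v1 := scale ⟨2199023255552, 0, 0, 0⟩ v0; ok v1 && (
  let v2 := exp v0; ok v2 && (
  let v3 := neg v0; ok v3 && (
  let v4 := exp v3; ok v4 && (
  let v5 := mul v4 v4; ok v5 && (
  let v6 := sub v2 v4; ok v6 && (
  let v7 := add v2 v4; ok v7 && (
  let v8 := mul v6 v7; ok v8 && (
  let v9 := scale ⟨549755813888, 0, 0, 0⟩ v8; ok v9 && (
  let v10 := inv x0; ok v10 && (
  let v11 := mul v9 v10; ok v11 && (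
  let v12 := cst ⟨1099511627776, 0, 0, 0⟩; ok v12 && (
  let v13 := cst ⟨73282879488, 0, 0, 0⟩; ok v13 && (
  let v14 := sub x0 v13; ok v14 && (
  let v15 := mul x1 x1; ok v15 && (
  let v16 := mul v15 x1; ok v16 && (
  let v17 := mul v14 x1; ok v17 && (
  let v18 := scale ⟨1597613015040, 0, 0, 0⟩ x1; ok v18 && (
  let v19 := scale ⟨0, 1515899584512, 0, 0⟩ v15; ok v19 && (
  let v20 := add v18 v19; ok v20 && (
  let v21 := scale ⟨0, 3777009811456, 0, 0⟩ v16; ok v21 && (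
  let v22 := add v20 v21; ok v22 && (
  let v23 := scale ⟨0, 6598169460736, 0, 0⟩ v14; ok v23 && (
  let v24 := add v22 v23; ok v24 && (
  let v25 := scale ⟨717785792512, 0, 0, 0⟩ v17; ok v25 && (
  let v26 := add v24 v25; ok v26 && (
  let v27 := cst ⟨2309189599232, 0, 0, 0⟩; ok v27 && (
  let v28 := add v26 v27; ok v28 && (
  let v29 := scale ⟨4398046511104, 0, 0, 0⟩ v1; ok v29 && (
  let v30 := neg v29; ok v30 && (
  let v31 := exp v30; ok v31 && (
  let v32 := mul v5 v5; ok v32 && (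
  let v33 := mul v9 v28; ok v33 && (
  let v34 := add v33 v12; ok v34 && (
  let v35 := mul v31 v34; ok v35 && (
  let v36 := scale ⟨1099511627776, 0, 0, 0⟩ v32; ok v36 && (
  let v37 := add v36 v12; ok v37 && (
  let v38 := mul v5 v37; ok v38 && (
  let v39 := scale ⟨2199023255552, 0, 0, 0⟩ v38; ok v39 && (
  let v40 := mul v28 v31; ok v40 && (
  let v41 := sub v39 v40; ok v41 && (
  let v42 := mul v9 v9; ok v42 && (
  let v43 := mul v42 v41; ok v43 && (
  let v44 := add v35 v12; ok v44 && (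
  let v45 := mul x0 x2; ok v45 && (
  let v46 := scale ⟨0, 0, 1099511627776, 0⟩ v45; ok v46 && (
  let v47 := mul v46 v44; ok v47 && (
  let v48 := add v43 v47; ok v48 && (
  let v49 := mul v46 v41; ok v49 && (
  let v50 := add v44 v49; ok v50 && (
  let v51 := inv v50; ok v51 && (
  let v52 := mul v48 v51; ok v52 && (
  let v53 := inv x0; ok v53 && (
  let v54 := mul v52 v53; ok v54 && (
  let v55 := scale ⟨8796093022208, 0, 0, 0⟩ v54; ok v55 && (
  isLt v55 1099511627520 && (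
  true)))))))))))))))))))))))))))))))))))))))))))))))))))))))))
  | _ => false

set_option maxRecDepth 1000000 in
theorem c_A2_2_eq (X : XOps) (m : List X.O.α)
    (h : c_A2_2 X.O.cst X.O.add X.O.sub X.O.mul X.O.scale X.O.neg X.O.inv X.O.exp X.O.log X.O.ok
      X.O.isPos X.O.isLt X.ball X.rball m = true) :
    runX X 3 p_A2_2 m = true := by
  match m, h with
  | [x0, x1, x2, x3], h => exact h

abbrev gA2 : List (List Op) := [(p1_A2 ++ reloc [53, 54, 0, 56] 57 0 p2_2), p_A2_1, p_A2_2]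

noncomputable abbrev kA2 : List (List xE.O.α → Bool) := [c_A2_0 xE.O.cst xE.O.add xE.O.sub xE.O.mul xE.O.scale xE.O.neg xE.O.inv xE.O.exp xE.O.log xE.O.ok
      xE.O.isPos xE.O.isLt xE.ball xE.rball, c_A2_1 xE.O.cst xE.O.add xE.O.sub xE.O.mul xE.O.scale xE.O.neg xE.O.inv xE.O.exp xE.O.log xE.O.ok
      xE.O.isPos xE.O.isLt xE.ball xE.rball, c_A2_2 xE.O.cst xE.O.add xE.O.sub xE.O.mul xE.O.scale xE.O.neg xE.O.inv xE.O.exp xE.O.log xE.O.ok
      xE.O.isPos xE.O.isLt xE.ball xE.rball]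

theorem kA2_eq : List.Forall₂ (fun (ops : List Op) (chk : List xE.O.α → Bool) =>
    ∀ m, chk m = true → runX xE 3 ops m = true) gA2 kA2 :=
  List.Forall₂.cons (c_A2_0_eq xE) (List.Forall₂.cons (c_A2_1_eq xE) (List.Forall₂.cons (c_A2_2_eq xE) List.Forall₂.nil))

theorem gA2_eq : gA2 = [circ (chA tab 2) (P2m tab 2), altP (chA tab 2) (outCut tab 2), altP (chA tab 2) (outIn tab)] := by decide +kernel

def p1_B2 : List Op := [
  .mul 0 1,
  .scale ⟨2199023255552, 0, 0, 0⟩ 0,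
  .exp 1,
  .neg 2,
  .exp 0,
  .mul 0 0,
  .sub 3 1,
  .add 4 2,
  .mul 1 0,
  .scale ⟨549755813888, 0, 0, 0⟩ 0,
  .inv 10,
  .mul 1 0,
  .const ⟨1099511627776, 0, 0, 0⟩,
  .const ⟨73282879488, 0, 0, 0⟩,
  .sub 14 0,
  .mul 16 16,
  .mul 0 17,
  .mul 2 18,
  .scale ⟨1597613015040, 0, 0, 0⟩ 19,
  .scale ⟨0, 1515899584512, 0, 0⟩ 3,
  .add 1 0,
  .scale ⟨0, 3777009811456, 0, 0⟩ 4,
  .add 1 0,
  .scale ⟨0, 6598169460736, 0, 0⟩ 8,
  .add 1 0,
  .scale ⟨717785792512, 0, 0, 0⟩ 7,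
  .add 1 0,
  .const ⟨2309189599232, 0, 0, 0⟩,
  .add 1 0,
  .scale ⟨4398046511104, 0, 0, 0⟩ 27,
  .neg 0,
  .exp 0,
  .mul 26 26,
  .mul 23 4,
  .add 0 21,
  .mul 3 0,
  .scale ⟨1099511627776, 0, 0, 0⟩ 3,
  .add 0 24,
  .mul 32 0,
  .scale ⟨2199023255552, 0, 0, 0⟩ 0,
  .mul 11 8,
  .sub 1 0,
  .mul 32 32,
  .mul 0 1,
  .add 8 31,
  .mul 1 47,
  .mul 46 1,
  .scale ⟨0, 0, 1099511627776, 0⟩ 0,
  .add 2 0,
  .mul 4 51,
  .mul 50 8,
  .scale ⟨0, 0, 1099511627776, 0⟩ 0,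
  .add 2 0,
  .inv 0,
  .mul 5 0]

set_option maxRecDepth 1000000 in
noncomputable def c_B2_0 {α : Type} (cst : Z → α) (add sub mul : α → α → α) (scale : Z → α → α)
    (neg inv exp log : α → α) (ok : α → Bool) (isPos : Nat → α → Bool) (isLt : α → Nat → Bool)
    (ball : Nat → α → α) (rball : α → α → α) : List α → Bool
  | [x0, x1, x2, x3] =>
  let v0 := mul x0 x1; ok v0 && (
  let v1 := scale ⟨2199023255552, 0, 0, 0⟩ v0; ok v1 && (
  let v2 := exp v0; ok v2 && (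
  let v3 := neg v0; ok v3 && (
  let v4 := exp v3; ok v4 && (
  let v5 := mul v4 v4; ok v5 && (
  let v6 := sub v2 v4; ok v6 && (
  let v7 := add v2 v4; ok v7 && (
  let v8 := mul v6 v7; ok v8 && (
  let v9 := scale ⟨549755813888, 0, 0, 0⟩ v8; ok v9 && (
  let v10 := inv x0; ok v10 && (
  let v11 := mul v9 v10; ok v11 && (
  let v12 := cst ⟨1099511627776, 0, 0, 0⟩; ok v12 && (
  let v13 := cst ⟨73282879488, 0, 0, 0⟩; ok v13 && (
  let v14 := sub x0 v13; ok v14 && (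
  let v15 := mul x1 x1; ok v15 && (
  let v16 := mul v15 x1; ok v16 && (
  let v17 := mul v14 x1; ok v17 && (
  let v18 := scale ⟨1597613015040, 0, 0, 0⟩ x1; ok v18 && (
  let v19 := scale ⟨0, 1515899584512, 0, 0⟩ v15; ok v19 && (
  let v20 := add v18 v19; ok v20 && (
  let v21 := scale ⟨0, 3777009811456, 0, 0⟩ v16; ok v21 && (
  let v22 := add v20 v21; ok v22 && (
  let v23 := scale ⟨0, 6598169460736, 0, 0⟩ v14; ok v23 && (
  let v24 := add v22 v23; ok v24 && (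
  let v25 := scale ⟨717785792512, 0, 0, 0⟩ v17; ok v25 && (
  let v26 := add v24 v25; ok v26 && (
  let v27 := cst ⟨2309189599232, 0, 0, 0⟩; ok v27 && (
  let v28 := add v26 v27; ok v28 && (
  let v29 := scale ⟨4398046511104, 0, 0, 0⟩ v1; ok v29 && (
  let v30 := neg v29; ok v30 && (
  let v31 := exp v30; ok v31 && (
  let v32 := mul v5 v5; ok v32 && (
  let v33 := mul v9 v28; ok v33 && (
  let v34 := add v33 v12; ok v34 && (
  let v35 := mul v31 v34; ok v35 && (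
  let v36 := scale ⟨1099511627776, 0, 0, 0⟩ v32; ok v36 && (
  let v37 := add v36 v12; ok v37 && (
  let v38 := mul v5 v37; ok v38 && (
  let v39 := scale ⟨2199023255552, 0, 0, 0⟩ v38; ok v39 && (
  let v40 := mul v28 v31; ok v40 && (
  let v41 := sub v39 v40; ok v41 && (
  let v42 := mul v9 v9; ok v42 && (
  let v43 := mul v42 v41; ok v43 && (
  let v44 := add v35 v12; ok v44 && (
  let v45 := mul v43 x2; ok v45 && (
  let v46 := mul x0 v44; ok v46 && (
  let v47 := scale ⟨0, 0, 1099511627776, 0⟩ v46; ok v47 && (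
  let v48 := add v45 v47; ok v48 && (
  let v49 := mul v44 x2; ok v49 && (
  let v50 := mul x0 v41; ok v50 && (
  let v51 := scale ⟨0, 0, 1099511627776, 0⟩ v50; ok v51 && (
  let v52 := add v49 v51; ok v52 && (
  let v53 := inv v52; ok v53 && (
  let v54 := mul v48 v53; ok v54 && (
  c2_2 cst add sub mul scale neg inv exp log ok isPos isLt ball rball [x0, x1, v54, x3])))))))))))))))))))))))))))))))))))))))))))))))))))))))
  | _ => false

set_option maxRecDepth 1000000 in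
theorem c_B2_0_eq (X : XOps) (m : List X.O.α)
    (h : c_B2_0 X.O.cst X.O.add X.O.sub X.O.mul X.O.scale X.O.neg X.O.inv X.O.exp X.O.log X.O.ok
      X.O.isPos X.O.isLt X.ball X.rball m = true) :
    runX X 3 (p1_B2 ++ reloc [55, 56, 0, 58] 59 0 p2_2) m = true := by
  match m, h with
  | [x0, x1, x2, x3], h => exact share (c2_2_eq X) [x0, x1, x2, x3] (Nat.le_of_ble_eq_true rfl) h

def p_B2_1 : List Op := [
  .mul 0 1,
  .scale ⟨2199023255552, 0, 0, 0⟩ 0,
  .exp 1,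
  .neg 2,
  .exp 0,
  .mul 0 0,
  .sub 3 1,
  .add 4 2,
  .mul 1 0,
  .scale ⟨549755813888, 0, 0, 0⟩ 0,
  .inv 10,
  .mul 1 0,
  .const ⟨1099511627776, 0, 0, 0⟩,
  .const ⟨73282879488, 0, 0, 0⟩,
  .sub 14 0,
  .mul 16 16,
  .mul 0 17,
  .mul 2 18,
  .scale ⟨1597613015040, 0, 0, 0⟩ 19,
  .scale ⟨0, 1515899584512, 0, 0⟩ 3,
  .add 1 0,
  .scale ⟨0, 3777009811456, 0, 0⟩ 4,
  .add 1 0,
  .scale ⟨0, 6598169460736, 0, 0⟩ 8,
  .add 1 0,
  .scale ⟨717785792512, 0, 0, 0⟩ 7,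
  .add 1 0,
  .const ⟨2309189599232, 0, 0, 0⟩,
  .add 1 0,
  .scale ⟨4398046511104, 0, 0, 0⟩ 27,
  .neg 0,
  .exp 0,
  .mul 26 26,
  .mul 23 4,
  .add 0 21,
  .mul 3 0,
  .scale ⟨1099511627776, 0, 0, 0⟩ 3,
  .add 0 24,
  .mul 32 0,
  .scale ⟨2199023255552, 0, 0, 0⟩ 0,
  .mul 11 8,
  .sub 1 0,
  .mul 32 32,
  .mul 0 1,
  .add 8 31,
  .mul 1 47,
  .mul 46 1,
  .scale ⟨0, 0, 1099511627776, 0⟩ 0,
  .add 2 0,
  .mul 4 51,
  .mul 50 8,
  .scale ⟨0, 0, 1099511627776, 0⟩ 0,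
  .add 2 0,
  .inv 0,
  .mul 5 0,
  .mul 45 45,
  .mul 56 56,
  .scale ⟨12837657247744, 0, 0, 0⟩ 0,
  .add 2 0,
  .mul 4 4,
  .sub 0 4,
  .inv 0,
  .mul 3 0,
  .lt 0 1099511627520]

set_option maxRecDepth 1000000 in
noncomputable def c_B2_1 {α : Type} (cst : Z → α) (add sub mul : α → α → α) (scale : Z → α → α)
    (neg inv exp log : α → α) (ok : α → Bool) (isPos : Nat → α → Bool) (isLt : α → Nat → Bool)
    (ball : Nat → α → α) (rball : α → α → α) : List α → Bool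
  | [x0, x1, x2, x3] =>
  let v0 := mul x0 x1; ok v0 && (
  let v1 := scale ⟨2199023255552, 0, 0, 0⟩ v0; ok v1 && (
  let v2 := exp v0; ok v2 && (
  let v3 := neg v0; ok v3 && (
  let v4 := exp v3; ok v4 && (
  let v5 := mul v4 v4; ok v5 && (
  let v6 := sub v2 v4; ok v6 && (
  let v7 := add v2 v4; ok v7 && (
  let v8 := mul v6 v7; ok v8 && (
  let v9 := scale ⟨549755813888, 0, 0, 0⟩ v8; ok v9 && (
  let v10 := inv x0; ok v10 && (
  let v11 := mul v9 v10; ok v11 && (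
  let v12 := cst ⟨1099511627776, 0, 0, 0⟩; ok v12 && (
  let v13 := cst ⟨73282879488, 0, 0, 0⟩; ok v13 && (
  let v14 := sub x0 v13; ok v14 && (
  let v15 := mul x1 x1; ok v15 && (
  let v16 := mul v15 x1; ok v16 && (
  let v17 := mul v14 x1; ok v17 && (
  let v18 := scale ⟨1597613015040, 0, 0, 0⟩ x1; ok v18 && (
  let v19 := scale ⟨0, 1515899584512, 0, 0⟩ v15; ok v19 && (
  let v20 := add v18 v19; ok v20 && (
  let v21 := scale ⟨0, 3777009811456, 0, 0⟩ v16; ok v21 && (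
  let v22 := add v20 v21; ok v22 && (
  let v23 := scale ⟨0, 6598169460736, 0, 0⟩ v14; ok v23 && (
  let v24 := add v22 v23; ok v24 && (
  let v25 := scale ⟨717785792512, 0, 0, 0⟩ v17; ok v25 && (
  let v26 := add v24 v25; ok v26 && (
  let v27 := cst ⟨2309189599232, 0, 0, 0⟩; ok v27 && (
  let v28 := add v26 v27; ok v28 && (
  let v29 := scale ⟨4398046511104, 0, 0, 0⟩ v1; ok v29 && (
  let v30 := neg v29; ok v30 && (
  let v31 := exp v30; ok v31 && (
  let v32 := mul v5 v5; ok v32 && (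
  let v33 := mul v9 v28; ok v33 && (
  let v34 := add v33 v12; ok v34 && (
  let v35 := mul v31 v34; ok v35 && (
  let v36 := scale ⟨1099511627776, 0, 0, 0⟩ v32; ok v36 && (
  let v37 := add v36 v12; ok v37 && (
  let v38 := mul v5 v37; ok v38 && (
  let v39 := scale ⟨2199023255552, 0, 0, 0⟩ v38; ok v39 && (
  let v40 := mul v28 v31; ok v40 && (
  let v41 := sub v39 v40; ok v41 && (
  let v42 := mul v9 v9; ok v42 && (
  let v43 := mul v42 v41; ok v43 && (
  let v44 := add v35 v12; ok v44 && (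
  let v45 := mul v43 x2; ok v45 && (
  let v46 := mul x0 v44; ok v46 && (
  let v47 := scale ⟨0, 0, 1099511627776, 0⟩ v46; ok v47 && (
  let v48 := add v45 v47; ok v48 && (
  let v49 := mul v44 x2; ok v49 && (
  let v50 := mul x0 v41; ok v50 && (
  let v51 := scale ⟨0, 0, 1099511627776, 0⟩ v50; ok v51 && (
  let v52 := add v49 v51; ok v52 && (
  let v53 := inv v52; ok v53 && (
  let v54 := mul v48 v53; ok v54 && (
  let v55 := mul v9 v9; ok v55 && (
  let v56 := mul x0 x0; ok v56 && (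
  let v57 := scale ⟨12837657247744, 0, 0, 0⟩ v56; ok v57 && (
  let v58 := add v55 v57; ok v58 && (
  let v59 := mul v54 v54; ok v59 && (
  let v60 := sub v59 v55; ok v60 && (
  let v61 := inv v60; ok v61 && (
  let v62 := mul v58 v61; ok v62 && (
  isLt v62 1099511627520 && (
  true))))))))))))))))))))))))))))))))))))))))))))))))))))))))))))))))
  | _ => false

set_option maxRecDepth 1000000 in
theorem c_B2_1_eq (X : XOps) (m : List X.O.α)
    (h : c_B2_1 X.O.cst X.O.add X.O.sub X.O.mul X.O.scale X.O.neg X.O.inv X.O.exp X.O.log X.O.ok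
      X.O.isPos X.O.isLt X.ball X.rball m = true) :
    runX X 3 p_B2_1 m = true := by
  match m, h with
  | [x0, x1, x2, x3], h => exact h

abbrev gB2 : List (List Op) := [(p1_B2 ++ reloc [55, 56, 0, 58] 59 0 p2_2), p_B2_1]

noncomputable abbrev kB2 : List (List xE.O.α → Bool) := [c_B2_0 xE.O.cst xE.O.add xE.O.sub xE.O.mul xE.O.scale xE.O.neg xE.O.inv xE.O.exp xE.O.log xE.O.ok
      xE.O.isPos xE.O.isLt xE.ball xE.rball, c_B2_1 xE.O.cst xE.O.add xE.O.sub xE.O.mul xE.O.scale xE.O.neg xE.O.inv xE.O.exp xE.O.log xE.O.ok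
      xE.O.isPos xE.O.isLt xE.ball xE.rball]

theorem kB2_eq : List.Forall₂ (fun (ops : List Op) (chk : List xE.O.α → Bool) =>
    ∀ m, chk m = true → runX xE 3 ops m = true) gB2 kB2 :=
  List.Forall₂.cons (c_B2_0_eq xE) (List.Forall₂.cons (c_B2_1_eq xE) List.Forall₂.nil)

theorem gB2_eq : gB2 = [circ (chB tab 2) (P2m tab 2), altP (chB tab 2) (outCut tab 2)] := by decide +kernel

def p1_C2 : List Op := [
  .mul 0 1,
  .scale ⟨2199023255552, 0, 0, 0⟩ 0,
  .exp 1,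
  .neg 2,
  .exp 0,
  .mul 0 0,
  .sub 3 1,
  .add 4 2,
  .mul 1 0,
  .scale ⟨549755813888, 0, 0, 0⟩ 0,
  .inv 10,
  .mul 1 0,
  .const ⟨1099511627776, 0, 0, 0⟩,
  .scale ⟨0, 0, 1099511627776, 0⟩ 15,
  .scale ⟨137438953472, 0, 0, 0⟩ 14,
  .add 1 2,
  .sub 3 2,
  .inv 0,
  .mul 2 0,
  .mul 4 0]

set_option maxRecDepth 1000000 in
noncomputable def c_C2_0 {α : Type} (cst : Z → α) (add sub mul : α → α → α) (scale : Z → α → α)
    (neg inv exp log : α → α) (ok : α → Bool) (isPos : Nat → α → Bool) (isLt : α → Nat → Bool)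
    (ball : Nat → α → α) (rball : α → α → α) : List α → Bool
  | [x0, x1, x2, x3] =>
  let v0 := mul x0 x1; ok v0 && (
  let v1 := scale ⟨2199023255552, 0, 0, 0⟩ v0; ok v1 && (
  let v2 := exp v0; ok v2 && (
  let v3 := neg v0; ok v3 && (
  let v4 := exp v3; ok v4 && (
  let v5 := mul v4 v4; ok v5 && (
  let v6 := sub v2 v4; ok v6 && (
  let v7 := add v2 v4; ok v7 && (
  let v8 := mul v6 v7; ok v8 && (
  let v9 := scale ⟨549755813888, 0, 0, 0⟩ v8; ok v9 && (
  let v10 := inv x0; ok v10 && (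
  let v11 := mul v9 v10; ok v11 && (
  let v12 := cst ⟨1099511627776, 0, 0, 0⟩; ok v12 && (
  let v13 := scale ⟨0, 0, 1099511627776, 0⟩ x2; ok v13 && (
  let v14 := scale ⟨137438953472, 0, 0, 0⟩ x0; ok v14 && (
  let v15 := add v13 v12; ok v15 && (
  let v16 := sub v12 v13; ok v16 && (
  let v17 := inv v16; ok v17 && (
  let v18 := mul v15 v17; ok v18 && (
  let v19 := mul v14 v18; ok v19 && (
  c2_2 cst add sub mul scale neg inv exp log ok isPos isLt ball rball [x0, x1, v19, x3]))))))))))))))))))))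
  | _ => false

set_option maxRecDepth 1000000 in
theorem c_C2_0_eq (X : XOps) (m : List X.O.α)
    (h : c_C2_0 X.O.cst X.O.add X.O.sub X.O.mul X.O.scale X.O.neg X.O.inv X.O.exp X.O.log X.O.ok
      X.O.isPos X.O.isLt X.ball X.rball m = true) :
    runX X 3 (p1_C2 ++ reloc [20, 21, 0, 23] 24 0 p2_2) m = true := by
  match m, h with
  | [x0, x1, x2, x3], h => exact share (c2_2_eq X) [x0, x1, x2, x3] (Nat.le_of_ble_eq_true rfl) h

def p_C2_1 : List Op := [
  .mul 0 1,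
  .scale ⟨2199023255552, 0, 0, 0⟩ 0,
  .exp 1,
  .neg 2,
  .exp 0,
  .mul 0 0,
  .sub 3 1,
  .add 4 2,
  .mul 1 0,
  .scale ⟨549755813888, 0, 0, 0⟩ 0,
  .inv 10,
  .mul 1 0,
  .const ⟨1099511627776, 0, 0, 0⟩,
  .scale ⟨0, 0, 1099511627776, 0⟩ 15,
  .scale ⟨137438953472, 0, 0, 0⟩ 14,
  .add 1 2,
  .sub 3 2,
  .inv 0,
  .mul 2 0,
  .mul 4 0,
  .const ⟨73282879488, 0, 0, 0⟩,
  .sub 21 0,
  .mul 23 23,
  .mul 0 24,
  .mul 2 25,
  .scale ⟨1597613015040, 0, 0, 0⟩ 26,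
  .scale ⟨0, 1515899584512, 0, 0⟩ 3,
  .add 1 0,
  .scale ⟨0, 3777009811456, 0, 0⟩ 4,
  .add 1 0,
  .scale ⟨0, 6598169460736, 0, 0⟩ 8,
  .add 1 0,
  .scale ⟨717785792512, 0, 0, 0⟩ 7,
  .add 1 0,
  .const ⟨2309189599232, 0, 0, 0⟩,
  .add 1 0,
  .scale ⟨4398046511104, 0, 0, 0⟩ 34,
  .neg 0,
  .exp 0,
  .mul 33 33,
  .mul 30 4,
  .add 0 28,
  .mul 3 0,
  .scale ⟨1099511627776, 0, 0, 0⟩ 3,
  .add 0 31,
  .mul 39 0,
  .scale ⟨2199023255552, 0, 0, 0⟩ 0,
  .mul 11 8,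
  .sub 1 0,
  .scale ⟨2199023255552, 0, 0, 0⟩ 6,
  .add 7 37,
  .mul 2 0,
  .mul 0 32,
  .mul 10 10,
  .add 0 41,
  .sub 2 0,
  .inv 0,
  .mul 7 0,
  .lt 0 1099511627520]

set_option maxRecDepth 1000000 in
noncomputable def c_C2_1 {α : Type} (cst : Z → α) (add sub mul : α → α → α) (scale : Z → α → α)
    (neg inv exp log : α → α) (ok : α → Bool) (isPos : Nat → α → Bool) (isLt : α → Nat → Bool)
    (ball : Nat → α → α) (rball : α → α → α) : List α → Bool
  | [x0, x1, x2, x3] =>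
  let v0 := mul x0 x1; ok v0 && (
  let v1 := scale ⟨2199023255552, 0, 0, 0⟩ v0; ok v1 && (
  let v2 := exp v0; ok v2 && (
  let v3 := neg v0; ok v3 && (
  let v4 := exp v3; ok v4 && (
  let v5 := mul v4 v4; ok v5 && (
  let v6 := sub v2 v4; ok v6 && (
  let v7 := add v2 v4; ok v7 && (
  let v8 := mul v6 v7; ok v8 && (
  let v9 := scale ⟨549755813888, 0, 0, 0⟩ v8; ok v9 && (
  let v10 := inv x0; ok v10 && (
  let v11 := mul v9 v10; ok v11 && (
  let v12 := cst ⟨1099511627776, 0, 0, 0⟩; ok v12 && (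
  let v13 := scale ⟨0, 0, 1099511627776, 0⟩ x2; ok v13 && (
  let v14 := scale ⟨137438953472, 0, 0, 0⟩ x0; ok v14 && (
  let v15 := add v13 v12; ok v15 && (
  let v16 := sub v12 v13; ok v16 && (
  let v17 := inv v16; ok v17 && (
  let v18 := mul v15 v17; ok v18 && (
  let v19 := mul v14 v18; ok v19 && (
  let v20 := cst ⟨73282879488, 0, 0, 0⟩; ok v20 && (
  let v21 := sub x0 v20; ok v21 && (
  let v22 := mul x1 x1; ok v22 && (
  let v23 := mul v22 x1; ok v23 && (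
  let v24 := mul v21 x1; ok v24 && (
  let v25 := scale ⟨1597613015040, 0, 0, 0⟩ x1; ok v25 && (
  let v26 := scale ⟨0, 1515899584512, 0, 0⟩ v22; ok v26 && (
  let v27 := add v25 v26; ok v27 && (
  let v28 := scale ⟨0, 3777009811456, 0, 0⟩ v23; ok v28 && (
  let v29 := add v27 v28; ok v29 && (
  let v30 := scale ⟨0, 6598169460736, 0, 0⟩ v21; ok v30 && (
  let v31 := add v29 v30; ok v31 && (
  let v32 := scale ⟨717785792512, 0, 0, 0⟩ v24; ok v32 && (
  let v33 := add v31 v32; ok v33 && (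
  let v34 := cst ⟨2309189599232, 0, 0, 0⟩; ok v34 && (
  let v35 := add v33 v34; ok v35 && (
  let v36 := scale ⟨4398046511104, 0, 0, 0⟩ v1; ok v36 && (
  let v37 := neg v36; ok v37 && (
  let v38 := exp v37; ok v38 && (
  let v39 := mul v5 v5; ok v39 && (
  let v40 := mul v9 v35; ok v40 && (
  let v41 := add v40 v12; ok v41 && (
  let v42 := mul v38 v41; ok v42 && (
  let v43 := scale ⟨1099511627776, 0, 0, 0⟩ v39; ok v43 && (
  let v44 := add v43 v12; ok v44 && (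
  let v45 := mul v5 v44; ok v45 && (
  let v46 := scale ⟨2199023255552, 0, 0, 0⟩ v45; ok v46 && (
  let v47 := mul v35 v38; ok v47 && (
  let v48 := sub v46 v47; ok v48 && (
  let v49 := scale ⟨2199023255552, 0, 0, 0⟩ v42; ok v49 && (
  let v50 := add v42 v12; ok v50 && (
  let v51 := mul v48 v50; ok v51 && (
  let v52 := mul v51 v19; ok v52 && (
  let v53 := mul v42 v42; ok v53 && (
  let v54 := add v53 v12; ok v54 && (
  let v55 := sub v52 v54; ok v55 && (
  let v56 := inv v55; ok v56 && (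
  let v57 := mul v49 v56; ok v57 && (
  isLt v57 1099511627520 && (
  true)))))))))))))))))))))))))))))))))))))))))))))))))))))))))))
  | _ => false

set_option maxRecDepth 1000000 in
theorem c_C2_1_eq (X : XOps) (m : List X.O.α)
    (h : c_C2_1 X.O.cst X.O.add X.O.sub X.O.mul X.O.scale X.O.neg X.O.inv X.O.exp X.O.log X.O.ok
      X.O.isPos X.O.isLt X.ball X.rball m = true) :
    runX X 3 p_C2_1 m = true := by
  match m, h with
  | [x0, x1, x2, x3], h => exact h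

abbrev gC2 : List (List Op) := [(p1_C2 ++ reloc [20, 21, 0, 23] 24 0 p2_2), p_C2_1]

noncomputable abbrev kC2 : List (List xE.O.α → Bool) := [c_C2_0 xE.O.cst xE.O.add xE.O.sub xE.O.mul xE.O.scale xE.O.neg xE.O.inv xE.O.exp xE.O.log xE.O.ok
      xE.O.isPos xE.O.isLt xE.ball xE.rball, c_C2_1 xE.O.cst xE.O.add xE.O.sub xE.O.mul xE.O.scale xE.O.neg xE.O.inv xE.O.exp xE.O.log xE.O.ok
      xE.O.isPos xE.O.isLt xE.ball xE.rball]

theorem kC2_eq : List.Forall₂ (fun (ops : List Op) (chk : List xE.O.α → Bool) =>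
    ∀ m, chk m = true → runX xE 3 ops m = true) gC2 kC2 :=
  List.Forall₂.cons (c_C2_0_eq xE) (List.Forall₂.cons (c_C2_1_eq xE) List.Forall₂.nil)

theorem gC2_eq : gC2 = [circ (chC tab) (P2m tab 2), altP (chC tab) (outDisc tab 2)] := by decide +kernel

def p1_D2 : List Op := [
  .mul 0 1,
  .scale ⟨2199023255552, 0, 0, 0⟩ 0,
  .exp 1,
  .neg 2,
  .exp 0,
  .mul 0 0,
  .sub 3 1,
  .add 4 2,
  .mul 1 0,
  .scale ⟨549755813888, 0, 0, 0⟩ 0,
  .inv 10,
  .mul 1 0,
  .const ⟨1099511627776, 0, 0, 0⟩,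
  .mul 1 1,
  .const ⟨12837657247744, 0, 0, 0⟩,
  .add 1 0,
  .scale ⟨0, 0, 1099511627776, 0⟩ 18,
  .exp 0,
  .mul 2 0,
  .add 5 0,
  .log 0,
  .scale ⟨549755813888, 0, 0, 0⟩ 0,
  .exp 0,
  .mul 0 23]

set_option maxRecDepth 1000000 in
noncomputable def c_D2_0 {α : Type} (cst : Z → α) (add sub mul : α → α → α) (scale : Z → α → α)
    (neg inv exp log : α → α) (ok : α → Bool) (isPos : Nat → α → Bool) (isLt : α → Nat → Bool)
    (ball : Nat → α → α) (rball : α → α → α) : List α → Bool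
  | [x0, x1, x2, x3] =>
  let v0 := mul x0 x1; ok v0 && (
  let v1 := scale ⟨2199023255552, 0, 0, 0⟩ v0; ok v1 && (
  let v2 := exp v0; ok v2 && (
  let v3 := neg v0; ok v3 && (
  let v4 := exp v3; ok v4 && (
  let v5 := mul v4 v4; ok v5 && (
  let v6 := sub v2 v4; ok v6 && (
  let v7 := add v2 v4; ok v7 && (
  let v8 := mul v6 v7; ok v8 && (
  let v9 := scale ⟨549755813888, 0, 0, 0⟩ v8; ok v9 && (
  let v10 := inv x0; ok v10 && (
  let v11 := mul v9 v10; ok v11 && (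
  let v12 := cst ⟨1099511627776, 0, 0, 0⟩; ok v12 && (
  let v13 := mul v11 v11; ok v13 && (
  let v14 := cst ⟨12837657247744, 0, 0, 0⟩; ok v14 && (
  let v15 := add v13 v14; ok v15 && (
  let v16 := scale ⟨0, 0, 1099511627776, 0⟩ x2; ok v16 && (
  let v17 := exp v16; ok v17 && (
  let v18 := mul v15 v17; ok v18 && (
  let v19 := add v13 v18; ok v19 && (
  let v20 := log v19; ok v20 && (
  let v21 := scale ⟨549755813888, 0, 0, 0⟩ v20; ok v21 && (
  let v22 := exp v21; ok v22 && (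
  let v23 := mul v22 x0; ok v23 && (
  c2_2 cst add sub mul scale neg inv exp log ok isPos isLt ball rball [x0, x1, v23, x3]))))))))))))))))))))))))
  | _ => false

set_option maxRecDepth 1000000 in
theorem c_D2_0_eq (X : XOps) (m : List X.O.α)
    (h : c_D2_0 X.O.cst X.O.add X.O.sub X.O.mul X.O.scale X.O.neg X.O.inv X.O.exp X.O.log X.O.ok
      X.O.isPos X.O.isLt X.ball X.rball m = true) :
    runX X 3 (p1_D2 ++ reloc [24, 25, 0, 27] 28 0 p2_2) m = true := by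
  match m, h with
  | [x0, x1, x2, x3], h => exact share (c2_2_eq X) [x0, x1, x2, x3] (Nat.le_of_ble_eq_true rfl) h

def p_D2_1 : List Op := [
  .mul 0 1,
  .scale ⟨2199023255552, 0, 0, 0⟩ 0,
  .exp 1,
  .neg 2,
  .exp 0,
  .mul 0 0,
  .sub 3 1,
  .add 4 2,
  .mul 1 0,
  .scale ⟨549755813888, 0, 0, 0⟩ 0,
  .inv 10,
  .mul 1 0,
  .const ⟨1099511627776, 0, 0, 0⟩,
  .mul 1 1,
  .const ⟨12837657247744, 0, 0, 0⟩,
  .add 1 0,
  .scale ⟨0, 0, 1099511627776, 0⟩ 18,
  .exp 0,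
  .mul 2 0,
  .add 5 0,
  .log 0,
  .scale ⟨549755813888, 0, 0, 0⟩ 0,
  .exp 0,
  .mul 0 23,
  .const ⟨73282879488, 0, 0, 0⟩,
  .sub 25 0,
  .mul 27 27,
  .mul 0 28,
  .mul 2 29,
  .scale ⟨1597613015040, 0, 0, 0⟩ 30,
  .scale ⟨0, 1515899584512, 0, 0⟩ 3,
  .add 1 0,
  .scale ⟨0, 3777009811456, 0, 0⟩ 4,
  .add 1 0,
  .scale ⟨0, 6598169460736, 0, 0⟩ 8,
  .add 1 0,
  .scale ⟨717785792512, 0, 0, 0⟩ 7,
  .add 1 0,
  .const ⟨2309189599232, 0, 0, 0⟩,
  .add 1 0,
  .scale ⟨4398046511104, 0, 0, 0⟩ 38,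
  .neg 0,
  .exp 0,
  .mul 37 37,
  .mul 34 4,
  .add 0 32,
  .mul 3 0,
  .scale ⟨1099511627776, 0, 0, 0⟩ 3,
  .add 0 35,
  .mul 43 0,
  .scale ⟨2199023255552, 0, 0, 0⟩ 0,
  .mul 11 8,
  .sub 1 0,
  .scale ⟨2199023255552, 0, 0, 0⟩ 6,
  .add 7 41,
  .mul 2 0,
  .mul 0 32,
  .mul 10 10,
  .add 0 45,
  .sub 2 0,
  .inv 0,
  .mul 7 0,
  .lt 0 1099511627520]

set_option maxRecDepth 1000000 in
noncomputable def c_D2_1 {α : Type} (cst : Z → α) (add sub mul : α → α → α) (scale : Z → α → α)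
    (neg inv exp log : α → α) (ok : α → Bool) (isPos : Nat → α → Bool) (isLt : α → Nat → Bool)
    (ball : Nat → α → α) (rball : α → α → α) : List α → Bool
  | [x0, x1, x2, x3] =>
  let v0 := mul x0 x1; ok v0 && (
  let v1 := scale ⟨2199023255552, 0, 0, 0⟩ v0; ok v1 && (
  let v2 := exp v0; ok v2 && (
  let v3 := neg v0; ok v3 && (
  let v4 := exp v3; ok v4 && (
  let v5 := mul v4 v4; ok v5 && (
  let v6 := sub v2 v4; ok v6 && (
  let v7 := add v2 v4; ok v7 && (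
  let v8 := mul v6 v7; ok v8 && (
  let v9 := scale ⟨549755813888, 0, 0, 0⟩ v8; ok v9 && (
  let v10 := inv x0; ok v10 && (
  let v11 := mul v9 v10; ok v11 && (
  let v12 := cst ⟨1099511627776, 0, 0, 0⟩; ok v12 && (
  let v13 := mul v11 v11; ok v13 && (
  let v14 := cst ⟨12837657247744, 0, 0, 0⟩; ok v14 && (
  let v15 := add v13 v14; ok v15 && (
  let v16 := scale ⟨0, 0, 1099511627776, 0⟩ x2; ok v16 && (
  let v17 := exp v16; ok v17 && (
  let v18 := mul v15 v17; ok v18 && (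
  let v19 := add v13 v18; ok v19 && (
  let v20 := log v19; ok v20 && (
  let v21 := scale ⟨549755813888, 0, 0, 0⟩ v20; ok v21 && (
  let v22 := exp v21; ok v22 && (
  let v23 := mul v22 x0; ok v23 && (
  let v24 := cst ⟨73282879488, 0, 0, 0⟩; ok v24 && (
  let v25 := sub x0 v24; ok v25 && (
  let v26 := mul x1 x1; ok v26 && (
  let v27 := mul v26 x1; ok v27 && (
  let v28 := mul v25 x1; ok v28 && (
  let v29 := scale ⟨1597613015040, 0, 0, 0⟩ x1; ok v29 && (
  let v30 := scale ⟨0, 1515899584512, 0, 0⟩ v26; ok v30 && (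
  let v31 := add v29 v30; ok v31 && (
  let v32 := scale ⟨0, 3777009811456, 0, 0⟩ v27; ok v32 && (
  let v33 := add v31 v32; ok v33 && (
  let v34 := scale ⟨0, 6598169460736, 0, 0⟩ v25; ok v34 && (
  let v35 := add v33 v34; ok v35 && (
  let v36 := scale ⟨717785792512, 0, 0, 0⟩ v28; ok v36 && (
  let v37 := add v35 v36; ok v37 && (
  let v38 := cst ⟨2309189599232, 0, 0, 0⟩; ok v38 && (
  let v39 := add v37 v38; ok v39 && (
  let v40 := scale ⟨4398046511104, 0, 0, 0⟩ v1; ok v40 && (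
  let v41 := neg v40; ok v41 && (
  let v42 := exp v41; ok v42 && (
  let v43 := mul v5 v5; ok v43 && (
  let v44 := mul v9 v39; ok v44 && (
  let v45 := add v44 v12; ok v45 && (
  let v46 := mul v42 v45; ok v46 && (
  let v47 := scale ⟨1099511627776, 0, 0, 0⟩ v43; ok v47 && (
  let v48 := add v47 v12; ok v48 && (
  let v49 := mul v5 v48; ok v49 && (
  let v50 := scale ⟨2199023255552, 0, 0, 0⟩ v49; ok v50 && (
  let v51 := mul v39 v42; ok v51 && (
  let v52 := sub v50 v51; ok v52 && (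
  let v53 := scale ⟨2199023255552, 0, 0, 0⟩ v46; ok v53 && (
  let v54 := add v46 v12; ok v54 && (
  let v55 := mul v52 v54; ok v55 && (
  let v56 := mul v55 v23; ok v56 && (
  let v57 := mul v46 v46; ok v57 && (
  let v58 := add v57 v12; ok v58 && (
  let v59 := sub v56 v58; ok v59 && (
  let v60 := inv v59; ok v60 && (
  let v61 := mul v53 v60; ok v61 && (
  isLt v61 1099511627520 && (
  true)))))))))))))))))))))))))))))))))))))))))))))))))))))))))))))))
  | _ => false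

set_option maxRecDepth 1000000 in
theorem c_D2_1_eq (X : XOps) (m : List X.O.α)
    (h : c_D2_1 X.O.cst X.O.add X.O.sub X.O.mul X.O.scale X.O.neg X.O.inv X.O.exp X.O.log X.O.ok
      X.O.isPos X.O.isLt X.ball X.rball m = true) :
    runX X 3 p_D2_1 m = true := by
  match m, h with
  | [x0, x1, x2, x3], h => exact h

abbrev gD2 : List (List Op) := [(p1_D2 ++ reloc [24, 25, 0, 27] 28 0 p2_2), p_D2_1]

noncomputable abbrev kD2 : List (List xE.O.α → Bool) := [c_D2_0 xE.O.cst xE.O.add xE.O.sub xE.O.mul xE.O.scale xE.O.neg xE.O.inv xE.O.exp xE.O.log xE.O.ok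
      xE.O.isPos xE.O.isLt xE.ball xE.rball, c_D2_1 xE.O.cst xE.O.add xE.O.sub xE.O.mul xE.O.scale xE.O.neg xE.O.inv xE.O.exp xE.O.log xE.O.ok
      xE.O.isPos xE.O.isLt xE.ball xE.rball]

theorem kD2_eq : List.Forall₂ (fun (ops : List Op) (chk : List xE.O.α → Bool) =>
    ∀ m, chk m = true → runX xE 3 ops m = true) gD2 kD2 :=
  List.Forall₂.cons (c_D2_0_eq xE) (List.Forall₂.cons (c_D2_1_eq xE) List.Forall₂.nil)

theorem gD2_eq : gD2 = [circ (chD tab 2) (P2m tab 2), altP (chD tab 2) (outDisc tab 2)] := by decide +kernel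

def p1_E2 : List Op := [
  .mul 0 1,
  .scale ⟨2199023255552, 0, 0, 0⟩ 0,
  .exp 1,
  .neg 2,
  .exp 0,
  .mul 0 0,
  .sub 3 1,
  .add 4 2,
  .mul 1 0,
  .scale ⟨549755813888, 0, 0, 0⟩ 0,
  .inv 10,
  .mul 1 0,
  .const ⟨1099511627776, 0, 0, 0⟩,
  .mul 1 1,
  .const ⟨12837657247744, 0, 0, 0⟩,
  .add 1 0,
  .scale ⟨0, 0, 0, 1099511627776⟩ 18,
  .exp 0,
  .mul 2 0,
  .sub 0 5,
  .log 0,
  .scale ⟨549755813888, 0, 0, 0⟩ 0,
  .exp 0,
  .scale ⟨0, 0, 1099511627776, 0⟩ 0,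
  .mul 0 24]

set_option maxRecDepth 1000000 in
noncomputable def c_E2_0 {α : Type} (cst : Z → α) (add sub mul : α → α → α) (scale : Z → α → α)
    (neg inv exp log : α → α) (ok : α → Bool) (isPos : Nat → α → Bool) (isLt : α → Nat → Bool)
    (ball : Nat → α → α) (rball : α → α → α) : List α → Bool
  | [x0, x1, x2, x3] =>
  let v0 := mul x0 x1; ok v0 && (
  let v1 := scale ⟨2199023255552, 0, 0, 0⟩ v0; ok v1 && (
  let v2 := exp v0; ok v2 && (
  let v3 := neg v0; ok v3 && (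
  let v4 := exp v3; ok v4 && (
  let v5 := mul v4 v4; ok v5 && (
  let v6 := sub v2 v4; ok v6 && (
  let v7 := add v2 v4; ok v7 && (
  let v8 := mul v6 v7; ok v8 && (
  let v9 := scale ⟨549755813888, 0, 0, 0⟩ v8; ok v9 && (
  let v10 := inv x0; ok v10 && (
  let v11 := mul v9 v10; ok v11 && (
  let v12 := cst ⟨1099511627776, 0, 0, 0⟩; ok v12 && (
  let v13 := mul v11 v11; ok v13 && (
  let v14 := cst ⟨12837657247744, 0, 0, 0⟩; ok v14 && (
  let v15 := add v13 v14; ok v15 && (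
  let v16 := scale ⟨0, 0, 0, 1099511627776⟩ x2; ok v16 && (
  let v17 := exp v16; ok v17 && (
  let v18 := mul v15 v17; ok v18 && (
  let v19 := sub v18 v13; ok v19 && (
  let v20 := log v19; ok v20 && (
  let v21 := scale ⟨549755813888, 0, 0, 0⟩ v20; ok v21 && (
  let v22 := exp v21; ok v22 && (
  let v23 := scale ⟨0, 0, 1099511627776, 0⟩ v22; ok v23 && (
  let v24 := mul v23 x0; ok v24 && (
  c2_2 cst add sub mul scale neg inv exp log ok isPos isLt ball rball [x0, x1, v24, x3])))))))))))))))))))))))))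
  | _ => false

set_option maxRecDepth 1000000 in
theorem c_E2_0_eq (X : XOps) (m : List X.O.α)
    (h : c_E2_0 X.O.cst X.O.add X.O.sub X.O.mul X.O.scale X.O.neg X.O.inv X.O.exp X.O.log X.O.ok
      X.O.isPos X.O.isLt X.ball X.rball m = true) :
    runX X 3 (p1_E2 ++ reloc [25, 26, 0, 28] 29 0 p2_2) m = true := by
  match m, h with
  | [x0, x1, x2, x3], h => exact share (c2_2_eq X) [x0, x1, x2, x3] (Nat.le_of_ble_eq_true rfl) h

def p_E2_1 : List Op := [
  .mul 0 1,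
  .scale ⟨2199023255552, 0, 0, 0⟩ 0,
  .exp 1,
  .neg 2,
  .exp 0,
  .mul 0 0,
  .sub 3 1,
  .add 4 2,
  .mul 1 0,
  .scale ⟨549755813888, 0, 0, 0⟩ 0,
  .inv 10,
  .mul 1 0,
  .const ⟨1099511627776, 0, 0, 0⟩,
  .mul 1 1,
  .const ⟨12837657247744, 0, 0, 0⟩,
  .add 1 0,
  .scale ⟨0, 0, 0, 1099511627776⟩ 18,
  .exp 0,
  .mul 2 0,
  .sub 0 5,
  .log 0,
  .scale ⟨549755813888, 0, 0, 0⟩ 0,
  .exp 0,
  .scale ⟨0, 0, 1099511627776, 0⟩ 0,
  .mul 0 24,
  .const ⟨73282879488, 0, 0, 0⟩,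
  .sub 26 0,
  .mul 28 28,
  .mul 0 29,
  .mul 2 30,
  .scale ⟨1597613015040, 0, 0, 0⟩ 31,
  .scale ⟨0, 1515899584512, 0, 0⟩ 3,
  .add 1 0,
  .scale ⟨0, 3777009811456, 0, 0⟩ 4,
  .add 1 0,
  .scale ⟨0, 6598169460736, 0, 0⟩ 8,
  .add 1 0,
  .scale ⟨717785792512, 0, 0, 0⟩ 7,
  .add 1 0,
  .const ⟨2309189599232, 0, 0, 0⟩,
  .add 1 0,
  .scale ⟨4398046511104, 0, 0, 0⟩ 39,
  .neg 0,
  .exp 0,
  .mul 38 38,
  .mul 35 4,
  .add 0 33,
  .mul 3 0,
  .scale ⟨1099511627776, 0, 0, 0⟩ 3,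
  .add 0 36,
  .mul 44 0,
  .scale ⟨2199023255552, 0, 0, 0⟩ 0,
  .mul 11 8,
  .sub 1 0,
  .scale ⟨2199023255552, 0, 0, 0⟩ 6,
  .add 7 42,
  .mul 2 0,
  .mul 0 32,
  .mul 10 10,
  .add 0 46,
  .sub 2 0,
  .inv 0,
  .mul 7 0,
  .lt 0 1099511627520]

set_option maxRecDepth 1000000 in
noncomputable def c_E2_1 {α : Type} (cst : Z → α) (add sub mul : α → α → α) (scale : Z → α → α)
    (neg inv exp log : α → α) (ok : α → Bool) (isPos : Nat → α → Bool) (isLt : α → Nat → Bool)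
    (ball : Nat → α → α) (rball : α → α → α) : List α → Bool
  | [x0, x1, x2, x3] =>
  let v0 := mul x0 x1; ok v0 && (
  let v1 := scale ⟨2199023255552, 0, 0, 0⟩ v0; ok v1 && (
  let v2 := exp v0; ok v2 && (
  let v3 := neg v0; ok v3 && (
  let v4 := exp v3; ok v4 && (
  let v5 := mul v4 v4; ok v5 && (
  let v6 := sub v2 v4; ok v6 && (
  let v7 := add v2 v4; ok v7 && (
  let v8 := mul v6 v7; ok v8 && (
  let v9 := scale ⟨549755813888, 0, 0, 0⟩ v8; ok v9 && (
  let v10 := inv x0; ok v10 && (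
  let v11 := mul v9 v10; ok v11 && (
  let v12 := cst ⟨1099511627776, 0, 0, 0⟩; ok v12 && (
  let v13 := mul v11 v11; ok v13 && (
  let v14 := cst ⟨12837657247744, 0, 0, 0⟩; ok v14 && (
  let v15 := add v13 v14; ok v15 && (
  let v16 := scale ⟨0, 0, 0, 1099511627776⟩ x2; ok v16 && (
  let v17 := exp v16; ok v17 && (
  let v18 := mul v15 v17; ok v18 && (
  let v19 := sub v18 v13; ok v19 && (
  let v20 := log v19; ok v20 && (
  let v21 := scale ⟨549755813888, 0, 0, 0⟩ v20; ok v21 && (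
  let v22 := exp v21; ok v22 && (
  let v23 := scale ⟨0, 0, 1099511627776, 0⟩ v22; ok v23 && (
  let v24 := mul v23 x0; ok v24 && (
  let v25 := cst ⟨73282879488, 0, 0, 0⟩; ok v25 && (
  let v26 := sub x0 v25; ok v26 && (
  let v27 := mul x1 x1; ok v27 && (
  let v28 := mul v27 x1; ok v28 && (
  let v29 := mul v26 x1; ok v29 && (
  let v30 := scale ⟨1597613015040, 0, 0, 0⟩ x1; ok v30 && (
  let v31 := scale ⟨0, 1515899584512, 0, 0⟩ v27; ok v31 && (
  let v32 := add v30 v31; ok v32 && (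
  let v33 := scale ⟨0, 3777009811456, 0, 0⟩ v28; ok v33 && (
  let v34 := add v32 v33; ok v34 && (
  let v35 := scale ⟨0, 6598169460736, 0, 0⟩ v26; ok v35 && (
  let v36 := add v34 v35; ok v36 && (
  let v37 := scale ⟨717785792512, 0, 0, 0⟩ v29; ok v37 && (
  let v38 := add v36 v37; ok v38 && (
  let v39 := cst ⟨2309189599232, 0, 0, 0⟩; ok v39 && (
  let v40 := add v38 v39; ok v40 && (
  let v41 := scale ⟨4398046511104, 0, 0, 0⟩ v1; ok v41 && (
  let v42 := neg v41; ok v42 && (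
  let v43 := exp v42; ok v43 && (
  let v44 := mul v5 v5; ok v44 && (
  let v45 := mul v9 v40; ok v45 && (
  let v46 := add v45 v12; ok v46 && (
  let v47 := mul v43 v46; ok v47 && (
  let v48 := scale ⟨1099511627776, 0, 0, 0⟩ v44; ok v48 && (
  let v49 := add v48 v12; ok v49 && (
  let v50 := mul v5 v49; ok v50 && (
  let v51 := scale ⟨2199023255552, 0, 0, 0⟩ v50; ok v51 && (
  let v52 := mul v40 v43; ok v52 && (
  let v53 := sub v51 v52; ok v53 && (
  let v54 := scale ⟨2199023255552, 0, 0, 0⟩ v47; ok v54 && (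
  let v55 := add v47 v12; ok v55 && (
  let v56 := mul v53 v55; ok v56 && (
  let v57 := mul v56 v24; ok v57 && (
  let v58 := mul v47 v47; ok v58 && (
  let v59 := add v58 v12; ok v59 && (
  let v60 := sub v57 v59; ok v60 && (
  let v61 := inv v60; ok v61 && (
  let v62 := mul v54 v61; ok v62 && (
  isLt v62 1099511627520 && (
  true))))))))))))))))))))))))))))))))))))))))))))))))))))))))))))))))
  | _ => false

set_option maxRecDepth 1000000 in
theorem c_E2_1_eq (X : XOps) (m : List X.O.α)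
    (h : c_E2_1 X.O.cst X.O.add X.O.sub X.O.mul X.O.scale X.O.neg X.O.inv X.O.exp X.O.log X.O.ok
      X.O.isPos X.O.isLt X.ball X.rball m = true) :
    runX X 3 p_E2_1 m = true := by
  match m, h with
  | [x0, x1, x2, x3], h => exact h

def p_E2_2 : List Op := [
  .mul 0 1,
  .scale ⟨2199023255552, 0, 0, 0⟩ 0,
  .exp 1,
  .neg 2,
  .exp 0,
  .mul 0 0,
  .sub 3 1,
  .add 4 2,
  .mul 1 0,
  .scale ⟨549755813888, 0, 0, 0⟩ 0,
  .inv 10,
  .mul 1 0,
  .const ⟨1099511627776, 0, 0, 0⟩,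
  .const ⟨73282879488, 0, 0, 0⟩,
  .sub 14 0,
  .mul 16 16,
  .mul 0 17,
  .mul 2 18,
  .scale ⟨1597613015040, 0, 0, 0⟩ 19,
  .scale ⟨0, 1515899584512, 0, 0⟩ 3,
  .add 1 0,
  .scale ⟨0, 3777009811456, 0, 0⟩ 4,
  .add 1 0,
  .scale ⟨0, 6598169460736, 0, 0⟩ 8,
  .add 1 0,
  .scale ⟨717785792512, 0, 0, 0⟩ 7,
  .add 1 0,
  .const ⟨2309189599232, 0, 0, 0⟩,
  .add 1 0,
  .scale ⟨4398046511104, 0, 0, 0⟩ 27,
  .neg 0,
  .exp 0,
  .mul 26 26,
  .mul 23 4,
  .add 0 21,
  .mul 3 0,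
  .scale ⟨1099511627776, 0, 0, 0⟩ 3,
  .add 0 24,
  .mul 32 0,
  .scale ⟨2199023255552, 0, 0, 0⟩ 0,
  .mul 11 8,
  .sub 1 0,
  .mul 30 30,
  .const ⟨12837657247744, 0, 0, 0⟩,
  .add 1 0,
  .scale ⟨0, 0, 0, 1099511627776⟩ 47,
  .exp 0,
  .mul 2 0,
  .sub 5 0,
  .add 13 36,
  .mul 7 8,
  .mul 0 51,
  .inv 0,
  .mul 3 0,
  .mul 0 0,
  .mul 6 0,
  .lt 0 1099511627520]

set_option maxRecDepth 1000000 in
noncomputable def c_E2_2 {α : Type} (cst : Z → α) (add sub mul : α → α → α) (scale : Z → α → α)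
    (neg inv exp log : α → α) (ok : α → Bool) (isPos : Nat → α → Bool) (isLt : α → Nat → Bool)
    (ball : Nat → α → α) (rball : α → α → α) : List α → Bool
  | [x0, x1, x2, x3] =>
  let v0 := mul x0 x1; ok v0 && (
  let v1 := scale ⟨2199023255552, 0, 0, 0⟩ v0; ok v1 && (
  let v2 := exp v0; ok v2 && (
  let v3 := neg v0; ok v3 && (
  let v4 := exp v3; ok v4 && (
  let v5 := mul v4 v4; ok v5 && (
  let v6 := sub v2 v4; ok v6 && (
  let v7 := add v2 v4; ok v7 && (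
  let v8 := mul v6 v7; ok v8 && (
  let v9 := scale ⟨549755813888, 0, 0, 0⟩ v8; ok v9 && (
  let v10 := inv x0; ok v10 && (
  let v11 := mul v9 v10; ok v11 && (
  let v12 := cst ⟨1099511627776, 0, 0, 0⟩; ok v12 && (
  let v13 := cst ⟨73282879488, 0, 0, 0⟩; ok v13 && (
  let v14 := sub x0 v13; ok v14 && (
  let v15 := mul x1 x1; ok v15 && (
  let v16 := mul v15 x1; ok v16 && (
  let v17 := mul v14 x1; ok v17 && (
  let v18 := scale ⟨1597613015040, 0, 0, 0⟩ x1; ok v18 && (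
  let v19 := scale ⟨0, 1515899584512, 0, 0⟩ v15; ok v19 && (
  let v20 := add v18 v19; ok v20 && (
  let v21 := scale ⟨0, 3777009811456, 0, 0⟩ v16; ok v21 && (
  let v22 := add v20 v21; ok v22 && (
  let v23 := scale ⟨0, 6598169460736, 0, 0⟩ v14; ok v23 && (
  let v24 := add v22 v23; ok v24 && (
  let v25 := scale ⟨717785792512, 0, 0, 0⟩ v17; ok v25 && (
  let v26 := add v24 v25; ok v26 && (
  let v27 := cst ⟨2309189599232, 0, 0, 0⟩; ok v27 && (
  let v28 := add v26 v27; ok v28 && (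
  let v29 := scale ⟨4398046511104, 0, 0, 0⟩ v1; ok v29 && (
  let v30 := neg v29; ok v30 && (
  let v31 := exp v30; ok v31 && (
  let v32 := mul v5 v5; ok v32 && (
  let v33 := mul v9 v28; ok v33 && (
  let v34 := add v33 v12; ok v34 && (
  let v35 := mul v31 v34; ok v35 && (
  let v36 := scale ⟨1099511627776, 0, 0, 0⟩ v32; ok v36 && (
  let v37 := add v36 v12; ok v37 && (
  let v38 := mul v5 v37; ok v38 && (
  let v39 := scale ⟨2199023255552, 0, 0, 0⟩ v38; ok v39 && (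
  let v40 := mul v28 v31; ok v40 && (
  let v41 := sub v39 v40; ok v41 && (
  let v42 := mul v11 v11; ok v42 && (
  let v43 := cst ⟨12837657247744, 0, 0, 0⟩; ok v43 && (
  let v44 := add v42 v43; ok v44 && (
  let v45 := scale ⟨0, 0, 0, 1099511627776⟩ x2; ok v45 && (
  let v46 := exp v45; ok v46 && (
  let v47 := mul v44 v46; ok v47 && (
  let v48 := sub v42 v47; ok v48 && (
  let v49 := add v35 v12; ok v49 && (
  let v50 := mul v42 v41; ok v50 && (
  let v51 := mul v50 x0; ok v51 && (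
  let v52 := inv v51; ok v52 && (
  let v53 := mul v49 v52; ok v53 && (
  let v54 := mul v53 v53; ok v54 && (
  let v55 := mul v48 v54; ok v55 && (
  isLt v55 1099511627520 && (
  true)))))))))))))))))))))))))))))))))))))))))))))))))))))))))
  | _ => false

set_option maxRecDepth 1000000 in
theorem c_E2_2_eq (X : XOps) (m : List X.O.α)
    (h : c_E2_2 X.O.cst X.O.add X.O.sub X.O.mul X.O.scale X.O.neg X.O.inv X.O.exp X.O.log X.O.ok
      X.O.isPos X.O.isLt X.ball X.rball m = true) :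
    runX X 3 p_E2_2 m = true := by
  match m, h with
  | [x0, x1, x2, x3], h => exact h

abbrev gE2 : List (List Op) := [(p1_E2 ++ reloc [25, 26, 0, 28] 29 0 p2_2), p_E2_1, p_E2_2]

noncomputable abbrev kE2 : List (List xE.O.α → Bool) := [c_E2_0 xE.O.cst xE.O.add xE.O.sub xE.O.mul xE.O.scale xE.O.neg xE.O.inv xE.O.exp xE.O.log xE.O.ok
      xE.O.isPos xE.O.isLt xE.ball xE.rball, c_E2_1 xE.O.cst xE.O.add xE.O.sub xE.O.mul xE.O.scale xE.O.neg xE.O.inv xE.O.exp xE.O.log xE.O.ok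
      xE.O.isPos xE.O.isLt xE.ball xE.rball, c_E2_2 xE.O.cst xE.O.add xE.O.sub xE.O.mul xE.O.scale xE.O.neg xE.O.inv xE.O.exp xE.O.log xE.O.ok
      xE.O.isPos xE.O.isLt xE.ball xE.rball]

theorem kE2_eq : List.Forall₂ (fun (ops : List Op) (chk : List xE.O.α → Bool) =>
    ∀ m, chk m = true → runX xE 3 ops m = true) gE2 kE2 :=
  List.Forall₂.cons (c_E2_0_eq xE) (List.Forall₂.cons (c_E2_1_eq xE) (List.Forall₂.cons (c_E2_2_eq xE) List.Forall₂.nil))

theorem gE2_eq : gE2 = [circ (chE tab 2) (P2m tab 2), altP (chE tab 2) (outDisc tab 2), altL tab 2] := by decide +kernel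

end Pool.Agent.helper14.NR.E12a
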