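import Pool.Agent.helper14.NR.E12a.Tab
import Pool.Agent.helper14.NR.Share

/-!
Generated: programs and compiled forms.
-/

namespace Pool.Agent.helper14.NR.E12a

open Pool.Agent.helper31.IA (Z)
open Pool.Agent.helper31.IX (Op XOps runX Cov CovD cov_split covD_split)
open Pool.Agent.helper31.IC (TD)
open Pool.Agent.helper63.RG (reloc)
open Pool.Agent.helper63.NF hiding TD
open Pool.Agent.helper14.CF (xE covD_E)
open Pool.Agent.helper14.NR (share)

def p_Z_0 : List Op := [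
  .pos 0,
  .inv 0,
  .mul 1 2,
  .scale ⟨2199023255552, 0, 0, 0⟩ 0,
  .exp 1,
  .neg 2,
  .exp 0,
  .mul 2 2,
  .mul 1 1,
  .mul 0 0,
  .sub 5 3,
  .add 6 4,
  .mul 1 0,
  .scale ⟨549755813888, 0, 0, 0⟩ 0,
  .mul 3 3,
  .mul 1 13,
  .scale ⟨2199023255552, 0, 0, 0⟩ 16,
  .neg 0,
  .exp 0,
  .const ⟨1099511627776, 0, 0, 0⟩,
  .add 1 0,
  .pos 0,
  .inv 0,
  .mul 3 0,
  .add 15 14,
  .scale ⟨549755813888, 0, 0, 0⟩ 0,
  .const ⟨73282879488, 0, 0, 0⟩,
  .sub 25 0,
  .mul 27 27,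
  .mul 0 28,
  .mul 2 29,
  .mul 3 2,
  .mul 4 4,
  .mul 0 32,
  .mul 1 6,
  .scale ⟨42172396096, 0, 0, 0⟩ 34,
  .scale ⟨0, 48427854528, 0, 0⟩ 7,
  .add 1 0,
  .scale ⟨66093996032, 0, 0, 0⟩ 8,
  .add 1 0,
  .scale ⟨0, 1044675583488, 0, 0⟩ 12,
  .add 1 0,
  .scale ⟨410170653504, 0, 0, 0⟩ 11,
  .add 1 0,
  .scale ⟨0, 420259439232, 0, 0⟩ 12,
  .add 1 0,
  .scale ⟨0, 331523791552, 0, 0⟩ 13,
  .add 1 0,
  .scale ⟨10714258418368, 0, 0, 0⟩ 14,
  .add 1 0,
  .scale ⟨33047020316544, 0, 0, 0⟩ 15,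
  .add 1 0,
  .const ⟨496709953792, 0, 0, 0⟩,
  .add 1 0,
  .scale ⟨0, 4887813888, 0, 0⟩ 53,
  .scale ⟨0, 691350336, 0, 0⟩ 26,
  .add 1 0,
  .scale ⟨175688843200, 0, 0, 0⟩ 29,
  .add 1 0,
  .scale ⟨0, 137678679232, 0, 0⟩ 28,
  .add 1 0,
  .scale ⟨44561730752, 0, 0, 0⟩ 28,
  .add 1 0,
  .const ⟨11108343872, 0, 0, 0⟩,
  .add 1 0,
  .scale ⟨216169536, 0, 0, 0⟩ 64,
  .scale ⟨0, 15447747392, 0, 0⟩ 38,
  .add 1 0,
  .const ⟨0, 1652812096, 0, 0⟩,
  .add 1 0,
  .scale ⟨0, 0, 1099511627776, 0⟩ 70,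
  .scale ⟨549755813888, 0, 0, 0⟩ 0,
  .add 0 51,
  .inv 0,
  .mul 3 0,
  .scale ⟨0, 1489715156736, 0, 0⟩ 0,
  .const ⟨3808518404736, 0, 0, 0⟩,
  .add 1 0,
  .mul 3 0,
  .const ⟨0, 5930847192576, 0, 0⟩,
  .add 1 0,
  .mul 6 0,
  .scale ⟨72903352064, 0, 0, 0⟩ 81,
  .scale ⟨0, 13327240426944, 0, 0⟩ 55,
  .add 1 0,
  .const ⟨5176032911104, 0, 0, 0⟩,
  .add 1 0,
  .add 5 0,
  .mul 13 0,
  .scale ⟨0, 146286612672, 0, 0⟩ 88,
  .scale ⟨4086113951296, 0, 0, 0⟩ 62,
  .add 1 0,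
  .const ⟨0, 2671049308288, 0, 0⟩,
  .add 1 0,
  .add 5 0,
  .mul 20 0,
  .scale ⟨230935292288, 0, 0, 0⟩ 95,
  .scale ⟨0, 11591914972544, 0, 0⟩ 69,
  .add 1 0,
  .const ⟨791235151872, 0, 0, 0⟩,
  .add 1 0,
  .add 5 0,
  .mul 27 0,
  .scale ⟨0, 138882717696, 0, 0⟩ 102,
  .scale ⟨0, 125902193344, 0, 0⟩ 75,
  .add 1 0,
  .scale ⟨0, 14103045878720, 0, 0⟩ 78,
  .add 1 0,
  .scale ⟨0, 2459977357056, 0, 0⟩ 77,
  .add 1 0,
  .scale ⟨13284218553792, 0, 0, 0⟩ 77,
  .add 1 0,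
  .const ⟨820299374080, 0, 0, 0⟩,
  .add 1 0,
  .add 11 0,
  .mul 40 0,
  .scale ⟨74203681088, 0, 0, 0⟩ 115,
  .scale ⟨2645134912, 0, 0, 0⟩ 88,
  .add 1 0,
  .scale ⟨2386416186624, 0, 0, 0⟩ 91,
  .add 1 0,
  .scale ⟨509935246144, 0, 0, 0⟩ 90,
  .add 1 0,
  .scale ⟨0, 13371538676672, 0, 0⟩ 90,
  .add 1 0,
  .const ⟨3531408848576, 0, 0, 0⟩,
  .add 1 0,
  .add 11 0,
  .mul 53 0,
  .scale ⟨0, 126907131904, 0, 0⟩ 128,
  .scale ⟨2982959688896, 0, 0, 0⟩ 101,
  .add 1 0,
  .scale ⟨0, 5892906016128, 0, 0⟩ 102,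
  .add 1 0,
  .scale ⟨0, 1190478863232, 0, 0⟩ 106,
  .add 1 0,
  .scale ⟨8176399516352, 0, 0, 0⟩ 105,
  .add 1 0,
  .scale ⟨0, 10026068441472, 0, 0⟩ 106,
  .add 1 0,
  .scale ⟨17585973073152, 0, 0, 0⟩ 107,
  .add 1 0,
  .scale ⟨0, 13805769336960, 0, 0⟩ 108,
  .add 1 0,
  .scale ⟨0, 206948769504960, 0, 0⟩ 109,
  .add 1 0,
  .const ⟨4489397888, 0, 0, 0⟩,
  .add 1 0,
  .mul 0 147,
  .add 20 0,
  .mul 148 148,
  .scale ⟨5703716569088, 0, 0, 0⟩ 0,
  .const ⟨1726576852992, 0, 0, 0⟩,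
  .add 1 0,
  .scale ⟨4398046511104, 0, 0, 0⟩ 153,
  .mul 80 1,
  .scale ⟨4398046511104, 0, 0, 0⟩ 0,
  .add 2 0,
  .scale ⟨180918812672, 0, 0, 0⟩ 157,
  .scale ⟨784018571264, 0, 0, 0⟩ 130,
  .add 1 0,
  .scale ⟨0, 2238867243008, 0, 0⟩ 131,
  .add 1 0,
  .scale ⟨0, 20588658688, 0, 0⟩ 135,
  .add 1 0,
  .scale ⟨2424105730048, 0, 0, 0⟩ 134,
  .add 1 0,
  .const ⟨108779274240, 0, 0, 0⟩,
  .add 1 0,
  .mul 0 11,
  .scale ⟨879662989312, 0, 0, 0⟩ 12,
  .add 0 150,
  .pos 0,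
  .inv 0,
  .mul 3 0,
  .neg 24,
  .exp 0,
  .add 0 155,
  .pos 0,
  .log 0,
  .mul 4 179,
  .sub 158 0,
  .log 0,
  .mul 5 2,
  .add 0 161,
  .pos 0,
  .log 0,
  .scale ⟨274877906944, 0, 0, 0⟩ 168,
  .log 163,
  .add 185 0,
  .sub 9 3,
  .sub 0 1,
  .mul 0 187,
  .exp 0,
  .sub 7 10,
  .add 0 42,
  .mul 0 191,
  .exp 0,
  .mul 193 41,
  .scale ⟨1649267441664, 0, 0, 0⟩ 11,
  .add 0 176,
  .mul 2 0,
  .mul 199 0,
  .scale ⟨0, 0, 1099511627776, 0⟩ 0,
  .mul 0 0,
  .sub 17 0,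
  .mul 12 12,
  .mul 0 1,
  .scale ⟨4398046511104, 0, 0, 0⟩ 0,
  .sub 185 0,
  .log 0,
  .scale ⟨549755813888, 0, 0, 0⟩ 0,
  .exp 0,
  .mul 19 9,
  .mul 0 1,
  .mul 27 17,
  .scale ⟨2199023255552, 0, 0, 0⟩ 10,
  .add 1 0,
  .mul 11 0,
  .add 0 4,
  .mul 22 0,
  .scale ⟨4398046511104, 0, 0, 0⟩ 0,
  .add 0 198,
  .log 0,
  .scale ⟨549755813888, 0, 0, 0⟩ 0,
  .exp 0,
  .sub 0 197,
  .mul 207 207,
  .const ⟨11739219361792, 0, 0, 0⟩,
  .add 1 0,
  .pos 0,
  .inv 0,
  .mul 4 225,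
  .mul 0 0,
  .sub 0 5,
  .mul 0 3,
  .lt 0 1099510579200,
  .mul 41 31,
  .scale ⟨2199023255552, 0, 0, 0⟩ 0,
  .sub 24 0,
  .pos 0,
  .mul 34 222,
  .add 210 0,
  .inv 0,
  .sub 212 0,
  .sub 15 0,
  .scale ⟨1683715784704, 0, 0, 0⟩ 239,
  .scale ⟨145252876288, 0, 0, 0⟩ 212,
  .add 1 0,
  .scale ⟨0, 4539106852864, 0, 0⟩ 213,
  .add 1 0,
  .scale ⟨0, 7114998874112, 0, 0⟩ 217,
  .add 1 0,
  .scale ⟨0, 5241612402688, 0, 0⟩ 216,
  .add 1 0,
  .const ⟨1495860051968, 0, 0, 0⟩,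
  .add 1 0,
  .add 15 236,
  .inv 0,
  .mul 243 16,
  .mul 1 0,
  .mul 0 15,
  .scale ⟨2199023255552, 0, 0, 0⟩ 230,
  .mul 0 1,
  .add 2 237,
  .inv 0,
  .mul 5 0,
  .mul 0 252,
  .mul 0 253,
  .inv 12,
  .mul 1 0,
  .mul 7 0,
  .lt 0 1099510579200,
  .add 240 42,
  .pos 0,
  .inv 0,
  .mul 0 0,
  .sub 248 0,
  .mul 0 267,
  .sub 260 2,
  .mul 0 269,
  .scale ⟨0, 5669356830720, 0, 0⟩ 245,
  .const ⟨0, 756719550464, 0, 0⟩,
  .add 1 0,
  .sub 5 0,
  .pos 0,
  .inv 0,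
  .scale ⟨31362867265536, 0, 0, 0⟩ 0,
  .add 2 0,
  .pos 0,
  .inv 0,
  .scale ⟨0, 209880174976, 0, 0⟩ 280,
  .scale ⟨1611298385536, 0, 0, 0⟩ 254,
  .add 1 0,
  .const ⟨92142591104, 0, 0, 0⟩,
  .add 1 0,
  .scale ⟨216841913024, 0, 0, 0⟩ 285,
  .scale ⟨28832252189888, 0, 0, 0⟩ 259,
  .add 1 0,
  .const ⟨1407557260096, 0, 0, 0⟩,
  .add 1 0,
  .mul 13 0,
  .add 6 0,
  .mul 0 12,
  .scale ⟨0, 5336064, 0, 0⟩ 23,
  .const ⟨132853632, 0, 0, 0⟩,
  .add 1 0,
  .mul 26 0,
  .add 0 228,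
  .mul 28 0,
  .add 0 235,
  .mul 30 0,
  .add 8 248,
  .add 1 0,
  .mul 31 0,
  .neg 0,
  .exp 0,
  .sub 0 286,
  .add 0 287,
  .mul 289 0,
  .add 0 289,
  .pos 0,
  .mul 287 3,
  .add 0 291,
  .pos 0,
  .log 0,
  .add 90 299,
  .add 165 137,
  .sub 0 130,
  .sub 0 3,
  .scale ⟨549755813888, 0, 0, 0⟩ 315,
  .mul 98 0,
  .sub 2 0,
  .exp 0,
  .scale ⟨134097010688, 0, 0, 0⟩ 247,
  .const ⟨20480524288, 0, 0, 0⟩,
  .add 1 0,
  .mul 250 0,
  .const ⟨0, 251606990848, 0, 0⟩,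
  .add 1 0,
  .mul 253 0,
  .scale ⟨0, 1511784448, 0, 0⟩ 328,
  .scale ⟨0, 679710425088, 0, 0⟩ 302,
  .add 1 0,
  .const ⟨413334437888, 0, 0, 0⟩,
  .add 1 0,
  .add 5 0,
  .mul 260 0,
  .scale ⟨9505800192, 0, 0, 0⟩ 335,
  .scale ⟨4530193104896, 0, 0, 0⟩ 309,
  .add 1 0,
  .const ⟨81881858048, 0, 0, 0⟩,
  .add 1 0,
  .add 5 0,
  .mul 267 0,
  .scale ⟨2784231424, 0, 0, 0⟩ 342,
  .scale ⟨41549496320, 0, 0, 0⟩ 315,
  .add 1 0,
  .scale ⟨0, 556204490752, 0, 0⟩ 318,
  .add 1 0,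
  .scale ⟨875675516928, 0, 0, 0⟩ 317,
  .add 1 0,
  .scale ⟨6372753342464, 0, 0, 0⟩ 317,
  .add 1 0,
  .const ⟨1100414320640, 0, 0, 0⟩,
  .add 1 0,
  .add 11 0,
  .inv 185,
  .mul 0 184,
  .scale ⟨84973977600, 0, 0, 0⟩ 356,
  .scale ⟨0, 334568947712, 0, 0⟩ 329,
  .add 1 0,
  .scale ⟨72486748160, 0, 0, 0⟩ 330,
  .add 1 0,
  .scale ⟨216943820800, 0, 0, 0⟩ 334,
  .add 1 0,
  .scale ⟨277899968512, 0, 0, 0⟩ 333,
  .add 1 0,
  .const ⟨76698091520, 0, 0, 0⟩,
  .add 1 0,
  .scale ⟨2199023255552, 0, 0, 0⟩ 0,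
  .mul 0 54,
  .scale ⟨1099511627776, 0, 0, 0⟩ 146,
  .add 0 369,
  .inv 0,
  .mul 3 0,
  .const ⟨0, 0, 0, 0⟩,
  .mul 20 53,
  .mul 0 66,
  .mul 0 3,
  .mul 0 21,
  .rball 4 0,
  .sub 359 25,
  .mul 382 0,
  .sub 361 60,
  .mul 0 26,
  .mul 29 0,
  .add 3 0,
  .add 0 6,
  .lt 0 1099510579200]

set_option maxRecDepth 1000000 in
noncomputable def c_Z_0 {α : Type} (cst : Z → α) (add sub mul : α → α → α) (scale : Z → α → α)
    (neg inv exp log : α → α) (ok : α → Bool) (isPos : Nat → α → Bool) (isLt : α → Nat → Bool)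
    (ball : Nat → α → α) (rball : α → α → α) : List α → Bool
  | [x0, x1, x2, x3] =>
  isPos 3 x0 && (
  let v0 := inv x0; ok v0 && (
  let v1 := mul x0 x1; ok v1 && (
  let v2 := scale ⟨2199023255552, 0, 0, 0⟩ v1; ok v2 && (
  let v3 := exp v1; ok v3 && (
  let v4 := neg v1; ok v4 && (
  let v5 := exp v4; ok v5 && (
  let v6 := mul v3 v3; ok v6 && (
  let v7 := mul v5 v5; ok v7 && (
  let v8 := mul v7 v7; ok v8 && (
  let v9 := sub v3 v5; ok v9 && (
  let v10 := add v3 v5; ok v10 && (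
  let v11 := mul v9 v10; ok v11 && (
  let v12 := scale ⟨549755813888, 0, 0, 0⟩ v11; ok v12 && (
  let v13 := mul v9 v9; ok v13 && (
  let v14 := mul v12 v0; ok v14 && (
  let v15 := scale ⟨2199023255552, 0, 0, 0⟩ x1; ok v15 && (
  let v16 := neg v15; ok v16 && (
  let v17 := exp v16; ok v17 && (
  let v18 := cst ⟨1099511627776, 0, 0, 0⟩; ok v18 && (
  let v19 := add v17 v18; ok v19 && (
  isPos 3 v19 && (
  let v20 := inv v19; ok v20 && (
  let v21 := mul v17 v20; ok v21 && (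
  let v22 := add v6 v7; ok v22 && (
  let v23 := scale ⟨549755813888, 0, 0, 0⟩ v22; ok v23 && (
  let v24 := cst ⟨73282879488, 0, 0, 0⟩; ok v24 && (
  let v25 := sub x0 v24; ok v25 && (
  let v26 := mul x1 x1; ok v26 && (
  let v27 := mul v26 x1; ok v27 && (
  let v28 := mul v25 x1; ok v28 && (
  let v29 := mul v25 v26; ok v29 && (
  let v30 := mul v25 v25; ok v30 && (
  let v31 := mul v30 x1; ok v31 && (
  let v32 := mul v30 v25; ok v32 && (
  let v33 := scale ⟨42172396096, 0, 0, 0⟩ x1; ok v33 && (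
  let v34 := scale ⟨0, 48427854528, 0, 0⟩ v26; ok v34 && (
  let v35 := add v33 v34; ok v35 && (
  let v36 := scale ⟨66093996032, 0, 0, 0⟩ v27; ok v36 && (
  let v37 := add v35 v36; ok v37 && (
  let v38 := scale ⟨0, 1044675583488, 0, 0⟩ v25; ok v38 && (
  let v39 := add v37 v38; ok v39 && (
  let v40 := scale ⟨410170653504, 0, 0, 0⟩ v28; ok v40 && (
  let v41 := add v39 v40; ok v41 && (
  let v42 := scale ⟨0, 420259439232, 0, 0⟩ v29; ok v42 && (
  let v43 := add v41 v42; ok v43 && (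
  let v44 := scale ⟨0, 331523791552, 0, 0⟩ v30; ok v44 && (
  let v45 := add v43 v44; ok v45 && (
  let v46 := scale ⟨10714258418368, 0, 0, 0⟩ v31; ok v46 && (
  let v47 := add v45 v46; ok v47 && (
  let v48 := scale ⟨33047020316544, 0, 0, 0⟩ v32; ok v48 && (
  let v49 := add v47 v48; ok v49 && (
  let v50 := cst ⟨496709953792, 0, 0, 0⟩; ok v50 && (
  let v51 := add v49 v50; ok v51 && (
  let v52 := scale ⟨0, 4887813888, 0, 0⟩ x1; ok v52 && (
  let v53 := scale ⟨0, 691350336, 0, 0⟩ v26; ok v53 && (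
  let v54 := add v52 v53; ok v54 && (
  let v55 := scale ⟨175688843200, 0, 0, 0⟩ v25; ok v55 && (
  let v56 := add v54 v55; ok v56 && (
  let v57 := scale ⟨0, 137678679232, 0, 0⟩ v28; ok v57 && (
  let v58 := add v56 v57; ok v58 && (
  let v59 := scale ⟨44561730752, 0, 0, 0⟩ v30; ok v59 && (
  let v60 := add v58 v59; ok v60 && (
  let v61 := cst ⟨11108343872, 0, 0, 0⟩; ok v61 && (
  let v62 := add v60 v61; ok v62 && (
  let v63 := scale ⟨216169536, 0, 0, 0⟩ x1; ok v63 && (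
  let v64 := scale ⟨0, 15447747392, 0, 0⟩ v25; ok v64 && (
  let v65 := add v63 v64; ok v65 && (
  let v66 := cst ⟨0, 1652812096, 0, 0⟩; ok v66 && (
  let v67 := add v65 v66; ok v67 && (
  let v68 := scale ⟨0, 0, 1099511627776, 0⟩ x2; ok v68 && (
  let v69 := scale ⟨549755813888, 0, 0, 0⟩ v68; ok v69 && (
  let v70 := add v69 v18; ok v70 && (
  let v71 := inv v70; ok v71 && (
  let v72 := mul v68 v71; ok v72 && (
  let v73 := scale ⟨0, 1489715156736, 0, 0⟩ v72; ok v73 && (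
  let v74 := cst ⟨3808518404736, 0, 0, 0⟩; ok v74 && (
  let v75 := add v73 v74; ok v75 && (
  let v76 := mul v72 v75; ok v76 && (
  let v77 := cst ⟨0, 5930847192576, 0, 0⟩; ok v77 && (
  let v78 := add v76 v77; ok v78 && (
  let v79 := mul v72 v78; ok v79 && (
  let v80 := scale ⟨72903352064, 0, 0, 0⟩ x1; ok v80 && (
  let v81 := scale ⟨0, 13327240426944, 0, 0⟩ v25; ok v81 && (
  let v82 := add v80 v81; ok v82 && (
  let v83 := cst ⟨5176032911104, 0, 0, 0⟩; ok v83 && (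
  let v84 := add v82 v83; ok v84 && (
  let v85 := add v79 v84; ok v85 && (
  let v86 := mul v72 v85; ok v86 && (
  let v87 := scale ⟨0, 146286612672, 0, 0⟩ x1; ok v87 && (
  let v88 := scale ⟨4086113951296, 0, 0, 0⟩ v25; ok v88 && (
  let v89 := add v87 v88; ok v89 && (
  let v90 := cst ⟨0, 2671049308288, 0, 0⟩; ok v90 && (
  let v91 := add v89 v90; ok v91 && (
  let v92 := add v86 v91; ok v92 && (
  let v93 := mul v72 v92; ok v93 && (
  let v94 := scale ⟨230935292288, 0, 0, 0⟩ x1; ok v94 && (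
  let v95 := scale ⟨0, 11591914972544, 0, 0⟩ v25; ok v95 && (
  let v96 := add v94 v95; ok v96 && (
  let v97 := cst ⟨791235151872, 0, 0, 0⟩; ok v97 && (
  let v98 := add v96 v97; ok v98 && (
  let v99 := add v93 v98; ok v99 && (
  let v100 := mul v72 v99; ok v100 && (
  let v101 := scale ⟨0, 138882717696, 0, 0⟩ x1; ok v101 && (
  let v102 := scale ⟨0, 125902193344, 0, 0⟩ v26; ok v102 && (
  let v103 := add v101 v102; ok v103 && (
  let v104 := scale ⟨0, 14103045878720, 0, 0⟩ v25; ok v104 && (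
  let v105 := add v103 v104; ok v105 && (
  let v106 := scale ⟨0, 2459977357056, 0, 0⟩ v28; ok v106 && (
  let v107 := add v105 v106; ok v107 && (
  let v108 := scale ⟨13284218553792, 0, 0, 0⟩ v30; ok v108 && (
  let v109 := add v107 v108; ok v109 && (
  let v110 := cst ⟨820299374080, 0, 0, 0⟩; ok v110 && (
  let v111 := add v109 v110; ok v111 && (
  let v112 := add v100 v111; ok v112 && (
  let v113 := mul v72 v112; ok v113 && (
  let v114 := scale ⟨74203681088, 0, 0, 0⟩ x1; ok v114 && (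
  let v115 := scale ⟨2645134912, 0, 0, 0⟩ v26; ok v115 && (
  let v116 := add v114 v115; ok v116 && (
  let v117 := scale ⟨2386416186624, 0, 0, 0⟩ v25; ok v117 && (
  let v118 := add v116 v117; ok v118 && (
  let v119 := scale ⟨509935246144, 0, 0, 0⟩ v28; ok v119 && (
  let v120 := add v118 v119; ok v120 && (
  let v121 := scale ⟨0, 13371538676672, 0, 0⟩ v30; ok v121 && (
  let v122 := add v120 v121; ok v122 && (
  let v123 := cst ⟨3531408848576, 0, 0, 0⟩; ok v123 && (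
  let v124 := add v122 v123; ok v124 && (
  let v125 := add v113 v124; ok v125 && (
  let v126 := mul v72 v125; ok v126 && (
  let v127 := scale ⟨0, 126907131904, 0, 0⟩ x1; ok v127 && (
  let v128 := scale ⟨2982959688896, 0, 0, 0⟩ v26; ok v128 && (
  let v129 := add v127 v128; ok v129 && (
  let v130 := scale ⟨0, 5892906016128, 0, 0⟩ v27; ok v130 && (
  let v131 := add v129 v130; ok v131 && (
  let v132 := scale ⟨0, 1190478863232, 0, 0⟩ v25; ok v132 && (
  let v133 := add v131 v132; ok v133 && (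
  let v134 := scale ⟨8176399516352, 0, 0, 0⟩ v28; ok v134 && (
  let v135 := add v133 v134; ok v135 && (
  let v136 := scale ⟨0, 10026068441472, 0, 0⟩ v29; ok v136 && (
  let v137 := add v135 v136; ok v137 && (
  let v138 := scale ⟨17585973073152, 0, 0, 0⟩ v30; ok v138 && (
  let v139 := add v137 v138; ok v139 && (
  let v140 := scale ⟨0, 13805769336960, 0, 0⟩ v31; ok v140 && (
  let v141 := add v139 v140; ok v141 && (
  let v142 := scale ⟨0, 206948769504960, 0, 0⟩ v32; ok v142 && (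
  let v143 := add v141 v142; ok v143 && (
  let v144 := cst ⟨4489397888, 0, 0, 0⟩; ok v144 && (
  let v145 := add v143 v144; ok v145 && (
  let v146 := mul v145 x1; ok v146 && (
  let v147 := add v126 v146; ok v147 && (
  let v148 := mul x0 x0; ok v148 && (
  let v149 := scale ⟨5703716569088, 0, 0, 0⟩ v148; ok v149 && (
  let v150 := cst ⟨1726576852992, 0, 0, 0⟩; ok v150 && (
  let v151 := add v149 v150; ok v151 && (
  let v152 := scale ⟨4398046511104, 0, 0, 0⟩ x1; ok v152 && (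
  let v153 := mul v72 v151; ok v153 && (
  let v154 := scale ⟨4398046511104, 0, 0, 0⟩ v153; ok v154 && (
  let v155 := add v152 v154; ok v155 && (
  let v156 := scale ⟨180918812672, 0, 0, 0⟩ x1; ok v156 && (
  let v157 := scale ⟨784018571264, 0, 0, 0⟩ v26; ok v157 && (
  let v158 := add v156 v157; ok v158 && (
  let v159 := scale ⟨0, 2238867243008, 0, 0⟩ v27; ok v159 && (
  let v160 := add v158 v159; ok v160 && (
  let v161 := scale ⟨0, 20588658688, 0, 0⟩ v25; ok v161 && (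
  let v162 := add v160 v161; ok v162 && (
  let v163 := scale ⟨2424105730048, 0, 0, 0⟩ v28; ok v163 && (
  let v164 := add v162 v163; ok v164 && (
  let v165 := cst ⟨108779274240, 0, 0, 0⟩; ok v165 && (
  let v166 := add v164 v165; ok v166 && (
  let v167 := mul v166 v155; ok v167 && (
  let v168 := scale ⟨879662989312, 0, 0, 0⟩ v155; ok v168 && (
  let v169 := add v168 v18; ok v169 && (
  isPos 3 v169 && (
  let v170 := inv v169; ok v170 && (
  let v171 := mul v167 v170; ok v171 && (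
  let v172 := neg v147; ok v172 && (
  let v173 := exp v172; ok v173 && (
  let v174 := add v173 v18; ok v174 && (
  isPos 3 v174 && (
  let v175 := log v174; ok v175 && (
  let v176 := mul v171 x3; ok v176 && (
  let v177 := sub v18 v176; ok v177 && (
  let v178 := log v177; ok v178 && (
  let v179 := mul v173 v176; ok v179 && (
  let v180 := add v179 v18; ok v180 && (
  isPos 3 v180 && (
  let v181 := log v180; ok v181 && (
  let v182 := scale ⟨274877906944, 0, 0, 0⟩ v13; ok v182 && (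
  let v183 := log v19; ok v183 && (
  let v184 := add x1 v183; ok v184 && (
  let v185 := sub v175 v181; ok v185 && (
  let v186 := sub v185 v184; ok v186 && (
  let v187 := mul v186 x0; ok v187 && (
  let v188 := exp v187; ok v188 && (
  let v189 := sub v181 v178; ok v189 && (
  let v190 := add v189 v147; ok v190 && (
  let v191 := mul v190 x0; ok v191 && (
  let v192 := exp v191; ok v192 && (
  let v193 := mul x0 v151; ok v193 && (
  let v194 := scale ⟨1649267441664, 0, 0, 0⟩ v182; ok v194 && (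
  let v195 := add v194 v18; ok v195 && (
  let v196 := mul v193 v195; ok v196 && (
  let v197 := mul x2 v196; ok v197 && (
  let v198 := scale ⟨0, 0, 1099511627776, 0⟩ v197; ok v198 && (
  let v199 := mul v198 v198; ok v199 && (
  let v200 := sub v182 v199; ok v200 && (
  let v201 := mul v188 v188; ok v201 && (
  let v202 := mul v201 v200; ok v202 && (
  let v203 := scale ⟨4398046511104, 0, 0, 0⟩ v202; ok v203 && (
  let v204 := sub v18 v203; ok v204 && (
  let v205 := log v204; ok v205 && (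
  let v206 := scale ⟨549755813888, 0, 0, 0⟩ v205; ok v206 && (
  let v207 := exp v206; ok v207 && (
  let v208 := mul v188 v198; ok v208 && (
  let v209 := mul v208 v207; ok v209 && (
  let v210 := mul v182 v192; ok v210 && (
  let v211 := scale ⟨2199023255552, 0, 0, 0⟩ v200; ok v211 && (
  let v212 := add v210 v211; ok v212 && (
  let v213 := mul v201 v212; ok v213 && (
  let v214 := add v213 v209; ok v214 && (
  let v215 := mul v192 v214; ok v215 && (
  let v216 := scale ⟨4398046511104, 0, 0, 0⟩ v215; ok v216 && (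
  let v217 := add v216 v18; ok v217 && (
  let v218 := log v217; ok v218 && (
  let v219 := scale ⟨549755813888, 0, 0, 0⟩ v218; ok v219 && (
  let v220 := exp v219; ok v220 && (
  let v221 := sub v220 v23; ok v221 && (
  let v222 := mul v14 v14; ok v222 && (
  let v223 := cst ⟨11739219361792, 0, 0, 0⟩; ok v223 && (
  let v224 := add v222 v223; ok v224 && (
  isPos 3 v224 && (
  let v225 := inv v224; ok v225 && (
  let v226 := mul v221 v0; ok v226 && (
  let v227 := mul v226 v226; ok v227 && (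
  let v228 := sub v227 v222; ok v228 && (
  let v229 := mul v228 v225; ok v229 && (
  isLt v229 1099510579200 && (
  let v230 := mul v188 v198; ok v230 && (
  let v231 := scale ⟨2199023255552, 0, 0, 0⟩ v230; ok v231 && (
  let v232 := sub v207 v231; ok v232 && (
  isPos 3 v232 && (
  let v233 := mul v198 v10; ok v233 && (
  let v234 := add v23 v233; ok v234 && (
  let v235 := inv v234; ok v235 && (
  let v236 := sub v23 v235; ok v236 && (
  let v237 := sub v221 v236; ok v237 && (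
  let v238 := scale ⟨1683715784704, 0, 0, 0⟩ x1; ok v238 && (
  let v239 := scale ⟨145252876288, 0, 0, 0⟩ v26; ok v239 && (
  let v240 := add v238 v239; ok v240 && (
  let v241 := scale ⟨0, 4539106852864, 0, 0⟩ v27; ok v241 && (
  let v242 := add v240 v241; ok v242 && (
  let v243 := scale ⟨0, 7114998874112, 0, 0⟩ v25; ok v243 && (
  let v244 := add v242 v243; ok v244 && (
  let v245 := scale ⟨0, 5241612402688, 0, 0⟩ v28; ok v245 && (
  let v246 := add v244 v245; ok v246 && (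
  let v247 := cst ⟨1495860051968, 0, 0, 0⟩; ok v247 && (
  let v248 := add v246 v247; ok v248 && (
  let v249 := add v233 v12; ok v249 && (
  let v250 := inv v249; ok v250 && (
  let v251 := mul v7 v234; ok v251 && (
  let v252 := mul v250 v251; ok v252 && (
  let v253 := mul v252 v237; ok v253 && (
  let v254 := scale ⟨2199023255552, 0, 0, 0⟩ v23; ok v254 && (
  let v255 := mul v254 v253; ok v255 && (
  let v256 := add v253 v18; ok v256 && (
  let v257 := inv v256; ok v257 && (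
  let v258 := mul v252 v257; ok v258 && (
  let v259 := mul v258 v6; ok v259 && (
  let v260 := mul v259 v6; ok v260 && (
  let v261 := inv v248; ok v261 && (
  let v262 := mul v260 v261; ok v262 && (
  let v263 := mul v255 v262; ok v263 && (
  isLt v263 1099510579200 && (
  let v264 := add v23 v221; ok v264 && (
  isPos 3 v264 && (
  let v265 := inv v264; ok v265 && (
  let v266 := mul v265 v265; ok v266 && (
  let v267 := sub v18 v266; ok v267 && (
  let v268 := mul v267 v0; ok v268 && (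
  let v269 := sub v8 v266; ok v269 && (
  let v270 := mul v269 v0; ok v270 && (
  let v271 := scale ⟨0, 5669356830720, 0, 0⟩ v25; ok v271 && (
  let v272 := cst ⟨0, 756719550464, 0, 0⟩; ok v272 && (
  let v273 := add v271 v272; ok v273 && (
  let v274 := sub v268 v273; ok v274 && (
  isPos 3 v274 && (
  let v275 := inv v274; ok v275 && (
  let v276 := scale ⟨31362867265536, 0, 0, 0⟩ v275; ok v276 && (
  let v277 := add v274 v276; ok v277 && (
  isPos 3 v277 && (
  let v278 := inv v277; ok v278 && (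
  let v279 := scale ⟨0, 209880174976, 0, 0⟩ x1; ok v279 && (
  let v280 := scale ⟨1611298385536, 0, 0, 0⟩ v25; ok v280 && (
  let v281 := add v279 v280; ok v281 && (
  let v282 := cst ⟨92142591104, 0, 0, 0⟩; ok v282 && (
  let v283 := add v281 v282; ok v283 && (
  let v284 := scale ⟨216841913024, 0, 0, 0⟩ x1; ok v284 && (
  let v285 := scale ⟨28832252189888, 0, 0, 0⟩ v25; ok v285 && (
  let v286 := add v284 v285; ok v286 && (
  let v287 := cst ⟨1407557260096, 0, 0, 0⟩; ok v287 && (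
  let v288 := add v286 v287; ok v288 && (
  let v289 := mul v275 v288; ok v289 && (
  let v290 := add v283 v289; ok v290 && (
  let v291 := mul v290 v278; ok v291 && (
  let v292 := scale ⟨0, 5336064, 0, 0⟩ v268; ok v292 && (
  let v293 := cst ⟨132853632, 0, 0, 0⟩; ok v293 && (
  let v294 := add v292 v293; ok v294 && (
  let v295 := mul v268 v294; ok v295 && (
  let v296 := add v295 v67; ok v296 && (
  let v297 := mul v268 v296; ok v297 && (
  let v298 := add v297 v62; ok v298 && (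
  let v299 := mul v268 v298; ok v299 && (
  let v300 := add v291 v51; ok v300 && (
  let v301 := add v299 v300; ok v301 && (
  let v302 := mul v270 v301; ok v302 && (
  let v303 := neg v302; ok v303 && (
  let v304 := exp v303; ok v304 && (
  let v305 := sub v304 v18; ok v305 && (
  let v306 := add v305 v18; ok v306 && (
  let v307 := mul v17 v306; ok v307 && (
  let v308 := add v307 v18; ok v308 && (
  isPos 3 v308 && (
  let v309 := mul v21 v305; ok v309 && (
  let v310 := add v309 v18; ok v310 && (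
  isPos 3 v310 && (
  let v311 := log v310; ok v311 && (
  let v312 := add v221 v12; ok v312 && (
  let v313 := add v147 v175; ok v313 && (
  let v314 := sub v313 v183; ok v314 && (
  let v315 := sub v314 v311; ok v315 && (
  let v316 := scale ⟨549755813888, 0, 0, 0⟩ v0; ok v316 && (
  let v317 := mul v218 v316; ok v317 && (
  let v318 := sub v315 v317; ok v318 && (
  let v319 := exp v318; ok v319 && (
  let v320 := scale ⟨134097010688, 0, 0, 0⟩ v72; ok v320 && (
  let v321 := cst ⟨20480524288, 0, 0, 0⟩; ok v321 && (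
  let v322 := add v320 v321; ok v322 && (
  let v323 := mul v72 v322; ok v323 && (
  let v324 := cst ⟨0, 251606990848, 0, 0⟩; ok v324 && (
  let v325 := add v323 v324; ok v325 && (
  let v326 := mul v72 v325; ok v326 && (
  let v327 := scale ⟨0, 1511784448, 0, 0⟩ x1; ok v327 && (
  let v328 := scale ⟨0, 679710425088, 0, 0⟩ v25; ok v328 && (
  let v329 := add v327 v328; ok v329 && (
  let v330 := cst ⟨413334437888, 0, 0, 0⟩; ok v330 && (
  let v331 := add v329 v330; ok v331 && (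
  let v332 := add v326 v331; ok v332 && (
  let v333 := mul v72 v332; ok v333 && (
  let v334 := scale ⟨9505800192, 0, 0, 0⟩ x1; ok v334 && (
  let v335 := scale ⟨4530193104896, 0, 0, 0⟩ v25; ok v335 && (
  let v336 := add v334 v335; ok v336 && (
  let v337 := cst ⟨81881858048, 0, 0, 0⟩; ok v337 && (
  let v338 := add v336 v337; ok v338 && (
  let v339 := add v333 v338; ok v339 && (
  let v340 := mul v72 v339; ok v340 && (
  let v341 := scale ⟨2784231424, 0, 0, 0⟩ x1; ok v341 && (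
  let v342 := scale ⟨41549496320, 0, 0, 0⟩ v26; ok v342 && (
  let v343 := add v341 v342; ok v343 && (
  let v344 := scale ⟨0, 556204490752, 0, 0⟩ v25; ok v344 && (
  let v345 := add v343 v344; ok v345 && (
  let v346 := scale ⟨875675516928, 0, 0, 0⟩ v28; ok v346 && (
  let v347 := add v345 v346; ok v347 && (
  let v348 := scale ⟨6372753342464, 0, 0, 0⟩ v30; ok v348 && (
  let v349 := add v347 v348; ok v349 && (
  let v350 := cst ⟨1100414320640, 0, 0, 0⟩; ok v350 && (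
  let v351 := add v349 v350; ok v351 && (
  let v352 := add v340 v351; ok v352 && (
  let v353 := inv v167; ok v353 && (
  let v354 := mul v353 v169; ok v354 && (
  let v355 := scale ⟨84973977600, 0, 0, 0⟩ x1; ok v355 && (
  let v356 := scale ⟨0, 334568947712, 0, 0⟩ v26; ok v356 && (
  let v357 := add v355 v356; ok v357 && (
  let v358 := scale ⟨72486748160, 0, 0, 0⟩ v27; ok v358 && (
  let v359 := add v357 v358; ok v359 && (
  let v360 := scale ⟨216943820800, 0, 0, 0⟩ v25; ok v360 && (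
  let v361 := add v359 v360; ok v361 && (
  let v362 := scale ⟨277899968512, 0, 0, 0⟩ v28; ok v362 && (
  let v363 := add v361 v362; ok v363 && (
  let v364 := cst ⟨76698091520, 0, 0, 0⟩; ok v364 && (
  let v365 := add v363 v364; ok v365 && (
  let v366 := scale ⟨2199023255552, 0, 0, 0⟩ v365; ok v366 && (
  let v367 := mul v366 v312; ok v367 && (
  let v368 := scale ⟨1099511627776, 0, 0, 0⟩ v221; ok v368 && (
  let v369 := add v368 x0; ok v369 && (
  let v370 := inv v369; ok v370 && (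
  let v371 := mul v367 v370; ok v371 && (
  let v372 := cst ⟨0, 0, 0, 0⟩; ok v372 && (
  let v373 := mul v352 v319; ok v373 && (
  let v374 := mul v373 v307; ok v374 && (
  let v375 := mul v374 v371; ok v375 && (
  let v376 := mul v375 v354; ok v376 && (
  let v377 := rball v372 v376; ok v377 && (
  let v378 := sub v18 v352; ok v378 && (
  let v379 := mul x3 v378; ok v379 && (
  let v380 := sub v18 v319; ok v380 && (
  let v381 := mul v380 v354; ok v381 && (
  let v382 := mul v352 v381; ok v382 && (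
  let v383 := add v379 v382; ok v383 && (
  let v384 := add v383 v377; ok v384 && (
  isLt v384 1099510579200 && (
  true))))))))))))))))))))))))))))))))))))))))))))))))))))))))))))))))))))))))))))))))))))))))))))))))))))))))))))))))))))))))))))))))))))))))))))))))))))))))))))))))))))))))))))))))))))))))))))))))))))))))))))))))))))))))))))))))))))))))))))))))))))))))))))))))))))))))))))))))))))))))))))))))))))))))))))))))))))))))))))))))))))))))))))))))))))))))))))))))))))))))))))))))))))))))))))))))))))))))))))))))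
  | _ => false

set_option maxRecDepth 1000000 in
theorem c_Z_0_eq (X : XOps) (m : List X.O.α)
    (h : c_Z_0 X.O.cst X.O.add X.O.sub X.O.mul X.O.scale X.O.neg X.O.inv X.O.exp X.O.log X.O.ok
      X.O.isPos X.O.isLt X.ball X.rball m = true) :
    runX X 3 p_Z_0 m = true := by
  match m, h with
  | [x0, x1, x2, x3], h => exact h

abbrev gZ : List (List Op) := [p_Z_0]

noncomputable abbrev kZ : List (List xE.O.α → Bool) := [c_Z_0 xE.O.cst xE.O.add xE.O.sub xE.O.mul xE.O.scale xE.O.neg xE.O.inv xE.O.exp xE.O.log xE.O.ok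
      xE.O.isPos xE.O.isLt xE.ball xE.rball]

theorem kZ_eq : List.Forall₂ (fun (ops : List Op) (chk : List xE.O.α → Bool) =>
    ∀ m, chk m = true → runX xE 3 ops m = true) gZ kZ :=
  List.Forall₂.cons (c_Z_0_eq xE) List.Forall₂.nil

theorem gZ_eq : gZ = [comp (P0 tab) ρ4 4] := by decide +kernel

def p_T_0 : List Op := [
  .pos 0,
  .inv 0,
  .mul 1 2,
  .scale ⟨2199023255552, 0, 0, 0⟩ 0,
  .exp 1,
  .neg 2,
  .exp 0,
  .mul 2 2,
  .mul 1 1,
  .mul 0 0,
  .sub 5 3,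
  .add 6 4,
  .mul 1 0,
  .scale ⟨549755813888, 0, 0, 0⟩ 0,
  .mul 3 3,
  .mul 1 13,
  .scale ⟨2199023255552, 0, 0, 0⟩ 16,
  .neg 0,
  .exp 0,
  .const ⟨1099511627776, 0, 0, 0⟩,
  .add 1 0,
  .pos 0,
  .inv 0,
  .mul 3 0,
  .add 15 14,
  .scale ⟨549755813888, 0, 0, 0⟩ 0,
  .const ⟨73282879488, 0, 0, 0⟩,
  .sub 25 0,
  .mul 27 27,
  .mul 0 28,
  .mul 2 29,
  .mul 3 2,
  .mul 4 4,
  .mul 0 32,
  .mul 1 6,
  .scale ⟨0, 0, 1099511627776, 0⟩ 14,
  .scale ⟨549755813888, 0, 0, 0⟩ 0,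
  .add 0 16,
  .inv 0,
  .mul 3 0,
  .scale ⟨0, 1489715156736, 0, 0⟩ 0,
  .const ⟨3808518404736, 0, 0, 0⟩,
  .add 1 0,
  .mul 3 0,
  .const ⟨0, 5930847192576, 0, 0⟩,
  .add 1 0,
  .mul 6 0,
  .scale ⟨72903352064, 0, 0, 0⟩ 46,
  .scale ⟨0, 13327240426944, 0, 0⟩ 20,
  .add 1 0,
  .const ⟨5176032911104, 0, 0, 0⟩,
  .add 1 0,
  .add 5 0,
  .mul 13 0,
  .scale ⟨0, 146286612672, 0, 0⟩ 53,
  .scale ⟨4086113951296, 0, 0, 0⟩ 27,
  .add 1 0,
  .const ⟨0, 2671049308288, 0, 0⟩,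
  .add 1 0,
  .add 5 0,
  .mul 20 0,
  .scale ⟨230935292288, 0, 0, 0⟩ 60,
  .scale ⟨0, 11591914972544, 0, 0⟩ 34,
  .add 1 0,
  .const ⟨791235151872, 0, 0, 0⟩,
  .add 1 0,
  .add 5 0,
  .mul 27 0,
  .scale ⟨0, 138882717696, 0, 0⟩ 67,
  .scale ⟨0, 125902193344, 0, 0⟩ 40,
  .add 1 0,
  .scale ⟨0, 14103045878720, 0, 0⟩ 43,
  .add 1 0,
  .scale ⟨0, 2459977357056, 0, 0⟩ 42,
  .add 1 0,
  .scale ⟨13284218553792, 0, 0, 0⟩ 42,
  .add 1 0,
  .const ⟨820299374080, 0, 0, 0⟩,
  .add 1 0,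
  .add 11 0,
  .mul 40 0,
  .scale ⟨74203681088, 0, 0, 0⟩ 80,
  .scale ⟨2645134912, 0, 0, 0⟩ 53,
  .add 1 0,
  .scale ⟨2386416186624, 0, 0, 0⟩ 56,
  .add 1 0,
  .scale ⟨509935246144, 0, 0, 0⟩ 55,
  .add 1 0,
  .scale ⟨0, 13371538676672, 0, 0⟩ 55,
  .add 1 0,
  .const ⟨3531408848576, 0, 0, 0⟩,
  .add 1 0,
  .add 11 0,
  .mul 53 0,
  .scale ⟨0, 126907131904, 0, 0⟩ 93,
  .scale ⟨2982959688896, 0, 0, 0⟩ 66,
  .add 1 0,
  .scale ⟨0, 5892906016128, 0, 0⟩ 67,
  .add 1 0,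
  .scale ⟨0, 1190478863232, 0, 0⟩ 71,
  .add 1 0,
  .scale ⟨8176399516352, 0, 0, 0⟩ 70,
  .add 1 0,
  .scale ⟨0, 10026068441472, 0, 0⟩ 71,
  .add 1 0,
  .scale ⟨17585973073152, 0, 0, 0⟩ 72,
  .add 1 0,
  .scale ⟨0, 13805769336960, 0, 0⟩ 73,
  .add 1 0,
  .scale ⟨0, 206948769504960, 0, 0⟩ 74,
  .add 1 0,
  .const ⟨4489397888, 0, 0, 0⟩,
  .add 1 0,
  .mul 0 112,
  .add 20 0,
  .mul 113 113,
  .scale ⟨5703716569088, 0, 0, 0⟩ 0,
  .const ⟨1726576852992, 0, 0, 0⟩,
  .add 1 0,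
  .scale ⟨4398046511104, 0, 0, 0⟩ 118,
  .mul 80 1,
  .scale ⟨4398046511104, 0, 0, 0⟩ 0,
  .add 2 0,
  .scale ⟨180918812672, 0, 0, 0⟩ 122,
  .scale ⟨784018571264, 0, 0, 0⟩ 95,
  .add 1 0,
  .scale ⟨0, 2238867243008, 0, 0⟩ 96,
  .add 1 0,
  .scale ⟨0, 20588658688, 0, 0⟩ 100,
  .add 1 0,
  .scale ⟨2424105730048, 0, 0, 0⟩ 99,
  .add 1 0,
  .const ⟨108779274240, 0, 0, 0⟩,
  .add 1 0,
  .mul 0 11,
  .scale ⟨879662989312, 0, 0, 0⟩ 12,
  .add 0 115,
  .pos 0,
  .inv 0,
  .mul 3 0,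
  .neg 24,
  .exp 0,
  .add 0 120,
  .pos 0,
  .log 0,
  .mul 4 143,
  .sub 123 0,
  .log 0,
  .mul 5 2,
  .add 0 126,
  .pos 0,
  .log 0,
  .scale ⟨274877906944, 0, 0, 0⟩ 133,
  .log 128,
  .add 150 0,
  .sub 9 3,
  .sub 0 1,
  .mul 0 152,
  .exp 0,
  .sub 7 10,
  .add 0 42,
  .mul 0 156,
  .exp 0,
  .mul 158 41,
  .scale ⟨1649267441664, 0, 0, 0⟩ 11,
  .add 0 141,
  .mul 2 0,
  .mul 143 0,
  .scale ⟨0, 0, 1099511627776, 0⟩ 0,
  .mul 0 0,
  .sub 17 0,
  .mul 12 12,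
  .mul 0 1,
  .scale ⟨4398046511104, 0, 0, 0⟩ 0,
  .sub 150 0,
  .log 0,
  .scale ⟨549755813888, 0, 0, 0⟩ 0,
  .exp 0,
  .mul 19 9,
  .mul 0 1,
  .scale ⟨4398046511104, 0, 0, 0⟩ 8,
  .scale ⟨2199023255552, 0, 0, 0⟩ 11,
  .sub 0 29,
  .mul 2 0,
  .add 0 160,
  .scale ⟨4398046511104, 0, 0, 0⟩ 5,
  .sub 1 0,
  .log 0,
  .const ⟨549755813888, 0, 0, 0⟩,
  .sub 37 43,
  .scale ⟨549755813888, 0, 0, 0⟩ 184,
  .mul 3 0,
  .add 2 0,
  .exp 0,
  .sub 5 0,
  .pos 0]

set_option maxRecDepth 1000000 in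
noncomputable def c_T_0 {α : Type} (cst : Z → α) (add sub mul : α → α → α) (scale : Z → α → α)
    (neg inv exp log : α → α) (ok : α → Bool) (isPos : Nat → α → Bool) (isLt : α → Nat → Bool)
    (ball : Nat → α → α) (rball : α → α → α) : List α → Bool
  | [x0, x1, x2] =>
  isPos 2 x0 && (
  let v0 := inv x0; ok v0 && (
  let v1 := mul x0 x1; ok v1 && (
  let v2 := scale ⟨2199023255552, 0, 0, 0⟩ v1; ok v2 && (
  let v3 := exp v1; ok v3 && (
  let v4 := neg v1; ok v4 && (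
  let v5 := exp v4; ok v5 && (
  let v6 := mul v3 v3; ok v6 && (
  let v7 := mul v5 v5; ok v7 && (
  let v8 := mul v7 v7; ok v8 && (
  let v9 := sub v3 v5; ok v9 && (
  let v10 := add v3 v5; ok v10 && (
  let v11 := mul v9 v10; ok v11 && (
  let v12 := scale ⟨549755813888, 0, 0, 0⟩ v11; ok v12 && (
  let v13 := mul v9 v9; ok v13 && (
  let v14 := mul v12 v0; ok v14 && (
  let v15 := scale ⟨2199023255552, 0, 0, 0⟩ x1; ok v15 && (
  let v16 := neg v15; ok v16 && (
  let v17 := exp v16; ok v17 && (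
  let v18 := cst ⟨1099511627776, 0, 0, 0⟩; ok v18 && (
  let v19 := add v17 v18; ok v19 && (
  isPos 2 v19 && (
  let v20 := inv v19; ok v20 && (
  let v21 := mul v17 v20; ok v21 && (
  let v22 := add v6 v7; ok v22 && (
  let v23 := scale ⟨549755813888, 0, 0, 0⟩ v22; ok v23 && (
  let v24 := cst ⟨73282879488, 0, 0, 0⟩; ok v24 && (
  let v25 := sub x0 v24; ok v25 && (
  let v26 := mul x1 x1; ok v26 && (
  let v27 := mul v26 x1; ok v27 && (
  let v28 := mul v25 x1; ok v28 && (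
  let v29 := mul v25 v26; ok v29 && (
  let v30 := mul v25 v25; ok v30 && (
  let v31 := mul v30 x1; ok v31 && (
  let v32 := mul v30 v25; ok v32 && (
  let v33 := scale ⟨0, 0, 1099511627776, 0⟩ v18; ok v33 && (
  let v34 := scale ⟨549755813888, 0, 0, 0⟩ v33; ok v34 && (
  let v35 := add v34 v18; ok v35 && (
  let v36 := inv v35; ok v36 && (
  let v37 := mul v33 v36; ok v37 && (
  let v38 := scale ⟨0, 1489715156736, 0, 0⟩ v37; ok v38 && (
  let v39 := cst ⟨3808518404736, 0, 0, 0⟩; ok v39 && (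
  let v40 := add v38 v39; ok v40 && (
  let v41 := mul v37 v40; ok v41 && (
  let v42 := cst ⟨0, 5930847192576, 0, 0⟩; ok v42 && (
  let v43 := add v41 v42; ok v43 && (
  let v44 := mul v37 v43; ok v44 && (
  let v45 := scale ⟨72903352064, 0, 0, 0⟩ x1; ok v45 && (
  let v46 := scale ⟨0, 13327240426944, 0, 0⟩ v25; ok v46 && (
  let v47 := add v45 v46; ok v47 && (
  let v48 := cst ⟨5176032911104, 0, 0, 0⟩; ok v48 && (
  let v49 := add v47 v48; ok v49 && (
  let v50 := add v44 v49; ok v50 && (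
  let v51 := mul v37 v50; ok v51 && (
  let v52 := scale ⟨0, 146286612672, 0, 0⟩ x1; ok v52 && (
  let v53 := scale ⟨4086113951296, 0, 0, 0⟩ v25; ok v53 && (
  let v54 := add v52 v53; ok v54 && (
  let v55 := cst ⟨0, 2671049308288, 0, 0⟩; ok v55 && (
  let v56 := add v54 v55; ok v56 && (
  let v57 := add v51 v56; ok v57 && (
  let v58 := mul v37 v57; ok v58 && (
  let v59 := scale ⟨230935292288, 0, 0, 0⟩ x1; ok v59 && (
  let v60 := scale ⟨0, 11591914972544, 0, 0⟩ v25; ok v60 && (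
  let v61 := add v59 v60; ok v61 && (
  let v62 := cst ⟨791235151872, 0, 0, 0⟩; ok v62 && (
  let v63 := add v61 v62; ok v63 && (
  let v64 := add v58 v63; ok v64 && (
  let v65 := mul v37 v64; ok v65 && (
  let v66 := scale ⟨0, 138882717696, 0, 0⟩ x1; ok v66 && (
  let v67 := scale ⟨0, 125902193344, 0, 0⟩ v26; ok v67 && (
  let v68 := add v66 v67; ok v68 && (
  let v69 := scale ⟨0, 14103045878720, 0, 0⟩ v25; ok v69 && (
  let v70 := add v68 v69; ok v70 && (
  let v71 := scale ⟨0, 2459977357056, 0, 0⟩ v28; ok v71 && (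
  let v72 := add v70 v71; ok v72 && (
  let v73 := scale ⟨13284218553792, 0, 0, 0⟩ v30; ok v73 && (
  let v74 := add v72 v73; ok v74 && (
  let v75 := cst ⟨820299374080, 0, 0, 0⟩; ok v75 && (
  let v76 := add v74 v75; ok v76 && (
  let v77 := add v65 v76; ok v77 && (
  let v78 := mul v37 v77; ok v78 && (
  let v79 := scale ⟨74203681088, 0, 0, 0⟩ x1; ok v79 && (
  let v80 := scale ⟨2645134912, 0, 0, 0⟩ v26; ok v80 && (
  let v81 := add v79 v80; ok v81 && (
  let v82 := scale ⟨2386416186624, 0, 0, 0⟩ v25; ok v82 && (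
  let v83 := add v81 v82; ok v83 && (
  let v84 := scale ⟨509935246144, 0, 0, 0⟩ v28; ok v84 && (
  let v85 := add v83 v84; ok v85 && (
  let v86 := scale ⟨0, 13371538676672, 0, 0⟩ v30; ok v86 && (
  let v87 := add v85 v86; ok v87 && (
  let v88 := cst ⟨3531408848576, 0, 0, 0⟩; ok v88 && (
  let v89 := add v87 v88; ok v89 && (
  let v90 := add v78 v89; ok v90 && (
  let v91 := mul v37 v90; ok v91 && (
  let v92 := scale ⟨0, 126907131904, 0, 0⟩ x1; ok v92 && (
  let v93 := scale ⟨2982959688896, 0, 0, 0⟩ v26; ok v93 && (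
  let v94 := add v92 v93; ok v94 && (
  let v95 := scale ⟨0, 5892906016128, 0, 0⟩ v27; ok v95 && (
  let v96 := add v94 v95; ok v96 && (
  let v97 := scale ⟨0, 1190478863232, 0, 0⟩ v25; ok v97 && (
  let v98 := add v96 v97; ok v98 && (
  let v99 := scale ⟨8176399516352, 0, 0, 0⟩ v28; ok v99 && (
  let v100 := add v98 v99; ok v100 && (
  let v101 := scale ⟨0, 10026068441472, 0, 0⟩ v29; ok v101 && (
  let v102 := add v100 v101; ok v102 && (
  let v103 := scale ⟨17585973073152, 0, 0, 0⟩ v30; ok v103 && (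
  let v104 := add v102 v103; ok v104 && (
  let v105 := scale ⟨0, 13805769336960, 0, 0⟩ v31; ok v105 && (
  let v106 := add v104 v105; ok v106 && (
  let v107 := scale ⟨0, 206948769504960, 0, 0⟩ v32; ok v107 && (
  let v108 := add v106 v107; ok v108 && (
  let v109 := cst ⟨4489397888, 0, 0, 0⟩; ok v109 && (
  let v110 := add v108 v109; ok v110 && (
  let v111 := mul v110 x1; ok v111 && (
  let v112 := add v91 v111; ok v112 && (
  let v113 := mul x0 x0; ok v113 && (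
  let v114 := scale ⟨5703716569088, 0, 0, 0⟩ v113; ok v114 && (
  let v115 := cst ⟨1726576852992, 0, 0, 0⟩; ok v115 && (
  let v116 := add v114 v115; ok v116 && (
  let v117 := scale ⟨4398046511104, 0, 0, 0⟩ x1; ok v117 && (
  let v118 := mul v37 v116; ok v118 && (
  let v119 := scale ⟨4398046511104, 0, 0, 0⟩ v118; ok v119 && (
  let v120 := add v117 v119; ok v120 && (
  let v121 := scale ⟨180918812672, 0, 0, 0⟩ x1; ok v121 && (
  let v122 := scale ⟨784018571264, 0, 0, 0⟩ v26; ok v122 && (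
  let v123 := add v121 v122; ok v123 && (
  let v124 := scale ⟨0, 2238867243008, 0, 0⟩ v27; ok v124 && (
  let v125 := add v123 v124; ok v125 && (
  let v126 := scale ⟨0, 20588658688, 0, 0⟩ v25; ok v126 && (
  let v127 := add v125 v126; ok v127 && (
  let v128 := scale ⟨2424105730048, 0, 0, 0⟩ v28; ok v128 && (
  let v129 := add v127 v128; ok v129 && (
  let v130 := cst ⟨108779274240, 0, 0, 0⟩; ok v130 && (
  let v131 := add v129 v130; ok v131 && (
  let v132 := mul v131 v120; ok v132 && (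
  let v133 := scale ⟨879662989312, 0, 0, 0⟩ v120; ok v133 && (
  let v134 := add v133 v18; ok v134 && (
  isPos 2 v134 && (
  let v135 := inv v134; ok v135 && (
  let v136 := mul v132 v135; ok v136 && (
  let v137 := neg v112; ok v137 && (
  let v138 := exp v137; ok v138 && (
  let v139 := add v138 v18; ok v139 && (
  isPos 2 v139 && (
  let v140 := log v139; ok v140 && (
  let v141 := mul v136 x2; ok v141 && (
  let v142 := sub v18 v141; ok v142 && (
  let v143 := log v142; ok v143 && (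
  let v144 := mul v138 v141; ok v144 && (
  let v145 := add v144 v18; ok v145 && (
  isPos 2 v145 && (
  let v146 := log v145; ok v146 && (
  let v147 := scale ⟨274877906944, 0, 0, 0⟩ v13; ok v147 && (
  let v148 := log v19; ok v148 && (
  let v149 := add x1 v148; ok v149 && (
  let v150 := sub v140 v146; ok v150 && (
  let v151 := sub v150 v149; ok v151 && (
  let v152 := mul v151 x0; ok v152 && (
  let v153 := exp v152; ok v153 && (
  let v154 := sub v146 v143; ok v154 && (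
  let v155 := add v154 v112; ok v155 && (
  let v156 := mul v155 x0; ok v156 && (
  let v157 := exp v156; ok v157 && (
  let v158 := mul x0 v116; ok v158 && (
  let v159 := scale ⟨1649267441664, 0, 0, 0⟩ v147; ok v159 && (
  let v160 := add v159 v18; ok v160 && (
  let v161 := mul v158 v160; ok v161 && (
  let v162 := mul v18 v161; ok v162 && (
  let v163 := scale ⟨0, 0, 1099511627776, 0⟩ v162; ok v163 && (
  let v164 := mul v163 v163; ok v164 && (
  let v165 := sub v147 v164; ok v165 && (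
  let v166 := mul v153 v153; ok v166 && (
  let v167 := mul v166 v165; ok v167 && (
  let v168 := scale ⟨4398046511104, 0, 0, 0⟩ v167; ok v168 && (
  let v169 := sub v18 v168; ok v169 && (
  let v170 := log v169; ok v170 && (
  let v171 := scale ⟨549755813888, 0, 0, 0⟩ v170; ok v171 && (
  let v172 := exp v171; ok v172 && (
  let v173 := mul v153 v163; ok v173 && (
  let v174 := mul v173 v172; ok v174 && (
  let v175 := scale ⟨4398046511104, 0, 0, 0⟩ v166; ok v175 && (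
  let v176 := scale ⟨2199023255552, 0, 0, 0⟩ v164; ok v176 && (
  let v177 := sub v176 v147; ok v177 && (
  let v178 := mul v175 v177; ok v178 && (
  let v179 := add v178 v18; ok v179 && (
  let v180 := scale ⟨4398046511104, 0, 0, 0⟩ v174; ok v180 && (
  let v181 := sub v179 v180; ok v181 && (
  let v182 := log v181; ok v182 && (
  let v183 := cst ⟨549755813888, 0, 0, 0⟩; ok v183 && (
  let v184 := sub v146 v140; ok v184 && (
  let v185 := scale ⟨549755813888, 0, 0, 0⟩ v0; ok v185 && (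
  let v186 := mul v182 v185; ok v186 && (
  let v187 := add v184 v186; ok v187 && (
  let v188 := exp v187; ok v188 && (
  let v189 := sub v183 v188; ok v189 && (
  isPos 2 v189 && (
  true))))))))))))))))))))))))))))))))))))))))))))))))))))))))))))))))))))))))))))))))))))))))))))))))))))))))))))))))))))))))))))))))))))))))))))))))))))))))))))))))))))))))))))))))))))))))))))))))))))
  | _ => false

set_option maxRecDepth 1000000 in
theorem c_T_0_eq (X : XOps) (m : List X.O.α)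
    (h : c_T_0 X.O.cst X.O.add X.O.sub X.O.mul X.O.scale X.O.neg X.O.inv X.O.exp X.O.log X.O.ok
      X.O.isPos X.O.isLt X.ball X.rball m = true) :
    runX X 2 p_T_0 m = true := by
  match m, h with
  | [x0, x1, x2], h => exact h

abbrev gT : List (List Op) := [p_T_0]

noncomputable abbrev kT : List (List xE.O.α → Bool) := [c_T_0 xE.O.cst xE.O.add xE.O.sub xE.O.mul xE.O.scale xE.O.neg xE.O.inv xE.O.exp xE.O.log xE.O.ok
      xE.O.isPos xE.O.isLt xE.ball xE.rball]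

theorem kT_eq : List.Forall₂ (fun (ops : List Op) (chk : List xE.O.α → Bool) =>
    ∀ m, chk m = true → runX xE 2 ops m = true) gT kT :=
  List.Forall₂.cons (c_T_0_eq xE) List.Forall₂.nil

theorem gT_eq : gT = [comp (PT tab) ρ3 3] := by decide +kernel

def p_S_0 : List Op := [
  .mul 0 1,
  .scale ⟨2199023255552, 0, 0, 0⟩ 0,
  .exp 1,
  .neg 2,
  .exp 0,
  .mul 0 0,
  .sub 3 1,
  .add 4 2,
  .mul 1 0,
  .scale ⟨549755813888, 0, 0, 0⟩ 0,
  .inv 10,
  .mul 1 0,
  .const ⟨1099511627776, 0, 0, 0⟩,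
  .const ⟨73282879488, 0, 0, 0⟩,
  .sub 14 0,
  .mul 16 16,
  .mul 0 17,
  .mul 2 18,
  .scale ⟨1683715784704, 0, 0, 0⟩ 19,
  .scale ⟨145252876288, 0, 0, 0⟩ 3,
  .add 1 0,
  .scale ⟨0, 4539106852864, 0, 0⟩ 4,
  .add 1 0,
  .scale ⟨0, 7114998874112, 0, 0⟩ 8,
  .add 1 0,
  .scale ⟨0, 5241612402688, 0, 0⟩ 7,
  .add 1 0,
  .const ⟨1495860051968, 0, 0, 0⟩,
  .add 1 0,
  .pos 0,
  .mul 17 17,
  .const ⟨11739219361792, 0, 0, 0⟩,
  .add 1 0,
  .pos 0,
  .const ⟨73282879488, 0, 0, 0⟩,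
  .sub 33 0,
  .mul 35 35,
  .mul 0 36,
  .mul 2 37,
  .scale ⟨1683715784704, 0, 0, 0⟩ 38,
  .scale ⟨145252876288, 0, 0, 0⟩ 3,
  .add 1 0,
  .scale ⟨0, 4539106852864, 0, 0⟩ 4,
  .add 1 0,
  .scale ⟨0, 7114998874112, 0, 0⟩ 8,
  .add 1 0,
  .scale ⟨0, 5241612402688, 0, 0⟩ 7,
  .add 1 0,
  .const ⟨1495860051968, 0, 0, 0⟩,
  .add 1 0,
  .scale ⟨2199023255552, 0, 0, 0⟩ 46,
  .neg 0,
  .exp 0,
  .mul 45 45,
  .mul 42 4,
  .add 0 40,
  .mul 3 0,
  .scale ⟨2199023255552, 0, 0, 0⟩ 49,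
  .mul 8 5,
  .sub 1 0,
  .pos 0,
  .scale ⟨0, 86102769664, 0, 0⟩ 59,
  .scale ⟨0, 1661152460800, 0, 0⟩ 24,
  .add 1 0,
  .scale ⟨762097041408, 0, 0, 0⟩ 25,
  .add 1 0,
  .scale ⟨516829413376, 0, 0, 0⟩ 29,
  .add 1 0,
  .scale ⟨5959398195200, 0, 0, 0⟩ 28,
  .add 1 0,
  .const ⟨813329547264, 0, 0, 0⟩,
  .add 1 0,
  .pos 0,
  .mul 57 57,
  .const ⟨12837657247744, 0, 0, 0⟩,
  .add 1 0,
  .pos 0,
  .const ⟨73282879488, 0, 0, 0⟩,
  .sub 73 0,
  .mul 75 75,
  .mul 0 76,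
  .mul 2 77,
  .scale ⟨1597613015040, 0, 0, 0⟩ 78,
  .scale ⟨0, 1515899584512, 0, 0⟩ 3,
  .add 1 0,
  .scale ⟨0, 3777009811456, 0, 0⟩ 4,
  .add 1 0,
  .scale ⟨0, 6598169460736, 0, 0⟩ 8,
  .add 1 0,
  .scale ⟨717785792512, 0, 0, 0⟩ 7,
  .add 1 0,
  .const ⟨2309189599232, 0, 0, 0⟩,
  .add 1 0,
  .scale ⟨4398046511104, 0, 0, 0⟩ 86,
  .neg 0,
  .exp 0,
  .mul 85 85,
  .mul 82 4,
  .add 0 80,
  .mul 3 0,
  .scale ⟨1099511627776, 0, 0, 0⟩ 3,
  .add 0 83,
  .mul 91 0,
  .scale ⟨2199023255552, 0, 0, 0⟩ 0,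
  .mul 11 8,
  .sub 1 0,
  .pos 0,
  .scale ⟨0, 115322912768, 0, 0⟩ 102,
  .scale ⟨0, 1118470340608, 0, 0⟩ 27,
  .add 1 0,
  .scale ⟨2155810914304, 0, 0, 0⟩ 28,
  .add 1 0,
  .scale ⟨821178793984, 0, 0, 0⟩ 32,
  .add 1 0,
  .scale ⟨7825673420800, 0, 0, 0⟩ 31,
  .add 1 0,
  .const ⟨702342234112, 0, 0, 0⟩,
  .add 1 0,
  .pos 0,
  .mul 100 100,
  .const ⟨13370233192448, 0, 0, 0⟩,
  .add 1 0,
  .pos 0,
  .const ⟨73282879488, 0, 0, 0⟩,
  .sub 116 0,
  .mul 118 118,
  .mul 0 119,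
  .mul 2 120,
  .scale ⟨1482290102272, 0, 0, 0⟩ 121,
  .scale ⟨0, 2634369925120, 0, 0⟩ 3,
  .add 1 0,
  .scale ⟨0, 1621198897152, 0, 0⟩ 4,
  .add 1 0,
  .scale ⟨0, 5776990666752, 0, 0⟩ 8,
  .add 1 0,
  .scale ⟨8543459213312, 0, 0, 0⟩ 7,
  .add 1 0,
  .const ⟨3011531833344, 0, 0, 0⟩,
  .add 1 0,
  .scale ⟨6597069766656, 0, 0, 0⟩ 129,
  .neg 0,
  .exp 0,
  .mul 128 128,
  .mul 125 4,
  .add 0 123,
  .mul 3 0,
  .scale ⟨1099511627776, 0, 0, 0⟩ 3,
  .add 0 126,
  .mul 5 0,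
  .add 0 128,
  .mul 136 0,
  .scale ⟨2199023255552, 0, 0, 0⟩ 0,
  .mul 13 10,
  .sub 1 0,
  .pos 0,
  .scale ⟨173306544128, 0, 0, 0⟩ 147,
  .scale ⟨0, 2908609183744, 0, 0⟩ 29,
  .add 1 0,
  .scale ⟨8729355157504, 0, 0, 0⟩ 30,
  .add 1 0,
  .scale ⟨1272953634816, 0, 0, 0⟩ 34,
  .add 1 0,
  .scale ⟨8997075550208, 0, 0, 0⟩ 33,
  .add 1 0,
  .const ⟨602679803904, 0, 0, 0⟩,
  .add 1 0,
  .pos 0,
  .mul 145 145,
  .const ⟨13227425529856, 0, 0, 0⟩,
  .add 1 0,
  .pos 0,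
  .const ⟨73282879488, 0, 0, 0⟩,
  .sub 161 0,
  .mul 163 163,
  .mul 0 164,
  .mul 2 165,
  .scale ⟨1655596646400, 0, 0, 0⟩ 166,
  .scale ⟨0, 5542979108864, 0, 0⟩ 3,
  .add 1 0,
  .scale ⟨7108156260352, 0, 0, 0⟩ 4,
  .add 1 0,
  .scale ⟨0, 4504037031936, 0, 0⟩ 8,
  .add 1 0,
  .scale ⟨17540534763520, 0, 0, 0⟩ 7,
  .add 1 0,
  .const ⟨3614211637248, 0, 0, 0⟩,
  .add 1 0,
  .scale ⟨8796093022208, 0, 0, 0⟩ 174,
  .neg 0,
  .exp 0,
  .mul 173 173,
  .mul 170 4,
  .add 0 168,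
  .mul 3 0,
  .scale ⟨1099511627776, 0, 0, 0⟩ 3,
  .add 0 171,
  .mul 5 0,
  .add 0 173,
  .mul 7 0,
  .add 0 175,
  .mul 183 0,
  .scale ⟨2199023255552, 0, 0, 0⟩ 0,
  .mul 15 12,
  .sub 1 0,
  .pos 0,
  .scale ⟨0, 298902093824, 0, 0⟩ 194,
  .scale ⟨2909682335744, 0, 0, 0⟩ 31,
  .add 1 0,
  .scale ⟨0, 3667266371584, 0, 0⟩ 32,
  .add 1 0,
  .scale ⟨1554043043840, 0, 0, 0⟩ 36,
  .add 1 0,
  .scale ⟨7603573424128, 0, 0, 0⟩ 35,
  .add 1 0,
  .const ⟨517153095680, 0, 0, 0⟩,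
  .add 1 0,
  .pos 0,
  .mul 192 192,
  .const ⟨12486543671296, 0, 0, 0⟩,
  .add 1 0,
  .pos 0,
  .const ⟨73282879488, 0, 0, 0⟩,
  .sub 208 0,
  .mul 210 210,
  .mul 0 211,
  .mul 2 212,
  .scale ⟨1356694552576, 0, 0, 0⟩ 213,
  .scale ⟨0, 2633296773120, 0, 0⟩ 3,
  .add 1 0,
  .scale ⟨3440889888768, 0, 0, 0⟩ 4,
  .add 1 0,
  .scale ⟨0, 2949993988096, 0, 0⟩ 8,
  .add 1 0,
  .scale ⟨25144108187648, 0, 0, 0⟩ 7,
  .add 1 0,
  .const ⟨4131364732928, 0, 0, 0⟩,
  .add 1 0,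
  .scale ⟨10995116277760, 0, 0, 0⟩ 221,
  .neg 0,
  .exp 0,
  .mul 220 220,
  .mul 217 4,
  .add 0 215,
  .mul 3 0,
  .scale ⟨1099511627776, 0, 0, 0⟩ 3,
  .add 0 218,
  .mul 5 0,
  .add 0 220,
  .mul 7 0,
  .add 0 222,
  .mul 9 0,
  .add 0 224,
  .mul 232 0,
  .scale ⟨2199023255552, 0, 0, 0⟩ 0,
  .mul 17 14,
  .sub 1 0,
  .pos 0,
  .scale ⟨0, 204770705408, 0, 0⟩ 243,
  .scale ⟨4698745405440, 0, 0, 0⟩ 33,
  .add 1 0,
  .scale ⟨0, 9455202467840, 0, 0⟩ 34,
  .add 1 0,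
  .scale ⟨1794625699840, 0, 0, 0⟩ 38,
  .add 1 0,
  .scale ⟨6629775572992, 0, 0, 0⟩ 37,
  .add 1 0,
  .const ⟨436506853376, 0, 0, 0⟩,
  .add 1 0,
  .pos 0,
  .mul 241 241,
  .const ⟨11350524821504, 0, 0, 0⟩,
  .add 1 0,
  .pos 0,
  .const ⟨73282879488, 0, 0, 0⟩,
  .sub 257 0,
  .mul 259 259,
  .mul 0 260,
  .mul 2 261,
  .scale ⟨1151923847168, 0, 0, 0⟩ 262,
  .scale ⟨2065448632320, 0, 0, 0⟩ 3,
  .add 1 0,
  .scale ⟨0, 6014312579072, 0, 0⟩ 4,
  .add 1 0,
  .scale ⟨0, 1155368288256, 0, 0⟩ 8,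
  .add 1 0,
  .scale ⟨31773883760640, 0, 0, 0⟩ 7,
  .add 1 0,
  .const ⟨4567871586304, 0, 0, 0⟩,
  .add 1 0,
  .scale ⟨13194139533312, 0, 0, 0⟩ 270,
  .neg 0,
  .exp 0,
  .mul 269 269,
  .mul 266 4,
  .add 0 264,
  .mul 3 0,
  .scale ⟨1099511627776, 0, 0, 0⟩ 3,
  .add 0 267,
  .mul 5 0,
  .add 0 269,
  .mul 7 0,
  .add 0 271,
  .mul 9 0,
  .add 0 273,
  .mul 11 0,
  .add 0 275,
  .mul 283 0,
  .scale ⟨2199023255552, 0, 0, 0⟩ 0,
  .mul 19 16,
  .sub 1 0,
  .pos 0,
  .scale ⟨2308974418329, 0, 0, 0⟩ 291,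
  .exp 0,
  .mul 1 1,
  .scale ⟨183251937962, 0, 0, 0⟩ 0,
  .add 0 284,
  .mul 3 0,
  .scale ⟨4617948836658, 0, 0, 0⟩ 0,
  .mul 298 298,
  .scale ⟨184351450112, 0, 0, 0⟩ 0,
  .add 0 289,
  .mul 31 0,
  .sub 4 0,
  .pos 0]

set_option maxRecDepth 1000000 in
noncomputable def c_S_0 {α : Type} (cst : Z → α) (add sub mul : α → α → α) (scale : Z → α → α)
    (neg inv exp log : α → α) (ok : α → Bool) (isPos : Nat → α → Bool) (isLt : α → Nat → Bool)
    (ball : Nat → α → α) (rball : α → α → α) : List α → Bool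
  | [x0, x1] =>
  let v0 := mul x0 x1; ok v0 && (
  let v1 := scale ⟨2199023255552, 0, 0, 0⟩ v0; ok v1 && (
  let v2 := exp v0; ok v2 && (
  let v3 := neg v0; ok v3 && (
  let v4 := exp v3; ok v4 && (
  let v5 := mul v4 v4; ok v5 && (
  let v6 := sub v2 v4; ok v6 && (
  let v7 := add v2 v4; ok v7 && (
  let v8 := mul v6 v7; ok v8 && (
  let v9 := scale ⟨549755813888, 0, 0, 0⟩ v8; ok v9 && (
  let v10 := inv x0; ok v10 && (
  let v11 := mul v9 v10; ok v11 && (
  let v12 := cst ⟨1099511627776, 0, 0, 0⟩; ok v12 && (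
  let v13 := cst ⟨73282879488, 0, 0, 0⟩; ok v13 && (
  let v14 := sub x0 v13; ok v14 && (
  let v15 := mul x1 x1; ok v15 && (
  let v16 := mul v15 x1; ok v16 && (
  let v17 := mul v14 x1; ok v17 && (
  let v18 := scale ⟨1683715784704, 0, 0, 0⟩ x1; ok v18 && (
  let v19 := scale ⟨145252876288, 0, 0, 0⟩ v15; ok v19 && (
  let v20 := add v18 v19; ok v20 && (
  let v21 := scale ⟨0, 4539106852864, 0, 0⟩ v16; ok v21 && (
  let v22 := add v20 v21; ok v22 && (
  let v23 := scale ⟨0, 7114998874112, 0, 0⟩ v14; ok v23 && (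
  let v24 := add v22 v23; ok v24 && (
  let v25 := scale ⟨0, 5241612402688, 0, 0⟩ v17; ok v25 && (
  let v26 := add v24 v25; ok v26 && (
  let v27 := cst ⟨1495860051968, 0, 0, 0⟩; ok v27 && (
  let v28 := add v26 v27; ok v28 && (
  isPos 2 v28 && (
  let v29 := mul v11 v11; ok v29 && (
  let v30 := cst ⟨11739219361792, 0, 0, 0⟩; ok v30 && (
  let v31 := add v29 v30; ok v31 && (
  isPos 2 v31 && (
  let v32 := cst ⟨73282879488, 0, 0, 0⟩; ok v32 && (
  let v33 := sub x0 v32; ok v33 && (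
  let v34 := mul x1 x1; ok v34 && (
  let v35 := mul v34 x1; ok v35 && (
  let v36 := mul v33 x1; ok v36 && (
  let v37 := scale ⟨1683715784704, 0, 0, 0⟩ x1; ok v37 && (
  let v38 := scale ⟨145252876288, 0, 0, 0⟩ v34; ok v38 && (
  let v39 := add v37 v38; ok v39 && (
  let v40 := scale ⟨0, 4539106852864, 0, 0⟩ v35; ok v40 && (
  let v41 := add v39 v40; ok v41 && (
  let v42 := scale ⟨0, 7114998874112, 0, 0⟩ v33; ok v42 && (
  let v43 := add v41 v42; ok v43 && (
  let v44 := scale ⟨0, 5241612402688, 0, 0⟩ v36; ok v44 && (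
  let v45 := add v43 v44; ok v45 && (
  let v46 := cst ⟨1495860051968, 0, 0, 0⟩; ok v46 && (
  let v47 := add v45 v46; ok v47 && (
  let v48 := scale ⟨2199023255552, 0, 0, 0⟩ v1; ok v48 && (
  let v49 := neg v48; ok v49 && (
  let v50 := exp v49; ok v50 && (
  let v51 := mul v5 v5; ok v51 && (
  let v52 := mul v9 v47; ok v52 && (
  let v53 := add v52 v12; ok v53 && (
  let v54 := mul v50 v53; ok v54 && (
  let v55 := scale ⟨2199023255552, 0, 0, 0⟩ v5; ok v55 && (
  let v56 := mul v47 v50; ok v56 && (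
  let v57 := sub v55 v56; ok v57 && (
  isPos 2 v57 && (
  let v58 := scale ⟨0, 86102769664, 0, 0⟩ x1; ok v58 && (
  let v59 := scale ⟨0, 1661152460800, 0, 0⟩ v34; ok v59 && (
  let v60 := add v58 v59; ok v60 && (
  let v61 := scale ⟨762097041408, 0, 0, 0⟩ v35; ok v61 && (
  let v62 := add v60 v61; ok v62 && (
  let v63 := scale ⟨516829413376, 0, 0, 0⟩ v33; ok v63 && (
  let v64 := add v62 v63; ok v64 && (
  let v65 := scale ⟨5959398195200, 0, 0, 0⟩ v36; ok v65 && (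
  let v66 := add v64 v65; ok v66 && (
  let v67 := cst ⟨813329547264, 0, 0, 0⟩; ok v67 && (
  let v68 := add v66 v67; ok v68 && (
  isPos 2 v68 && (
  let v69 := mul v11 v11; ok v69 && (
  let v70 := cst ⟨12837657247744, 0, 0, 0⟩; ok v70 && (
  let v71 := add v69 v70; ok v71 && (
  isPos 2 v71 && (
  let v72 := cst ⟨73282879488, 0, 0, 0⟩; ok v72 && (
  let v73 := sub x0 v72; ok v73 && (
  let v74 := mul x1 x1; ok v74 && (
  let v75 := mul v74 x1; ok v75 && (
  let v76 := mul v73 x1; ok v76 && (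
  let v77 := scale ⟨1597613015040, 0, 0, 0⟩ x1; ok v77 && (
  let v78 := scale ⟨0, 1515899584512, 0, 0⟩ v74; ok v78 && (
  let v79 := add v77 v78; ok v79 && (
  let v80 := scale ⟨0, 3777009811456, 0, 0⟩ v75; ok v80 && (
  let v81 := add v79 v80; ok v81 && (
  let v82 := scale ⟨0, 6598169460736, 0, 0⟩ v73; ok v82 && (
  let v83 := add v81 v82; ok v83 && (
  let v84 := scale ⟨717785792512, 0, 0, 0⟩ v76; ok v84 && (
  let v85 := add v83 v84; ok v85 && (
  let v86 := cst ⟨2309189599232, 0, 0, 0⟩; ok v86 && (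
  let v87 := add v85 v86; ok v87 && (
  let v88 := scale ⟨4398046511104, 0, 0, 0⟩ v1; ok v88 && (
  let v89 := neg v88; ok v89 && (
  let v90 := exp v89; ok v90 && (
  let v91 := mul v5 v5; ok v91 && (
  let v92 := mul v9 v87; ok v92 && (
  let v93 := add v92 v12; ok v93 && (
  let v94 := mul v90 v93; ok v94 && (
  let v95 := scale ⟨1099511627776, 0, 0, 0⟩ v91; ok v95 && (
  let v96 := add v95 v12; ok v96 && (
  let v97 := mul v5 v96; ok v97 && (
  let v98 := scale ⟨2199023255552, 0, 0, 0⟩ v97; ok v98 && (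
  let v99 := mul v87 v90; ok v99 && (
  let v100 := sub v98 v99; ok v100 && (
  isPos 2 v100 && (
  let v101 := scale ⟨0, 115322912768, 0, 0⟩ x1; ok v101 && (
  let v102 := scale ⟨0, 1118470340608, 0, 0⟩ v74; ok v102 && (
  let v103 := add v101 v102; ok v103 && (
  let v104 := scale ⟨2155810914304, 0, 0, 0⟩ v75; ok v104 && (
  let v105 := add v103 v104; ok v105 && (
  let v106 := scale ⟨821178793984, 0, 0, 0⟩ v73; ok v106 && (
  let v107 := add v105 v106; ok v107 && (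
  let v108 := scale ⟨7825673420800, 0, 0, 0⟩ v76; ok v108 && (
  let v109 := add v107 v108; ok v109 && (
  let v110 := cst ⟨702342234112, 0, 0, 0⟩; ok v110 && (
  let v111 := add v109 v110; ok v111 && (
  isPos 2 v111 && (
  let v112 := mul v11 v11; ok v112 && (
  let v113 := cst ⟨13370233192448, 0, 0, 0⟩; ok v113 && (
  let v114 := add v112 v113; ok v114 && (
  isPos 2 v114 && (
  let v115 := cst ⟨73282879488, 0, 0, 0⟩; ok v115 && (
  let v116 := sub x0 v115; ok v116 && (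
  let v117 := mul x1 x1; ok v117 && (
  let v118 := mul v117 x1; ok v118 && (
  let v119 := mul v116 x1; ok v119 && (
  let v120 := scale ⟨1482290102272, 0, 0, 0⟩ x1; ok v120 && (
  let v121 := scale ⟨0, 2634369925120, 0, 0⟩ v117; ok v121 && (
  let v122 := add v120 v121; ok v122 && (
  let v123 := scale ⟨0, 1621198897152, 0, 0⟩ v118; ok v123 && (
  let v124 := add v122 v123; ok v124 && (
  let v125 := scale ⟨0, 5776990666752, 0, 0⟩ v116; ok v125 && (
  let v126 := add v124 v125; ok v126 && (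
  let v127 := scale ⟨8543459213312, 0, 0, 0⟩ v119; ok v127 && (
  let v128 := add v126 v127; ok v128 && (
  let v129 := cst ⟨3011531833344, 0, 0, 0⟩; ok v129 && (
  let v130 := add v128 v129; ok v130 && (
  let v131 := scale ⟨6597069766656, 0, 0, 0⟩ v1; ok v131 && (
  let v132 := neg v131; ok v132 && (
  let v133 := exp v132; ok v133 && (
  let v134 := mul v5 v5; ok v134 && (
  let v135 := mul v9 v130; ok v135 && (
  let v136 := add v135 v12; ok v136 && (
  let v137 := mul v133 v136; ok v137 && (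
  let v138 := scale ⟨1099511627776, 0, 0, 0⟩ v134; ok v138 && (
  let v139 := add v138 v12; ok v139 && (
  let v140 := mul v134 v139; ok v140 && (
  let v141 := add v140 v12; ok v141 && (
  let v142 := mul v5 v141; ok v142 && (
  let v143 := scale ⟨2199023255552, 0, 0, 0⟩ v142; ok v143 && (
  let v144 := mul v130 v133; ok v144 && (
  let v145 := sub v143 v144; ok v145 && (
  isPos 2 v145 && (
  let v146 := scale ⟨173306544128, 0, 0, 0⟩ x1; ok v146 && (
  let v147 := scale ⟨0, 2908609183744, 0, 0⟩ v117; ok v147 && (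
  let v148 := add v146 v147; ok v148 && (
  let v149 := scale ⟨8729355157504, 0, 0, 0⟩ v118; ok v149 && (
  let v150 := add v148 v149; ok v150 && (
  let v151 := scale ⟨1272953634816, 0, 0, 0⟩ v116; ok v151 && (
  let v152 := add v150 v151; ok v152 && (
  let v153 := scale ⟨8997075550208, 0, 0, 0⟩ v119; ok v153 && (
  let v154 := add v152 v153; ok v154 && (
  let v155 := cst ⟨602679803904, 0, 0, 0⟩; ok v155 && (
  let v156 := add v154 v155; ok v156 && (
  isPos 2 v156 && (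
  let v157 := mul v11 v11; ok v157 && (
  let v158 := cst ⟨13227425529856, 0, 0, 0⟩; ok v158 && (
  let v159 := add v157 v158; ok v159 && (
  isPos 2 v159 && (
  let v160 := cst ⟨73282879488, 0, 0, 0⟩; ok v160 && (
  let v161 := sub x0 v160; ok v161 && (
  let v162 := mul x1 x1; ok v162 && (
  let v163 := mul v162 x1; ok v163 && (
  let v164 := mul v161 x1; ok v164 && (
  let v165 := scale ⟨1655596646400, 0, 0, 0⟩ x1; ok v165 && (
  let v166 := scale ⟨0, 5542979108864, 0, 0⟩ v162; ok v166 && (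
  let v167 := add v165 v166; ok v167 && (
  let v168 := scale ⟨7108156260352, 0, 0, 0⟩ v163; ok v168 && (
  let v169 := add v167 v168; ok v169 && (
  let v170 := scale ⟨0, 4504037031936, 0, 0⟩ v161; ok v170 && (
  let v171 := add v169 v170; ok v171 && (
  let v172 := scale ⟨17540534763520, 0, 0, 0⟩ v164; ok v172 && (
  let v173 := add v171 v172; ok v173 && (
  let v174 := cst ⟨3614211637248, 0, 0, 0⟩; ok v174 && (
  let v175 := add v173 v174; ok v175 && (
  let v176 := scale ⟨8796093022208, 0, 0, 0⟩ v1; ok v176 && (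
  let v177 := neg v176; ok v177 && (
  let v178 := exp v177; ok v178 && (
  let v179 := mul v5 v5; ok v179 && (
  let v180 := mul v9 v175; ok v180 && (
  let v181 := add v180 v12; ok v181 && (
  let v182 := mul v178 v181; ok v182 && (
  let v183 := scale ⟨1099511627776, 0, 0, 0⟩ v179; ok v183 && (
  let v184 := add v183 v12; ok v184 && (
  let v185 := mul v179 v184; ok v185 && (
  let v186 := add v185 v12; ok v186 && (
  let v187 := mul v179 v186; ok v187 && (
  let v188 := add v187 v12; ok v188 && (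
  let v189 := mul v5 v188; ok v189 && (
  let v190 := scale ⟨2199023255552, 0, 0, 0⟩ v189; ok v190 && (
  let v191 := mul v175 v178; ok v191 && (
  let v192 := sub v190 v191; ok v192 && (
  isPos 2 v192 && (
  let v193 := scale ⟨0, 298902093824, 0, 0⟩ x1; ok v193 && (
  let v194 := scale ⟨2909682335744, 0, 0, 0⟩ v162; ok v194 && (
  let v195 := add v193 v194; ok v195 && (
  let v196 := scale ⟨0, 3667266371584, 0, 0⟩ v163; ok v196 && (
  let v197 := add v195 v196; ok v197 && (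
  let v198 := scale ⟨1554043043840, 0, 0, 0⟩ v161; ok v198 && (
  let v199 := add v197 v198; ok v199 && (
  let v200 := scale ⟨7603573424128, 0, 0, 0⟩ v164; ok v200 && (
  let v201 := add v199 v200; ok v201 && (
  let v202 := cst ⟨517153095680, 0, 0, 0⟩; ok v202 && (
  let v203 := add v201 v202; ok v203 && (
  isPos 2 v203 && (
  let v204 := mul v11 v11; ok v204 && (
  let v205 := cst ⟨12486543671296, 0, 0, 0⟩; ok v205 && (
  let v206 := add v204 v205; ok v206 && (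
  isPos 2 v206 && (
  let v207 := cst ⟨73282879488, 0, 0, 0⟩; ok v207 && (
  let v208 := sub x0 v207; ok v208 && (
  let v209 := mul x1 x1; ok v209 && (
  let v210 := mul v209 x1; ok v210 && (
  let v211 := mul v208 x1; ok v211 && (
  let v212 := scale ⟨1356694552576, 0, 0, 0⟩ x1; ok v212 && (
  let v213 := scale ⟨0, 2633296773120, 0, 0⟩ v209; ok v213 && (
  let v214 := add v212 v213; ok v214 && (
  let v215 := scale ⟨3440889888768, 0, 0, 0⟩ v210; ok v215 && (
  let v216 := add v214 v215; ok v216 && (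
  let v217 := scale ⟨0, 2949993988096, 0, 0⟩ v208; ok v217 && (
  let v218 := add v216 v217; ok v218 && (
  let v219 := scale ⟨25144108187648, 0, 0, 0⟩ v211; ok v219 && (
  let v220 := add v218 v219; ok v220 && (
  let v221 := cst ⟨4131364732928, 0, 0, 0⟩; ok v221 && (
  let v222 := add v220 v221; ok v222 && (
  let v223 := scale ⟨10995116277760, 0, 0, 0⟩ v1; ok v223 && (
  let v224 := neg v223; ok v224 && (
  let v225 := exp v224; ok v225 && (
  let v226 := mul v5 v5; ok v226 && (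
  let v227 := mul v9 v222; ok v227 && (
  let v228 := add v227 v12; ok v228 && (
  let v229 := mul v225 v228; ok v229 && (
  let v230 := scale ⟨1099511627776, 0, 0, 0⟩ v226; ok v230 && (
  let v231 := add v230 v12; ok v231 && (
  let v232 := mul v226 v231; ok v232 && (
  let v233 := add v232 v12; ok v233 && (
  let v234 := mul v226 v233; ok v234 && (
  let v235 := add v234 v12; ok v235 && (
  let v236 := mul v226 v235; ok v236 && (
  let v237 := add v236 v12; ok v237 && (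
  let v238 := mul v5 v237; ok v238 && (
  let v239 := scale ⟨2199023255552, 0, 0, 0⟩ v238; ok v239 && (
  let v240 := mul v222 v225; ok v240 && (
  let v241 := sub v239 v240; ok v241 && (
  isPos 2 v241 && (
  let v242 := scale ⟨0, 204770705408, 0, 0⟩ x1; ok v242 && (
  let v243 := scale ⟨4698745405440, 0, 0, 0⟩ v209; ok v243 && (
  let v244 := add v242 v243; ok v244 && (
  let v245 := scale ⟨0, 9455202467840, 0, 0⟩ v210; ok v245 && (
  let v246 := add v244 v245; ok v246 && (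
  let v247 := scale ⟨1794625699840, 0, 0, 0⟩ v208; ok v247 && (
  let v248 := add v246 v247; ok v248 && (
  let v249 := scale ⟨6629775572992, 0, 0, 0⟩ v211; ok v249 && (
  let v250 := add v248 v249; ok v250 && (
  let v251 := cst ⟨436506853376, 0, 0, 0⟩; ok v251 && (
  let v252 := add v250 v251; ok v252 && (
  isPos 2 v252 && (
  let v253 := mul v11 v11; ok v253 && (
  let v254 := cst ⟨11350524821504, 0, 0, 0⟩; ok v254 && (
  let v255 := add v253 v254; ok v255 && (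
  isPos 2 v255 && (
  let v256 := cst ⟨73282879488, 0, 0, 0⟩; ok v256 && (
  let v257 := sub x0 v256; ok v257 && (
  let v258 := mul x1 x1; ok v258 && (
  let v259 := mul v258 x1; ok v259 && (
  let v260 := mul v257 x1; ok v260 && (
  let v261 := scale ⟨1151923847168, 0, 0, 0⟩ x1; ok v261 && (
  let v262 := scale ⟨2065448632320, 0, 0, 0⟩ v258; ok v262 && (
  let v263 := add v261 v262; ok v263 && (
  let v264 := scale ⟨0, 6014312579072, 0, 0⟩ v259; ok v264 && (
  let v265 := add v263 v264; ok v265 && (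
  let v266 := scale ⟨0, 1155368288256, 0, 0⟩ v257; ok v266 && (
  let v267 := add v265 v266; ok v267 && (
  let v268 := scale ⟨31773883760640, 0, 0, 0⟩ v260; ok v268 && (
  let v269 := add v267 v268; ok v269 && (
  let v270 := cst ⟨4567871586304, 0, 0, 0⟩; ok v270 && (
  let v271 := add v269 v270; ok v271 && (
  let v272 := scale ⟨13194139533312, 0, 0, 0⟩ v1; ok v272 && (
  let v273 := neg v272; ok v273 && (
  let v274 := exp v273; ok v274 && (
  let v275 := mul v5 v5; ok v275 && (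
  let v276 := mul v9 v271; ok v276 && (
  let v277 := add v276 v12; ok v277 && (
  let v278 := mul v274 v277; ok v278 && (
  let v279 := scale ⟨1099511627776, 0, 0, 0⟩ v275; ok v279 && (
  let v280 := add v279 v12; ok v280 && (
  let v281 := mul v275 v280; ok v281 && (
  let v282 := add v281 v12; ok v282 && (
  let v283 := mul v275 v282; ok v283 && (
  let v284 := add v283 v12; ok v284 && (
  let v285 := mul v275 v284; ok v285 && (
  let v286 := add v285 v12; ok v286 && (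
  let v287 := mul v275 v286; ok v287 && (
  let v288 := add v287 v12; ok v288 && (
  let v289 := mul v5 v288; ok v289 && (
  let v290 := scale ⟨2199023255552, 0, 0, 0⟩ v289; ok v290 && (
  let v291 := mul v271 v274; ok v291 && (
  let v292 := sub v290 v291; ok v292 && (
  isPos 2 v292 && (
  let v293 := scale ⟨2308974418329, 0, 0, 0⟩ v1; ok v293 && (
  let v294 := exp v293; ok v294 && (
  let v295 := mul v293 v293; ok v295 && (
  let v296 := scale ⟨183251937962, 0, 0, 0⟩ v295; ok v296 && (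
  let v297 := add v296 v12; ok v297 && (
  let v298 := mul v294 v297; ok v298 && (
  let v299 := scale ⟨4617948836658, 0, 0, 0⟩ v298; ok v299 && (
  let v300 := mul v1 v1; ok v300 && (
  let v301 := scale ⟨184351450112, 0, 0, 0⟩ v300; ok v301 && (
  let v302 := add v301 v12; ok v302 && (
  let v303 := mul v271 v302; ok v303 && (
  let v304 := sub v299 v303; ok v304 && (
  isPos 2 v304 && (
  true))))))))))))))))))))))))))))))))))))))))))))))))))))))))))))))))))))))))))))))))))))))))))))))))))))))))))))))))))))))))))))))))))))))))))))))))))))))))))))))))))))))))))))))))))))))))))))))))))))))))))))))))))))))))))))))))))))))))))))))))))))))))))))))))))))))))))))))))))))))))))))))))))))))))))))))))))))))))))))))))))))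
  | _ => false

set_option maxRecDepth 1000000 in
theorem c_S_0_eq (X : XOps) (m : List X.O.α)
    (h : c_S_0 X.O.cst X.O.add X.O.sub X.O.mul X.O.scale X.O.neg X.O.inv X.O.exp X.O.log X.O.ok
      X.O.isPos X.O.isLt X.ball X.rball m = true) :
    runX X 2 p_S_0 m = true := by
  match m, h with
  | [x0, x1], h => exact h

abbrev gS : List (List Op) := [p_S_0]

noncomputable abbrev kS : List (List xE.O.α → Bool) := [c_S_0 xE.O.cst xE.O.add xE.O.sub xE.O.mul xE.O.scale xE.O.neg xE.O.inv xE.O.exp xE.O.log xE.O.ok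
      xE.O.isPos xE.O.isLt xE.ball xE.rball]

theorem kS_eq : List.Forall₂ (fun (ops : List Op) (chk : List xE.O.α → Bool) =>
    ∀ m, chk m = true → runX xE 2 ops m = true) gS kS :=
  List.Forall₂.cons (c_S_0_eq xE) List.Forall₂.nil

theorem gS_eq : gS = [PS tab 6] := by decide +kernel

end Pool.Agent.helper14.NR.E12a
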